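import Mathlib
import Pool.Agent.Helper967.ModelDef
import Pool.Agent.Helper777.Prof.Defs

set_option autoImplicit false

/-! Rich groups: groups in which arithmetic and the evaluation of coded words are definable. -/

namespace Pool.Agent.H577R3

open FirstOrder FirstOrder.Language Pool.Agent.Helper967.ArithDef Pool.Agent.Helper967.ModelDef

/-- The language with one binary function symbol. -/
abbrev LG : FirstOrder.Language.{0, 0} := ⟨fun k => if k = 2 then Unit else Empty, fun _ => Empty⟩

/-- A group as a structure in the language with one binary function symbol. -/
@[reducible] def strG (G : Type) [Group G] : LG.Structure G :=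
  { funMap := fun _ xs => (List.ofFn xs).prod, RelMap := fun _ _ => False }

attribute [local instance] strG

/-- Definability, in the group `G` with parameters `x`, of a predicate on sequences. -/
abbrev Df {G : Type} [Group G] {P : Type} (x : P → G) (R : (ℕ → G) → Prop) : Prop :=
  DM (ι := Unit) (M := fun _ => G) LG (fun _ => x) (fun _ v => R v)

/-- The group element given by a word in the elements `x i` and their inverses. -/
def ev {G : Type} [Group G] {n : ℕ} (x : Fin n → G) (l : List (Fin n × Bool)) : G :=
  FreeGroup.lift x (FreeGroup.mk l)

/-- `x` is a rich tuple: for some `i`, arithmetic is definable on the powers `(x i) ^ k` (which are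
distinct), and so is the evaluation of words given by their code numbers. The defining formulas have
parameters from `x`. -/
def Rich {G : Type} [Group G] {n : ℕ} (x : Fin n → G) : Prop :=
  ∃ i : Fin n, Function.Injective (fun k : ℕ => x i ^ k) ∧
    Interp (ι := Unit) (M := fun _ => G) (L := LG) (fun _ => x) (fun _ k => x i ^ k) ∧
    Df x (fun v => ∃ l : List (Fin n × Bool), v 0 = x i ^ (Encodable.encode l) ∧ v 1 = ev x l)

/-- The word problem of `G` with respect to `x` is arithmetical. -/
def ArithWP {G : Type} [Group G] {n : ℕ} (x : Fin n → G) : Prop :=
  ∀ D : ((ℕ → ℕ) → Prop) → Prop, DC D →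
    D (fun w => ∃ l : List (Fin n × Bool), w 0 = Encodable.encode l ∧ ev x l = 1)

/-- The standard generators of the free solvable group of class `d`. -/
def gens (n d : ℕ) : Fin n → Helper777.Prof.Dq (Fin n) d :=
  fun i => Helper777.Prof.pn (Fin n) d (FreeGroup.of i)

end Pool.Agent.H577R3
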