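import Mathlib

set_option autoImplicit false

/-! Interpretations and bi-interpretability (with parameters) of first-order structures; the
languages of groups and of arithmetic. -/

namespace Pool.Agent.H577R3.Bi

open FirstOrder FirstOrder.Language

/-- The function symbols of the language of groups. -/
inductive GFun : ℕ → Type
  | one : GFun 0
  | inv : GFun 1
  | mul : GFun 2

/-- The language of groups `(·, ⁻¹, 1)`. -/
abbrev Lgrp : FirstOrder.Language.{0, 0} := ⟨GFun, fun _ => Empty⟩

/-- A group as a structure in the language of groups. -/
@[reducible] def grpStr (G : Type) [Group G] : Lgrp.Structure G where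
  funMap := fun {_} f x => match f with
    | .one => 1
    | .inv => (x 0)⁻¹
    | .mul => x 0 * x 1
  RelMap := fun {_} r _ => nomatch r

/-- The function symbols of the language of arithmetic. -/
inductive NFun : ℕ → Type
  | zero : NFun 0
  | one : NFun 0
  | add : NFun 2
  | mul : NFun 2

/-- The language of arithmetic `(+, ·, 0, 1)`. -/
abbrev Lnat : FirstOrder.Language.{0, 0} := ⟨NFun, fun _ => Empty⟩

/-- The standard model of arithmetic. -/
@[reducible] def natStr : Lnat.Structure ℕ where
  funMap := fun {_} f x => match f with
    | .zero => 0
    | .one => 1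
    | .add => x 0 + x 1
    | .mul => x 0 * x 1
  RelMap := fun {_} r _ => nomatch r

/-- The `j`-th block of a family of `k`-tuples. -/
def row {M ι : Type} {k : ℕ} (w : ι × Fin k → M) (j : ι) : Fin k → M := fun i => w (j, i)

/-- The map `f`, restricted to the set `D` of `k`-tuples of elements of the `L`-structure `M`, is
the coordinate map of an interpretation of the `L'`-structure `N` in `M`: it maps `D` onto `N`, and
`D`, the kernel of `f` and the preimages under `f` of the graphs of the operations and of the
relations of `N` are definable in `M` with parameters. -/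
structure IsInterp (L L' : FirstOrder.Language.{0, 0}) (M N : Type) [L.Structure M] [L'.Structure N] {k : ℕ}
    (D : Set (Fin k → M)) (f : (Fin k → M) → N) : Prop where
  surj : ∀ y, ∃ a ∈ D, f a = y
  dom : (Set.univ : Set M).Definable L D
  ker : (Set.univ : Set M).Definable L
    {w : Fin 2 × Fin k → M | (∀ j, row w j ∈ D) ∧ f (row w 0) = f (row w 1)}
  fn : ∀ (m : ℕ) (F : L'.Functions m), (Set.univ : Set M).Definable L
    {w : Fin (m + 1) × Fin k → M | (∀ j, row w j ∈ D) ∧
      Structure.funMap F (fun j : Fin m => f (row w j.castSucc)) = f (row w (Fin.last m))}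
  rel : ∀ (m : ℕ) (R : L'.Relations m), (Set.univ : Set M).Definable L
    {w : Fin m × Fin k → M | (∀ j, row w j ∈ D) ∧ Structure.RelMap R (fun j => f (row w j))}

/-- The graph of the composite coordinate map, which sends an `m`-tuple of `k`-tuples from `D` to
the element `g (f ·)`, provided that the `m`-tuple of the values of `f` lies in `E`. -/
def compGraph {M N : Type} {k m : ℕ} (D : Set (Fin k → M)) (f : (Fin k → M) → N)
    (E : Set (Fin m → N)) (g : (Fin m → N) → M) : Set ((Fin m × Fin k) ⊕ Unit → M) :=
  {w | (∀ j, row (w ∘ Sum.inl) j ∈ D) ∧ (fun j => f (row (w ∘ Sum.inl) j)) ∈ E ∧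
    g (fun j => f (row (w ∘ Sum.inl) j)) = w (Sum.inr ())}

/-- The `L`-structure `M` and the `L'`-structure `N` are bi-interpretable (with parameters): there
are interpretations of `N` in `M` and of `M` in `N` such that both composite coordinate maps, of `M`
interpreted in itself and of `N` interpreted in itself, are definable with parameters. -/
def BiInterp (L L' : FirstOrder.Language.{0, 0}) (M N : Type) [L.Structure M] [L'.Structure N] : Prop :=
  ∃ (k : ℕ) (D : Set (Fin k → M)) (f : (Fin k → M) → N)
    (m : ℕ) (E : Set (Fin m → N)) (g : (Fin m → N) → M),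
    IsInterp L L' M N D f ∧ IsInterp L' L N M E g ∧
    (Set.univ : Set M).Definable L (compGraph D f E g) ∧
    (Set.univ : Set N).Definable L' (compGraph E g D f)

/-- The group `G` is bi-interpretable with `(ℕ; +, ·, 0, 1)`. -/
def BiInterpNat (G : Type) [Group G] : Prop :=
  letI := grpStr G
  letI := natStr
  BiInterp Lgrp Lnat G ℕ

end Pool.Agent.H577R3.Bi
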