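import Mathlib
import Pool.Agent.H577R3.Defs

set_option autoImplicit false

/-! Extensions of a group by a module over the group ring. -/

namespace Pool.Agent.H577R3

/-- The kernel of `π : G →* H` is embedded in the module `(ℤ[H])^k`, compatibly with the action of
`G` by conjugation. -/
structure MD {G H : Type} [Group G] [Group H] (π : G →* H) (k : ℕ) where
  /-- the embedding (only its values on the kernel matter) -/
  μ : G → (Fin k → MonoidAlgebra ℤ H)
  mul : ∀ a b, π a = 1 → π b = 1 → μ (a * b) = μ a + μ b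
  conj : ∀ g a, π a = 1 → μ (g * a * g⁻¹) = MonoidAlgebra.of ℤ H (π g) • μ a
  inj : ∀ a, π a = 1 → μ a = 0 → a = 1

/-- The separation property. -/
def SepProp (H : Type) [Group H] (L : ℕ) : Prop :=
  ∀ T : Finset H, 1 ∉ T →
    ∃ (Y : Fin L → H) (v : H), v ≠ 1 ∧
      (∀ h : H, ∃ k : ℕ, ∃ y ∈ Subgroup.closure (Set.range Y), h = y * v ^ k) ∧
      ∀ t ∈ T, t ∉ Subgroup.closure (Set.range Y)

/-- The free abelian group, multiplicatively -/
abbrev Zm (m : ℕ) := Multiplicative (Fin m → ℤ)

/-- its standard basis -/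
abbrev zb {m : ℕ} (i : Fin m) : Zm m := Multiplicative.ofAdd (Pi.single i 1)

end Pool.Agent.H577R3
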