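import Mathlib
import Pool.Agent.H577R3.Defs

set_option autoImplicit false

/-! The word problem of the free solvable groups is arithmetical. -/

namespace Pool.Agent.H577R3

open Pool.Agent.Helper967.ArithDef Pool.Agent.Helper777.Prof Encodable

namespace WP

variable {D : ((ℕ → ℕ) → Prop) → Prop}

/-- the graph of a computable function between codes is definable -/
theorem fn_graph {α β : Type} [Primcodable α] [Primcodable β] (h : DC D) (f : α → β)
    (hf : Computable f) : D (fun w => ∃ a : α, w 0 = encode a ∧ w 1 = encode (f a)) := by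
  have key : ∀ {γ : Type} [Primcodable γ] (g : α → γ), Computable g →
      D (fun w => ∃ a : α, decode (w 0) = some a ∧ w 1 = encode (g a)) := by
    intro γ _ g hg
    have hp : Nat.Partrec fun n => Part.bind (decode (α := α) n) fun a => (Part.some (g a)).map encode := hg
    refine h.iff (fun w => ?_) (h.partrec hp)
    simp only [Part.mem_bind_iff, Part.map_some, Part.mem_some_iff, Part.mem_coe, Option.mem_def]
  refine h.iff (fun w => ?_) (h.and (key f hf)
    (h.ren (fun _ => 0) (key (fun a => a) Computable.id)))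
  constructor
  · rintro ⟨⟨a, ha, hb⟩, ⟨a', ha', hb'⟩⟩
    have : a = a' := by
      rw [ha'] at ha; exact (Option.some.inj ha).symm
    subst this
    exact ⟨a, hb', hb⟩
  · rintro ⟨a, ha, hb⟩
    exact ⟨⟨a, by rw [ha]; exact encodek a, hb⟩, ⟨a, by rw [ha]; exact encodek a, ha⟩⟩

theorem code {α : Type} [Primcodable α] (h : DC D) : D (fun w => ∃ a : α, w 0 = encode a) := by
  refine h.iff (fun w => ?_) (h.ex' (S := fun b w => ∃ a : α, w 0 = encode a ∧ b = encode a)
    (h.ren (fun n => match n with | 0 => 1 | _ => 0) (fn_graph h (fun a : α => a) Computable.id)))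
  constructor
  · rintro ⟨_, a, h1, _⟩; exact ⟨a, h1⟩
  · rintro ⟨a, ha⟩; exact ⟨_, a, ha, rfl⟩

/-- words -/
abbrev W (n : ℕ) := List (Fin n × Bool)

def redStep {n : ℕ} (x : Fin n × Bool) (ih : W n) : W n :=
  List.casesOn ih [x] fun hd tl => if x.1 = hd.1 ∧ x.2 = not hd.2 then tl else x :: hd :: tl

theorem reduce_eq_foldr {n : ℕ} (l : W n) : FreeGroup.reduce l = l.foldr (fun b s => redStep b s) [] := by
  induction l with
  | nil => rfl
  | cons x l ih =>
    rw [List.foldr_cons, ← ih]
    rfl

theorem primrec_redStep (n : ℕ) : Primrec₂ (redStep (n := n)) := by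
  unfold redStep
  refine Primrec.list_casesOn (f := fun p : (Fin n × Bool) × W n => p.2)
    (g := fun p => [p.1]) (h := fun (p : (Fin n × Bool) × W n) (q : (Fin n × Bool) × W n) =>
      if p.1.1 = q.1.1 ∧ p.1.2 = not q.1.2 then q.2 else p.1 :: q.1 :: q.2) Primrec.snd ?_ ?_
  · exact Primrec.list_cons.comp Primrec.fst (Primrec.const [])
  · refine Primrec.ite ?_ ?_ ?_
    · refine PrimrecPred.and ?_ ?_
      · exact Primrec.eq.comp (Primrec.fst.comp (Primrec.fst.comp Primrec.fst))
          (Primrec.fst.comp (Primrec.fst.comp Primrec.snd))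
      · exact Primrec.eq.comp (Primrec.snd.comp (Primrec.fst.comp Primrec.fst))
          (Primrec.not.comp (Primrec.snd.comp (Primrec.fst.comp Primrec.snd)))
    · exact Primrec.snd.comp Primrec.snd
    · exact Primrec.list_cons.comp (Primrec.fst.comp Primrec.fst)
        (Primrec.list_cons.comp (Primrec.fst.comp Primrec.snd) (Primrec.snd.comp Primrec.snd))

theorem primrec_reduce (n : ℕ) : Primrec (FreeGroup.reduce : W n → W n) := by
  refine (Primrec.list_foldr (f := fun l : W n => l) (g := fun _ => ([] : W n))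
    (h := fun _ p => redStep p.1 p.2) Primrec.id (Primrec.const []) ?_).of_eq
      (fun l => (reduce_eq_foldr l).symm)
  exact (primrec_redStep n).comp (Primrec.fst.comp Primrec.snd) (Primrec.snd.comp Primrec.snd)

theorem primrec_invRev (n : ℕ) : Primrec (FreeGroup.invRev : W n → W n) := by
  unfold FreeGroup.invRev
  refine Primrec.list_reverse.comp (Primrec.list_map Primrec.id ?_)
  exact Primrec.pair (Primrec.fst.comp Primrec.snd) (Primrec.not.comp (Primrec.snd.comp Primrec.snd))

/-- the word of a product of commutators -/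
def commW {n : ℕ} (L : List (W n × W n)) : W n :=
  L.flatMap fun p => p.1 ++ (p.2 ++ (FreeGroup.invRev p.1 ++ FreeGroup.invRev p.2))

theorem primrec_commW (n : ℕ) : Primrec (commW (n := n)) := by
  unfold commW
  refine Primrec.list_flatMap Primrec.id ?_
  have h1 : Primrec (fun p : List (W n × W n) × (W n × W n) => p.2.1) := Primrec.fst.comp Primrec.snd
  have h2 : Primrec (fun p : List (W n × W n) × (W n × W n) => p.2.2) := Primrec.snd.comp Primrec.snd
  exact Primrec.list_append.comp h1 (Primrec.list_append.comp h2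
    (Primrec.list_append.comp ((primrec_invRev n).comp h1) ((primrec_invRev n).comp h2)))

open scoped commutatorElement

theorem mk_commW {n : ℕ} (L : List (W n × W n)) :
    FreeGroup.mk (commW L) = (L.map fun p => ⁅FreeGroup.mk p.1, FreeGroup.mk p.2⁆).prod := by
  induction L with
  | nil => rfl
  | cons p L ih =>
    rw [List.map_cons, List.prod_cons, ← ih]
    simp only [commW, List.flatMap_cons, commutatorElement_def, ← FreeGroup.mul_mk, FreeGroup.inv_mk,
      mul_assoc]

/-- the coded words representing elements of the `d`-th derived group -/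
def Pd (n d : ℕ) (c : ℕ) : Prop :=
  ∃ l : W n, c = encode l ∧ FreeGroup.mk l ∈ derivedSeries (FreeGroup (Fin n)) d

theorem mem_succ {n d : ℕ} (g : FreeGroup (Fin n)) :
    g ∈ derivedSeries (FreeGroup (Fin n)) (d + 1) ↔ ∃ L : List (W n × W n),
      (∀ k : ℕ, FreeGroup.mk (L.getD k ([], [])).1 ∈ derivedSeries (FreeGroup (Fin n)) d ∧
        FreeGroup.mk (L.getD k ([], [])).2 ∈ derivedSeries (FreeGroup (Fin n)) d) ∧
      g = FreeGroup.mk (commW L) := by
  constructor
  · intro hg
    rw [derivedSeries_succ, Subgroup.commutator_def] at hg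
    rw [← Subgroup.mem_toSubmonoid, Subgroup.closure_toSubmonoid] at hg
    obtain ⟨l, hl, rfl⟩ := Submonoid.exists_list_of_mem_closure hg
    clear hg
    induction l with
    | nil => exact ⟨[], fun k => by simp [FreeGroup.one_eq_mk.symm, one_mem], rfl⟩
    | cons y l ih =>
      obtain ⟨L, hL, hL2⟩ := ih (fun z hz => hl z (List.mem_cons_of_mem _ hz))
      have hy : ∃ a ∈ derivedSeries (FreeGroup (Fin n)) d, ∃ b ∈ derivedSeries (FreeGroup (Fin n)) d,
          ⁅a, b⁆ = y := by
        rcases hl y List.mem_cons_self with ⟨a, ha, b, hb, h⟩ | ⟨a, ha, b, hb, h⟩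
        · exact ⟨a, ha, b, hb, h⟩
        · refine ⟨b, hb, a, ha, ?_⟩
          rw [← commutatorElement_inv, h, inv_inv]
      obtain ⟨a, ha, b, hb, rfl⟩ := hy
      refine ⟨(a.toWord, b.toWord) :: L, ?_, ?_⟩
      · intro k
        cases k with
        | zero => simpa [FreeGroup.mk_toWord] using ⟨ha, hb⟩
        | succ k => simpa using hL k
      · rw [mk_commW, List.map_cons, List.prod_cons, List.prod_cons, ← mk_commW, ← hL2]
        simp [FreeGroup.mk_toWord]
  · rintro ⟨L, hL, rfl⟩
    rw [mk_commW]
    apply Subgroup.list_prod_mem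
    intro y hy
    rw [List.mem_map] at hy
    obtain ⟨p, hp, rfl⟩ := hy
    obtain ⟨k, hk, rfl⟩ := List.getElem_of_mem hp
    have := hL k
    rw [List.getD_eq_getElem _ _ hk] at this
    rw [derivedSeries_succ]
    exact Subgroup.commutator_mem_commutator this.1 this.2

theorem Pd_def (h : DC D) (n : ℕ) : ∀ d, D (fun w => Pd n d (w 0)) := by
  intro d
  induction d with
  | zero =>
    refine h.iff (fun w => ?_) (code (α := W n) h)
    simp [Pd]
  | succ d ih =>
    -- graphs
    have hg1 := fn_graph h (fun p : List (W n × W n) × ℕ => (p.1.getD p.2 ([], [])).1)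
      ((Primrec.fst.comp ((Primrec.list_getD _).comp Primrec.fst Primrec.snd)).to_comp)
    have hg2 := fn_graph h (fun p : List (W n × W n) × ℕ => (p.1.getD p.2 ([], [])).2)
      ((Primrec.snd.comp ((Primrec.list_getD _).comp Primrec.fst Primrec.snd)).to_comp)
    have hc := fn_graph h (fun L : List (W n × W n) => FreeGroup.reduce (commW L))
      (((primrec_reduce n).comp (primrec_commW n)).to_comp)
    have hr := fn_graph h (fun l : W n => FreeGroup.reduce l) (primrec_reduce n).to_comp
    refine h.iff (fun w => ?_) (h.ex' (S := fun c w =>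
      (∃ e, (∃ L : List (W n × W n), c = encode L ∧ e = encode (FreeGroup.reduce (commW L))) ∧
        (∃ l : W n, w 0 = encode l ∧ e = encode (FreeGroup.reduce l))) ∧
      ∀ k, ∀ y, ((∃ p : List (W n × W n) × ℕ, Nat.pair c k = encode p ∧
          y = encode (p.1.getD p.2 ([], [])).1) → Pd n d y) ∧
        ((∃ p : List (W n × W n) × ℕ, Nat.pair c k = encode p ∧
          y = encode (p.1.getD p.2 ([], [])).2) → Pd n d y))
      (h.and ?_ ?_))
    · constructor
      · rintro ⟨c, ⟨e, ⟨L, rfl, rfl⟩, ⟨l, hl, he⟩⟩, hk⟩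
        refine ⟨l, hl, ?_⟩
        rw [mem_succ]
        refine ⟨L, fun k => ⟨?_, ?_⟩, ?_⟩
        · obtain ⟨l', h1, h2⟩ := (hk k _).1 ⟨(L, k), rfl, rfl⟩
          rwa [← encode_injective h1] at h2
        · obtain ⟨l', h1, h2⟩ := (hk k _).2 ⟨(L, k), rfl, rfl⟩
          rwa [← encode_injective h1] at h2
        · exact FreeGroup.reduce.exact (encode_injective he).symm
      · rintro ⟨l, hl, hmem⟩
        rw [mem_succ] at hmem
        obtain ⟨L, hL, hL2⟩ := hmem
        refine ⟨encode L, ⟨_, ⟨L, rfl, rfl⟩, ⟨l, hl, ?_⟩⟩, fun k y => ⟨?_, ?_⟩⟩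
        · rw [FreeGroup.reduce.sound hL2]
        · rintro ⟨⟨L', k'⟩, hp, rfl⟩
          have hp' : Nat.pair (encode L) k = Nat.pair (encode L') k' := hp
          rw [Nat.pair_eq_pair] at hp'
          obtain ⟨h1, rfl⟩ := hp'
          obtain rfl := encode_injective h1
          exact ⟨_, rfl, (hL k).1⟩
        · rintro ⟨⟨L', k'⟩, hp, rfl⟩
          have hp' : Nat.pair (encode L) k = Nat.pair (encode L') k' := hp
          rw [Nat.pair_eq_pair] at hp'
          obtain ⟨h1, rfl⟩ := hp'
          obtain rfl := encode_injective h1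
          exact ⟨_, rfl, (hL k).2⟩
    · refine h.ex' (S := fun e w => (∃ L : List (W n × W n), w 0 = encode L ∧
          e = encode (FreeGroup.reduce (commW L))) ∧
        (∃ l : W n, w 1 = encode l ∧ e = encode (FreeGroup.reduce l))) (h.and ?_ ?_)
      · exact h.ren (fun n => match n with | 0 => 1 | _ => 0) hc
      · exact h.ren (fun n => match n with | 0 => 2 | _ => 0) hr
    · refine h.all' (S := fun k w => ∀ y, ((∃ p : List (W n × W n) × ℕ, Nat.pair (w 0) k = encode p ∧
          y = encode (p.1.getD p.2 ([], [])).1) → Pd n d y) ∧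
        ((∃ p : List (W n × W n) × ℕ, Nat.pair (w 0) k = encode p ∧
          y = encode (p.1.getD p.2 ([], [])).2) → Pd n d y)) ?_
      refine h.all' (S := fun y w => ((∃ p : List (W n × W n) × ℕ, Nat.pair (w 1) (w 0) = encode p ∧
          y = encode (p.1.getD p.2 ([], [])).1) → Pd n d y) ∧
        ((∃ p : List (W n × W n) × ℕ, Nat.pair (w 1) (w 0) = encode p ∧
          y = encode (p.1.getD p.2 ([], [])).2) → Pd n d y)) ?_
      refine h.and (h.imp ?_ ih) (h.imp ?_ ih)
      · exact h.app2 (R := fun a y => ∃ p : List (W n × W n) × ℕ, a = encode p ∧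
          y = encode (p.1.getD p.2 ([], [])).1) hg1 (h.tpair (h.tvar 2) (h.tvar 1)) (h.tvar 0)
      · exact h.app2 (R := fun a y => ∃ p : List (W n × W n) × ℕ, a = encode p ∧
          y = encode (p.1.getD p.2 ([], [])).2) hg2 (h.tpair (h.tvar 2) (h.tvar 1)) (h.tvar 0)

end WP

/-- TASK WP -/
theorem arithWP_dq (n d : ℕ) : ArithWP (gens n d) := by
  intro D h
  refine h.iff (fun w => ?_) (WP.Pd_def h n d)
  have hev : ∀ l : List (Fin n × Bool), ev (gens n d) l = pn (Fin n) d (FreeGroup.mk l) := by
    intro l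
    have : FreeGroup.lift (gens n d) = pn (Fin n) d := by
      ext i
      simp [gens]
    unfold ev
    rw [this]
  unfold WP.Pd
  refine exists_congr fun l => and_congr Iff.rfl ?_
  rw [hev]
  exact (QuotientGroup.eq_one_iff _).symm

end Pool.Agent.H577R3
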