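import Mathlib
import Pool.Agent.H577R3.Defs
import Pool.Agent.H577R3.TaskWP

set_option autoImplicit false

/-! Definable predicates in contexts with several sorts. -/

namespace Pool.Agent.H577R3

open FirstOrder FirstOrder.Language Pool.Agent.Helper967.ArithDef Pool.Agent.Helper967.ModelDef

attribute [local instance] strG

/-- Definable relations on sequences of elements of the group `G`, with parameters `x`. -/
inductive Dg {G : Type} [Group G] {P : Type} (x : P → G) : ((ℕ → G) → Prop) → Prop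
  | mul : Dg x (fun v => v 0 * v 1 = v 2)
  | eq : Dg x (fun v => v 0 = v 1)
  | par (p : P) : Dg x (fun v => v 0 = x p)
  | bot : Dg x (fun _ => False)
  | imp {R S : (ℕ → G) → Prop} : Dg x R → Dg x S → Dg x (fun v => R v → S v)
  | all {R : (ℕ → G) → Prop} : Dg x R → Dg x (fun v => ∀ a, R (cns a v))
  | ren {R : (ℕ → G) → Prop} (ρ : ℕ → ℕ) : Dg x R → Dg x (fun v => R (fun n => v (ρ n)))

section

variable {G : Type} [Group G] {P : Type} {x : P → G}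

namespace Dg

theorem iff {R S : (ℕ → G) → Prop} (h : ∀ v, R v ↔ S v) (hR : Dg x R) : Dg x S := by
  have : R = S := funext fun v => propext (h v)
  rwa [← this]

theorem not {R : (ℕ → G) → Prop} (hR : Dg x R) : Dg x (fun v => ¬ R v) := imp hR bot

theorem and {R S : (ℕ → G) → Prop} (hR : Dg x R) (hS : Dg x S) : Dg x (fun v => R v ∧ S v) :=
  iff (fun v => by tauto) (not (imp hR (not hS)))

theorem tr : Dg x (fun _ => True) := iff (fun _ => by simp) (not bot)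

theorem const (p : Prop) : Dg x (fun _ => p) := by
  by_cases h : p
  · exact iff (fun _ => by simp [h]) (not bot)
  · exact iff (fun _ => by simp [h]) bot

theorem all' {S : G → (ℕ → G) → Prop} (hR : Dg x (fun v => S (v 0) (fun n => v (n + 1)))) :
    Dg x (fun v => ∀ a, S a v) :=
  iff (fun v => by simp) (all hR)

theorem ex' {S : G → (ℕ → G) → Prop} (hR : Dg x (fun v => S (v 0) (fun n => v (n + 1)))) :
    Dg x (fun v => ∃ a, S a v) :=
  iff (fun v => by simp) (not (all' (S := fun a v => ¬ S a v) (not hR)))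

end Dg

/-- the symbol for multiplication -/
def mulF : LG.Functions 2 := (() : Unit)

theorem realize_mul {α : Type} (t₁ t₂ : LG.Term α) (v : α → G) :
    (Term.func mulF ![t₁, t₂]).realize v = t₁.realize v * t₂.realize v := by
  show (List.ofFn (fun i => (![t₁, t₂] i).realize v)).prod = _
  simp

theorem Dg.toDf {R : (ℕ → G) → Prop} (h : Dg x R) : Df x R := by
  induction h with
  | mul =>
    refine DM.iff (fun _ v => ?_) (DM.term (par := fun _ : Unit => x)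
      (Term.func mulF ![Term.var (Sum.inr 0), Term.var (Sum.inr 1)]) (Term.var (Sum.inr 2)))
    rw [realize_mul]
    exact Iff.rfl
  | eq => exact DM.var_eq 0 1
  | par p => exact DM.var_eq_par 0 p
  | bot => exact DM.bot
  | imp _ _ h1 h2 => exact DM.imp h1 h2
  | @all R _ h1 =>
    refine DM.all (S := fun _ a v => R (cns a v)) (DM.iff (fun _ v => ?_) h1)
    rw [cns_eta]
  | ren ρ _ h1 => exact DM.ren ρ h1

/-- Definability of a predicate in a context, i.e. a type some of whose elements are represented by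
sequences. -/
def Dc (x : P → G) {Γ : Type} (c : (ℕ → G) → Γ → Prop) (Q : Γ → Prop) : Prop :=
  ∃ R, Dg x R ∧ ∀ v γ, c v γ → (R v ↔ Q γ)

/-- A sort: a quotient of a definable subset. -/
structure Srt (x : P → G) (T : Type) where
  r : G → T → Prop
  sur : ∀ t, ∃ a, r a t
  fn : ∀ {a t t'}, r a t → r a t' → t = t'
  dom : Dg x (fun v => ∃ t, r (v 0) t)
  eqv : Dg x (fun v => ∃ t, r (v 0) t ∧ r (v 1) t)

/-- context extension -/
def cx {Γ T : Type} (c : (ℕ → G) → Γ → Prop) (s : Srt x T) : (ℕ → G) → Γ × T → Prop :=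
  fun v p => s.r (v 0) p.2 ∧ c (fun n => v (n + 1)) p.1

/-- definable functions -/
def DcF {Γ T : Type} (c : (ℕ → G) → Γ → Prop) (s : Srt x T) (F : Γ → T) : Prop :=
  Dc x (cx c s) (fun p => p.2 = F p.1)

variable {Γ T T₁ T₂ T₃ T₄ T₅ : Type} {c : (ℕ → G) → Γ → Prop} {s : Srt x T} {s₁ : Srt x T₁}
  {s₂ : Srt x T₂} {s₃ : Srt x T₃} {s₄ : Srt x T₄} {s₅ : Srt x T₅}

namespace Dc

theorem iff {Q Q' : Γ → Prop} (h : ∀ γ, Q γ ↔ Q' γ) (hQ : Dc x c Q) : Dc x c Q' := by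
  obtain ⟨R, hR, h1⟩ := hQ
  exact ⟨R, hR, fun v γ hc => (h1 v γ hc).trans (h γ)⟩

theorem const (p : Prop) : Dc x c (fun _ => p) := ⟨_, Dg.const p, fun _ _ _ => Iff.rfl⟩

theorem imp {Q Q' : Γ → Prop} (h : Dc x c Q) (h' : Dc x c Q') : Dc x c (fun γ => Q γ → Q' γ) := by
  obtain ⟨R, hR, h1⟩ := h
  obtain ⟨R', hR', h1'⟩ := h'
  exact ⟨fun v => R v → R' v, Dg.imp hR hR', fun v γ hc => imp_congr (h1 v γ hc) (h1' v γ hc)⟩

theorem not {Q : Γ → Prop} (h : Dc x c Q) : Dc x c (fun γ => ¬ Q γ) := h.imp (const False)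

theorem and {Q Q' : Γ → Prop} (h : Dc x c Q) (h' : Dc x c Q') : Dc x c (fun γ => Q γ ∧ Q' γ) :=
  iff (fun γ => by tauto) (h.imp h'.not).not

theorem or {Q Q' : Γ → Prop} (h : Dc x c Q) (h' : Dc x c Q') : Dc x c (fun γ => Q γ ∨ Q' γ) :=
  iff (fun γ => by tauto) (h.not.imp h')

theorem iff' {Q Q' : Γ → Prop} (h : Dc x c Q) (h' : Dc x c Q') : Dc x c (fun γ => Q γ ↔ Q' γ) :=
  iff (fun γ => by tauto) ((h.imp h').and (h'.imp h))

theorem all (s : Srt x T) {Q : Γ → T → Prop} (h : Dc x (cx c s) (fun p => Q p.1 p.2)) :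
    Dc x c (fun γ => ∀ t, Q γ t) := by
  obtain ⟨R, hR, h1⟩ := h
  refine ⟨fun v => ∀ a, (∃ t, s.r a t) → R (cns a v), ?_, fun v γ hc => ?_⟩
  · refine Dg.all' (S := fun a v => (∃ t, s.r a t) → R (cns a v)) (Dg.imp ?_ ?_)
    · exact s.dom
    · refine Dg.iff (fun v => ?_) hR
      rw [cns_eta]
  · constructor
    · intro h t
      obtain ⟨a, ha⟩ := s.sur t
      exact (h1 (cns a v) (γ, t) ⟨ha, hc⟩).1 (h a ⟨t, ha⟩)
    · rintro h a ⟨t, ha⟩
      exact (h1 (cns a v) (γ, t) ⟨ha, hc⟩).2 (h t)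

theorem ex (s : Srt x T) {Q : Γ → T → Prop} (h : Dc x (cx c s) (fun p => Q p.1 p.2)) :
    Dc x c (fun γ => ∃ t, Q γ t) :=
  iff (fun γ => by simp) (all s (Q := fun γ t => ¬ Q γ t) h.not).not

/-- substitution of a definable function -/
theorem sub {Q : Γ → T → Prop} {F : Γ → T} (hF : DcF c s F)
    (h : Dc x (cx c s) (fun p => Q p.1 p.2)) : Dc x c (fun γ => Q γ (F γ)) :=
  iff (fun γ => by simp) (ex s (Q := fun γ t => t = F γ ∧ Q γ t) (hF.and h))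

/-- change of the context -/
theorem via {Γ' : Type} {c' : (ℕ → G) → Γ' → Prop} (ρ : ℕ → ℕ) {Q' : Γ' → Prop} {Q : Γ → Prop}
    (h : Dc x c' Q')
    (hm : ∀ v γ, c v γ → ∃ γ', c' (fun n => v (ρ n)) γ' ∧ (Q' γ' ↔ Q γ)) : Dc x c Q := by
  obtain ⟨R, hR, h1⟩ := h
  refine ⟨fun v => R (fun n => v (ρ n)), Dg.ren ρ hR, fun v γ hc => ?_⟩
  obtain ⟨γ', h2, h3⟩ := hm v γ hc
  exact (h1 _ _ h2).trans h3

/-- renaming -/
theorem ren {Γ' : Type} {c' : (ℕ → G) → Γ' → Prop} (m : Γ' → Γ) (ρ : ℕ → ℕ)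
    (hm : ∀ v γ, c' v γ → c (fun n => v (ρ n)) (m γ)) {Q : Γ → Prop} (h : Dc x c Q) :
    Dc x c' (fun γ => Q (m γ)) :=
  via ρ h (fun v γ hc => ⟨m γ, hm v γ hc, Iff.rfl⟩)

theorem wk {s : Srt x T} {Q : Γ → Prop} (h : Dc x c Q) : Dc x (cx c s) (fun p => Q p.1) :=
  h.ren (fun p : Γ × T => p.1) (fun n => n + 1) (fun _ _ hc => hc.2)

end Dc

namespace DcF

theorem var : DcF (cx c s) s (fun p => p.2) := by
  refine ⟨_, s.eqv, fun v γ hc => ?_⟩
  obtain ⟨h0, h1, h2⟩ := hc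
  constructor
  · rintro ⟨t, h3, h4⟩
    exact (s.fn h0 h3).trans (s.fn h4 h1)
  · intro h
    exact ⟨γ.2, h0, h ▸ h1⟩

theorem wk {F : Γ → T} (h : DcF c s F) : DcF (cx c s₁) s (fun p => F p.1) := by
  refine Dc.ren (c := cx c s) (fun p : (Γ × T₁) × T => (p.1.1, p.2))
    (fun n => match n with | 0 => 0 | n + 1 => n + 2) (fun v γ hc => ?_) h
  exact ⟨hc.1, hc.2.2⟩

theorem iff {F F' : Γ → T} (h : ∀ γ, F γ = F' γ) (hF : DcF c s F) : DcF c s F' := by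
  have : F = F' := funext h
  rwa [← this]

end DcF

namespace Dc

theorem app1 {R : T₁ → Prop} {F : Γ → T₁} (hR : Dc x (cx c s₁) (fun p => R p.2))
    (hF : DcF c s₁ F) : Dc x c (fun γ => R (F γ)) :=
  sub (Q := fun _ t => R t) hF hR

theorem app2 {R : T₁ → T₂ → Prop} {F₁ : Γ → T₁} {F₂ : Γ → T₂}
    (hR : Dc x (cx (cx c s₁) s₂) (fun p => R p.1.2 p.2)) (h₁ : DcF c s₁ F₁) (h₂ : DcF c s₂ F₂) :
    Dc x c (fun γ => R (F₁ γ) (F₂ γ)) :=
  sub (Q := fun γ t => R t (F₂ γ)) h₁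
    (sub (Q := fun (p : Γ × T₁) t => R p.2 t) (F := fun p : Γ × T₁ => F₂ p.1) h₂.wk hR)

theorem app3 {R : T₁ → T₂ → T₃ → Prop} {F₁ : Γ → T₁} {F₂ : Γ → T₂} {F₃ : Γ → T₃}
    (hR : Dc x (cx (cx (cx c s₁) s₂) s₃) (fun p => R p.1.1.2 p.1.2 p.2)) (h₁ : DcF c s₁ F₁)
    (h₂ : DcF c s₂ F₂) (h₃ : DcF c s₃ F₃) :
    Dc x c (fun γ => R (F₁ γ) (F₂ γ) (F₃ γ)) :=
  sub (Q := fun γ t => R t (F₂ γ) (F₃ γ)) h₁
    (sub (Q := fun (p : Γ × T₁) t => R p.2 t (F₃ p.1)) (F := fun p : Γ × T₁ => F₂ p.1) h₂.wk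
      (sub (Q := fun (p : (Γ × T₁) × T₂) t => R p.1.2 p.2 t)
        (F := fun p : (Γ × T₁) × T₂ => F₃ p.1.1) h₃.wk.wk hR))

theorem app4 {R : T₁ → T₂ → T₃ → T₄ → Prop} {F₁ : Γ → T₁} {F₂ : Γ → T₂} {F₃ : Γ → T₃}
    {F₄ : Γ → T₄}
    (hR : Dc x (cx (cx (cx (cx c s₁) s₂) s₃) s₄) (fun p => R p.1.1.1.2 p.1.1.2 p.1.2 p.2))
    (h₁ : DcF c s₁ F₁) (h₂ : DcF c s₂ F₂) (h₃ : DcF c s₃ F₃) (h₄ : DcF c s₄ F₄) :
    Dc x c (fun γ => R (F₁ γ) (F₂ γ) (F₃ γ) (F₄ γ)) :=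
  sub (Q := fun γ t => R t (F₂ γ) (F₃ γ) (F₄ γ)) h₁
    (sub (Q := fun (p : Γ × T₁) t => R p.2 t (F₃ p.1) (F₄ p.1)) (F := fun p : Γ × T₁ => F₂ p.1)
      h₂.wk
      (sub (Q := fun (p : (Γ × T₁) × T₂) t => R p.1.2 p.2 t (F₄ p.1.1))
        (F := fun p : (Γ × T₁) × T₂ => F₃ p.1.1) h₃.wk.wk
        (sub (Q := fun (p : ((Γ × T₁) × T₂) × T₃) t => R p.1.1.2 p.1.2 p.2 t)
          (F := fun p : ((Γ × T₁) × T₂) × T₃ => F₄ p.1.1.1)
          h₄.wk.wk.wk hR)))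

/-- equality of definable functions -/
theorem eq {F F' : Γ → T} (h : DcF c s F) (h' : DcF c s F') : Dc x c (fun γ => F γ = F' γ) :=
  app2 (R := fun a b => a = b) (Dc.iff (fun _ => eq_comm) (DcF.var (c := c) (s := s))) h h'

end Dc

/-- relations which are definable in every context -/
def R1 (s₁ : Srt x T₁) (R : T₁ → Prop) : Prop :=
  ∀ (Γ : Type) (c : (ℕ → G) → Γ → Prop), Dc x (cx c s₁) (fun p => R p.2)
/-- relations which are definable in every context -/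
def R2 (s₁ : Srt x T₁) (s₂ : Srt x T₂) (R : T₁ → T₂ → Prop) : Prop :=
  ∀ (Γ : Type) (c : (ℕ → G) → Γ → Prop), Dc x (cx (cx c s₁) s₂) (fun p => R p.1.2 p.2)
/-- relations which are definable in every context -/
def R3 (s₁ : Srt x T₁) (s₂ : Srt x T₂) (s₃ : Srt x T₃) (R : T₁ → T₂ → T₃ → Prop) : Prop :=
  ∀ (Γ : Type) (c : (ℕ → G) → Γ → Prop),
    Dc x (cx (cx (cx c s₁) s₂) s₃) (fun p => R p.1.1.2 p.1.2 p.2)
/-- relations which are definable in every context -/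
def R4 (s₁ : Srt x T₁) (s₂ : Srt x T₂) (s₃ : Srt x T₃) (s₄ : Srt x T₄)
    (R : T₁ → T₂ → T₃ → T₄ → Prop) : Prop :=
  ∀ (Γ : Type) (c : (ℕ → G) → Γ → Prop),
    Dc x (cx (cx (cx (cx c s₁) s₂) s₃) s₄) (fun p => R p.1.1.1.2 p.1.1.2 p.1.2 p.2)

/-- functions which are definable in every context -/
def F1 (s₁ : Srt x T₁) (s : Srt x T) (f : T₁ → T) : Prop :=
  ∀ (Γ : Type) (c : (ℕ → G) → Γ → Prop), DcF (cx c s₁) s (fun p => f p.2)
/-- functions which are definable in every context -/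
def F2 (s₁ : Srt x T₁) (s₂ : Srt x T₂) (s : Srt x T) (f : T₁ → T₂ → T) : Prop :=
  ∀ (Γ : Type) (c : (ℕ → G) → Γ → Prop), DcF (cx (cx c s₁) s₂) s (fun p => f p.1.2 p.2)

theorem R1.app {R : T₁ → Prop} (hR : R1 s₁ R) {F : Γ → T₁} (hF : DcF c s₁ F) :
    Dc x c (fun γ => R (F γ)) := Dc.app1 (hR _ _) hF
theorem R2.app {R : T₁ → T₂ → Prop} (hR : R2 s₁ s₂ R) {F : Γ → T₁} {F' : Γ → T₂}
    (h₁ : DcF c s₁ F) (h₂ : DcF c s₂ F') : Dc x c (fun γ => R (F γ) (F' γ)) :=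
  Dc.app2 (hR _ _) h₁ h₂
theorem R3.app {R : T₁ → T₂ → T₃ → Prop} (hR : R3 s₁ s₂ s₃ R) {F : Γ → T₁} {F' : Γ → T₂}
    {F'' : Γ → T₃} (h₁ : DcF c s₁ F) (h₂ : DcF c s₂ F') (h₃ : DcF c s₃ F'') :
    Dc x c (fun γ => R (F γ) (F' γ) (F'' γ)) :=
  Dc.app3 (hR _ _) h₁ h₂ h₃
theorem R4.app {R : T₁ → T₂ → T₃ → T₄ → Prop} (hR : R4 s₁ s₂ s₃ s₄ R) {F : Γ → T₁} {F' : Γ → T₂}
    {F'' : Γ → T₃} {F''' : Γ → T₄} (h₁ : DcF c s₁ F) (h₂ : DcF c s₂ F') (h₃ : DcF c s₃ F'')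
    (h₄ : DcF c s₄ F''') :
    Dc x c (fun γ => R (F γ) (F' γ) (F'' γ) (F''' γ)) :=
  Dc.app4 (hR _ _) h₁ h₂ h₃ h₄

theorem F1.app {f : T₁ → T} (hf : F1 s₁ s f) {F : Γ → T₁} (hF : DcF c s₁ F) :
    DcF c s (fun γ => f (F γ)) := by
  refine Dc.sub (Q := fun (p : Γ × T) t => p.2 = f t) (F := fun p : Γ × T => F p.1) (hF.wk) ?_
  exact Dc.ren (c := cx (cx c s₁) s) (fun p : (Γ × T) × T₁ => ((p.1.1, p.2), p.1.2))
    (fun n => match n with | 0 => 1 | 1 => 0 | n + 2 => n + 2) (fun v γ hc =>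
      ⟨hc.2.1, hc.1, hc.2.2⟩) (hf _ c)

theorem F2.app {f : T₁ → T₂ → T} (hf : F2 s₁ s₂ s f) {F : Γ → T₁} {F' : Γ → T₂}
    (h₁ : DcF c s₁ F) (h₂ : DcF c s₂ F') : DcF c s (fun γ => f (F γ) (F' γ)) := by
  refine Dc.sub (Q := fun (p : Γ × T) t => p.2 = f t (F' p.1)) (F := fun p : Γ × T => F p.1)
    h₁.wk ?_
  refine Dc.sub (Q := fun (p : (Γ × T) × T₁) t => p.1.2 = f p.2 t)
    (F := fun p : (Γ × T) × T₁ => F' p.1.1) h₂.wk.wk ?_
  exact Dc.ren (c := cx (cx (cx c s₁) s₂) s)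
    (fun p : ((Γ × T) × T₁) × T₂ => (((p.1.1.1, p.1.2), p.2), p.1.1.2))
    (fun n => match n with | 0 => 2 | 1 => 0 | 2 => 1 | n + 3 => n + 3) (fun v γ hc =>
      ⟨hc.2.2.1, hc.1, hc.2.1, hc.2.2.2⟩) (hf _ c)

/-- the empty context -/
def c0 : (ℕ → G) → Unit → Prop := fun _ _ => True

theorem R1.mk' {R : T₁ → Prop} (h : Dc x (cx c0 s₁) (fun p => R p.2)) : R1 s₁ R := fun _ _ =>
  Dc.via id h (fun _ γ hc => ⟨((), γ.2), ⟨hc.1, trivial⟩, Iff.rfl⟩)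
theorem R2.mk' {R : T₁ → T₂ → Prop} (h : Dc x (cx (cx c0 s₁) s₂) (fun p => R p.1.2 p.2)) :
    R2 s₁ s₂ R := fun _ _ =>
  Dc.via id h (fun _ γ hc => ⟨(((), γ.1.2), γ.2), ⟨hc.1, hc.2.1, trivial⟩, Iff.rfl⟩)
theorem R3.mk' {R : T₁ → T₂ → T₃ → Prop}
    (h : Dc x (cx (cx (cx c0 s₁) s₂) s₃) (fun p => R p.1.1.2 p.1.2 p.2)) :
    R3 s₁ s₂ s₃ R := fun _ _ =>
  Dc.via id h (fun _ γ hc => ⟨((((), γ.1.1.2), γ.1.2), γ.2), ⟨hc.1, hc.2.1, hc.2.2.1, trivial⟩,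
    Iff.rfl⟩)
theorem F1.of {f : T₁ → T} (h : R2 s₁ s (fun a b => b = f a)) : F1 s₁ s f := fun _ c => h _ c
theorem F2.of {f : T₁ → T₂ → T} (h : R3 s₁ s₂ s (fun a b d => d = f a b)) : F2 s₁ s₂ s f :=
  fun _ c => h _ c
theorem F1.to {f : T₁ → T} (h : F1 s₁ s f) : R2 s₁ s (fun a b => b = f a) := fun _ c => h _ c
theorem F2.to {f : T₁ → T₂ → T} (h : F2 s₁ s₂ s f) : R3 s₁ s₂ s (fun a b d => d = f a b) :=
  fun _ c => h _ c

/-! ### the sort of group elements -/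

/-- the sort of group elements -/
def sG (x : P → G) : Srt x G where
  r := fun a t => a = t
  sur := fun t => ⟨t, rfl⟩
  fn := fun h h' => h.symm.trans h'
  dom := Dg.iff (fun v => by simp) Dg.tr
  eqv := Dg.iff (fun v => by simp [eq_comm]) Dg.eq

theorem Dg.toDc {R : (ℕ → G) → Prop} (h : Dg x R) (ρ : ℕ → ℕ) {Q : Γ → Prop}
    (hQ : ∀ v γ, c v γ → (R (fun n => v (ρ n)) ↔ Q γ)) : Dc x c Q :=
  ⟨_, Dg.ren ρ h, hQ⟩

theorem mulG : F2 (sG x) (sG x) (sG x) (fun a b => a * b) := by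
  intro Γ c
  refine Dg.toDc Dg.mul (fun n => match n with | 0 => 2 | 1 => 1 | _ => 0) (fun v γ hc => ?_)
  obtain ⟨h0, h1, h2, h3⟩ := hc
  have h0' : v 0 = γ.2 := h0
  have h1' : v 1 = γ.1.2 := h1
  have h2' : v 2 = γ.1.1.2 := h2
  show v 2 * v 1 = v 0 ↔ _
  rw [h0', h1', h2']
  exact eq_comm

theorem parG (p : P) : DcF c (sG x) (fun _ => x p) := by
  refine Dg.toDc (Dg.par p) (fun n => n) (fun v γ hc => ?_)
  have h0' : v 0 = γ.2 := hc.1
  show v 0 = x p ↔ _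
  rw [h0']

theorem DcF.mul {F F' : Γ → G} (h : DcF c (sG x) F) (h' : DcF c (sG x) F') :
    DcF c (sG x) (fun γ => F γ * F' γ) := mulG.app h h'

theorem oneG : DcF c (sG x) (fun _ => (1 : G)) := by
  refine Dc.iff (fun p => ?_) (Dc.eq (c := cx c (sG x)) (s := sG x) (DcF.mul DcF.var DcF.var) DcF.var)
  rw [mul_eq_left]

theorem invG : F1 (sG x) (sG x) (fun a => a⁻¹) := by
  intro Γ c
  refine Dc.iff (fun p => ?_) (Dc.eq (c := cx (cx c (sG x)) (sG x)) (s := sG x)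
    (DcF.mul DcF.var DcF.var.wk) oneG)
  rw [eq_inv_iff_mul_eq_one]

theorem DcF.inv {F : Γ → G} (h : DcF c (sG x) F) : DcF c (sG x) (fun γ => (F γ)⁻¹) :=
  invG.app h

/-- definability of relations given by formulas in the language of groups -/
theorem Dg.of1 {R : G → Prop} (h : R1 (sG x) R) : Dg x (fun v => R (v 0)) := by
  obtain ⟨S, hS, h1⟩ := h _ c0
  exact Dg.iff (fun v => h1 v ((), v 0) ⟨rfl, trivial⟩) hS

theorem Dg.of2 {R : G → G → Prop} (h : R2 (sG x) (sG x) R) : Dg x (fun v => R (v 0) (v 1)) := by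
  obtain ⟨S, hS, h1⟩ := h _ c0
  refine Dg.iff (fun v => ?_) (Dg.ren (fun n => match n with | 0 => 1 | _ => 0) hS)
  exact h1 _ (((), v 0), v 1) ⟨rfl, rfl, trivial⟩

theorem Dg.of3 {R : G → G → G → Prop} (h : R3 (sG x) (sG x) (sG x) R) :
    Dg x (fun v => R (v 0) (v 1) (v 2)) := by
  obtain ⟨S, hS, h1⟩ := h _ c0
  refine Dg.iff (fun v => ?_) (Dg.ren (fun n => match n with | 0 => 2 | 1 => 1 | _ => 0) hS)
  exact h1 _ ((((), v 0), v 1), v 2) ⟨rfl, rfl, rfl, trivial⟩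

/-! ### the naturals -/

/-- a predicate on sequences of naturals is definable on the sort `sN` -/
def DNs (sN : Srt x ℕ) (R : (ℕ → ℕ) → Prop) : Prop :=
  ∃ S, Dg x S ∧ ∀ (v : ℕ → G) (w : ℕ → ℕ), (∀ i, sN.r (v i) (w i)) → (S v ↔ R w)

/-- full arithmetic on the sort `sN` -/
def ArithS (sN : Srt x ℕ) : Prop := DC (DNs sN)

theorem arithS_of (sN : Srt x ℕ) (add : DNs sN (fun w => w 0 + w 1 = w 2))
    (mul : DNs sN (fun w => w 0 * w 1 = w 2)) : ArithS sN where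
  add := add
  mul := mul
  bot := ⟨_, Dg.bot, fun _ _ _ => Iff.rfl⟩
  imp := by
    rintro R S ⟨φ, hφ, h1⟩ ⟨ψ, hψ, h2⟩
    exact ⟨_, Dg.imp hφ hψ, fun v w h => imp_congr (h1 v w h) (h2 v w h)⟩
  all := by
    rintro R ⟨φ, hφ, h1⟩
    refine ⟨fun v => ∀ a, (∃ t, sN.r a t) → φ (cns a v), ?_, fun v w h => ?_⟩
    · refine Dg.all' (S := fun a v => (∃ t, sN.r a t) → φ (cns a v)) (Dg.imp ?_ ?_)
      · exact sN.dom
      · refine Dg.iff (fun v => ?_) hφ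
        rw [cns_eta]
    · have key : ∀ a t, sN.r a t → ∀ i, sN.r (cns a v i) (cns t w i) := by
        intro a t ha i
        cases i with
        | zero => exact ha
        | succ i => exact h i
      constructor
      · intro h3 t
        obtain ⟨a, ha⟩ := sN.sur t
        exact (h1 _ _ (key a t ha)).1 (h3 a ⟨t, ha⟩)
      · rintro h3 a ⟨t, ha⟩
        exact (h1 _ _ (key a t ha)).2 (h3 t)
  ren := by
    rintro R ρ ⟨φ, hφ, h1⟩
    exact ⟨_, Dg.ren ρ hφ, fun v w h => h1 _ _ (fun i => h (ρ i))⟩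

open Encodable

variable {α β δ : Type} [Primcodable α] [Primcodable β] [Primcodable δ]

/-- the sort of codes -/
def sC {sN : Srt x ℕ} (hN : ArithS sN) (α : Type) [Primcodable α] : Srt x α where
  r := fun a t => sN.r a (encode t)
  sur := fun t => sN.sur _
  fn := fun h h' => encode_injective (sN.fn h h')
  dom := by
    obtain ⟨S, hS, h1⟩ := WP.code (α := α) hN
    refine Dg.iff (fun v => ?_) (Dg.and sN.dom (Dg.ren (fun _ => 0) hS))
    constructor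
    · rintro ⟨⟨t, ht⟩, h2⟩
      obtain ⟨a, ha⟩ := (h1 _ (fun _ => t) (fun _ => ht)).1 h2
      exact ⟨a, ha ▸ ht⟩
    · rintro ⟨a, ha⟩
      exact ⟨⟨_, ha⟩, (h1 _ (fun _ => encode a) (fun _ => ha)).2 ⟨a, rfl⟩⟩
  eqv := by
    obtain ⟨S, hS, h1⟩ := WP.code (α := α) hN
    refine Dg.iff (fun v => ?_) (Dg.and (Dg.and sN.dom sN.eqv) (Dg.ren (fun _ => 0) hS))
    constructor
    · rintro ⟨⟨⟨t, ht⟩, ⟨t', ht', ht''⟩⟩, h2⟩
      obtain ⟨a, ha⟩ := (h1 _ (fun _ => t) (fun _ => ht)).1 h2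
      refine ⟨a, ha ▸ ht, ?_⟩
      have : t = t' := sN.fn ht ht'
      rw [← ha]
      show sN.r (v 1) t
      rw [this]
      exact ht''
    · rintro ⟨a, ha, ha'⟩
      exact ⟨⟨⟨_, ha⟩, ⟨_, ha, ha'⟩⟩, (h1 _ (fun _ => encode a) (fun _ => ha)).2 ⟨a, rfl⟩⟩

variable {sN : Srt x ℕ} {hN : ArithS sN}

theorem R1.code {R : α → Prop} (h : DNs sN (fun w => ∃ a, w 0 = encode a ∧ R a)) :
    R1 (sC hN α) R := by
  intro Γ c
  obtain ⟨S, hS, h1⟩ := h
  refine hS.toDc (fun _ => 0) (fun v γ hc => ?_)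
  refine (h1 _ (fun _ => encode γ.2) (fun _ => hc.1)).trans ?_
  constructor
  · rintro ⟨a, ha, h2⟩
    rwa [encode_injective ha]
  · exact fun h => ⟨_, rfl, h⟩

theorem R2.code {R : α → β → Prop}
    (h : DNs sN (fun w => ∃ a b, w 0 = encode a ∧ w 1 = encode b ∧ R a b)) :
    R2 (sC hN α) (sC hN β) R := by
  intro Γ c
  obtain ⟨S, hS, h1⟩ := h
  refine hS.toDc (fun n => match n with | 0 => 1 | _ => 0) (fun v γ hc => ?_)
  refine (h1 _ (fun n => match n with | 0 => encode γ.1.2 | _ => encode γ.2) (fun i => ?_)).trans ?_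
  · match i with
    | 0 => exact hc.2.1
    | (i + 1) => exact hc.1
  · constructor
    · rintro ⟨a, b, ha, hb, h2⟩
      have ha' : encode γ.1.2 = encode a := ha
      have hb' : encode γ.2 = encode b := hb
      rwa [encode_injective ha', encode_injective hb']
    · exact fun h => ⟨_, _, rfl, rfl, h⟩

theorem R3.code {R : α → β → δ → Prop}
    (h : DNs sN (fun w => ∃ a b d, w 0 = encode a ∧ w 1 = encode b ∧ w 2 = encode d ∧ R a b d)) :
    R3 (sC hN α) (sC hN β) (sC hN δ) R := by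
  intro Γ c
  obtain ⟨S, hS, h1⟩ := h
  refine hS.toDc (fun n => match n with | 0 => 2 | 1 => 1 | _ => 0) (fun v γ hc => ?_)
  refine (h1 _ (fun n => match n with | 0 => encode γ.1.1.2 | 1 => encode γ.1.2 | _ => encode γ.2)
    (fun i => ?_)).trans ?_
  · match i with
    | 0 => exact hc.2.2.1
    | 1 => exact hc.2.1
    | (i + 2) => exact hc.1
  · constructor
    · rintro ⟨a, b, d, ha, hb, hd, h2⟩
      have ha' : encode γ.1.1.2 = encode a := ha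
      have hb' : encode γ.1.2 = encode b := hb
      have hd' : encode γ.2 = encode d := hd
      rwa [encode_injective ha', encode_injective hb', encode_injective hd']
    · exact fun h => ⟨_, _, _, rfl, rfl, rfl, h⟩

/-- computable functions are definable -/
theorem F1.comp {f : α → β} (hf : Computable f) : F1 (sC hN α) (sC hN β) f := by
  refine F1.of (R2.code (DC.iff hN (fun w => ?_) (WP.fn_graph hN f hf)))
  constructor
  · rintro ⟨a, h1, h2⟩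
    exact ⟨a, f a, h1, h2, rfl⟩
  · rintro ⟨a, b, h1, h2, h3⟩
    exact ⟨a, h1, h3 ▸ h2⟩

/-- pairing -/
theorem F2.pair : F2 (sC hN α) (sC hN β) (sC hN (α × β)) (fun a b => (a, b)) := by
  refine F2.of (R3.code ?_)
  have h1 : DNs sN (fun w => w 2 = Nat.pair (w 0) (w 1)) := by
    refine DC.iff hN (fun w => ?_) (DC.eq hN (DC.tvar hN 2) (DC.tpair hN (DC.tvar hN 0) (DC.tvar hN 1)))
    exact Iff.rfl
  have h2 := DC.ren (D := DNs sN) hN (fun _ => 0) (WP.code (α := α) hN)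
  have h3 := DC.ren (D := DNs sN) hN (fun _ => 1) (WP.code (α := β) hN)
  refine DC.iff hN (fun w => ?_) (DC.and hN (DC.and hN h2 h3) h1)
  constructor
  · rintro ⟨⟨⟨a, ha⟩, ⟨b, hb⟩⟩, h4⟩
    have ha' : w 0 = encode a := ha
    have hb' : w 1 = encode b := hb
    refine ⟨a, b, (a, b), ha', hb', ?_, rfl⟩
    rw [h4, ha', hb']
    rfl
  · rintro ⟨a, b, d, ha, hb, hd, rfl⟩
    refine ⟨⟨⟨a, ha⟩, ⟨b, hb⟩⟩, ?_⟩
    rw [hd, ha, hb]
    rfl

/-- computable functions of two variables -/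
theorem F2.comp {f : α → β → δ} (hf : Computable₂ f) : F2 (sC hN α) (sC hN β) (sC hN δ) f := by
  intro Γ c
  exact F1.app (f := fun p : α × β => f p.1 p.2) (F1.comp hf)
    (F2.app F2.pair (DcF.var.wk) DcF.var)

/-- constants -/
theorem DcF.constC (a : α) : DcF c (sC hN α) (fun _ => a) := by
  have h0 : DNs sN (fun w => ∃ b : Unit, w 0 = encode b ∧ w 1 = encode a) :=
    WP.fn_graph hN (fun _ : Unit => a) (Computable.const a)
  have h1 : DNs sN (fun w => w 0 = encode a) := by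
    refine DC.iff hN (fun w => ?_) (DC.ex' (D := DNs sN) hN
      (S := fun b w => ∃ b' : Unit, b = encode b' ∧ w 0 = encode a) h0)
    constructor
    · rintro ⟨_, _, _, h⟩; exact h
    · intro h; exact ⟨_, (), rfl, h⟩
  have h2 : R1 (sC hN α) (fun b => b = a) := R1.code (DC.iff hN (fun w => ⟨fun h => ⟨a, h, rfl⟩,
    fun ⟨b, h, h'⟩ => h' ▸ h⟩) h1)
  exact h2 _ c

end

end Pool.Agent.H577R3
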