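import Mathlib
import Pool.Agent.H577R3.Defs
import Pool.Agent.H577R3.Bi
import Pool.Agent.H577R3.TaskWP

set_option autoImplicit false

/-! A rich group with arithmetical word problem is bi-interpretable with `ℕ`. -/

namespace Pool.Agent.H577R3

open FirstOrder FirstOrder.Language Pool.Agent.Helper967.ArithDef Pool.Agent.Helper967.ModelDef Encodable

namespace BI

attribute [local instance] strG Bi.grpStr Bi.natStr

/-- the inclusion of languages -/
def hom : LG →ᴸ Bi.Lgrp where
  onFunction := fun k f => if h : k = 2 then h ▸ Bi.GFun.mul else Empty.elim (cast (if_neg h) f)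
  onRelation := fun _ r => r

instance (G : Type) [Group G] : hom.IsExpansionOn G where
  map_onFunction := by
    intro k f xs
    by_cases h : k = 2
    · subst h
      change Structure.funMap (L := Bi.Lgrp) Bi.GFun.mul xs = (List.ofFn xs).prod
      simp [Structure.funMap, List.ofFn_succ]
    · exact Empty.elim (cast (if_neg h) f)
  map_onRelation := by
    intro k r
    exact Empty.elim r

theorem T1 {G : Type} [Group G] {n : ℕ} (x : Fin n → G) {R : (ℕ → G) → Prop} (hR : Df x R)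
    {α : Type} (ρ : ℕ → α) :
    (Set.univ : Set G).Definable Bi.Lgrp {w : α → G | R (fun n => w (ρ n))} := by
  obtain ⟨φ, hφ⟩ := hR
  rw [Set.definable_iff_exists_formula_sum]
  refine ⟨(hom.onFormula φ).relabel (Sum.map (fun p => ⟨x p, Set.mem_univ _⟩) ρ), ?_⟩
  ext w
  have key : φ.Realize (Sum.elim x (fun n => w (ρ n))) ↔ R (fun n => w (ρ n)) :=
    hφ () (fun n => w (ρ n))
  rw [Set.mem_ofPred_eq, Set.mem_ofPred_eq, Formula.realize_relabel, LHom.realize_onFormula, ← key]
  have : (Sum.elim (fun a : (Set.univ : Set G) => (a : G)) w) ∘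
      (Sum.map (fun p => (⟨x p, Set.mem_univ _⟩ : (Set.univ : Set G))) ρ) =
      Sum.elim x (fun n => w (ρ n)) := by
    funext s; rcases s with s | s <;> rfl
  rw [this]

theorem interpNat : Interp (ι := Unit) (M := fun _ => ℕ) (L := Bi.Lnat) (P := Empty)
    (fun _ => Empty.elim) (fun _ k => k) where
  rng := DM.iff (fun _ _ => by simp) (DM.const True)
  add := by
    refine ⟨fun _ v => v 0 + v 1 = v 2, ?_, fun i w => Iff.rfl⟩
    exact DM.term (M := fun _ : Unit => ℕ) (L := Bi.Lnat)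
      (Term.func (L := Bi.Lnat) Bi.NFun.add ![Term.var (Sum.inr 0), Term.var (Sum.inr 1)])
      (Term.var (Sum.inr 2))
  mul := by
    refine ⟨fun _ v => v 0 * v 1 = v 2, ?_, fun i w => Iff.rfl⟩
    exact DM.term (M := fun _ : Unit => ℕ) (L := Bi.Lnat)
      (Term.func (L := Bi.Lnat) Bi.NFun.mul ![Term.var (Sum.inr 0), Term.var (Sum.inr 1)])
      (Term.var (Sum.inr 2))

theorem T2 {R : (ℕ → ℕ) → Prop} (hR : ∀ D : ((ℕ → ℕ) → Prop) → Prop, DC D → D R)
    {α : Type} (ρ : ℕ → α) :
    (Set.univ : Set ℕ).Definable Bi.Lnat {w : α → ℕ | R (fun n => w (ρ n))} := by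
  obtain ⟨φ, hφ⟩ := hR _ (DN.closed interpNat)
  rw [Set.definable_iff_exists_formula_sum]
  refine ⟨φ.relabel (Sum.elim Empty.elim (fun n => Sum.inr (ρ n))), ?_⟩
  ext w
  rw [Set.mem_ofPred_eq, Set.mem_ofPred_eq, Formula.realize_relabel, ← hφ () (fun n => w (ρ n))]
  have : (Sum.elim (fun a : (Set.univ : Set ℕ) => (a : ℕ)) w) ∘
      (Sum.elim Empty.elim (fun n => Sum.inr (ρ n)) : Empty ⊕ ℕ → (Set.univ : Set ℕ) ⊕ α) =
      Sum.elim Empty.elim (fun n => w (ρ n)) := by
    funext s; rcases s with s | s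
    · exact Empty.elim s
    · rfl
  rw [this]

section
variable {G : Type} [Group G] {n : ℕ} (x : Fin n → G)

/-- the domain of the interpretation of `ℕ` in `G` -/
def DG (i : Fin n) : Set (Fin 1 → G) := {a | ∃ k : ℕ, a 0 = x i ^ k}

open Classical in
/-- the coordinate map of the interpretation of `ℕ` in `G` -/
noncomputable def fG (i : Fin n) (a : Fin 1 → G) : ℕ :=
  if h : ∃ k : ℕ, a 0 = x i ^ k then h.choose else 0

theorem fG_eq (i : Fin n) (hi : Function.Injective (fun k : ℕ => x i ^ k)) (a : Fin 1 → G) (k : ℕ)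
    (h : a 0 = x i ^ k) : fG x i a = k := by
  have h' : ∃ k : ℕ, a 0 = x i ^ k := ⟨k, h⟩
  unfold fG
  rw [dif_pos h']
  apply hi
  exact h'.choose_spec.symm.trans h

theorem fG_spec (i : Fin n) (a : Fin 1 → G) (h : a ∈ DG x i) : a 0 = x i ^ (fG x i a) := by
  have h' : ∃ k : ℕ, a 0 = x i ^ k := h
  unfold fG
  rw [dif_pos h']
  exact h'.choose_spec

/-- the domain of the interpretation of `G` in `ℕ` -/
def DE (n : ℕ) : Set (Fin 1 → ℕ) := {c | ∃ l : WP.W n, c 0 = encode l}

open Classical in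
/-- the coordinate map of the interpretation of `G` in `ℕ` -/
noncomputable def gE (c : Fin 1 → ℕ) : G :=
  if h : ∃ l : WP.W n, c 0 = encode l then ev x h.choose else 1

theorem gE_eq (c : Fin 1 → ℕ) (l : WP.W n) (h : c 0 = encode l) : gE x c = ev x l := by
  have h' : ∃ l : WP.W n, c 0 = encode l := ⟨l, h⟩
  unfold gE
  rw [dif_pos h']
  congr 1
  exact encode_injective (h'.choose_spec.symm.trans h)

/-- truncation of indices -/
def tr (m : ℕ) (k : ℕ) : Fin (m + 1) := ⟨min k m, by omega⟩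

theorem T4 (i : Fin n) (hint : Interp (ι := Unit) (M := fun _ => G) (L := LG) (fun _ => x) (fun _ k => x i ^ k))
    {R : (ℕ → ℕ) → Prop} (hR : ∀ D : ((ℕ → ℕ) → Prop) → Prop, DC D → D R) (m : ℕ) :
    (Set.univ : Set G).Definable Bi.Lgrp {w : Fin (m + 1) × Fin 1 → G |
      (∀ j, Bi.row w j ∈ DG x i) ∧ R (fun k => fG x i (Bi.row w (tr m k)))} := by
  obtain ⟨φ, hφ⟩ := hR _ (DN.closed hint)
  have h1 : (Set.univ : Set G).Definable Bi.Lgrp
      {w : Fin (m + 1) × Fin 1 → G | φ.Realize (Sum.elim x (fun k => w (tr m k, 0)))} :=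
    T1 x (R := fun v => φ.Realize (Sum.elim x v)) ⟨φ, fun _ _ => Iff.rfl⟩ (fun k => (tr m k, 0))
  have h2 : ∀ j : Fin (m + 1), (Set.univ : Set G).Definable Bi.Lgrp
      {w : Fin (m + 1) × Fin 1 → G | Bi.row w j ∈ DG x i} := by
    intro j
    exact T1 x (R := fun v => ∃ k, v 0 = x i ^ k) hint.rng (fun _ => (j, 0))
  have h3 := (Set.definable_iInter_of_finite h2).inter h1
  convert h3 using 1
  ext w
  simp only [Set.mem_ofPred_eq, Set.mem_inter_iff, Set.mem_iInter]
  refine and_congr_right fun hw => ?_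
  rw [← hφ () (fun k => fG x i (Bi.row w (tr m k)))]
  have : (fun k => x i ^ (fG x i (Bi.row w (tr m k)))) = fun k => w (tr m k, 0) := by
    funext k
    exact (fG_spec x i _ (hw (tr m k))).symm
  rw [this]

theorem interp1 (i : Fin n) (hi : Function.Injective (fun k : ℕ => x i ^ k))
    (hint : Interp (ι := Unit) (M := fun _ => G) (L := LG) (fun _ => x) (fun _ k => x i ^ k)) :
    Bi.IsInterp Bi.Lgrp Bi.Lnat G ℕ (DG x i) (fG x i) where
  surj := fun k => ⟨fun _ => x i ^ k, ⟨k, rfl⟩, fG_eq x i hi _ k rfl⟩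
  dom := T1 x (R := fun v => ∃ k, v 0 = x i ^ k) hint.rng (fun _ => (0 : Fin 1))
  ker := T4 x i hint (R := fun w => w 0 = w 1) (fun D h => h.eqv 0 1) 1
  fn := by
    intro m F
    cases F with
    | zero => exact T4 x i hint (R := fun w => 0 = w 0) (fun D h => h.eq h.tzero (h.tvar 0)) 0
    | one => exact T4 x i hint (R := fun w => 1 = w 0) (fun D h => h.eq h.tone (h.tvar 0)) 0
    | add => exact T4 x i hint (R := fun w => w 0 + w 1 = w 2) (fun D h => h.add) 2
    | mul => exact T4 x i hint (R := fun w => w 0 * w 1 = w 2) (fun D h => h.mul) 2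
  rel := by
    intro m R
    exact Empty.elim R

theorem wpF (hw : ArithWP x) {α : Type} [Primcodable α] (F : α → WP.W n) (hF : Computable F)
    (D : ((ℕ → ℕ) → Prop) → Prop) (h : DC D) :
    D (fun w => ∃ a : α, w 0 = encode a ∧ ev x (F a) = 1) := by
  refine h.iff (fun w => ?_) (h.ex' (S := fun e w => (∃ a : α, w 0 = encode a ∧ e = encode (F a)) ∧
    (∃ l : WP.W n, e = encode l ∧ ev x l = 1)) (h.and ?_ ?_))
  · constructor
    · rintro ⟨e, ⟨a, h1, rfl⟩, ⟨l, h2, h3⟩⟩
      obtain rfl := encode_injective h2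
      exact ⟨a, h1, h3⟩
    · rintro ⟨a, h1, h2⟩
      exact ⟨_, ⟨a, h1, rfl⟩, ⟨_, rfl, h2⟩⟩
  · exact h.ren (fun n => match n with | 0 => 1 | _ => 0) (WP.fn_graph h F hF)
  · exact hw D h

theorem ev_append (l l' : WP.W n) : ev x (l ++ l') = ev x l * ev x l' := by
  unfold ev; rw [← FreeGroup.mul_mk, map_mul]

theorem ev_invRev (l : WP.W n) : ev x (FreeGroup.invRev l) = (ev x l)⁻¹ := by
  unfold ev; rw [← FreeGroup.inv_mk, map_inv]

theorem ev_surj (hx : Subgroup.closure (Set.range x) = ⊤) (g : G) : ∃ l, ev x l = g := by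
  have h : (FreeGroup.lift x).range = ⊤ := by
    rw [FreeGroup.range_lift_eq_closure, hx]
  obtain ⟨w, hw⟩ := MonoidHom.range_eq_top.1 h g
  exact ⟨w.toWord, by unfold ev; rw [FreeGroup.mk_toWord, hw]⟩

theorem prim_append (n : ℕ) : Primrec₂ (fun l l' : WP.W n => l ++ l') := Primrec.list_append

theorem interp2 (hx : Subgroup.closure (Set.range x) = ⊤) (hw : ArithWP x) :
    Bi.IsInterp Bi.Lnat Bi.Lgrp ℕ G (DE n) (gE x) where
  surj := by
    intro g
    obtain ⟨l, rfl⟩ := ev_surj x hx g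
    exact ⟨fun _ => encode l, ⟨l, rfl⟩, gE_eq x _ l rfl⟩
  dom := T2 (R := fun v => ∃ l : WP.W n, v 0 = encode l) (fun D h => WP.code h) (fun _ => (0 : Fin 1))
  ker := by
    have h1 : ∀ D : ((ℕ → ℕ) → Prop) → Prop, DC D → D (fun v => ∃ p : WP.W n × WP.W n,
        Nat.pair (v 0) (v 1) = encode p ∧ ev x (p.1 ++ FreeGroup.invRev p.2) = 1) := by
      intro D h
      refine h.app1 (R := fun c => ∃ p : WP.W n × WP.W n, c = encode p ∧
        ev x (p.1 ++ FreeGroup.invRev p.2) = 1) ?_ (h.tpair (h.tvar 0) (h.tvar 1))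
      exact wpF x hw (fun p : WP.W n × WP.W n => p.1 ++ FreeGroup.invRev p.2)
        ((prim_append n).comp Primrec.fst ((WP.primrec_invRev n).comp Primrec.snd)).to_comp D h
    have h2 := T2 h1 (fun k => ((tr 1 k, 0) : Fin 2 × Fin 1))
    convert h2 using 1
    ext w
    simp only [Set.mem_ofPred_eq]
    constructor
    · rintro ⟨h3, h4⟩
      obtain ⟨l0, h5⟩ := h3 0
      obtain ⟨l1, h6⟩ := h3 1
      rw [gE_eq x _ l0 h5, gE_eq x _ l1 h6] at h4
      refine ⟨(l0, l1), congrArg₂ Nat.pair h5 h6, ?_⟩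
      rw [ev_append, ev_invRev, h4, mul_inv_cancel]
    · rintro ⟨⟨l0, l1⟩, h3, h4⟩
      have h5 : Nat.pair (w (0, 0)) (w (1, 0)) = Nat.pair (encode l0) (encode l1) := h3
      rw [Nat.pair_eq_pair] at h5
      rw [ev_append, ev_invRev, mul_inv_eq_one] at h4
      refine ⟨fun j => ?_, ?_⟩
      · fin_cases j
        · exact ⟨l0, h5.1⟩
        · exact ⟨l1, h5.2⟩
      · rw [gE_eq x _ l0 h5.1, gE_eq x _ l1 h5.2, h4]
  fn := by
    intro m F
    cases F with
    | one =>
      have h2 := T2 (wpF x hw (fun l : WP.W n => l) Computable.id) (fun k => ((tr 0 k, 0) : Fin 1 × Fin 1))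
      convert h2 using 1
      ext w
      simp only [Set.mem_ofPred_eq]
      constructor
      · rintro ⟨h3, h4⟩
        obtain ⟨l0, h5⟩ := h3 0
        refine ⟨l0, h5, ?_⟩
        rw [← gE_eq x _ l0 h5]
        exact h4.symm
      · rintro ⟨l0, h3, h4⟩
        refine ⟨fun j => ?_, ?_⟩
        · fin_cases j
          exact ⟨l0, h3⟩
        · change (1 : G) = gE x (Bi.row w 0)
          rw [gE_eq x (Bi.row w 0) l0 h3, h4]
    | inv =>
      have h1 : ∀ D : ((ℕ → ℕ) → Prop) → Prop, DC D → D (fun v => ∃ p : WP.W n × WP.W n,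
          Nat.pair (v 0) (v 1) = encode p ∧ ev x (p.1 ++ p.2) = 1) := by
        intro D h
        refine h.app1 (R := fun c => ∃ p : WP.W n × WP.W n, c = encode p ∧
          ev x (p.1 ++ p.2) = 1) ?_ (h.tpair (h.tvar 0) (h.tvar 1))
        exact wpF x hw (fun p : WP.W n × WP.W n => p.1 ++ p.2)
          ((prim_append n).comp Primrec.fst Primrec.snd).to_comp D h
      have h2 := T2 h1 (fun k => ((tr 1 k, 0) : Fin 2 × Fin 1))
      convert h2 using 1
      ext w
      simp only [Set.mem_ofPred_eq]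
      constructor
      · rintro ⟨h3, h4⟩
        obtain ⟨l0, h5⟩ := h3 0
        obtain ⟨l1, h6⟩ := h3 1
        have h7 : (gE x (Bi.row w 0))⁻¹ = gE x (Bi.row w 1) := h4
        rw [gE_eq x _ l0 h5, gE_eq x _ l1 h6] at h7
        refine ⟨(l0, l1), congrArg₂ Nat.pair h5 h6, ?_⟩
        rw [ev_append, ← h7, mul_inv_cancel]
      · rintro ⟨⟨l0, l1⟩, h3, h4⟩
        have h5 : Nat.pair (w (0, 0)) (w (1, 0)) = Nat.pair (encode l0) (encode l1) := h3
        rw [Nat.pair_eq_pair] at h5
        rw [ev_append] at h4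
        refine ⟨fun j => ?_, ?_⟩
        · fin_cases j
          · exact ⟨l0, h5.1⟩
          · exact ⟨l1, h5.2⟩
        · change (gE x (Bi.row w 0))⁻¹ = gE x (Bi.row w 1)
          rw [gE_eq x _ l0 h5.1, gE_eq x _ l1 h5.2, inv_eq_of_mul_eq_one_right h4]
    | mul =>
      have h1 : ∀ D : ((ℕ → ℕ) → Prop) → Prop, DC D → D (fun v => ∃ p : WP.W n × WP.W n × WP.W n,
          Nat.pair (v 0) (Nat.pair (v 1) (v 2)) = encode p ∧
            ev x (p.1 ++ (p.2.1 ++ FreeGroup.invRev p.2.2)) = 1) := by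
        intro D h
        refine h.app1 (R := fun c => ∃ p : WP.W n × WP.W n × WP.W n, c = encode p ∧
          ev x (p.1 ++ (p.2.1 ++ FreeGroup.invRev p.2.2)) = 1) ?_
            (h.tpair (h.tvar 0) (h.tpair (h.tvar 1) (h.tvar 2)))
        exact wpF x hw (fun p : WP.W n × WP.W n × WP.W n => p.1 ++ (p.2.1 ++ FreeGroup.invRev p.2.2))
          ((prim_append n).comp Primrec.fst ((prim_append n).comp (Primrec.fst.comp Primrec.snd)
            ((WP.primrec_invRev n).comp (Primrec.snd.comp Primrec.snd)))).to_comp D h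
      have h2 := T2 h1 (fun k => ((tr 2 k, 0) : Fin 3 × Fin 1))
      convert h2 using 1
      ext w
      simp only [Set.mem_ofPred_eq]
      constructor
      · rintro ⟨h3, h4⟩
        obtain ⟨l0, h5⟩ := h3 0
        obtain ⟨l1, h6⟩ := h3 1
        obtain ⟨l2, h6'⟩ := h3 2
        have h7 : gE x (Bi.row w 0) * gE x (Bi.row w 1) = gE x (Bi.row w 2) := h4
        rw [gE_eq x _ l0 h5, gE_eq x _ l1 h6, gE_eq x _ l2 h6'] at h7
        refine ⟨(l0, l1, l2), congrArg₂ Nat.pair h5 (congrArg₂ Nat.pair h6 h6'), ?_⟩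
        rw [ev_append, ev_append, ev_invRev, ← h7]
        group
      · rintro ⟨⟨l0, l1, l2⟩, h3, h4⟩
        have h5 : Nat.pair (w (0, 0)) (Nat.pair (w (1, 0)) (w (2, 0))) =
          Nat.pair (encode l0) (Nat.pair (encode l1) (encode l2)) := h3
        rw [Nat.pair_eq_pair, Nat.pair_eq_pair] at h5
        rw [ev_append, ev_append, ev_invRev, ← mul_assoc, mul_inv_eq_one] at h4
        refine ⟨fun j => ?_, ?_⟩
        · fin_cases j
          · exact ⟨l0, h5.1⟩
          · exact ⟨l1, h5.2.1⟩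
          · exact ⟨l2, h5.2.2⟩
        · change gE x (Bi.row w 0) * gE x (Bi.row w 1) = gE x (Bi.row w 2)
          rw [gE_eq x _ l0 h5.1, gE_eq x _ l1 h5.2.1, gE_eq x _ l2 h5.2.2, h4]
  rel := by
    intro m R
    exact Empty.elim R

theorem ev_replicate (i : Fin n) (k : ℕ) : ev x (List.replicate k (i, false)) = (x i ^ k)⁻¹ := by
  induction k with
  | zero => simp [ev]
  | succ k ih =>
    have h : List.replicate (k + 1) (i, false) = List.replicate k (i, false) ++ [(i, false)] := by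
      rw [← List.replicate_succ']
    rw [h, ev_append, ih]
    have h2 : ev x [(i, false)] = (x i)⁻¹ := by
      unfold ev
      have : (FreeGroup.mk [(i, false)] : FreeGroup (Fin n)) = (FreeGroup.of i)⁻¹ := rfl
      rw [this, map_inv, FreeGroup.lift_apply_of]
    rw [h2, pow_succ']
    group

end
end BI

open BI in
attribute [local instance] strG Bi.grpStr Bi.natStr in
/-- TASK BI -/
theorem biInterp_of_rich {G : Type} [Group G] {n : ℕ} (x : Fin n → G)
    (hx : Subgroup.closure (Set.range x) = ⊤) (hr : Rich x) (hw : ArithWP x) :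
    Bi.BiInterpNat G := by
  obtain ⟨i, hi, hint, hev⟩ := hr
  refine ⟨1, DG x i, fG x i, 1, DE n, gE x, interp1 x i hi hint, interp2 x hx hw, ?_, ?_⟩
  · have h1 := T1 x hev (fun k => match k with
      | 0 => (Sum.inl (0, 0) : (Fin 1 × Fin 1) ⊕ Unit) | _ => Sum.inr ())
    convert h1 using 1
    ext w
    simp only [Bi.compGraph, Set.mem_ofPred_eq]
    constructor
    · rintro ⟨h2, h3, h4⟩
      obtain ⟨l, hl⟩ := h3
      refine ⟨l, ?_, ?_⟩
      · have := fG_spec x i _ (h2 0)
        have h5 : fG x i (Bi.row (w ∘ Sum.inl) 0) = encode l := hl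
        rw [h5] at this
        exact this
      · rw [← h4, gE_eq x _ l hl]
    · rintro ⟨l, h2, h3⟩
      have h4 : ∀ j, Bi.row (w ∘ Sum.inl) j ∈ DG x i := by
        intro j
        fin_cases j
        exact ⟨_, h2⟩
      have h5 : fG x i (Bi.row (w ∘ Sum.inl) 0) = encode l := fG_eq x i hi _ _ h2
      refine ⟨h4, ⟨l, h5⟩, ?_⟩
      rw [gE_eq x _ l h5]
      exact h3.symm
  · have h1 : ∀ D : ((ℕ → ℕ) → Prop) → Prop, DC D → D (fun v => ∃ p : WP.W n × ℕ,
        Nat.pair (v 0) (v 1) = encode p ∧ ev x (p.1 ++ List.replicate p.2 (i, false)) = 1) := by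
      intro D h
      refine h.app1 (R := fun c => ∃ p : WP.W n × ℕ, c = encode p ∧
        ev x (p.1 ++ List.replicate p.2 (i, false)) = 1) ?_ (h.tpair (h.tvar 0) (h.tvar 1))
      refine wpF x hw (fun p : WP.W n × ℕ => p.1 ++ List.replicate p.2 (i, false)) ?_ D h
      have h2 : Primrec (fun k : ℕ => List.replicate k (i, false)) := by
        refine (Primrec.list_map Primrec.list_range (Primrec.const (i, false)).to₂).of_eq ?_
        intro k
        simp
      exact ((prim_append n).comp Primrec.fst (h2.comp Primrec.snd)).to_comp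
    have h2 := T2 h1 (fun k => match k with
      | 0 => (Sum.inl (0, 0) : (Fin 1 × Fin 1) ⊕ Unit) | _ => Sum.inr ())
    convert h2 using 1
    ext w
    simp only [Bi.compGraph, Set.mem_ofPred_eq]
    constructor
    · rintro ⟨h3, h4, h5⟩
      obtain ⟨l, hl⟩ := h3 0
      have h6 := fG_spec x i _ h4
      have h6' : gE x (Bi.row (w ∘ Sum.inl) 0) = x i ^ (w (Sum.inr ())) := by
        rw [← h5]; exact h6
      rw [gE_eq x _ l hl] at h6'
      refine ⟨(l, w (Sum.inr ())), congrArg₂ Nat.pair hl rfl, ?_⟩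
      rw [ev_append, ev_replicate, h6', mul_inv_cancel]
    · rintro ⟨⟨l, k⟩, h3, h4⟩
      have h5 : Nat.pair (w (Sum.inl (0, 0))) (w (Sum.inr ())) = Nat.pair (encode l) k := h3
      rw [Nat.pair_eq_pair] at h5
      obtain ⟨h5, h6⟩ := h5
      rw [ev_append, ev_replicate, mul_inv_eq_one] at h4
      have h7 : ∀ j, Bi.row (w ∘ Sum.inl) j ∈ DE n := by
        intro j
        fin_cases j
        exact ⟨l, h5⟩
      have h8 : gE x (Bi.row (w ∘ Sum.inl) 0) = x i ^ k := by
        rw [gE_eq x _ l h5, h4]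
      refine ⟨h7, ⟨k, h8⟩, ?_⟩
      rw [h6]
      exact fG_eq x i hi _ _ h8

end Pool.Agent.H577R3
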