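import Mathlib
import Pool.Agent.Helper777.Prof.Defs
import Pool.Agent.Helper777.Prof.P_dq_embed

set_option autoImplicit false

/-! The integral group ring of a free solvable group has no zero divisors. -/

namespace Pool.Agent.H577R3

open Finset Pool.Agent.Helper777.Prof

namespace NZD

theorem uniqueProds_ext {G Q : Type} [Group G] [Group Q] (q : G →* Q) (hQ : UniqueProds Q)
    (hK : UniqueProds q.ker) : UniqueProds G := by
  classical
  refine ⟨fun {A B} hA hB => ?_⟩
  obtain ⟨aH, haH, bH, hbH, hu⟩ := hQ.uniqueMul_of_nonempty (hA.image q) (hB.image q)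
  obtain ⟨a1, ha1, rfl⟩ := mem_image.1 haH
  obtain ⟨b1, hb1, rfl⟩ := mem_image.1 hbH
  let iA : q.ker → G := fun k => a1 * k
  let iB : q.ker → G := fun k => k * b1
  have hiA : Function.Injective iA := fun x y h => Subtype.ext (mul_left_cancel h)
  have hiB : Function.Injective iB := fun x y h => Subtype.ext (mul_right_cancel h)
  let A' : Finset q.ker := A.preimage iA hiA.injOn
  let B' : Finset q.ker := B.preimage iB hiB.injOn
  have hA' : A'.Nonempty := ⟨1, by simp [A', iA, ha1]⟩
  have hB' : B'.Nonempty := ⟨1, by simp [B', iB, hb1]⟩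
  obtain ⟨a0, ha0, b0, hb0, hu0⟩ := hK.uniqueMul_of_nonempty hA' hB'
  have ha0' : a1 * (a0 : G) ∈ A := by simpa [A', iA] using ha0
  have hb0' : (b0 : G) * b1 ∈ B := by simpa [B', iB] using hb0
  refine ⟨a1 * a0, ha0', b0 * b1, hb0', ?_⟩
  apply UniqueMul.of_image_filter (f := (q : G →ₙ* Q)) (aH := q a1) (bH := q b1) _ _ hu
  · intro a b ha hb hab
    simp only [mem_filter] at ha hb
    have hka : a1⁻¹ * a ∈ q.ker := by
      rw [MonoidHom.mem_ker, map_mul, map_inv]
      have : q a = q a1 := ha.2
      rw [this, inv_mul_cancel]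
    have hkb : b * b1⁻¹ ∈ q.ker := by
      rw [MonoidHom.mem_ker, map_mul, map_inv]
      have : q b = q b1 := hb.2
      rw [this, mul_inv_cancel]
    have := @hu0 ⟨a1⁻¹ * a, hka⟩ ⟨b * b1⁻¹, hkb⟩ (by simp [A', iA, ha.1]) (by simp [B', iB, hb.1])
      (Subtype.ext (by
        simp only [Subgroup.coe_mul]
        have h2 : a1⁻¹ * a * (b * b1⁻¹) = a1⁻¹ * (a * b) * b1⁻¹ := by group
        rw [h2, hab]
        group))
    obtain ⟨h1, h2⟩ := this
    have h1' : a1⁻¹ * a = a0 := congrArg Subtype.val h1
    have h2' : b * b1⁻¹ = b0 := congrArg Subtype.val h2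
    constructor
    · rw [← h1']; group
    · rw [← h2']; group
  · have : q (a0 : G) = 1 := a0.2
    simp [this]
  · have : q (b0 : G) = 1 := b0.2
    simp [this]

theorem uniqueProds_dq (ι : Type) : ∀ d : ℕ, UniqueProds (Dq ι d) := by
  classical
  intro d
  induction d with
  | zero =>
    have : Subsingleton (Dq ι 0) := by
      refine ⟨fun a b => ?_⟩
      obtain ⟨a, rfl⟩ := QuotientGroup.mk'_surjective _ a
      obtain ⟨b, rfl⟩ := QuotientGroup.mk'_surjective _ b
      exact (QuotientGroup.eq (s := derivedSeries (FreeGroup ι) 0)).2 (by simp)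
    exact ⟨fun {A B} hA hB => by
      obtain ⟨a, ha⟩ := hA
      obtain ⟨b, hb⟩ := hB
      exact ⟨a, ha, b, hb, UniqueMul.of_subsingleton⟩⟩
  | succ d ih =>
    obtain ⟨f, hf, hf2⟩ := dq_embed (ι := ι) d
    let q : Dq ι (d + 1) →* Dq ι d :=
      { toFun := fun g => (f g).m
        map_one' := by rw [map_one]; rfl
        map_mul' := fun a b => by rw [map_mul]; rfl }
    apply uniqueProds_ext q ih
    have hU : UniqueSums (ι → MonoidAlgebra ℤ (Dq ι d)) := by
      have h1 : UniqueSums (MonoidAlgebra ℤ (Dq ι d)) :=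
        UniqueSums.of_injective_addHom (G := Dq ι d →₀ ℤ)
          (MonoidAlgebra.coeffAddEquiv (R := ℤ) (M := Dq ι d)).toAddMonoidHom.toAddHom
          (MonoidAlgebra.coeffAddEquiv (R := ℤ) (M := Dq ι d)).injective inferInstance
      exact UniqueSums.instForall _
    let φ : q.ker →ₙ* Multiplicative (ι → MonoidAlgebra ℤ (Dq ι d)) :=
      { toFun := fun k => Multiplicative.ofAdd (f k).v
        map_mul' := fun a b => by
          have ha : (f a).m = 1 := a.2
          rw [Subgroup.coe_mul, map_mul, Wr.mul_v, ha, map_one, one_smul]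
          rfl }
    have hφ : Function.Injective φ := by
      intro a b h
      apply Subtype.ext
      apply hf
      ext1
      · exact h
      · have ha : (f a).m = 1 := a.2
        have hb : (f b).m = 1 := b.2
        rw [ha, hb]
    exact UniqueProds.of_injective_mulHom φ hφ inferInstance

end NZD

/-- TASK NZD -/
theorem nzd_dq (ι : Type) (d : ℕ) : NoZeroDivisors (MonoidAlgebra ℤ (Dq ι d)) := by
  have := NZD.uniqueProds_dq ι d
  infer_instance

end Pool.Agent.H577R3
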