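import Mathlib
import Pool.Agent.H577R3.Defs2

set_option autoImplicit false

/-! The general separation property. -/

namespace Pool.Agent.H577R3

open Pool.Agent.Helper777.Prof

/-- `mono b v f = ∏ i, b ^ i * v ^ (f i) * b ^ (-i)` (the element `f(b) v`) -/
def mono {H : Type} [Group H] (b v : H) : List ℕ → H
  | [] => 1
  | c :: f => v ^ c * (b * mono b v f * b⁻¹)

/-- value of a polynomial with natural coefficients -/
def pval (a : ℕ) : List ℕ → ℕ
  | [] => 0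
  | c :: f => c + a * pval a f

/-- the subgroup generated by `v ^ e * b` and `b v b⁻¹ v ^ (- a)` -/
def subAE {H : Type} [Group H] (b v : H) (a e : ℕ) : Subgroup H :=
  Subgroup.closure {v ^ e * b, b * v * b⁻¹ * (v ^ a)⁻¹}

/-- `b` and `v` generate a group like `ℤ ≀ ℤ` -/
def Good {H : Type} [Group H] (b v : H) : Prop :=
  v ≠ 1 ∧ (∀ i : ℕ, Commute v (b ^ i * v * (b ^ i)⁻¹)) ∧
    ∀ T : Finset H, 1 ∉ T → ∃ a e : ℕ, ∀ t ∈ T, t ∉ subAE b v (a + 2) e

/-- The general separation property. -/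
def GSep (H : Type) [Group H] (L : ℕ) : Prop :=
  ∀ T : Finset H, 1 ∉ T →
    ∃ (Y : Fin L → H) (b v : H), Good b v ∧
      (∀ h : H, ∃ f : List ℕ, ∃ y ∈ Subgroup.closure (Set.range Y), h = y * mono b v f) ∧
      ∀ t ∈ T, t ∉ Subgroup.closure (Set.range Y)

/-- affine actions of the free solvable group separating `T` from `1` -/
def AffEx (n d : ℕ) (T : Finset (Dq (Fin n) (d + 2))) : Prop :=
  ∃ (p : ℕ) (_ : Fact p.Prime) (Λ : Type) (_ : Finite Λ)
    (act : Dq (Fin n) (d + 2) →* Equiv.Perm (Λ → ZMod p)) (b v : Dq (Fin n) (d + 2))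
    (lam vv : Λ → ZMod p),
    v ∈ derivedSeries (Dq (Fin n) (d + 2)) (d + 1) ∧ v ≠ 1 ∧
    b ∈ derivedSeries (Dq (Fin n) (d + 2)) d ∧ b ∉ derivedSeries (Dq (Fin n) (d + 2)) (d + 1) ∧
    (∀ g z w, act g (z + w) = act g z + act g w - act g 0) ∧
    (∀ β ∈ derivedSeries (Dq (Fin n) (d + 2)) (d + 1), ∃ c, ∀ z, act β z = z + c) ∧
    (∀ β ∈ derivedSeries (Dq (Fin n) (d + 2)) d, ∃ μ c, ∀ z, act β z = μ * z + c) ∧
    (∀ z, act v z = z + vv) ∧ (∀ l, vv l ≠ 0) ∧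
    (∃ c, ∀ z, act b z = lam * z + c) ∧ Function.Injective lam ∧
    ∀ t ∈ T, act t 0 ≠ 0

end Pool.Agent.H577R3
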