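import Mathlib
import Pool.Agent.H577R3.Lang

set_option autoImplicit false

/-! Definable relations of a definable quotient. -/

namespace Pool.Agent.H577R3

open Pool.Agent.Helper967.ArithDef Encodable

section

variable {G H : Type} [Group G] [Group H] {P : Type} {x : P → G} {π : G →* H}

theorem Dg.pull (hπ : Function.Surjective π) (hker : Dg x (fun v => π (v 0) = 1))
    {R : (ℕ → H) → Prop} (h : Dg (fun p => π (x p)) R) : Dg x (fun v => R (fun n => π (v n))) := by
  have k1 : R1 (sG x) (fun g => π g = 1) := R1.mk' (hker.toDc (fun n => n) (fun v γ hc => by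
    have : v 0 = γ.2 := hc.1
    show π (v 0) = 1 ↔ π γ.2 = 1
    rw [this]))
  induction h with
  | mul =>
    refine Dg.iff (fun v => ?_) (Dg.of3 (x := x) (R := fun a b c => π (a * b * c⁻¹) = 1) ?_)
    · rw [map_mul, map_mul, map_inv, mul_inv_eq_one]
    · intro Γ c
      exact k1.app (DcF.mul (DcF.mul DcF.var.wk.wk DcF.var.wk) DcF.var.inv)
  | eq =>
    refine Dg.iff (fun v => ?_) (Dg.of2 (x := x) (R := fun a b => π (a * b⁻¹) = 1) ?_)
    · rw [map_mul, map_inv, mul_inv_eq_one]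
    · intro Γ c
      exact k1.app (DcF.mul DcF.var.wk DcF.var.inv)
  | par p =>
    refine Dg.iff (fun v => ?_) (Dg.of1 (x := x) (R := fun a => π (a * (x p)⁻¹) = 1) ?_)
    · rw [map_mul, map_inv, mul_inv_eq_one]
    · intro Γ c
      exact k1.app (DcF.mul DcF.var (parG p).inv)
  | bot => exact Dg.bot
  | imp _ _ h1 h2 => exact Dg.imp h1 h2
  | @all R _ h1 =>
    refine Dg.iff (fun v => ?_) (Dg.all h1)
    have e : ∀ g : G, (fun n => π (cns g v n)) = cns (π g) (fun n => π (v n)) :=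
      fun g => cns_comp π g v
    constructor
    · intro h a
      obtain ⟨g, rfl⟩ := hπ a
      have h3 : R (fun n => π (cns g v n)) := h g
      rwa [e] at h3
    · intro h g
      have h3 : R (cns (π g) (fun n => π (v n))) := h (π g)
      rwa [← e] at h3
  | ren ρ _ h1 => exact Dg.ren ρ h1

variable (hπ : Function.Surjective π) (hker : Dg x (fun v => π (v 0) = 1))
include hπ hker

/-- pull-back of a sort -/
def Srt.pull {T : Type} (s : Srt (fun p => π (x p)) T) : Srt x T where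
  r := fun g t => s.r (π g) t
  sur := fun t => by
    obtain ⟨a, ha⟩ := s.sur t
    obtain ⟨g, rfl⟩ := hπ a
    exact ⟨g, ha⟩
  fn := fun h h' => s.fn h h'
  dom := Dg.pull hπ hker s.dom
  eqv := Dg.pull hπ hker s.eqv

theorem Dc.pull {Γ : Type} {c : (ℕ → H) → Γ → Prop} {Q : Γ → Prop}
    (h : Dc (fun p => π (x p)) c Q) : Dc x (fun v γ => c (fun n => π (v n)) γ) Q := by
  obtain ⟨R, hR, h1⟩ := h
  exact ⟨_, Dg.pull hπ hker hR, fun v γ hc => h1 _ _ hc⟩

theorem DNs.pull {s : Srt (fun p => π (x p)) ℕ} {R : (ℕ → ℕ) → Prop} (h : DNs s R) :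
    DNs (s.pull hπ hker) R := by
  obtain ⟨S, hS, h1⟩ := h
  exact ⟨_, Dg.pull hπ hker hS, fun v w hc => h1 _ _ hc⟩

theorem ArithS.pull {s : Srt (fun p => π (x p)) ℕ} (h : ArithS s) : ArithS (s.pull hπ hker) :=
  arithS_of _ (DNs.pull hπ hker (DC.add h)) (DNs.pull hπ hker (DC.mul h))

theorem R2.pull {T₁ T₂ : Type} {s₁ : Srt (fun p => π (x p)) T₁} {s₂ : Srt (fun p => π (x p)) T₂}
    {R : T₁ → T₂ → Prop} (h : R2 s₁ s₂ R) : R2 (s₁.pull hπ hker) (s₂.pull hπ hker) R :=
  R2.mk' (Dc.via (fun n => n) (Dc.pull hπ hker (h _ c0)) (fun _ γ hc => ⟨γ, hc, Iff.rfl⟩))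

end

/-- The group `G` with generators `x` is rich modulo the kernel of `π`: there is a definable sort of
naturals with full arithmetic and the relation that `g` is equal to the word with the code `w` modulo
`ker π` is definable. -/
def RichQ {G H : Type} [Group G] [Group H] {n : ℕ} (x : Fin n → G) (π : G →* H) : Prop :=
  ∃ (sN : Srt x ℕ) (hN : ArithS sN),
    R2 (sC hN (List (Fin n × Bool))) (sG x) (fun w g => π g = π (ev x w))

theorem ev_map {G H : Type} [Group G] [Group H] {n : ℕ} (x : Fin n → G) (π : G →* H)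
    (w : List (Fin n × Bool)) : π (ev x w) = ev (fun i => π (x i)) w := by
  unfold ev
  rw [← MonoidHom.comp_apply]
  congr 1
  ext i
  simp

theorem RichQ.pull {G H : Type} [Group G] [Group H] {n : ℕ} {x : Fin n → G} {π : G →* H}
    (hπ : Function.Surjective π) (hker : Dg x (fun v => π (v 0) = 1))
    (h : RichQ (fun i => π (x i)) (MonoidHom.id H)) : RichQ x π := by
  obtain ⟨sN, hN, hE⟩ := h
  refine ⟨sN.pull hπ hker, hN.pull hπ hker, ?_⟩
  have h1 := R2.pull hπ hker hE
  refine R2.mk' (Dc.via (fun n => n) (h1 _ c0) (fun v γ hc => ?_))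
  refine ⟨(((), γ.1.2), π γ.2), ?_, ?_⟩
  · refine ⟨?_, hc.2.1, trivial⟩
    have : v 0 = γ.2 := hc.1
    show π (v 0) = π γ.2
    rw [this]
  · show π γ.2 = ev (fun i => π (x i)) γ.1.2 ↔ π γ.2 = π (ev x γ.1.2)
    rw [ev_map]

end Pool.Agent.H577R3
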