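import Mathlib
import Pool.Agent.H577R3.Pull
import Pool.Agent.H577R3.Defs2

set_option autoImplicit false

/-! The module of an extension and its definable structure. -/

namespace Pool.Agent.H577R3

open Pool.Agent.Helper967.ArithDef Encodable

/-- the group element in the group ring -/
noncomputable abbrev U {H : Type} [Group H] (h : H) : MonoidAlgebra ℤ H := MonoidAlgebra.of ℤ H h

section

variable {G H : Type} [Group G] [Group H] {k : ℕ} {π : G →* H}

namespace MD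

variable (M : MD π k)

theorem one : M.μ 1 = 0 := by
  have h := M.mul 1 1 (map_one π) (map_one π)
  rw [mul_one] at h
  simpa using h

theorem inv {a : G} (ha : π a = 1) : M.μ a⁻¹ = - M.μ a := by
  have h := M.mul a a⁻¹ ha (by rw [map_inv, ha, inv_one])
  rw [mul_inv_cancel, M.one] at h
  exact (neg_eq_of_add_eq_zero_right h.symm).symm

theorem inj' {a b : G} (ha : π a = 1) (hb : π b = 1) (h : M.μ a = M.μ b) : a = b := by
  have h1 : M.μ (a * b⁻¹) = 0 := by
    rw [M.mul _ _ ha (by rw [map_inv, hb, inv_one]), M.inv hb, h, add_neg_cancel]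
  exact mul_inv_eq_one.1 (M.inj _ (by rw [map_mul, map_inv, ha, hb, inv_one, mul_one]) h1)

include M in
theorem comm {a b : G} (ha : π a = 1) (hb : π b = 1) : a * b = b * a := by
  apply M.inj' (by rw [map_mul, ha, hb, mul_one]) (by rw [map_mul, ha, hb, mul_one])
  rw [M.mul _ _ ha hb, M.mul _ _ hb ha, add_comm]

/-- the module -/
def N (hπ : Function.Surjective π) : Submodule (MonoidAlgebra ℤ H) (Fin k → MonoidAlgebra ℤ H) where
  carrier := {z | ∃ a, π a = 1 ∧ M.μ a = z}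
  zero_mem' := ⟨1, map_one π, M.one⟩
  add_mem' := by
    rintro _ _ ⟨a, ha, rfl⟩ ⟨b, hb, rfl⟩
    exact ⟨a * b, by rw [map_mul, ha, hb, mul_one], M.mul a b ha hb⟩
  smul_mem' := by
    intro r z hz
    induction r using MonoidAlgebra.induction_on generalizing z with
    | of h =>
      obtain ⟨a, ha, rfl⟩ := hz
      obtain ⟨g, rfl⟩ := hπ h
      exact ⟨g * a * g⁻¹, by rw [map_mul, map_mul, ha, mul_one, map_inv, mul_inv_cancel],
        M.conj g a ha⟩
    | add r s hr hs =>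
      obtain ⟨a, ha, h1⟩ := hr hz
      obtain ⟨b, hb, h2⟩ := hs hz
      exact ⟨a * b, by rw [map_mul, ha, hb, mul_one], by rw [M.mul a b ha hb, h1, h2, add_smul]⟩
    | smul m r hr =>
      obtain ⟨a, ha, h1⟩ := hr hz
      refine ⟨a ^ m, by rw [map_zpow, ha, one_zpow], ?_⟩
      have key : ∀ j : ℕ, M.μ (a ^ j) = (j : ℤ) • M.μ a := by
        intro j
        induction j with
        | zero => rw [pow_zero, M.one]; simp
        | succ j ih =>
          rw [pow_succ, M.mul _ _ (by rw [map_pow, ha, one_pow]) ha, ih]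
          push_cast
          rw [add_smul, one_smul]
      have h3 : M.μ (a ^ m) = m • M.μ a := by
        obtain ⟨j, rfl | rfl⟩ := m.eq_nat_or_neg
        · rw [zpow_natCast, key]
        · rw [zpow_neg, zpow_natCast, M.inv (by rw [map_pow, ha, one_pow]), key, neg_smul]
      rw [h3, h1, smul_assoc]

theorem mem_N (hπ : Function.Surjective π) (z : Fin k → MonoidAlgebra ℤ H) :
    z ∈ M.N hπ ↔ ∃ a, π a = 1 ∧ M.μ a = z := Iff.rfl

theorem smul_eq_self [NoZeroDivisors (MonoidAlgebra ℤ H)] {h : H} {z : Fin k → MonoidAlgebra ℤ H}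
    (hz : U h • z = z) : h = 1 ∨ z = 0 := by
  by_cases hh : h = 1
  · exact Or.inl hh
  · right
    funext i
    have h1 : (U h - 1) * z i = 0 := by
      rw [sub_mul, one_mul, sub_eq_zero]
      exact congrFun hz i
    rcases mul_eq_zero.1 h1 with h2 | h2
    · exfalso
      apply hh
      rw [sub_eq_zero] at h2
      exact MonoidAlgebra.of_injective (R := ℤ) (show U h = MonoidAlgebra.of ℤ H 1 by rw [h2, map_one])
    · exact h2

include M in
/-- the kernel is definable without parameters -/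
theorem ker_iff [NoZeroDivisors (MonoidAlgebra ℤ H)] (hne : ∃ a, π a = 1 ∧ a ≠ 1) (g : G) :
    π g = 1 ↔ ∀ y, g * (y * g * y⁻¹) = (y * g * y⁻¹) * g := by
  constructor
  · intro hg y
    exact M.comm hg (by rw [map_mul, map_mul, hg, mul_one, map_inv, mul_inv_cancel])
  · intro h
    obtain ⟨a, ha, ha1⟩ := hne
    have h1 := h a
    -- `b = g⁻¹ a g a⁻¹`
    have hb : π (g⁻¹ * a * g * a⁻¹) = 1 := by
      simp [ha]
    have h2 : g * (g⁻¹ * a * g * a⁻¹) * g⁻¹ = g⁻¹ * a * g * a⁻¹ := by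
      have : g * (g * (g⁻¹ * a * g * a⁻¹)) = g * (g⁻¹ * a * g * a⁻¹) * g := by
        have e : g * (g⁻¹ * a * g * a⁻¹) = a * g * a⁻¹ := by group
        rw [e]
        exact h1
      calc g * (g⁻¹ * a * g * a⁻¹) * g⁻¹
          = g⁻¹ * (g * (g * (g⁻¹ * a * g * a⁻¹))) * g⁻¹ := by group
        _ = g⁻¹ * (g * (g⁻¹ * a * g * a⁻¹) * g) * g⁻¹ := by rw [this]
        _ = _ := by group
    have h3 := M.conj g _ hb
    rw [h2] at h3
    rcases smul_eq_self h3.symm with h4 | h4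
    · exact h4
    · have h5 := M.inj _ hb h4
      have h6 : g * a * g⁻¹ = a := by
        have : a * g = g * a := by
          calc a * g = g * (g⁻¹ * a * g * a⁻¹) * a := by group
            _ = g * a := by rw [h5, mul_one]
        rw [← this]; group
      have h7 := M.conj g a ha
      rw [h6] at h7
      rcases smul_eq_self h7.symm with h8 | h8
      · exact h8
      · exact absurd (M.inj a ha h8) ha1

include M in
theorem ker_def {P : Type} (x : P → G) [NoZeroDivisors (MonoidAlgebra ℤ H)]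
    (hne : ∃ a, π a = 1 ∧ a ≠ 1) :
    Dg x (fun v => π (v 0) = 1) := by
  refine Dg.of1 (x := x) (R := fun g => π g = 1) ?_
  intro Γ c
  refine Dc.iff (fun p => (M.ker_iff hne p.2).symm) ?_
  refine Dc.all (sG x) (Q := fun (p : Γ × G) y => p.2 * (y * p.2 * y⁻¹) = (y * p.2 * y⁻¹) * p.2) ?_
  have h1 : DcF (cx (cx c (sG x)) (sG x)) (sG x) (fun p : (Γ × G) × G => p.1.2) := DcF.var.wk
  have h2 : DcF (cx (cx c (sG x)) (sG x)) (sG x) (fun p : (Γ × G) × G => p.2) := DcF.var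
  exact Dc.eq (h1.mul ((h2.mul h1).mul h2.inv)) (((h2.mul h1).mul h2.inv).mul h1)

end MD

end

section

variable {G H : Type} [Group G] [Group H] {k : ℕ} {π : G →* H} {P : Type} {x : P → G}
variable (M : MD π k) (hπ : Function.Surjective π) (hker : Dg x (fun v => π (v 0) = 1))

include hker in
theorem kerR : R1 (sG x) (fun g => π g = 1) := R1.mk' (hker.toDc (fun n => n) (fun v γ hc => by
    have : v 0 = γ.2 := hc.1
    show π (v 0) = 1 ↔ π γ.2 = 1
    rw [this]))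

/-- the sort of elements of the module -/
def MD.sM : Srt x (M.N hπ) where
  r := fun g z => π g = 1 ∧ M.μ g = z.1
  sur := fun z => z.2
  fn := fun h h' => Subtype.ext (h.2.symm.trans h'.2)
  dom := Dg.iff (fun v => ⟨fun h => ⟨⟨M.μ (v 0), v 0, h, rfl⟩, h, rfl⟩, fun ⟨_, h, _⟩ => h⟩) hker
  eqv := by
    refine Dg.iff (fun v => ⟨fun h => ?_, fun h => ?_⟩) (Dg.and hker Dg.eq)
    · have h2 : v 0 = v 1 := h.2
      exact ⟨⟨M.μ (v 0), v 0, h.1, rfl⟩, ⟨h.1, rfl⟩, h2 ▸ h.1, (congrArg M.μ h2).symm⟩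
    · obtain ⟨t, h, h'⟩ := h
      exact ⟨h.1, M.inj' h.1 h'.1 (h.2.trans h'.2.symm)⟩

variable {T Γ : Type} {c : (ℕ → G) → Γ → Prop}

theorem MD.addM : F2 (M.sM hπ hker) (M.sM hπ hker) (M.sM hπ hker) (fun a b => a + b) := by
  refine F2.of (R3.mk' ?_)
  refine Dc.via (fun n => n) (mulG (x := x) _ c0) (fun v γ hc => ?_)
  obtain ⟨h0, h1, h2, h3⟩ := hc
  refine ⟨((((), v 2), v 1), v 0), ⟨rfl, rfl, rfl, trivial⟩, ?_⟩
  have h0' : π (v 0) = 1 ∧ M.μ (v 0) = γ.2.1 := h0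
  have h1' : π (v 1) = 1 ∧ M.μ (v 1) = γ.1.2.1 := h1
  have h2' : π (v 2) = 1 ∧ M.μ (v 2) = γ.1.1.2.1 := h2
  show v 0 = v 2 * v 1 ↔ γ.2 = γ.1.1.2 + γ.1.2
  rw [Subtype.ext_iff, Submodule.coe_add, ← h0'.2, ← h1'.2, ← h2'.2, ← M.mul _ _ h2'.1 h1'.1]
  constructor
  · intro h; rw [h]
  · intro h; exact M.inj' h0'.1 (by rw [map_mul, h2'.1, h1'.1, mul_one]) h

theorem MD.actG : F2 (sG x) (M.sM hπ hker) (M.sM hπ hker) (fun g z => U (π g) • z) := by
  refine F2.of (R3.mk' ?_)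
  have h1 : R3 (sG x) (sG x) (sG x) (fun g a b => b = g * a * g⁻¹) := by
    intro Γ c
    exact Dc.eq DcF.var ((DcF.var.wk.wk.mul DcF.var.wk).mul DcF.var.wk.wk.inv)
  refine Dc.via (fun n => n) (h1 _ c0) (fun v γ hc => ?_)
  obtain ⟨h0, h1, h2, h3⟩ := hc
  refine ⟨((((), v 2), v 1), v 0), ⟨rfl, rfl, rfl, trivial⟩, ?_⟩
  have h0' : π (v 0) = 1 ∧ M.μ (v 0) = γ.2.1 := h0
  have h1' : π (v 1) = 1 ∧ M.μ (v 1) = γ.1.2.1 := h1
  have h2' : v 2 = γ.1.1.2 := h2
  show v 0 = v 2 * v 1 * (v 2)⁻¹ ↔ γ.2 = U (π γ.1.1.2) • γ.1.2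
  rw [Subtype.ext_iff, Submodule.coe_smul, ← h0'.2, ← h1'.2, ← h2', ← M.conj _ _ h1'.1]
  constructor
  · intro h; rw [h]
  · intro h
    exact M.inj' h0'.1 (by rw [map_mul, map_mul, h1'.1, mul_one, map_inv, mul_inv_cancel]) h

/-- the relation between a group element and an element of the module -/
theorem MD.repM : R2 (sG x) (M.sM hπ hker) (fun g z => π g = 1 ∧ M.μ g = z.1) := by
  refine R2.mk' ?_
  have h1 : R2 (sG x) (sG x) (fun g a => π g = 1 ∧ g = a) := by
    intro Γ c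
    exact ((kerR hker).app DcF.var.wk).and (Dc.eq DcF.var.wk DcF.var)
  refine Dc.via (fun n => n) (h1 _ c0) (fun v γ hc => ?_)
  obtain ⟨h0, h1, h2⟩ := hc
  refine ⟨(((), v 1), v 0), ⟨rfl, rfl, trivial⟩, ?_⟩
  have h0' : π (v 0) = 1 ∧ M.μ (v 0) = γ.2.1 := h0
  have h1' : v 1 = γ.1.2 := h1
  show (π (v 1) = 1 ∧ v 1 = v 0) ↔ (π γ.1.2 = 1 ∧ M.μ γ.1.2 = γ.2.1)
  rw [← h0'.2, h1']
  constructor
  · rintro ⟨h, h'⟩; exact ⟨h, by rw [h']⟩
  · rintro ⟨h, h'⟩; exact ⟨h, M.inj' h h0'.1 h'⟩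

theorem MD.zeroM : DcF c (M.sM hπ hker) (fun _ => 0) := by
  refine Dc.iff (fun p => ?_) (Dc.eq (s := M.sM hπ hker)
    ((M.addM hπ hker).app (DcF.var (c := c)) DcF.var) DcF.var)
  constructor
  · intro h; simpa using h
  · intro h; rw [h]; simp

end

end Pool.Agent.H577R3
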