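import Mathlib
import Pool.Agent.H577R3.Mod
import Pool.Agent.H54R3.TaskUNIQ

set_option autoImplicit false

/-! Characterisations of the action of the group ring. -/

namespace Pool.Agent.H577R3

open Pool.Agent.H54R3.Uniq

section

variable {H : Type} [Group H] {k : ℕ}
variable {N : Submodule (MonoidAlgebra ℤ H) (Fin k → MonoidAlgebra ℤ H)}

omit [Group H] in
theorem U_one [Group H] : U (1 : H) = 1 := map_one _

theorem int_ex {M : Type} [AddCommGroup M] [Module (MonoidAlgebra ℤ H) M] (w : H) (z : M) (m : ℕ) :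
    ∃ e f : M, U w • e + z = U (w ^ m) • z + e ∧ m • z + f = e + U w • f := by
  induction m with
  | zero => exact ⟨0, 0, by rw [pow_zero, U_one, one_smul]; simp, by simp⟩
  | succ m ih =>
    obtain ⟨e, f, h1, h2⟩ := ih
    refine ⟨e + U (w ^ m) • z, f - e, ?_, ?_⟩
    · rw [smul_add, smul_smul, ← map_mul, ← pow_succ']
      calc U w • e + U (w ^ (m + 1)) • z + z = (U w • e + z) + U (w ^ (m + 1)) • z := by abel
        _ = _ := by rw [h1]; abel
    · rw [smul_sub, succ_nsmul]
      have h3 : z - U (w ^ m) • z = e - U w • e := by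
        have := h1
        rw [← sub_eq_zero] at this ⊢
        rw [← this]; abel
      have h4 : m • z + f - (e + U w • f) = 0 := by rw [h2]; abel
      rw [← sub_eq_zero]
      calc m • z + z + (f - e) - (e + U (w ^ m) • z + (U w • f - U w • e))
          = (m • z + f - (e + U w • f)) + (z - U (w ^ m) • z) - (e - U w • e) := by abel
        _ = 0 := by rw [h4, h3]; abel

theorem int_iff [NoZeroDivisors (MonoidAlgebra ℤ H)] (u : H) (hu : ∀ j : ℕ, 0 < j → u ^ j ≠ 1)
    (m : ℕ) (z s : N) :
    s = m • z ↔ ∀ j : ℕ, ∃ e f : N, U (u ^ (j + 1)) • e + z = U (u ^ ((j + 1) * m)) • z + e ∧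
      s + f = e + U (u ^ (j + 1)) • f := by
  constructor
  · rintro rfl j
    obtain ⟨e, f, h1, h2⟩ := int_ex (u ^ (j + 1)) z m
    exact ⟨e, f, by rw [pow_mul]; exact h1, h2⟩
  · intro h
    rw [← sub_eq_zero, Subtype.ext_iff]
    refine uniq_int u hu _ (fun j => ?_)
    obtain ⟨e, f, h1, h2⟩ := h j
    obtain ⟨e', f', h1', h2'⟩ := int_ex (u ^ (j + 1)) z m
    rw [pow_mul] at h1
    have h3 : U (u ^ (j + 1)) • (e - e').1 = (e - e').1 := by
      have : U (u ^ (j + 1)) • (e - e') = e - e' := by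
        rw [smul_sub, ← sub_eq_zero]
        calc U (u ^ (j + 1)) • e - U (u ^ (j + 1)) • e' - (e - e')
            = (U (u ^ (j + 1)) • e + z - (U ((u ^ (j + 1)) ^ m) • z + e))
              - (U (u ^ (j + 1)) • e' + z - (U ((u ^ (j + 1)) ^ m) • z + e')) := by abel
          _ = 0 := by rw [h1, h1']; abel
      exact congrArg Subtype.val this
    rcases MD.smul_eq_self h3 with h4 | h4
    · exact absurd h4 (hu _ (Nat.succ_pos j))
    · have h5 : e = e' := by
        rw [← sub_eq_zero]; exact Subtype.ext h4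
      refine ⟨(f - f').1, ?_⟩
      have : s - m • z = U (u ^ (j + 1)) • (f - f') - (f - f') := by
        rw [smul_sub, ← sub_eq_zero]
        calc s - m • z - (U (u ^ (j + 1)) • f - U (u ^ (j + 1)) • f' - (f - f'))
            = (s + f - (e + U (u ^ (j + 1)) • f)) - (m • z + f' - (e' + U (u ^ (j + 1)) • f'))
              + (e - e') := by abel
          _ = 0 := by rw [h2, h2', h5]; abel
      exact congrArg Subtype.val this

/-- the element `∑ v ^ i` of the group ring -/
noncomputable def pv (v : H) (ks : List ℕ) : MonoidAlgebra ℤ H := (ks.map (fun i => U (v ^ i))).sum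

theorem pow_ex1 {M : Type} [AddCommGroup M] [Module (MonoidAlgebra ℤ H) M] (v : H) (A : ℕ) (i : ℕ)
    (z : M) : ∃ f : M, U (v ^ i) • z + A • f = A ^ i • z + U v • f := by
  induction i with
  | zero => exact ⟨0, by rw [pow_zero, U_one, one_smul]; simp⟩
  | succ i ih =>
    obtain ⟨f, hf⟩ := ih
    refine ⟨U v • f + A ^ i • z, ?_⟩
    have h1 : U (v ^ (i + 1)) • z = U v • (U (v ^ i) • z) := by
      rw [smul_smul, ← map_mul, ← pow_succ']
    have h2 : U (v ^ i) • z = A ^ i • z + U v • f - A • f := eq_sub_of_add_eq hf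
    rw [h1, h2, smul_sub, smul_add, smul_add, smul_add, smul_smul A (A ^ i) z, ← pow_succ',
      smul_comm (U v) A f]
    abel

theorem pow_ex {M : Type} [AddCommGroup M] [Module (MonoidAlgebra ℤ H) M] (v : H) (A : ℕ)
    (ks : List ℕ) (z : M) :
    ∃ f : M, pv v ks • z + A • f = (ks.map (fun i => A ^ i)).sum • z + U v • f := by
  induction ks with
  | nil => exact ⟨0, by simp [pv]⟩
  | cons i ks ih =>
    obtain ⟨f, hf⟩ := ih
    obtain ⟨f', hf'⟩ := pow_ex1 v A i z
    refine ⟨f' + f, ?_⟩
    unfold pv at hf ⊢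
    rw [List.map_cons, List.sum_cons, List.map_cons, List.sum_cons, add_smul, add_smul, smul_add,
      smul_add]
    rw [← sub_eq_zero] at hf hf' ⊢
    rw [← add_zero (0 : M)]
    nth_rewrite 1 [← hf]
    nth_rewrite 1 [← hf']
    abel

theorem pow_iff (v : H) (hv : ∀ j : ℕ, 0 < j → v ^ j ≠ 1) (ks : List ℕ) (z s : N) :
    s = pv v ks • z ↔
      ∀ a : ℕ, ∃ f : N, s + (a + 2) • f = (ks.map (fun i => (a + 2) ^ i)).sum • z + U v • f := by
  constructor
  · rintro rfl a
    exact pow_ex v (a + 2) ks z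
  · intro h
    rw [← sub_eq_zero, Subtype.ext_iff]
    refine uniq_pow v hv _ (fun a => ?_)
    obtain ⟨f, hf⟩ := h a
    obtain ⟨f', hf'⟩ := pow_ex v (a + 2) ks z
    refine ⟨(f - f').1, ?_⟩
    have : s - pv v ks • z = U v • (f - f') - (a + 2) • (f - f') := by
      rw [smul_sub, smul_sub, ← sub_eq_zero]
      rw [← sub_eq_zero] at hf hf'
      rw [← sub_zero (0 : N)]
      nth_rewrite 1 [← hf]
      nth_rewrite 1 [← hf']
      abel
    have h2 := congrArg Subtype.val this
    rw [h2]
    push_cast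
    rfl

/-- the element `∑ h` of the group ring -/
noncomputable def zv (hs : List H) : MonoidAlgebra ℤ H := (hs.map (fun h => U h)).sum

/-- sums of elements `(y - 1) e` -/
def JY {M : Type} [AddCommGroup M] [Module (MonoidAlgebra ℤ H) M] {L : ℕ} (Y : Fin L → H) (z : M) :
    Prop :=
  ∃ e : Fin L → M, z = ∑ i, (U (Y i) • e i - e i)

theorem JY.add {M : Type} [AddCommGroup M] [Module (MonoidAlgebra ℤ H) M] {L : ℕ} {Y : Fin L → H}
    {z z' : M} (h : JY Y z) (h' : JY Y z') : JY Y (z + z') := by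
  obtain ⟨e, rfl⟩ := h
  obtain ⟨e', rfl⟩ := h'
  refine ⟨fun i => e i + e' i, ?_⟩
  rw [← Finset.sum_add_distrib]
  refine Finset.sum_congr rfl (fun i _ => ?_)
  beta_reduce
  rw [smul_add]; abel

theorem JY.neg {M : Type} [AddCommGroup M] [Module (MonoidAlgebra ℤ H) M] {L : ℕ} {Y : Fin L → H}
    {z : M} (h : JY Y z) : JY Y (-z) := by
  obtain ⟨e, rfl⟩ := h
  refine ⟨fun i => - e i, ?_⟩
  rw [← Finset.sum_neg_distrib]
  refine Finset.sum_congr rfl (fun i _ => ?_)
  beta_reduce
  rw [smul_neg]; abel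

theorem JY.zero {M : Type} [AddCommGroup M] [Module (MonoidAlgebra ℤ H) M] {L : ℕ} {Y : Fin L → H} :
    JY Y (0 : M) := ⟨0, by simp⟩

theorem JY.mem {M : Type} [AddCommGroup M] [Module (MonoidAlgebra ℤ H) M] {L : ℕ} {Y : Fin L → H}
    {y : H} (hy : y ∈ Subgroup.closure (Set.range Y)) : ∀ z : M, JY Y (U y • z - z) := by
  induction hy using Subgroup.closure_induction with
  | mem y hy =>
    obtain ⟨i, rfl⟩ := hy
    intro z
    refine ⟨Pi.single i z, ?_⟩
    rw [Finset.sum_eq_single i]
    · simp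
    · intro j _ hj; simp [Pi.single_eq_of_ne hj]
    · intro h; exact absurd (Finset.mem_univ i) h
  | one =>
    intro z
    rw [show (U (1 : H)) = 1 from map_one _, one_smul, sub_self]
    exact JY.zero
  | mul y y' _ _ h h' =>
    intro z
    have := (h (U y' • z)).add (h' z)
    rw [smul_smul, ← map_mul] at this
    convert this using 1
    abel
  | inv y _ h =>
    intro z
    have := (h (U y⁻¹ • z)).neg
    rw [smul_smul, ← map_mul, mul_inv_cancel, show (MonoidAlgebra.of ℤ H (1 : H)) = 1 from map_one _,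
      one_smul] at this
    convert this using 1
    abel

theorem sum_ex {M : Type} [AddCommGroup M] [Module (MonoidAlgebra ℤ H) M] {L : ℕ} (Y : Fin L → H)
    (v : H) (hs : List H) (ks : List ℕ)
    (h : List.Forall₂ (fun h i => ∃ y ∈ Subgroup.closure (Set.range Y), h = y * v ^ i) hs ks)
    (z : M) : JY Y (zv hs • z - pv v ks • z) := by
  induction h with
  | nil => simp [zv, pv, JY.zero]
  | @cons h i hs ks hh _ ih =>
    obtain ⟨y, hy, rfl⟩ := hh
    have := (JY.mem hy (U (v ^ i) • z)).add ih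
    rw [smul_smul, ← map_mul] at this
    unfold zv pv at this ⊢
    rw [List.map_cons, List.sum_cons, List.map_cons, List.sum_cons, add_smul, add_smul]
    convert this using 1
    abel

theorem sum_iff {L : ℕ} (hL : SepProp H L) (hs : List H) (z s : N) :
    s = zv hs • z ↔ ∀ (Y : Fin L → H) (v : H) (ks : List ℕ), v ≠ 1 →
      List.Forall₂ (fun h i => ∃ y ∈ Subgroup.closure (Set.range Y), h = y * v ^ i) hs ks →
      JY Y (s - pv v ks • z) := by
  constructor
  · rintro rfl Y v ks _ hf
    exact sum_ex Y v hs ks hf z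
  · intro h
    rw [← sub_eq_zero, Subtype.ext_iff]
    refine uniq_sum hL _ (fun Y v hv hY => ?_)
    choose f hf using hY
    have h1 : List.Forall₂ (fun h i => ∃ y ∈ Subgroup.closure (Set.range Y), h = y * v ^ i) hs
        (hs.map f) := by
      rw [List.forall₂_map_right_iff, List.forall₂_same]
      exact fun h _ => hf h
    have h2 := (h Y v _ hv h1).add (sum_ex Y v hs _ h1 z).neg
    obtain ⟨e, he⟩ := h2
    refine ⟨fun i => (e i).1, ?_⟩
    have h3 : s - zv hs • z = ∑ i, (U (Y i) • e i - e i) := by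
      rw [← he]; abel
    have h4 := congrArg Subtype.val h3
    rw [h4]
    rw [Submodule.coe_sum]
    rfl

end

end Pool.Agent.H577R3
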