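import Mathlib
import Pool.Agent.H577R3.Pull

set_option autoImplicit false

/-! Computable operations on words. -/

namespace Pool.Agent.H577R3

open Pool.Agent.Helper967.ArithDef Encodable

/-- words -/
abbrev W (n : ℕ) := List (Fin n × Bool)

section

variable {G : Type} [Group G] {n : ℕ} (x : Fin n → G)

theorem ev_nil : ev x [] = 1 := by
  unfold ev
  exact map_one _

theorem ev_app (l l' : W n) : ev x (l ++ l') = ev x l * ev x l' := by
  unfold ev
  rw [← map_mul, FreeGroup.mul_mk]

theorem ev_cons (a : Fin n × Bool) (l : W n) :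
    ev x (a :: l) = (cond a.2 (x a.1) (x a.1)⁻¹) * ev x l := by
  have : (a :: l : W n) = [a] ++ l := rfl
  rw [this, ev_app]
  congr 1
  unfold ev
  simp

theorem ev_inv (l : W n) : ev x (FreeGroup.invRev l) = (ev x l)⁻¹ := by
  unfold ev
  rw [← map_inv, FreeGroup.inv_mk]

/-- the word `x i ^ j` -/
def pwW (i : Fin n) (j : ℕ) : W n := (List.range j).map (fun _ => (i, true))

theorem ev_pwW (i : Fin n) (j : ℕ) : ev x (pwW i j) = x i ^ j := by
  induction j with
  | zero => rw [pow_zero]; exact ev_nil x
  | succ j ih =>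
    unfold pwW at ih ⊢
    rw [List.range_succ, List.map_append, ev_app, ih, pow_succ]
    congr 1
    show ev x [(i, true)] = x i
    rw [ev_cons, ev_nil]
    simp

/-- powers of a word -/
def powW (w : W n) (j : ℕ) : W n := (List.range j).flatMap (fun _ => w)

theorem ev_powW (w : W n) (j : ℕ) : ev x (powW w j) = ev x w ^ j := by
  induction j with
  | zero => rw [pow_zero]; exact ev_nil x
  | succ j ih =>
    unfold powW at ih ⊢
    rw [List.range_succ, List.flatMap_append, ev_app, ih, pow_succ]
    congr 1
    show ev x (w ++ []) = ev x w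
    rw [List.append_nil]

/-- substitution of words -/
def substW {L : ℕ} (Y : List (W n)) (ω : W L) : W n :=
  ω.flatMap (fun p => cond p.2 (Y.getD p.1 []) (FreeGroup.invRev (Y.getD p.1 [])))

theorem ev_substW {L : ℕ} (Y : List (W n)) (ω : W L) :
    ev x (substW Y ω) = ev (fun i : Fin L => ev x (Y.getD i [])) ω := by
  induction ω with
  | nil => rfl
  | cons a ω ih =>
    have : substW Y (a :: ω) =
      (cond a.2 (Y.getD a.1 []) (FreeGroup.invRev (Y.getD a.1 []))) ++ substW Y ω := rfl
    rw [this, ev_app, ih, ev_cons]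
    congr 1
    cases a.2
    · exact ev_inv x _
    · rfl

theorem ev_surj (hx : Subgroup.closure (Set.range x) = ⊤) (g : G) : ∃ w : W n, ev x w = g := by
  have h1 : g ∈ (FreeGroup.lift x).range := by
    rw [FreeGroup.range_lift_eq_closure, hx]
    trivial
  obtain ⟨f, rfl⟩ := h1
  exact ⟨f.toWord, by unfold ev; rw [FreeGroup.mk_toWord]⟩

theorem mem_closure_iff (g : G) : g ∈ Subgroup.closure (Set.range x) ↔ ∃ w : W n, ev x w = g := by
  rw [← FreeGroup.range_lift_eq_closure]
  constructor
  · rintro ⟨f, rfl⟩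
    exact ⟨f.toWord, by unfold ev; rw [FreeGroup.mk_toWord]⟩
  · rintro ⟨w, rfl⟩
    exact ⟨_, rfl⟩

/-- conjugates of words -/
def conjW (h w : W n) : W n := h ++ w ++ FreeGroup.invRev h

theorem ev_conjW (h w : W n) : ev x (conjW h w) = ev x h * ev x w * (ev x h)⁻¹ := by
  unfold conjW
  rw [ev_app, ev_app, ev_inv]

end

/-! ### computability -/

section

variable {n : ℕ}

theorem primrec_invRev : Primrec (FreeGroup.invRev : W n → W n) := WP.primrec_invRev n

theorem primrec_pwW (i : Fin n) : Primrec (pwW i) :=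
  Primrec.list_map Primrec.list_range (Primrec₂.const _)

theorem primrec_powW : Primrec₂ (powW (n := n)) :=
  Primrec.list_flatMap (Primrec.list_range.comp Primrec.snd) (Primrec.fst.comp Primrec.fst)

theorem primrec_substW {L : ℕ} : Primrec₂ (substW (n := n) (L := L)) := by
  have h1 : Primrec₂ (fun (q : List (W n) × W L) (p : Fin L × Bool) => q.1.getD p.1 []) := by
    refine (Primrec.list_getD (α := W n) []).comp (Primrec.fst.comp Primrec.fst) ?_
    exact (Primrec.fin_val).comp (Primrec.fst.comp Primrec.snd)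
  refine Primrec.list_flatMap Primrec.snd ?_
  exact Primrec.cond (Primrec.snd.comp Primrec.snd) h1 (primrec_invRev.comp h1)

theorem primrec_conjW : Primrec₂ (conjW (n := n)) :=
  Primrec.list_append.comp (Primrec.list_append.comp Primrec.fst Primrec.snd)
    (primrec_invRev.comp Primrec.fst)

theorem primrec_pow : Primrec₂ (fun a b : ℕ => a ^ b) := by
  have h : Primrec (fun p : ℕ × ℕ => (Nat.rec 1 (fun _ m => m * p.1) p.2 : ℕ)) := by
    refine Primrec.nat_rec' (f := fun p : ℕ × ℕ => p.2) (g := fun _ => 1)
      (h := fun (p : ℕ × ℕ) (q : ℕ × ℕ) => q.2 * p.1) Primrec.snd (Primrec.const 1) ?_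
    exact Primrec.nat_mul.comp (Primrec.snd.comp Primrec.snd) (Primrec.fst.comp Primrec.fst)
  refine h.of_eq (fun p => ?_)
  obtain ⟨a, b⟩ := p
  induction b with
  | zero => rfl
  | succ b ih =>
    show (Nat.rec 1 (fun _ m => m * a) b : ℕ) * a = a ^ (b + 1)
    rw [pow_succ]
    exact congrArg (· * a) ih

theorem primrec_sum {α : Type} [Primcodable α] {f : α → List ℕ} (hf : Primrec f) :
    Primrec (fun a => (f a).sum) := by
  have h : Primrec (fun a => (f a).foldr (fun b s => b + s) 0) := by
    refine Primrec.list_foldr (h := fun _ (p : ℕ × ℕ) => p.1 + p.2) hf (Primrec.const 0) ?_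
    exact Primrec.nat_add.comp (Primrec.fst.comp Primrec.snd) (Primrec.snd.comp Primrec.snd)
  refine h.of_eq (fun a => ?_)
  rfl

/-- sum of powers -/
def spw (a : ℕ) (ks : List ℕ) : ℕ := (ks.map (fun i => (a + 2) ^ i)).sum

theorem primrec_spw : Primrec₂ spw := by
  refine primrec_sum (Primrec.list_map Primrec.snd ?_)
  exact primrec_pow.comp (Primrec.nat_add.comp (Primrec.fst.comp Primrec.fst) (Primrec.const 2))
    Primrec.snd

end

section

variable {G : Type} [Group G] {P : Type} {x : P → G} {sN : Srt x ℕ} {hN : ArithS sN}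
variable {α β δ : Type} [Primcodable α] [Primcodable β] [Primcodable δ]

/-- computable predicates are definable -/
theorem R1.comp {p : α → Prop} [DecidablePred p] (hp : Computable (fun a => decide (p a))) :
    R1 (sC hN α) p := by
  intro Γ c
  refine Dc.iff (fun q => ?_) (Dc.eq ((F1.comp (hN := hN) hp) _ c) (DcF.constC true))
  simp

theorem R2.comp {p : α → β → Prop} [∀ a b, Decidable (p a b)]
    (hp : Computable₂ (fun a b => decide (p a b))) : R2 (sC hN α) (sC hN β) p := by
  intro Γ c
  refine Dc.iff (fun q => ?_) (Dc.eq ((F2.comp (hN := hN) hp) _ c) (DcF.constC true))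
  simp

end

end Pool.Agent.H577R3
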