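import Mathlib
import Pool.Agent.H577R3.Sem
import Pool.Agent.H577R3.Wrd

set_option autoImplicit false

/-! Definability of the action of the group ring on the module. -/

namespace Pool.Agent.H577R3

open Pool.Agent.Helper967.ArithDef Encodable

section

variable {G H : Type} [Group G] [Group H] {n k L : ℕ} {x : Fin n → G} {π : G →* H}
variable (M : MD π k) (hπ : Function.Surjective π) (hker : Dg x (fun v => π (v 0) = 1))
variable {sN : Srt x ℕ} {hN : ArithS sN}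
variable (hE : R2 (sC hN (W n)) (sG x) (fun w g => π g = π (ev x w)))

include hE

/-- the word problem modulo the kernel -/
theorem E1def : R1 (sC hN (W n)) (fun w => π (ev x w) = 1) := by
  intro Γ c
  refine Dc.iff (fun p => ?_) (hE.app DcF.var oneG)
  rw [map_one]
  exact eq_comm

/-- the action of words -/
theorem actW : F2 (sC hN (W n)) (M.sM hπ hker) (M.sM hπ hker)
    (fun w z => U (π (ev x w)) • z) := by
  intro Γ c
  refine Dc.iff (fun p => ?_) (Dc.ex (sG x)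
    (Q := fun (p : ((Γ × W n) × M.N hπ) × M.N hπ) g =>
      π g = π (ev x p.1.1.2) ∧ p.2 = U (π g) • p.1.2) ?_)
  · constructor
    · rintro ⟨g, h1, h2⟩
      rw [h2, h1]
    · intro h
      exact ⟨_, rfl, h⟩
  · exact (hE.app (DcF.var.wk.wk.wk) DcF.var).and
      (Dc.eq DcF.var.wk ((M.actG hπ hker).app DcF.var DcF.var.wk.wk))

/-- multiples -/
theorem actI [NoZeroDivisors (MonoidAlgebra ℤ H)] (i : Fin n)
    (hi : ∀ j : ℕ, 0 < j → π (x i) ^ j ≠ 1) :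
    F2 (sC hN ℕ) (M.sM hπ hker) (M.sM hπ hker) (fun m z => m • z) := by
  intro Γ c
  refine Dc.iff (fun p => (int_iff (π (x i)) hi p.1.1.2 p.1.2 p.2).symm) ?_
  have hm : F2 (sC hN ℕ) (sC hN ℕ) (sC hN ℕ) (fun a b => (a + 1) * b) :=
    F2.comp (Primrec.to_comp (Primrec.nat_mul.comp (Primrec.succ.comp Primrec.fst) Primrec.snd))
  have hp : F1 (sC hN ℕ) (sC hN (W n)) (pwW i) := F1.comp (primrec_pwW i).to_comp
  have hs : F1 (sC hN ℕ) (sC hN ℕ) Nat.succ := F1.comp Primrec.succ.to_comp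
  have hpow : ∀ j : ℕ, π (ev x (pwW i j)) = π (x i) ^ j := fun j => by rw [ev_pwW, map_pow]
  refine Dc.all (sC hN ℕ) (Q := fun (p : ((Γ × ℕ) × M.N hπ) × M.N hπ) (j : ℕ) =>
    ∃ e f : M.N hπ, U (π (x i) ^ (j + 1)) • e + p.1.2 = U (π (x i) ^ ((j + 1) * p.1.1.2)) • p.1.2 + e ∧
      p.2 + f = e + U (π (x i) ^ (j + 1)) • f) ?_
  refine Dc.ex (M.sM hπ hker) (Q := fun (p : (((Γ × ℕ) × M.N hπ) × M.N hπ) × ℕ) (e : M.N hπ) =>
    ∃ f : M.N hπ, U (π (x i) ^ (p.2 + 1)) • e + p.1.1.2 =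
        U (π (x i) ^ ((p.2 + 1) * p.1.1.1.2)) • p.1.1.2 + e ∧
      p.1.2 + f = e + U (π (x i) ^ (p.2 + 1)) • f) ?_
  refine Dc.ex (M.sM hπ hker)
    (Q := fun (p : ((((Γ × ℕ) × M.N hπ) × M.N hπ) × ℕ) × M.N hπ) (f : M.N hπ) =>
    U (π (x i) ^ (p.1.2 + 1)) • p.2 + p.1.1.1.2 =
        U (π (x i) ^ ((p.1.2 + 1) * p.1.1.1.1.2)) • p.1.1.1.2 + p.2 ∧
      p.1.1.2 + f = p.2 + U (π (x i) ^ (p.1.2 + 1)) • f) ?_
  -- variables
  have a := actW M hπ hker hE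
  have ad := M.addM hπ hker
  have vf : DcF (cx (cx (cx (cx (cx (cx c (sC hN ℕ)) (M.sM hπ hker)) (M.sM hπ hker)) (sC hN ℕ))
    (M.sM hπ hker)) (M.sM hπ hker)) (M.sM hπ hker) (fun p => p.2) := DcF.var
  have ve : DcF (cx (cx (cx (cx (cx (cx c (sC hN ℕ)) (M.sM hπ hker)) (M.sM hπ hker)) (sC hN ℕ))
    (M.sM hπ hker)) (M.sM hπ hker)) (M.sM hπ hker) (fun p => p.1.2) := DcF.var.wk
  have vj : DcF (cx (cx (cx (cx (cx (cx c (sC hN ℕ)) (M.sM hπ hker)) (M.sM hπ hker)) (sC hN ℕ))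
    (M.sM hπ hker)) (M.sM hπ hker)) (sC hN ℕ) (fun p => p.1.1.2) := DcF.var.wk.wk
  have vs : DcF (cx (cx (cx (cx (cx (cx c (sC hN ℕ)) (M.sM hπ hker)) (M.sM hπ hker)) (sC hN ℕ))
    (M.sM hπ hker)) (M.sM hπ hker)) (M.sM hπ hker) (fun p => p.1.1.1.2) := DcF.var.wk.wk.wk
  have vz : DcF (cx (cx (cx (cx (cx (cx c (sC hN ℕ)) (M.sM hπ hker)) (M.sM hπ hker)) (sC hN ℕ))
    (M.sM hπ hker)) (M.sM hπ hker)) (M.sM hπ hker) (fun p => p.1.1.1.1.2) := DcF.var.wk.wk.wk.wk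
  have vm : DcF (cx (cx (cx (cx (cx (cx c (sC hN ℕ)) (M.sM hπ hker)) (M.sM hπ hker)) (sC hN ℕ))
    (M.sM hπ hker)) (M.sM hπ hker)) (sC hN ℕ) (fun p => p.1.1.1.1.1.2) := DcF.var.wk.wk.wk.wk.wk
  refine Dc.iff (fun p => ?_) ((Dc.eq (ad.app (a.app (hp.app (hs.app vj)) ve) vz)
    (ad.app (a.app (hp.app (hm.app vj vm)) vz) ve)).and
    (Dc.eq (ad.app vs vf) (ad.app ve (a.app (hp.app (hs.app vj)) vf))))
  simp only [hpow, Nat.succ_eq_add_one]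

/-- powers: the relation -/
theorem actP [NoZeroDivisors (MonoidAlgebra ℤ H)] (i : Fin n)
    (hi : ∀ j : ℕ, 0 < j → π (x i) ^ j ≠ 1) :
    R3 (sC hN (W n × List ℕ)) (M.sM hπ hker) (M.sM hπ hker) (fun q z s =>
      ∀ a : ℕ, ∃ f : M.N hπ, s + (a + 2) • f = spw a q.2 • z + U (π (ev x q.1)) • f) := by
  intro Γ c
  have a := actW M hπ hker hE
  have ad := M.addM hπ hker
  have ai := actI M hπ hker hE i hi
  have h2 : F1 (sC hN ℕ) (sC hN ℕ) (fun a => a + 2) :=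
    F1.comp (Primrec.nat_add.comp Primrec.id (Primrec.const 2)).to_comp
  have hsp : F2 (sC hN ℕ) (sC hN (List ℕ)) (sC hN ℕ) spw := F2.comp primrec_spw.to_comp
  have h1 : F1 (sC hN (W n × List ℕ)) (sC hN (W n)) (fun q => q.1) := F1.comp Primrec.fst.to_comp
  have h1' : F1 (sC hN (W n × List ℕ)) (sC hN (List ℕ)) (fun q => q.2) :=
    F1.comp Primrec.snd.to_comp
  refine Dc.all (sC hN ℕ) (Q := fun (p : ((Γ × (W n × List ℕ)) × M.N hπ) × M.N hπ) (a : ℕ) =>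
    ∃ f : M.N hπ, p.2 + (a + 2) • f = spw a p.1.1.2.2 • p.1.2 + U (π (ev x p.1.1.2.1)) • f) ?_
  refine Dc.ex (M.sM hπ hker)
    (Q := fun (p : (((Γ × (W n × List ℕ)) × M.N hπ) × M.N hπ) × ℕ) (f : M.N hπ) =>
    p.1.2 + (p.2 + 2) • f = spw p.2 p.1.1.1.2.2 • p.1.1.2 + U (π (ev x p.1.1.1.2.1)) • f) ?_
  have vf : DcF (cx (cx (cx (cx (cx c (sC hN (W n × List ℕ))) (M.sM hπ hker)) (M.sM hπ hker))
    (sC hN ℕ)) (M.sM hπ hker)) (M.sM hπ hker) (fun p => p.2) := DcF.var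
  have va : DcF (cx (cx (cx (cx (cx c (sC hN (W n × List ℕ))) (M.sM hπ hker)) (M.sM hπ hker))
    (sC hN ℕ)) (M.sM hπ hker)) (sC hN ℕ) (fun p => p.1.2) := DcF.var.wk
  have vs : DcF (cx (cx (cx (cx (cx c (sC hN (W n × List ℕ))) (M.sM hπ hker)) (M.sM hπ hker))
    (sC hN ℕ)) (M.sM hπ hker)) (M.sM hπ hker) (fun p => p.1.1.2) := DcF.var.wk.wk
  have vz : DcF (cx (cx (cx (cx (cx c (sC hN (W n × List ℕ))) (M.sM hπ hker)) (M.sM hπ hker))
    (sC hN ℕ)) (M.sM hπ hker)) (M.sM hπ hker) (fun p => p.1.1.1.2) := DcF.var.wk.wk.wk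
  have vq : DcF (cx (cx (cx (cx (cx c (sC hN (W n × List ℕ))) (M.sM hπ hker)) (M.sM hπ hker))
    (sC hN ℕ)) (M.sM hπ hker)) (sC hN (W n × List ℕ)) (fun p => p.1.1.1.1.2) :=
    DcF.var.wk.wk.wk.wk
  exact Dc.eq (ad.app vs (ai.app (h2.app va) vf))
    (ad.app (ai.app (hsp.app va (h1'.app vq)) vz) (a.app (h1.app vq) vf))

end

end Pool.Agent.H577R3
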