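import Mathlib
import Pool.Agent.H577R3.Act

set_option autoImplicit false

/-! Definability of the action of sums of words on the module. -/

namespace Pool.Agent.H577R3

open Pool.Agent.Helper967.ArithDef Encodable

section

variable {G H : Type} [Group G] [Group H] {n k L : ℕ} {x : Fin n → G} {π : G →* H}
variable (M : MD π k) (hπ : Function.Surjective π) (hker : Dg x (fun v => π (v 0) = 1))
variable {sN : Srt x ℕ} {hN : ArithS sN}
variable (hE : R2 (sC hN (W n)) (sG x) (fun w g => π g = π (ev x w)))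

/-- the elements of `H` given by the first `l` words -/
def Yw (x : Fin n → G) (π : G →* H) (l : ℕ) (Y : List (W n)) : Fin l → H :=
  fun i => π (ev x (Y.getD i []))

theorem JY_zero {M : Type} [AddCommGroup M] [Module (MonoidAlgebra ℤ H) M] (Y : List (W n)) (z : M) :
    JY (Yw x π 0 Y) z ↔ z = 0 := by
  constructor
  · rintro ⟨e, rfl⟩; simp
  · rintro rfl; exact JY.zero

theorem JY_succ {M : Type} [AddCommGroup M] [Module (MonoidAlgebra ℤ H) M] (l : ℕ)
    (Y : List (W n)) (z : M) :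
    JY (Yw x π (l + 1) Y) z ↔ ∃ e : M, ∃ z' : M, JY (Yw x π l Y) z' ∧
      z + e = z' + U (π (ev x (Y.getD l []))) • e := by
  constructor
  · rintro ⟨e, rfl⟩
    refine ⟨e (Fin.last l), _, ⟨fun i => e i.castSucc, rfl⟩, ?_⟩
    rw [Fin.sum_univ_castSucc]
    have : Yw x π (l + 1) Y (Fin.last l) = π (ev x (Y.getD l [])) := rfl
    rw [this, add_assoc, sub_add_cancel]
    rfl
  · rintro ⟨e, _, ⟨f, rfl⟩, h⟩
    refine ⟨Fin.snoc f e, ?_⟩
    rw [Fin.sum_univ_castSucc]
    simp only [Fin.snoc_castSucc, Fin.snoc_last]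
    have : Yw x π (l + 1) Y (Fin.last l) = π (ev x (Y.getD l [])) := rfl
    rw [this, ← add_sub_assoc]
    exact eq_sub_of_add_eq h

include hE

theorem JYdef : ∀ l : ℕ, R2 (sC hN (List (W n))) (M.sM hπ hker)
    (fun Y z => JY (Yw x π l Y) z) := by
  intro l
  induction l with
  | zero =>
    intro Γ c
    refine Dc.iff (fun p => (JY_zero _ _).symm) (Dc.eq DcF.var (M.zeroM hπ hker))
  | succ l ih =>
    intro Γ c
    refine Dc.iff (fun p => (JY_succ l p.1.2 p.2).symm) ?_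
    have a := actW M hπ hker hE
    have ad := M.addM hπ hker
    have hg : F1 (sC hN (List (W n))) (sC hN (W n)) (fun Y => Y.getD l []) :=
      F1.comp ((Primrec.list_getD (α := W n) []).comp Primrec.id (Primrec.const l)).to_comp
    refine Dc.ex (M.sM hπ hker)
      (Q := fun (p : (Γ × List (W n)) × M.N hπ) (e : M.N hπ) => ∃ z' : M.N hπ,
        JY (Yw x π l p.1.2) z' ∧ p.2 + e = z' + U (π (ev x (p.1.2.getD l []))) • e) ?_
    refine Dc.ex (M.sM hπ hker)
      (Q := fun (p : ((Γ × List (W n)) × M.N hπ) × M.N hπ) (z' : M.N hπ) =>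
        JY (Yw x π l p.1.1.2) z' ∧ p.1.2 + p.2 = z' + U (π (ev x (p.1.1.2.getD l []))) • p.2) ?_
    exact (ih.app DcF.var.wk.wk.wk DcF.var).and (Dc.eq (ad.app DcF.var.wk.wk DcF.var.wk)
      (ad.app DcF.var (a.app (hg.app DcF.var.wk.wk.wk) DcF.var.wk)))

omit hE in
/-- the test word for the membership of the `i`-th element in `⟨Y⟩ v ^ k i` -/
def tstW (L : ℕ) (Rl : List (W n)) (q : List (W n) × (W n × List ℕ)) (i : ℕ) (ω : W L) : W n :=
  Rl.getD i [] ++ FreeGroup.invRev (substW q.1 ω ++ powW q.2.1 (q.2.2.getD i 0))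

omit hE in
theorem ev_tstW (Rl : List (W n)) (q : List (W n) × (W n × List ℕ)) (i : ℕ) (ω : W L) :
    π (ev x (tstW L Rl q i ω)) = 1 ↔ π (ev x (Rl.getD i [])) =
      ev (Yw x π L q.1) ω * π (ev x q.2.1) ^ (q.2.2.getD i 0) := by
  unfold tstW
  rw [ev_app, ev_inv, ev_app, ev_powW, ev_substW, map_mul, map_inv, mul_inv_eq_one, map_mul,
    map_pow, ev_map (fun i : Fin L => ev x (q.1.getD i [])) π ω]
  rfl

omit hE in
theorem primrec_tstW : Primrec (fun p : ((List (W n) × (List (W n) × (W n × List ℕ))) × ℕ) × W L =>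
    tstW L p.1.1.1 p.1.1.2 p.1.2 p.2) := by
  unfold tstW
  refine Primrec.list_append.comp ?_ (primrec_invRev.comp (Primrec.list_append.comp ?_ ?_))
  · exact (Primrec.list_getD (α := W n) []).comp (Primrec.fst.comp (Primrec.fst.comp Primrec.fst))
      (Primrec.snd.comp Primrec.fst)
  · exact primrec_substW.comp (Primrec.fst.comp (Primrec.snd.comp (Primrec.fst.comp Primrec.fst)))
      Primrec.snd
  · exact primrec_powW.comp (Primrec.fst.comp (Primrec.snd.comp (Primrec.snd.comp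
      (Primrec.fst.comp Primrec.fst))))
      ((Primrec.list_getD (α := ℕ) 0).comp (Primrec.snd.comp (Primrec.snd.comp (Primrec.snd.comp
        (Primrec.fst.comp Primrec.fst)))) (Primrec.snd.comp Primrec.fst))

omit hE in
theorem sum_iff' (hx : Subgroup.closure (Set.range x) = ⊤) (hL : SepProp H L)
    (ht : ∀ v : H, v ≠ 1 → ∀ j : ℕ, 0 < j → v ^ j ≠ 1) (Rl : List (W n)) (z s : M.N hπ) :
    s = zv (Rl.map (fun w => π (ev x w))) • z ↔ ∀ q : List (W n) × (W n × List ℕ),
      π (ev x q.2.1) ≠ 1 → Rl.length = q.2.2.length →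
      (∀ i : ℕ, i < Rl.length → ∃ ω : W L, π (ev x (tstW L Rl q i ω)) = 1) →
      ∃ b : M.N hπ, (∀ a : ℕ, ∃ f : M.N hπ,
          b + (a + 2) • f = spw a q.2.2 • z + U (π (ev x q.2.1)) • f) ∧
        ∃ b' : M.N hπ, JY (Yw x π L q.1) b' ∧ s = b + b' := by
  rw [sum_iff hL]
  constructor
  · intro h q hv hl hq
    refine ⟨pv (π (ev x q.2.1)) q.2.2 • z, ?_, s - pv (π (ev x q.2.1)) q.2.2 • z, ?_, ?_⟩
    · exact (pow_iff _ (ht _ hv) q.2.2 z _).1 rfl
    · refine h _ _ _ hv ?_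
      rw [List.forall₂_iff_get]
      refine ⟨by rw [List.length_map]; exact hl, fun i h1 h2 => ?_⟩
      rw [List.length_map] at h1
      obtain ⟨ω, hω⟩ := hq i h1
      rw [ev_tstW] at hω
      refine ⟨ev (Yw x π L q.1) ω, (mem_closure_iff _ _).2 ⟨ω, rfl⟩, ?_⟩
      rw [List.getD_eq_getElem _ _ h1, List.getD_eq_getElem _ _ h2] at hω
      simpa using hω
    · abel
  · intro h Y v ks hv hf
    have hsur : ∀ h : H, ∃ w : W n, π (ev x w) = h := by
      intro h
      obtain ⟨g, rfl⟩ := hπ h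
      obtain ⟨w, rfl⟩ := ev_surj x hx g
      exact ⟨w, rfl⟩
    choose f hf' using hsur
    have hY : Yw x π L (List.ofFn (fun i => f (Y i))) = Y := by
      funext i
      unfold Yw
      rw [List.getD_eq_getElem _ _ (by rw [List.length_ofFn]; exact i.2)]
      simp [hf']
    obtain ⟨b, h1, b', h2, h3⟩ := h (List.ofFn (fun i => f (Y i)), (f v, ks)) (by rw [hf']; exact hv)
      (by have := hf.length_eq; rwa [List.length_map] at this) (by
        intro i hi
        rw [List.forall₂_iff_get] at hf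
        obtain ⟨hl, hf⟩ := hf
        have hi' : i < ks.length := by rw [← hl, List.length_map]; exact hi
        obtain ⟨y, hy, hy'⟩ := hf i (by rw [List.length_map]; exact hi) hi'
        obtain ⟨ω, rfl⟩ := (mem_closure_iff _ _).1 hy
        refine ⟨ω, ?_⟩
        rw [ev_tstW, hY, hf', List.getD_eq_getElem _ _ hi, List.getD_eq_getElem _ _ hi']
        simpa using hy')
    dsimp only at h1 h2 h3
    rw [hf'] at h1
    rw [hY] at h2
    have h4 := (pow_iff v (ht v hv) ks z b).2 h1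
    rw [h3, h4, add_sub_cancel_left]
    exact h2

/-- the action of sums of words -/
theorem actS [NoZeroDivisors (MonoidAlgebra ℤ H)] (i₀ : Fin n)
    (hi : ∀ j : ℕ, 0 < j → π (x i₀) ^ j ≠ 1) (hx : Subgroup.closure (Set.range x) = ⊤)
    (hL : SepProp H L) (ht : ∀ v : H, v ≠ 1 → ∀ j : ℕ, 0 < j → v ^ j ≠ 1) :
    F2 (sC hN (List (W n))) (M.sM hπ hker) (M.sM hπ hker)
      (fun Rl z => zv (Rl.map (fun w => π (ev x w))) • z) := by
  intro Γ c
  refine Dc.iff (fun p => (sum_iff' M hπ hx hL ht p.1.1.2 p.1.2 p.2).symm) ?_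
  refine Dc.all (sC hN (List (W n) × (W n × List ℕ)))
    (Q := fun (p : ((Γ × List (W n)) × M.N hπ) × M.N hπ) (q : List (W n) × (W n × List ℕ)) =>
      π (ev x q.2.1) ≠ 1 → p.1.1.2.length = q.2.2.length →
      (∀ i : ℕ, i < p.1.1.2.length → ∃ ω : W L, π (ev x (tstW L p.1.1.2 q i ω)) = 1) →
      ∃ b : M.N hπ, (∀ a : ℕ, ∃ f : M.N hπ,
          b + (a + 2) • f = spw a q.2.2 • p.1.2 + U (π (ev x q.2.1)) • f) ∧
        ∃ b' : M.N hπ, JY (Yw x π L q.1) b' ∧ p.2 = b + b') ?_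
  have e1 := E1def hE
  have ap := actP M hπ hker hE i₀ hi
  have ad := M.addM hπ hker
  have jy := JYdef M hπ hker hE L
  have c1 : F1 (sC hN (List (W n) × (W n × List ℕ))) (sC hN (W n)) (fun q => q.2.1) :=
    F1.comp (Primrec.fst.comp Primrec.snd).to_comp
  have c2 : F1 (sC hN (List (W n) × (W n × List ℕ))) (sC hN (W n × List ℕ)) (fun q => q.2) :=
    F1.comp Primrec.snd.to_comp
  have c3 : F1 (sC hN (List (W n) × (W n × List ℕ))) (sC hN (List (W n))) (fun q => q.1) :=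
    F1.comp Primrec.fst.to_comp
  have c4 : R2 (sC hN (List (W n))) (sC hN (List (W n) × (W n × List ℕ)))
      (fun Rl q => Rl.length = q.2.2.length) := by
    refine R2.comp (Primrec.to_comp ?_)
    exact (Primrec.eq.comp (Primrec.list_length.comp Primrec.fst)
      (Primrec.list_length.comp (Primrec.snd.comp (Primrec.snd.comp Primrec.snd)))).decide
  have c5 : R2 (sC hN ℕ) (sC hN (List (W n))) (fun i Rl => i < Rl.length) := by
    refine R2.comp (Primrec.to_comp ?_)
    exact (Primrec.nat_lt.comp Primrec.fst (Primrec.list_length.comp Primrec.snd)).decide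
  have c6 : F1 (sC hN (((List (W n) × (List (W n) × (W n × List ℕ))) × ℕ) × W L)) (sC hN (W n))
      (fun p => tstW L p.1.1.1 p.1.1.2 p.1.2 p.2) := F1.comp primrec_tstW.to_comp
  refine Dc.imp (Dc.not (e1.app (c1.app DcF.var))) (Dc.imp (c4.app DcF.var.wk.wk.wk DcF.var)
    (Dc.imp ?_ ?_))
  · refine Dc.all (sC hN ℕ)
      (Q := fun (p : (((Γ × List (W n)) × M.N hπ) × M.N hπ) × (List (W n) × (W n × List ℕ)))
        (i : ℕ) => i < p.1.1.1.2.length → ∃ ω : W L, π (ev x (tstW L p.1.1.1.2 p.2 i ω)) = 1) ?_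
    refine Dc.imp (c5.app DcF.var DcF.var.wk.wk.wk.wk) ?_
    refine Dc.ex (sC hN (W L))
      (Q := fun (p : ((((Γ × List (W n)) × M.N hπ) × M.N hπ) × (List (W n) × (W n × List ℕ))) × ℕ)
        (ω : W L) => π (ev x (tstW L p.1.1.1.1.2 p.1.2 p.2 ω)) = 1) ?_
    exact e1.app (c6.app (F2.pair.app (F2.pair.app (F2.pair.app DcF.var.wk.wk.wk.wk.wk
      DcF.var.wk.wk) DcF.var.wk) DcF.var))
  · refine Dc.ex (M.sM hπ hker)
      (Q := fun (p : (((Γ × List (W n)) × M.N hπ) × M.N hπ) × (List (W n) × (W n × List ℕ)))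
        (b : M.N hπ) => (∀ a : ℕ, ∃ f : M.N hπ,
          b + (a + 2) • f = spw a p.2.2.2 • p.1.1.2 + U (π (ev x p.2.2.1)) • f) ∧
        ∃ b' : M.N hπ, JY (Yw x π L p.2.1) b' ∧ p.1.2 = b + b') ?_
    refine Dc.and (ap.app (c2.app DcF.var.wk) DcF.var.wk.wk.wk DcF.var) ?_
    refine Dc.ex (M.sM hπ hker)
      (Q := fun (p : ((((Γ × List (W n)) × M.N hπ) × M.N hπ) × (List (W n) × (W n × List ℕ))) ×
        M.N hπ) (b' : M.N hπ) => JY (Yw x π L p.1.2.1) b' ∧ p.1.1.2 = p.2 + b') ?_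
    exact (jy.app (c3.app DcF.var.wk.wk) DcF.var).and
      (Dc.eq DcF.var.wk.wk.wk (ad.app DcF.var.wk DcF.var))

end

end Pool.Agent.H577R3
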