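import Mathlib
import Pool.Agent.H577R3.Sem
import Pool.Agent.H577R3.Defs4

set_option autoImplicit false

/-! Characterisation of the action of the group ring under the general separation property. -/

namespace Pool.Agent.H577R3

open Pool.Agent.H54R3.Uniq Pool.Agent.Helper777.Prof

theorem uniq_sub {H : Type} [Group H] {k L : ℕ} (Fam : (Fin L → H) → Prop)
    (hs : ∀ T : Finset H, 1 ∉ T → ∃ Y, Fam Y ∧ ∀ t ∈ T, t ∉ Subgroup.closure (Set.range Y))
    (z : Fin k → MonoidAlgebra ℤ H)
    (h : ∀ Y : Fin L → H, Fam Y →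
      ∃ e : Fin L → (Fin k → MonoidAlgebra ℤ H), z = ∑ i, (MonoidAlgebra.of ℤ H (Y i) • e i - e i)) :
    z = 0 := by
  classical
  funext i
  ext h0
  by_contra hne
  have hne' : (z i).coeff h0 ≠ 0 := by simpa using hne
  obtain ⟨Y, hY, hT⟩ := hs (((z i).coeff.support.erase h0).image (fun g => g * h0⁻¹)) (by
    intro h1
    obtain ⟨g, hg, hg1⟩ := Finset.mem_image.mp h1
    exact (Finset.mem_erase.mp hg).1 (mul_inv_eq_one.mp hg1))
  obtain ⟨e, he⟩ := h Y hY
  let w : H → ℤ := fun g => if g * h0⁻¹ ∈ Subgroup.closure (Set.range Y) then 1 else 0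
  have hw : ∀ j, (fun x => w (Y j * x)) = w := by
    intro j
    funext x
    simp only [w]
    congr 1
    apply propext
    rw [mul_assoc]
    exact Subgroup.mul_mem_cancel_left _ (Subgroup.subset_closure ⟨j, rfl⟩)
  have h1 : magnus_ker_L w (z i) = 0 := by
    rw [he, Finset.sum_apply, map_sum]
    refine Finset.sum_eq_zero (fun j _ => ?_)
    simp only [Pi.sub_apply, Pi.smul_apply, smul_eq_mul, map_sub]
    rw [magnus_ker_L_mul, hw, sub_self]
  rw [L_single w (z i) h0] at h1
  · have : w h0 = 1 := by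
      simp only [w]
      rw [if_pos (by simp [Subgroup.one_mem])]
    rw [this] at h1
    exact hne' (by simpa using h1)
  · intro g hg hgne
    simp only [w]
    rw [if_neg]
    apply hT
    exact Finset.mem_image_of_mem _ (Finset.mem_erase.mpr ⟨hgne, Finsupp.mem_support_iff.mpr hg⟩)

/-- the two generators of `subAE` -/
def yAE {H : Type} [Group H] (b v : H) (a e : ℕ) : Fin 2 → H :=
  ![v ^ e * b, b * v * b⁻¹ * (v ^ a)⁻¹]

theorem closure_yAE {H : Type} [Group H] (b v : H) (a e : ℕ) :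
    Subgroup.closure (Set.range (yAE b v a e)) = subAE b v a e := by
  unfold yAE subAE
  rw [Matrix.range_cons, Matrix.range_cons, Matrix.range_empty, Set.union_empty]
  rfl

theorem mono_mem {H : Type} [Group H] {b v : H} (hc : ∀ i : ℕ, Commute v (b ^ i * v * (b ^ i)⁻¹))
    (a e : ℕ) (f : List ℕ) :
    (∃ y ∈ subAE b v a e, mono b v f = y * v ^ pval a f ∧ (∀ i : ℕ, Commute v (b ^ i * y * (b ^ i)⁻¹))) := by
  have hc' : ∀ i m : ℕ, Commute v (b ^ i * v ^ m * (b ^ i)⁻¹) := by
    intro i m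
    have : b ^ i * v ^ m * (b ^ i)⁻¹ = (b ^ i * v * (b ^ i)⁻¹) ^ m := by
      rw [conj_pow]
    rw [this]
    exact (hc i).pow_right m
  induction f with
  | nil =>
    refine ⟨1, one_mem _, ?_, fun i => ?_⟩
    · simp [mono, pval]
    · simp
  | cons c f ih =>
    obtain ⟨y, hy, h1, h2⟩ := ih
    -- `y' = (v ^ e b) y (v ^ e b)⁻¹ * (b v b⁻¹ v⁻ᵃ) ^ m`
    have hby : Commute (v ^ e) (b * y * b⁻¹) := by
      have := h2 1
      rw [pow_one] at this
      exact this.pow_left e
    have hm : Commute (b * v * b⁻¹) (v ^ a) := by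
      have := hc 1
      rw [pow_one] at this
      exact (this.pow_left a).symm
    refine ⟨b * y * b⁻¹ * (b * v * b⁻¹ * (v ^ a)⁻¹) ^ pval a f, ?_, ?_, ?_⟩
    · refine mul_mem ?_ (pow_mem (Subgroup.subset_closure (by simp)) _)
      have h3 : b * y * b⁻¹ = (v ^ e * b) * y * (v ^ e * b)⁻¹ := by
        rw [mul_inv_rev]
        have : v ^ e * (b * y * b⁻¹) * (v ^ e)⁻¹ = b * y * b⁻¹ := by
          rw [hby.eq, mul_inv_cancel_right]
        rw [← this]
        group
      rw [h3]
      have h4 : v ^ e * b ∈ subAE b v a e := Subgroup.subset_closure (by simp)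
      exact mul_mem (mul_mem h4 hy) (inv_mem h4)
    · have h5 : (b * v * b⁻¹ * (v ^ a)⁻¹) ^ pval a f = (b * v * b⁻¹) ^ pval a f * ((v ^ a) ^ pval a f)⁻¹ := by
        rw [(hm.inv_right).mul_pow, inv_pow]
      have h6 : Commute (v ^ c) (b * y * b⁻¹) := by
        have := h2 1
        rw [pow_one] at this
        exact this.pow_left c
      have h7 : Commute (v ^ c) (b * v ^ pval a f * b⁻¹) := by
        have := hc' 1 (pval a f)
        rw [pow_one] at this
        exact this.pow_left c
      show v ^ c * (b * mono b v f * b⁻¹) = _ * v ^ (c + a * pval a f)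
      rw [h1, h5, conj_pow]
      calc v ^ c * (b * (y * v ^ pval a f) * b⁻¹)
          = v ^ c * (b * y * b⁻¹) * (b * v ^ pval a f * b⁻¹) := by group
        _ = (b * y * b⁻¹) * (v ^ c * (b * v ^ pval a f * b⁻¹)) := by rw [h6.eq]; group
        _ = (b * y * b⁻¹) * ((b * v ^ pval a f * b⁻¹) * v ^ c) := by rw [h7.eq]
        _ = b * y * b⁻¹ * (b * v ^ pval a f * b⁻¹ * ((v ^ a) ^ pval a f)⁻¹) * v ^ (c + a * pval a f) := by
          rw [add_comm c, pow_add, pow_mul]
          group
    · intro i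
      have e1 : b ^ i * (b * y * b⁻¹ * (b * v * b⁻¹ * (v ^ a)⁻¹) ^ pval a f) * (b ^ i)⁻¹ =
          (b ^ (i + 1) * y * (b ^ (i + 1))⁻¹) *
          ((b ^ (i + 1) * v * (b ^ (i + 1))⁻¹) * (b ^ i * v ^ a * (b ^ i)⁻¹)⁻¹) ^ pval a f := by
        have e2 : b ^ i * (b * v * b⁻¹ * (v ^ a)⁻¹) ^ pval a f * (b ^ i)⁻¹ =
            ((b ^ (i + 1) * v * (b ^ (i + 1))⁻¹) * (b ^ i * v ^ a * (b ^ i)⁻¹)⁻¹) ^ pval a f := by
          rw [← conj_pow]
          congr 1
          rw [pow_succ]
          group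
        rw [← e2, pow_succ]
        group
      rw [e1]
      exact (h2 (i + 1)).mul_right (((hc (i + 1)).mul_right (hc' i a).inv_right).pow_right _)

section

variable {H : Type} [Group H] {k : ℕ}
variable {N : Submodule (MonoidAlgebra ℤ H) (Fin k → MonoidAlgebra ℤ H)}

theorem mono_iff {b v : H} (hg : Good b v) (F : List (List ℕ)) (z s : N) :
    s = zv (F.map (mono b v)) • z ↔ ∀ a e : ℕ,
      JY (yAE b v (a + 2) e) (s - pv v (F.map (pval (a + 2))) • z) := by
  have hf : ∀ a e : ℕ, List.Forall₂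
      (fun h i => ∃ y ∈ Subgroup.closure (Set.range (yAE b v (a + 2) e)), h = y * v ^ i)
      (F.map (mono b v)) (F.map (pval (a + 2))) := by
    intro a e
    rw [List.forall₂_map_left_iff, List.forall₂_map_right_iff, List.forall₂_same]
    intro f _
    obtain ⟨y, hy, h1, -⟩ := mono_mem hg.2.1 (a + 2) e f
    exact ⟨y, by rw [closure_yAE]; exact hy, h1⟩
  constructor
  · rintro rfl a e
    exact sum_ex _ v _ _ (hf a e) z
  · intro h
    rw [← sub_eq_zero, Subtype.ext_iff]
    refine uniq_sub (fun Y => ∃ a e : ℕ, Y = yAE b v (a + 2) e) ?_ _ ?_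
    · intro T hT
      obtain ⟨a, e, h1⟩ := hg.2.2 T hT
      refine ⟨_, ⟨a, e, rfl⟩, fun t ht => ?_⟩
      rw [closure_yAE]
      exact h1 t ht
    · rintro Y ⟨a, e, rfl⟩
      obtain ⟨f, hf'⟩ := (h a e).add (sum_ex _ v _ _ (hf a e) z).neg
      refine ⟨fun i => (f i).1, ?_⟩
      have h3 : s - zv (F.map (mono b v)) • z =
          ∑ i, (U (yAE b v (a + 2) e i) • f i - f i) := by
        rw [← hf']; abel
      have h4 := congrArg Subtype.val h3
      rw [h4, Submodule.coe_sum]
      rfl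

theorem gsum_ex {M : Type} [AddCommGroup M] [Module (MonoidAlgebra ℤ H) M] {L : ℕ} (Y : Fin L → H)
    (b v : H) (hs : List H) (F : List (List ℕ))
    (h : List.Forall₂ (fun h f => ∃ y ∈ Subgroup.closure (Set.range Y), h = y * mono b v f) hs F)
    (z : M) : JY Y (zv hs • z - zv (F.map (mono b v)) • z) := by
  induction h with
  | nil => simp [zv, JY.zero]
  | @cons h f hs F hh _ ih =>
    obtain ⟨y, hy, rfl⟩ := hh
    have := (JY.mem hy (U (mono b v f) • z)).add ih
    rw [smul_smul, ← map_mul] at this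
    unfold zv at this ⊢
    rw [List.map_cons, List.sum_cons, List.map_cons, List.map_cons, List.sum_cons, add_smul, add_smul]
    convert this using 1
    abel

theorem gsum_iff {L : ℕ} (hL : GSep H L) (hs : List H) (z s : N) :
    s = zv hs • z ↔ ∀ (Y : Fin L → H) (b v : H) (F : List (List ℕ)), Good b v →
      List.Forall₂ (fun h f => ∃ y ∈ Subgroup.closure (Set.range Y), h = y * mono b v f) hs F →
      JY Y (s - zv (F.map (mono b v)) • z) := by
  constructor
  · rintro rfl Y b v F _ hf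
    exact gsum_ex Y b v hs F hf z
  · intro h
    rw [← sub_eq_zero, Subtype.ext_iff]
    refine uniq_sub (fun Y : Fin L → H => ∃ b v : H, Good b v ∧
      ∀ h : H, ∃ f : List ℕ, ∃ y ∈ Subgroup.closure (Set.range Y), h = y * mono b v f) ?_ _ ?_
    · intro T hT
      obtain ⟨Y, b, v, h1, h2, h3⟩ := hL T hT
      exact ⟨Y, ⟨b, v, h1, h2⟩, h3⟩
    · rintro Y ⟨b, v, hg, hY⟩
      choose f hf using hY
      have h1 : List.Forall₂ (fun h f => ∃ y ∈ Subgroup.closure (Set.range Y), h = y * mono b v f) hs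
          (hs.map f) := by
        rw [List.forall₂_map_right_iff, List.forall₂_same]
        exact fun h _ => hf h
      obtain ⟨e, he⟩ := (h Y b v _ hg h1).add (gsum_ex Y b v hs _ h1 z).neg
      refine ⟨fun i => (e i).1, ?_⟩
      have h3 : s - zv hs • z = ∑ i, (U (Y i) • e i - e i) := by
        rw [← he]; abel
      have h4 := congrArg Subtype.val h3
      rw [h4]
      rw [Submodule.coe_sum]
      rfl

end

end Pool.Agent.H577R3
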