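import Mathlib
import Pool.Agent.H577R3.Act2
import Pool.Agent.H577R3.Sem4

set_option autoImplicit false

/-! Definability of the action of the group ring under the general separation property. -/

namespace Pool.Agent.H577R3

open Pool.Agent.Helper967.ArithDef Encodable

/-! ### words -/

section

variable {n : ℕ}

/-- words for the generators of `subAE` -/
def yW (b v : W n) (a e : ℕ) : List (W n) :=
  [powW v e ++ b, b ++ v ++ FreeGroup.invRev b ++ FreeGroup.invRev (powW v a)]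

/-- words for `mono` -/
def monoW (b v : W n) (f : List ℕ) : W n :=
  f.foldr (fun c r => powW v c ++ (b ++ r ++ FreeGroup.invRev b)) []

theorem yW_val {G H : Type} [Group G] [Group H] {x : Fin n → G} {π : G →* H} (b v : W n) (a e : ℕ) :
    Yw x π 2 (yW b v a e) = yAE (π (ev x b)) (π (ev x v)) a e := by
  funext i
  fin_cases i
  · show π (ev x (powW v e ++ b)) = _
    rw [ev_app, ev_powW, map_mul, map_pow]
    rfl
  · show π (ev x (b ++ v ++ FreeGroup.invRev b ++ FreeGroup.invRev (powW v a))) = _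
    rw [ev_app, ev_app, ev_app, ev_inv, ev_inv, ev_powW]
    simp only [map_mul, map_inv, map_pow]
    rfl

theorem monoW_val {G H : Type} [Group G] [Group H] {x : Fin n → G} {π : G →* H} (b v : W n)
    (f : List ℕ) : π (ev x (monoW b v f)) = mono (π (ev x b)) (π (ev x v)) f := by
  induction f with
  | nil => show π (ev x []) = 1; rw [ev_nil, map_one]
  | cons c f ih =>
    show π (ev x (powW v c ++ (b ++ monoW b v f ++ FreeGroup.invRev b))) = _
    rw [ev_app, ev_app, ev_app, ev_powW, ev_inv]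
    simp only [map_mul, map_inv, map_pow, ih]
    rfl

theorem pval_eq (a : ℕ) (f : List ℕ) : pval a f = f.foldr (fun c r => c + a * r) 0 := by
  induction f with
  | nil => rfl
  | cons c f ih =>
    show c + a * pval a f = c + a * _
    rw [ih]

theorem primrec_pval : Primrec₂ pval := by
  have h : Primrec (fun p : ℕ × List ℕ => p.2.foldr (fun c r => c + p.1 * r) 0) := by
    refine Primrec.list_foldr (h := fun (p : ℕ × List ℕ) (q : ℕ × ℕ) => q.1 + p.1 * q.2)
      Primrec.snd (Primrec.const 0) ?_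
    exact Primrec.nat_add.comp (Primrec.fst.comp Primrec.snd)
      (Primrec.nat_mul.comp (Primrec.fst.comp Primrec.fst) (Primrec.snd.comp Primrec.snd))
  exact h.of_eq (fun p => (pval_eq p.1 p.2).symm)

theorem primrec_monoW {α : Type} [Primcodable α] {fb fv : α → W n} {ff : α → List ℕ}
    (hb : Primrec fb) (hv : Primrec fv) (hf : Primrec ff) :
    Primrec (fun a => monoW (fb a) (fv a) (ff a)) := by
  refine Primrec.list_foldr (h := fun (a : α) (q : ℕ × W n) =>
    powW (fv a) q.1 ++ (fb a ++ q.2 ++ FreeGroup.invRev (fb a))) hf (Primrec.const []) ?_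
  exact Primrec.list_append.comp (primrec_powW.comp (hv.comp Primrec.fst)
    (Primrec.fst.comp Primrec.snd)) (Primrec.list_append.comp (Primrec.list_append.comp
      (hb.comp Primrec.fst) (Primrec.snd.comp Primrec.snd))
      (primrec_invRev.comp (hb.comp Primrec.fst)))

theorem primrec_yW {α : Type} [Primcodable α] {fb fv : α → W n} {fa fe : α → ℕ}
    (hb : Primrec fb) (hv : Primrec fv) (ha : Primrec fa) (he : Primrec fe) :
    Primrec (fun a => yW (fb a) (fv a) (fa a) (fe a)) := by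
  refine Primrec.list_cons.comp (Primrec.list_append.comp (primrec_powW.comp hv he) hb)
    (Primrec.list_cons.comp ?_ (Primrec.const []))
  exact Primrec.list_append.comp (Primrec.list_append.comp (Primrec.list_append.comp hb hv)
    (primrec_invRev.comp hb)) (primrec_invRev.comp (primrec_powW.comp hv ha))

/-- commutator of `v` and `b ^ i v b ^ (-i)` -/
def commB (q : W n × W n) (i : ℕ) : W n :=
  (q.2 ++ conjW (powW q.1 i) q.2) ++ FreeGroup.invRev (conjW (powW q.1 i) q.2 ++ q.2)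

theorem primrec_commB : Primrec₂ (commB (n := n)) := by
  have h1 : Primrec (fun p : (W n × W n) × ℕ => conjW (powW p.1.1 p.2) p.1.2) :=
    primrec_conjW.comp (primrec_powW.comp (Primrec.fst.comp Primrec.fst) Primrec.snd)
      (Primrec.snd.comp Primrec.fst)
  exact Primrec.list_append.comp (Primrec.list_append.comp (Primrec.snd.comp Primrec.fst) h1)
    (primrec_invRev.comp (Primrec.list_append.comp h1 (Primrec.snd.comp Primrec.fst)))

theorem commB_val {G H : Type} [Group G] [Group H] {x : Fin n → G} {π : G →* H} (q : W n × W n)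
    (i : ℕ) : π (ev x (commB q i)) = 1 ↔ Commute (π (ev x q.2))
      (π (ev x q.1) ^ i * π (ev x q.2) * (π (ev x q.1) ^ i)⁻¹) := by
  unfold commB
  rw [ev_app, ev_app, ev_inv, ev_app, ev_conjW, ev_powW]
  simp only [map_mul, map_inv, map_pow]
  rw [mul_inv_eq_one]
  rfl

/-- test word for the membership in `subAE` -/
def tAE (p : ((W n × W n) × List (W n)) × ((ℕ × ℕ) × (ℕ × W 2))) : W n :=
  p.1.2.getD p.2.2.1 [] ++
    FreeGroup.invRev (substW (yW p.1.1.1 p.1.1.2 (p.2.1.1 + 2) p.2.1.2) p.2.2.2)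

theorem primrec_tAE : Primrec (tAE (n := n)) := by
  refine Primrec.list_append.comp ((Primrec.list_getD (α := W n) []).comp
    (Primrec.snd.comp Primrec.fst) (Primrec.fst.comp (Primrec.snd.comp Primrec.snd)))
    (primrec_invRev.comp (primrec_substW.comp (primrec_yW ?_ ?_ ?_ ?_) ?_))
  · exact Primrec.fst.comp (Primrec.fst.comp Primrec.fst)
  · exact Primrec.snd.comp (Primrec.fst.comp Primrec.fst)
  · exact Primrec.nat_add.comp (Primrec.fst.comp (Primrec.fst.comp Primrec.snd)) (Primrec.const 2)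
  · exact Primrec.snd.comp (Primrec.fst.comp Primrec.snd)
  · exact Primrec.snd.comp (Primrec.snd.comp Primrec.snd)

end

section

variable {G H : Type} [Group G] [Group H] {n k L : ℕ} {x : Fin n → G} {π : G →* H}

theorem tAE_val (q : W n × W n) (T : List (W n)) (a e j : ℕ) (ω : W 2) :
    π (ev x (tAE ((q, T), ((a, e), (j, ω))))) = 1 ↔
      π (ev x (T.getD j [])) = ev (yAE (π (ev x q.1)) (π (ev x q.2)) (a + 2) e) ω := by
  unfold tAE
  rw [ev_app, ev_inv, ev_substW, map_mul, map_inv, mul_inv_eq_one,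
    ev_map (fun i : Fin 2 => ev x ((yW q.1 q.2 (a + 2) e).getD i [])) π ω]
  rw [← yW_val]
  rfl

theorem good_iff (hx : Subgroup.closure (Set.range x) = ⊤) (hπ : Function.Surjective π)
    (q : W n × W n) : Good (π (ev x q.1)) (π (ev x q.2)) ↔
      (π (ev x q.2) ≠ 1 ∧ (∀ i : ℕ, π (ev x (commB q i)) = 1)) ∧
        ∀ T : List (W n), (∀ j : ℕ, j < T.length → π (ev x (T.getD j [])) ≠ 1) →
          ∃ ae : ℕ × ℕ, ∀ jo : ℕ × W 2, jo.1 < T.length → π (ev x (tAE ((q, T), (ae, jo)))) ≠ 1 := by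
  classical
  have hsur : ∀ h : H, ∃ w : W n, π (ev x w) = h := by
    intro h
    obtain ⟨g, rfl⟩ := hπ h
    obtain ⟨w, rfl⟩ := ev_surj x hx g
    exact ⟨w, rfl⟩
  choose f hf using hsur
  unfold Good
  simp only [commB_val]
  rw [and_assoc]
  refine and_congr_right (fun _ => and_congr_right (fun _ => ?_))
  constructor
  · intro h T hT
    obtain ⟨a, e, h1⟩ := h (T.map (fun w => π (ev x w))).toFinset (by
      rw [List.mem_toFinset]
      intro h2
      obtain ⟨w, hw, hw'⟩ := List.mem_map.1 h2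
      obtain ⟨j, hj, rfl⟩ := List.mem_iff_getElem.1 hw
      exact hT j hj (by rw [List.getD_eq_getElem _ _ hj]; exact hw'))
    refine ⟨(a, e), fun jo hj => ?_⟩
    obtain ⟨j, ω⟩ := jo
    have hj' : j < T.length := hj
    rw [Ne, tAE_val]
    intro h2
    refine h1 (π (ev x (T.getD j []))) ?_ ?_
    · rw [List.mem_toFinset]
      refine List.mem_map.2 ⟨T.getD j [], ?_, rfl⟩
      rw [List.getD_eq_getElem _ _ hj']
      exact List.getElem_mem hj'
    · rw [h2, ← closure_yAE]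
      exact (mem_closure_iff _ _).2 ⟨ω, rfl⟩
  · intro h T hT
    have hlen : ∀ j, j < (T.toList.map f).length →
        ∃ t ∈ T, π (ev x ((T.toList.map f).getD j [])) = t := by
      intro j hj
      have hj' : j < T.toList.length := by rwa [List.length_map] at hj
      refine ⟨T.toList[j], Finset.mem_toList.1 (List.getElem_mem hj'), ?_⟩
      rw [List.getD_eq_getElem _ _ hj]
      simp [hf]
    obtain ⟨⟨a, e⟩, h1⟩ := h (T.toList.map f) (by
      intro j hj h2
      obtain ⟨t, ht, h3⟩ := hlen j hj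
      rw [h2] at h3
      exact hT (h3 ▸ ht))
    refine ⟨a, e, fun t ht hmem => ?_⟩
    rw [← closure_yAE] at hmem
    obtain ⟨ω, hω⟩ := (mem_closure_iff _ _).1 hmem
    obtain ⟨j, hj, hj'⟩ := List.mem_iff_getElem.1 (Finset.mem_toList.2 ht)
    have hj2 : j < (T.toList.map f).length := by rwa [List.length_map]
    refine h1 (j, ω) hj2 ?_
    rw [tAE_val, hω, List.getD_eq_getElem _ _ hj2]
    simp [hf, hj']

variable (M : MD π k) (hπ : Function.Surjective π) (hker : Dg x (fun v => π (v 0) = 1))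
variable {sN : Srt x ℕ} {hN : ArithS sN}
variable (hE : R2 (sC hN (W n)) (sG x) (fun w g => π g = π (ev x w)))

include hE in
theorem goodR (hx : Subgroup.closure (Set.range x) = ⊤) (hπ : Function.Surjective π) :
    R1 (sC hN (W n × W n)) (fun q => Good (π (ev x q.1)) (π (ev x q.2))) := by
  intro Γ c
  have e1 := E1def hE
  refine Dc.iff (fun p => (good_iff hx hπ p.2).symm) ?_
  have p2 : F1 (sC hN (W n × W n)) (sC hN (W n)) (fun q => q.2) := F1.comp Primrec.snd.to_comp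
  have cm : F2 (sC hN (W n × W n)) (sC hN ℕ) (sC hN (W n)) commB := F2.comp primrec_commB.to_comp
  have ta : F1 (sC hN (((W n × W n) × List (W n)) × ((ℕ × ℕ) × (ℕ × W 2)))) (sC hN (W n)) tAE :=
    F1.comp primrec_tAE.to_comp
  have gd : F2 (sC hN (List (W n))) (sC hN ℕ) (sC hN (W n)) (fun T j => T.getD j []) :=
    F2.comp ((Primrec.list_getD (α := W n) []).to_comp)
  have lt : R2 (sC hN ℕ) (sC hN (List (W n))) (fun i Rl => i < Rl.length) := by
    refine R2.comp (Primrec.to_comp ?_)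
    exact (Primrec.nat_lt.comp Primrec.fst (Primrec.list_length.comp Primrec.snd)).decide
  have lt' : R2 (sC hN (ℕ × W 2)) (sC hN (List (W n))) (fun jo Rl => jo.1 < Rl.length) := by
    refine R2.comp (Primrec.to_comp ?_)
    exact (Primrec.nat_lt.comp (Primrec.fst.comp Primrec.fst)
      (Primrec.list_length.comp Primrec.snd)).decide
  refine Dc.and (Dc.and (Dc.not (e1.app (p2.app DcF.var))) ?_) ?_
  · exact Dc.all (sC hN ℕ) (Q := fun (p : Γ × (W n × W n)) (i : ℕ) => π (ev x (commB p.2 i)) = 1)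
      (e1.app (cm.app DcF.var.wk DcF.var))
  · refine Dc.all (sC hN (List (W n))) (Q := fun (p : Γ × (W n × W n)) (T : List (W n)) =>
      (∀ j : ℕ, j < T.length → π (ev x (T.getD j [])) ≠ 1) →
          ∃ ae : ℕ × ℕ, ∀ jo : ℕ × W 2, jo.1 < T.length → π (ev x (tAE ((p.2, T), (ae, jo)))) ≠ 1) ?_
    refine Dc.imp (Dc.all (sC hN ℕ) (Q := fun (p : (Γ × (W n × W n)) × List (W n)) (j : ℕ) =>
      j < p.2.length → π (ev x (p.2.getD j [])) ≠ 1)
      ((lt.app DcF.var DcF.var.wk).imp (Dc.not (e1.app (gd.app DcF.var.wk DcF.var))))) ?_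
    refine Dc.ex (sC hN (ℕ × ℕ)) (Q := fun (p : (Γ × (W n × W n)) × List (W n)) (ae : ℕ × ℕ) =>
      ∀ jo : ℕ × W 2, jo.1 < p.2.length → π (ev x (tAE ((p.1.2, p.2), (ae, jo)))) ≠ 1) ?_
    refine Dc.all (sC hN (ℕ × W 2))
      (Q := fun (p : ((Γ × (W n × W n)) × List (W n)) × (ℕ × ℕ)) (jo : ℕ × W 2) =>
      jo.1 < p.1.2.length → π (ev x (tAE ((p.1.1.2, p.1.2), (p.2, jo)))) ≠ 1) ?_
    exact (lt'.app DcF.var DcF.var.wk.wk).imp (Dc.not (e1.app (ta.app (F2.pair.app
      (F2.pair.app DcF.var.wk.wk.wk DcF.var.wk.wk) (F2.pair.app DcF.var.wk DcF.var)))))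

/-- the relation defining the action of `∑ v ^ i` -/
def PA (N : Submodule (MonoidAlgebra ℤ H) (Fin k → MonoidAlgebra ℤ H)) (x : Fin n → G) (π : G →* H)
    (q : W n × List ℕ) (z s : N) : Prop :=
  ∀ a : ℕ, ∃ f : N, s + (a + 2) • f = spw a q.2 • z + U (π (ev x q.1)) • f

include hE in
theorem actP' [NoZeroDivisors (MonoidAlgebra ℤ H)] (i : Fin n)
    (hi : ∀ j : ℕ, 0 < j → π (x i) ^ j ≠ 1) :
    R3 (sC hN (W n × List ℕ)) (M.sM hπ hker) (M.sM hπ hker) (PA (M.N hπ) x π) :=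
  actP M hπ hker hE i hi

/-- the relation defining the action of `∑ mono b v f` -/
def MA (N : Submodule (MonoidAlgebra ℤ H) (Fin k → MonoidAlgebra ℤ H)) (x : Fin n → G) (π : G →* H)
    (q : (W n × W n) × List (List ℕ)) (z s : N) : Prop :=
  ∀ ae : ℕ × ℕ, ∃ b : N, PA N x π (q.1.2, q.2.map (pval (ae.1 + 2))) z b ∧
    ∃ b' : N, JY (Yw x π 2 (yW q.1.1 q.1.2 (ae.1 + 2) ae.2)) b' ∧ s = b + b'

theorem MA_iff {N : Submodule (MonoidAlgebra ℤ H) (Fin k → MonoidAlgebra ℤ H)}
    (ht : ∀ v : H, v ≠ 1 → ∀ j : ℕ, 0 < j → v ^ j ≠ 1)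
    (q : (W n × W n) × List (List ℕ)) (hg : Good (π (ev x q.1.1)) (π (ev x q.1.2))) (z s : N) :
    s = zv (q.2.map (mono (π (ev x q.1.1)) (π (ev x q.1.2)))) • z ↔ MA N x π q z s := by
  rw [mono_iff hg]
  unfold MA
  constructor
  · intro h ae
    refine ⟨pv (π (ev x q.1.2)) (q.2.map (pval (ae.1 + 2))) • z, ?_,
      s - pv (π (ev x q.1.2)) (q.2.map (pval (ae.1 + 2))) • z, ?_, ?_⟩
    · exact (pow_iff _ (ht _ hg.1) _ z _).1 rfl
    · rw [yW_val]
      exact h ae.1 ae.2
    · abel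
  · intro h a e
    obtain ⟨b, h1, b', h2, h3⟩ := h (a, e)
    have h4 := (pow_iff _ (ht _ hg.1) _ z b).2 h1
    rw [yW_val] at h2
    rw [h3, h4, add_sub_cancel_left]
    exact h2

include hE in
theorem MAdef [NoZeroDivisors (MonoidAlgebra ℤ H)] (i₀ : Fin n)
    (hi : ∀ j : ℕ, 0 < j → π (x i₀) ^ j ≠ 1) :
    R3 (sC hN ((W n × W n) × List (List ℕ))) (M.sM hπ hker) (M.sM hπ hker)
      (MA (M.N hπ) x π) := by
  intro Γ c
  show Dc x _ (fun p : ((Γ × ((W n × W n) × List (List ℕ))) × M.N hπ) × M.N hπ =>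
    ∀ ae : ℕ × ℕ, ∃ b : M.N hπ,
      PA (M.N hπ) x π (p.1.1.2.1.2, p.1.1.2.2.map (pval (ae.1 + 2))) p.1.2 b ∧
    ∃ b' : M.N hπ, JY (Yw x π 2 (yW p.1.1.2.1.1 p.1.1.2.1.2 (ae.1 + 2) ae.2)) b' ∧ p.2 = b + b')
  have ap := actP' M hπ hker hE i₀ hi
  have ad := M.addM hπ hker
  have jy := JYdef M hπ hker hE 2
  have c1 : F2 (sC hN ((W n × W n) × List (List ℕ))) (sC hN (ℕ × ℕ)) (sC hN (W n × List ℕ))
      (fun q ae => (q.1.2, q.2.map (pval (ae.1 + 2)))) := by
    refine F2.comp (Primrec.to_comp ?_)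
    refine Primrec.pair (Primrec.snd.comp (Primrec.fst.comp Primrec.fst)) ?_
    refine Primrec.list_map (Primrec.snd.comp Primrec.fst) ?_
    exact primrec_pval.comp (Primrec.nat_add.comp (Primrec.fst.comp (Primrec.snd.comp Primrec.fst))
      (Primrec.const 2)) Primrec.snd
  have c2 : F2 (sC hN ((W n × W n) × List (List ℕ))) (sC hN (ℕ × ℕ)) (sC hN (List (W n)))
      (fun q ae => yW q.1.1 q.1.2 (ae.1 + 2) ae.2) := by
    refine F2.comp (Primrec.to_comp ?_)
    exact primrec_yW (Primrec.fst.comp (Primrec.fst.comp Primrec.fst))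
      (Primrec.snd.comp (Primrec.fst.comp Primrec.fst))
      (Primrec.nat_add.comp (Primrec.fst.comp Primrec.snd) (Primrec.const 2))
      (Primrec.snd.comp Primrec.snd)
  refine Dc.all (sC hN (ℕ × ℕ))
    (Q := fun (p : ((Γ × ((W n × W n) × List (List ℕ))) × M.N hπ) × M.N hπ) (ae : ℕ × ℕ) =>
    ∃ b : M.N hπ, PA (M.N hπ) x π (p.1.1.2.1.2, p.1.1.2.2.map (pval (ae.1 + 2))) p.1.2 b ∧
    ∃ b' : M.N hπ, JY (Yw x π 2 (yW p.1.1.2.1.1 p.1.1.2.1.2 (ae.1 + 2) ae.2)) b' ∧ p.2 = b + b') ?_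
  refine Dc.ex (M.sM hπ hker)
    (Q := fun (p : (((Γ × ((W n × W n) × List (List ℕ))) × M.N hπ) × M.N hπ) × (ℕ × ℕ))
      (b : M.N hπ) =>
      PA (M.N hπ) x π (p.1.1.1.2.1.2, p.1.1.1.2.2.map (pval (p.2.1 + 2))) p.1.1.2 b ∧
    ∃ b' : M.N hπ, JY (Yw x π 2 (yW p.1.1.1.2.1.1 p.1.1.1.2.1.2 (p.2.1 + 2) p.2.2)) b' ∧
      p.1.2 = b + b') ?_
  refine Dc.and (ap.app (c1.app DcF.var.wk.wk.wk.wk DcF.var.wk) DcF.var.wk.wk.wk DcF.var) ?_
  refine Dc.ex (M.sM hπ hker)
    (Q := fun (p : ((((Γ × ((W n × W n) × List (List ℕ))) × M.N hπ) × M.N hπ) × (ℕ × ℕ)) × M.N hπ)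
      (b' : M.N hπ) => JY (Yw x π 2 (yW p.1.1.1.1.2.1.1 p.1.1.1.1.2.1.2 (p.1.2.1 + 2) p.1.2.2)) b' ∧
      p.1.1.2 = p.2 + b') ?_
  exact (jy.app (c2.app DcF.var.wk.wk.wk.wk.wk DcF.var.wk.wk) DcF.var).and
    (Dc.eq DcF.var.wk.wk.wk (ad.app DcF.var.wk DcF.var))

/-- the test word -/
def tsG (L : ℕ) (Rl : List (W n)) (q : List (W n) × ((W n × W n) × List (List ℕ))) (i : ℕ)
    (ω : W L) : W n :=
  Rl.getD i [] ++ FreeGroup.invRev (substW q.1 ω ++ monoW q.2.1.1 q.2.1.2 (q.2.2.getD i []))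

theorem ev_tsG (Rl : List (W n)) (q : List (W n) × ((W n × W n) × List (List ℕ))) (i : ℕ)
    (ω : W L) :
    π (ev x (tsG L Rl q i ω)) = 1 ↔ π (ev x (Rl.getD i [])) =
      ev (Yw x π L q.1) ω * mono (π (ev x q.2.1.1)) (π (ev x q.2.1.2)) (q.2.2.getD i []) := by
  unfold tsG
  rw [ev_app, ev_inv, ev_app, ev_substW, map_mul, map_inv, mul_inv_eq_one, map_mul,
    monoW_val, ev_map (fun i : Fin L => ev x (q.1.getD i [])) π ω]
  rfl

theorem primrec_tsG : Primrec (fun p : ((List (W n) × (List (W n) ×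
    ((W n × W n) × List (List ℕ)))) × ℕ) × W L => tsG L p.1.1.1 p.1.1.2 p.1.2 p.2) := by
  unfold tsG
  refine Primrec.list_append.comp ?_ (primrec_invRev.comp (Primrec.list_append.comp ?_
    (primrec_monoW ?_ ?_ ?_)))
  · exact (Primrec.list_getD (α := W n) []).comp (Primrec.fst.comp (Primrec.fst.comp Primrec.fst))
      (Primrec.snd.comp Primrec.fst)
  · exact primrec_substW.comp (Primrec.fst.comp (Primrec.snd.comp (Primrec.fst.comp Primrec.fst)))
      Primrec.snd
  · exact Primrec.fst.comp (Primrec.fst.comp (Primrec.snd.comp (Primrec.snd.comp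
      (Primrec.fst.comp Primrec.fst))))
  · exact Primrec.snd.comp (Primrec.fst.comp (Primrec.snd.comp (Primrec.snd.comp
      (Primrec.fst.comp Primrec.fst))))
  · exact (Primrec.list_getD (α := List ℕ) []).comp (Primrec.snd.comp (Primrec.snd.comp
      (Primrec.snd.comp (Primrec.fst.comp Primrec.fst)))) (Primrec.snd.comp Primrec.fst)

theorem gsum_iff' (hx : Subgroup.closure (Set.range x) = ⊤) (hL : GSep H L)
    (ht : ∀ v : H, v ≠ 1 → ∀ j : ℕ, 0 < j → v ^ j ≠ 1) (Rl : List (W n)) (z s : M.N hπ) :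
    s = zv (Rl.map (fun w => π (ev x w))) • z ↔
      ∀ q : List (W n) × ((W n × W n) × List (List ℕ)),
      Good (π (ev x q.2.1.1)) (π (ev x q.2.1.2)) → Rl.length = q.2.2.length →
      (∀ i : ℕ, i < Rl.length → ∃ ω : W L, π (ev x (tsG L Rl q i ω)) = 1) →
      ∃ b : M.N hπ, MA (M.N hπ) x π q.2 z b ∧ ∃ b' : M.N hπ, JY (Yw x π L q.1) b' ∧ s = b + b' := by
  rw [gsum_iff hL]
  constructor
  · intro h q hv hl hq
    refine ⟨zv (q.2.2.map (mono (π (ev x q.2.1.1)) (π (ev x q.2.1.2)))) • z, ?_,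
      s - zv (q.2.2.map (mono (π (ev x q.2.1.1)) (π (ev x q.2.1.2)))) • z, ?_, ?_⟩
    · exact (MA_iff ht q.2 hv z _).1 rfl
    · refine h _ _ _ _ hv ?_
      rw [List.forall₂_iff_get]
      refine ⟨by rw [List.length_map]; exact hl, fun i h1 h2 => ?_⟩
      rw [List.length_map] at h1
      obtain ⟨ω, hω⟩ := hq i h1
      rw [ev_tsG] at hω
      refine ⟨ev (Yw x π L q.1) ω, (mem_closure_iff _ _).2 ⟨ω, rfl⟩, ?_⟩
      rw [List.getD_eq_getElem _ _ h1, List.getD_eq_getElem _ _ h2] at hω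
      simpa using hω
    · abel
  · intro h Y b v F hv hf
    have hsur : ∀ h : H, ∃ w : W n, π (ev x w) = h := by
      intro h
      obtain ⟨g, rfl⟩ := hπ h
      obtain ⟨w, rfl⟩ := ev_surj x hx g
      exact ⟨w, rfl⟩
    choose f hf' using hsur
    have hY : Yw x π L (List.ofFn (fun i => f (Y i))) = Y := by
      funext i
      unfold Yw
      rw [List.getD_eq_getElem _ _ (by rw [List.length_ofFn]; exact i.2)]
      simp [hf']
    obtain ⟨c, h1, b', h2, h3⟩ := h (List.ofFn (fun i => f (Y i)), ((f b, f v), F))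
      (by rw [hf', hf']; exact hv)
      (by have := hf.length_eq; rwa [List.length_map] at this) (by
        intro i hi
        rw [List.forall₂_iff_get] at hf
        obtain ⟨hl, hf⟩ := hf
        have hi' : i < F.length := by rw [← hl, List.length_map]; exact hi
        obtain ⟨y, hy, hy'⟩ := hf i (by rw [List.length_map]; exact hi) hi'
        obtain ⟨ω, rfl⟩ := (mem_closure_iff _ _).1 hy
        refine ⟨ω, ?_⟩
        rw [ev_tsG, hY, hf', hf', List.getD_eq_getElem _ _ hi, List.getD_eq_getElem _ _ hi']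
        simpa using hy')
    have h4 := (MA_iff ht ((f b, f v), F) (by rw [hf', hf']; exact hv) z c).2 h1
    dsimp only at h2 h4
    rw [hf', hf'] at h4
    rw [hY] at h2
    rw [h3, h4, add_sub_cancel_left]
    exact h2

include hE in
/-- the action of sums of words -/
theorem actS4 [NoZeroDivisors (MonoidAlgebra ℤ H)] (i₀ : Fin n)
    (hi : ∀ j : ℕ, 0 < j → π (x i₀) ^ j ≠ 1) (hx : Subgroup.closure (Set.range x) = ⊤)
    (hL : GSep H L) (ht : ∀ v : H, v ≠ 1 → ∀ j : ℕ, 0 < j → v ^ j ≠ 1) :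
    F2 (sC hN (List (W n))) (M.sM hπ hker) (M.sM hπ hker)
      (fun Rl z => zv (Rl.map (fun w => π (ev x w))) • z) := by
  intro Γ c
  refine Dc.iff (fun p => (gsum_iff' M hπ hx hL ht p.1.1.2 p.1.2 p.2).symm) ?_
  refine Dc.all (sC hN (List (W n) × ((W n × W n) × List (List ℕ))))
    (Q := fun (p : ((Γ × List (W n)) × M.N hπ) × M.N hπ)
      (q : List (W n) × ((W n × W n) × List (List ℕ))) =>
      Good (π (ev x q.2.1.1)) (π (ev x q.2.1.2)) → p.1.1.2.length = q.2.2.length →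
      (∀ i : ℕ, i < p.1.1.2.length → ∃ ω : W L, π (ev x (tsG L p.1.1.2 q i ω)) = 1) →
      ∃ b : M.N hπ, MA (M.N hπ) x π q.2 p.1.2 b ∧
        ∃ b' : M.N hπ, JY (Yw x π L q.1) b' ∧ p.2 = b + b') ?_
  have e1 := E1def hE
  have gr := goodR hE hx hπ
  have ma := MAdef M hπ hker hE i₀ hi
  have ad := M.addM hπ hker
  have jy := JYdef M hπ hker hE L
  have c1 : F1 (sC hN (List (W n) × ((W n × W n) × List (List ℕ)))) (sC hN (W n × W n))
      (fun q => q.2.1) := F1.comp (Primrec.fst.comp Primrec.snd).to_comp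
  have c2 : F1 (sC hN (List (W n) × ((W n × W n) × List (List ℕ))))
      (sC hN ((W n × W n) × List (List ℕ))) (fun q => q.2) := F1.comp Primrec.snd.to_comp
  have c3 : F1 (sC hN (List (W n) × ((W n × W n) × List (List ℕ)))) (sC hN (List (W n)))
      (fun q => q.1) := F1.comp Primrec.fst.to_comp
  have c4 : R2 (sC hN (List (W n))) (sC hN (List (W n) × ((W n × W n) × List (List ℕ))))
      (fun Rl q => Rl.length = q.2.2.length) := by
    refine R2.comp (Primrec.to_comp ?_)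
    exact (Primrec.eq.comp (Primrec.list_length.comp Primrec.fst)
      (Primrec.list_length.comp (Primrec.snd.comp (Primrec.snd.comp Primrec.snd)))).decide
  have c5 : R2 (sC hN ℕ) (sC hN (List (W n))) (fun i Rl => i < Rl.length) := by
    refine R2.comp (Primrec.to_comp ?_)
    exact (Primrec.nat_lt.comp Primrec.fst (Primrec.list_length.comp Primrec.snd)).decide
  have c6 : F1 (sC hN (((List (W n) × (List (W n) × ((W n × W n) × List (List ℕ)))) × ℕ) × W L))
      (sC hN (W n)) (fun p => tsG L p.1.1.1 p.1.1.2 p.1.2 p.2) := F1.comp primrec_tsG.to_comp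
  refine Dc.imp (gr.app (c1.app DcF.var)) (Dc.imp (c4.app DcF.var.wk.wk.wk DcF.var)
    (Dc.imp ?_ ?_))
  · refine Dc.all (sC hN ℕ)
      (Q := fun (p : (((Γ × List (W n)) × M.N hπ) × M.N hπ) ×
        (List (W n) × ((W n × W n) × List (List ℕ))))
        (i : ℕ) => i < p.1.1.1.2.length → ∃ ω : W L, π (ev x (tsG L p.1.1.1.2 p.2 i ω)) = 1) ?_
    refine Dc.imp (c5.app DcF.var DcF.var.wk.wk.wk.wk) ?_
    refine Dc.ex (sC hN (W L))
      (Q := fun (p : ((((Γ × List (W n)) × M.N hπ) × M.N hπ) ×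
        (List (W n) × ((W n × W n) × List (List ℕ)))) × ℕ)
        (ω : W L) => π (ev x (tsG L p.1.1.1.1.2 p.1.2 p.2 ω)) = 1) ?_
    exact e1.app (c6.app (F2.pair.app (F2.pair.app (F2.pair.app DcF.var.wk.wk.wk.wk.wk
      DcF.var.wk.wk) DcF.var.wk) DcF.var))
  · refine Dc.ex (M.sM hπ hker)
      (Q := fun (p : (((Γ × List (W n)) × M.N hπ) × M.N hπ) ×
        (List (W n) × ((W n × W n) × List (List ℕ))))
        (b : M.N hπ) => MA (M.N hπ) x π p.2.2 p.1.1.2 b ∧
        ∃ b' : M.N hπ, JY (Yw x π L p.2.1) b' ∧ p.1.2 = b + b') ?_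
    refine Dc.and (ma.app (c2.app DcF.var.wk) DcF.var.wk.wk.wk DcF.var) ?_
    refine Dc.ex (M.sM hπ hker)
      (Q := fun (p : ((((Γ × List (W n)) × M.N hπ) × M.N hπ) ×
        (List (W n) × ((W n × W n) × List (List ℕ)))) ×
        M.N hπ) (b' : M.N hπ) => JY (Yw x π L p.1.2.1) b' ∧ p.1.1.2 = p.2 + b') ?_
    exact (jy.app (c3.app DcF.var.wk.wk) DcF.var).and
      (Dc.eq DcF.var.wk.wk.wk (ad.app DcF.var.wk DcF.var))

end

end Pool.Agent.H577R3
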