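import Mathlib
import Pool.Agent.H577R3.Defs
import Pool.Agent.Helper777.Prof.P_dq_embed
import Pool.Agent.Helper777.Prof.P_k2inj

set_option autoImplicit false

/-! Free solvable groups: centre, infinite order of the generators. -/

namespace Pool.Agent.H577R3

open Pool.Agent.Helper777.Prof

/-- the exponent sum of the generator `i` in the free solvable group of positive class -/
noncomputable def expo {ι : Type} [DecidableEq ι] (d : ℕ) (i : ι) : Dq ι (d + 1) →* Multiplicative ℤ :=
  QuotientGroup.lift _ (FreeGroup.lift (fun j => if j = i then Multiplicative.ofAdd (1 : ℤ) else 1))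
    (by
      intro w hw
      have h1 : derivedSeries (FreeGroup ι) (d + 1) ≤ derivedSeries (FreeGroup ι) 1 :=
        derivedSeries_antitone _ (by omega)
      have h2 : derivedSeries (FreeGroup ι) 1 ≤
          (FreeGroup.lift (fun j => if j = i then Multiplicative.ofAdd (1 : ℤ) else 1) :
            FreeGroup ι →* Multiplicative ℤ).ker := by
        rw [derivedSeries_one]
        exact Abelianization.commutator_subset_ker _
      exact h2 (h1 hw))

theorem expo_gen {ι : Type} [DecidableEq ι] (d : ℕ) (i j : ι) :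
    expo d i (pn ι (d + 1) (FreeGroup.of j)) = if j = i then Multiplicative.ofAdd (1 : ℤ) else 1 := by
  unfold expo pn
  rw [QuotientGroup.mk'_apply, QuotientGroup.lift_mk, FreeGroup.lift_apply_of]

theorem gen_zpow {ι : Type} [DecidableEq ι] (d : ℕ) (i : ι) (n : ℤ)
    (h : (pn ι (d + 1) (FreeGroup.of i)) ^ n = 1) : n = 0 := by
  have h1 := congrArg (expo d i) h
  rw [map_zpow, expo_gen, if_pos rfl, (expo d i).map_one, ← ofAdd_zsmul] at h1
  simpa using h1

theorem center_dq {ι : Type} [DecidableEq ι] [Nontrivial ι] (d : ℕ) :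
    Subgroup.center (Dq ι (d + 2)) = ⊥ := by
  rw [eq_bot_iff]
  intro z hz
  rw [Subgroup.mem_bot]
  obtain ⟨F, hF, hFw⟩ := dq_embed (ι := ι) (d + 1)
  have hx : ∀ i, F (pn ι (d + 2) (FreeGroup.of i)) =
      ⟨Pi.single i 1, pn ι (d + 1) (FreeGroup.of i)⟩ := by
    intro i
    rw [hFw]
    simp [mag]
  have key : ∀ i, (F z).v + (MonoidAlgebra.of ℤ _ (F z).m) • (Pi.single i 1 : ι → MonoidAlgebra ℤ (Dq ι (d + 1))) =
      Pi.single i 1 + (MonoidAlgebra.of ℤ _ (pn ι (d + 1) (FreeGroup.of i))) • (F z).v := by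
    intro i
    have h1 := Subgroup.mem_center_iff.1 hz (pn ι (d + 2) (FreeGroup.of i))
    have h2 := congrArg (fun g => (F g).v) h1
    simp only [map_mul, Wr.mul_v, hx] at h2
    exact h2.symm
  have hv : (F z).v = 0 := by
    funext j
    obtain ⟨i, hij⟩ := exists_ne j
    have h1 := congrFun (key i) j
    simp only [Pi.add_apply, Pi.smul_apply, Pi.single_eq_of_ne hij.symm, smul_eq_mul, mul_zero,
      add_zero, zero_add] at h1
    refine k2inj (pn ι (d + 1) (FreeGroup.of i)) (fun n hn => gen_zpow d i n hn) _ ?_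
    rw [sub_mul, one_mul, sub_eq_zero]
    exact h1.symm
  have hm : (F z).m = 1 := by
    obtain ⟨i⟩ := (inferInstance : Nonempty ι)
    have h1 := congrFun (key i) i
    rw [hv] at h1
    simp only [Pi.add_apply, Pi.smul_apply, Pi.single_eq_same, smul_eq_mul, mul_one, Pi.zero_apply,
      zero_add, mul_zero, add_zero] at h1
    have h2 : MonoidAlgebra.of ℤ (Dq ι (d + 1)) (F z).m = MonoidAlgebra.of ℤ _ 1 := by
      rw [h1, map_one]
    exact MonoidAlgebra.of_injective h2
  apply hF
  rw [map_one]
  ext1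
  · exact hv
  · exact hm

theorem infinite_dq {ι : Type} [DecidableEq ι] [Nonempty ι] (d : ℕ) : Infinite (Dq ι (d + 1)) := by
  obtain ⟨i⟩ := (inferInstance : Nonempty ι)
  refine Infinite.of_injective (fun n : ℤ => (pn ι (d + 1) (FreeGroup.of i)) ^ n) ?_
  intro a b hab
  have h1 : (pn ι (d + 1) (FreeGroup.of i)) ^ (a - b) = 1 := by
    rw [zpow_sub, mul_inv_eq_one]
    exact hab
  have := gen_zpow d i _ h1
  omega

end Pool.Agent.H577R3
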