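import Mathlib
import Pool.Agent.H577R3.Act2

set_option autoImplicit false

/-! Definability of the evaluation of words in the module. -/

namespace Pool.Agent.H577R3

open Pool.Agent.Helper967.ArithDef Encodable

/-- the strong rank condition in dimension `k` -/
def SRCk (H : Type) [Group H] (k : ℕ) : Prop :=
  ∀ v : Fin (k + 1) → Fin k → MonoidAlgebra ℤ H,
    ∃ R : Fin (k + 1) → MonoidAlgebra ℤ H, R ≠ 0 ∧ ∑ j, R j • v j = 0

section

variable {H : Type} [Group H] {k : ℕ}
variable (N : Submodule (MonoidAlgebra ℤ H) (Fin k → MonoidAlgebra ℤ H))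

omit N in
theorem sub_smulN {M : Type} [AddCommGroup M] [Module (MonoidAlgebra ℤ H) M]
    (a b : MonoidAlgebra ℤ H) (z : M) : (a - b) • z = a • z - b • z := sub_smul a b z

omit N in
theorem neg_smulN {M : Type} [AddCommGroup M] [Module (MonoidAlgebra ℤ H) M]
    (a : MonoidAlgebra ℤ H) (z : M) : (-a) • z = -(a • z) := neg_smul a z

/-- independent families -/
def Indep (r : ℕ) (c : Fin r → N) : Prop :=
  ∀ P : Fin r → MonoidAlgebra ℤ H, ∑ j, P j • c j = 0 → P = 0

theorem Indep.le (hS : SRCk H k) {r : ℕ} {c : Fin r → N} (hc : Indep N r c) : r ≤ k := by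
  by_contra hlt
  push Not at hlt
  obtain ⟨R, hR, h0⟩ := hS (fun j => (c (Fin.castLE hlt j)).1)
  apply hR
  obtain ⟨s, rfl⟩ := Nat.exists_eq_add_of_le hlt
  have h1 := hc (fun i => if h : i.1 < k + 1 then R ⟨i.1, h⟩ else 0) (by
    rw [← Submodule.coe_eq_zero]
    rw [← h0, Submodule.coe_sum]
    symm
    refine Finset.sum_of_injOn (Fin.castLE hlt) (Fin.castLE_injective hlt).injOn
      (fun _ _ => Finset.mem_coe.2 (Finset.mem_univ _)) ?_ ?_
    · intro i _ hi
      have : ¬ i.1 < k + 1 := by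
        intro h
        apply hi
        exact ⟨⟨i.1, h⟩, Finset.mem_coe.2 (Finset.mem_univ _), Fin.ext rfl⟩
      rw [dif_neg this, zero_smul]
      rfl
    · intro j _
      have : (Fin.castLE hlt j).1 < k + 1 := j.2
      rw [dif_pos this]
      rfl)
  funext j
  have h2 := congrFun h1 (Fin.castLE hlt j)
  have : (Fin.castLE hlt j).1 < k + 1 := j.2
  rw [dif_pos this] at h2
  exact h2

theorem exists_max (hS : SRCk H k) : ∃ (r : ℕ) (c : ℕ → N), ∀ t : N,
    ∃ R : MonoidAlgebra ℤ H, R ≠ 0 ∧ ∃ P : ℕ → MonoidAlgebra ℤ H,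
      R • t = ∑ j ∈ Finset.range r, P j • c j := by
  classical
  have h0 : ∃ r, ∃ c : Fin r → N, Indep N r c := ⟨0, Fin.elim0, fun P _ => Subsingleton.elim _ _⟩
  have hb : ∀ r, (∃ c : Fin r → N, Indep N r c) → r ≤ k := fun r ⟨c, hc⟩ => hc.le N hS
  obtain ⟨r0, hr0⟩ := h0
  have hr := Nat.findGreatest_spec (P := fun r => ∃ c : Fin r → N, Indep N r c) (hb r0 hr0) hr0
  have hmax : ¬ ∃ c : Fin (Nat.findGreatest (fun r => ∃ c : Fin r → N, Indep N r c) k + 1) → N,
      Indep N _ c := by
    intro h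
    have := Nat.le_findGreatest (P := fun r => ∃ c : Fin r → N, Indep N r c) (hb _ h) h
    omega
  generalize Nat.findGreatest (fun r => ∃ c : Fin r → N, Indep N r c) k = r at hr hmax
  obtain ⟨c, hc⟩ := hr
  refine ⟨r, fun j => if h : j < r then c ⟨j, h⟩ else 0, fun t => ?_⟩
  have h1 : ¬ Indep N (r + 1) (Fin.snoc c t : Fin (r + 1) → N) := fun h => hmax ⟨_, h⟩
  unfold Indep at h1
  push Not at h1
  obtain ⟨P, hP, hP0⟩ := h1
  rw [Fin.sum_univ_castSucc] at hP
  simp only [Fin.snoc_castSucc, Fin.snoc_last] at hP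
  refine ⟨P (Fin.last r), ?_, fun j => if h : j < r then - P (Fin.castSucc ⟨j, h⟩) else 0, ?_⟩
  · intro hz
    rw [hz, zero_smul, add_zero] at hP
    apply hP0
    have h2 := hc _ hP
    funext j
    refine Fin.lastCases hz (fun i => ?_) j
    exact congrFun h2 i
  · rw [Finset.sum_range]
    have h3 : ∀ i : Fin r, ((if h : (i : ℕ) < r then - P (Fin.castSucc ⟨i, h⟩) else 0) •
        (if h : (i : ℕ) < r then c ⟨i, h⟩ else 0)) = - (P i.castSucc • c i) := by
      intro i
      rw [dif_pos i.2, dif_pos i.2]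
      exact neg_smulN (H := H) (M := N) _ _
    rw [Finset.sum_congr rfl (fun i _ => h3 i), Finset.sum_neg_distrib]
    exact eq_neg_of_add_eq_zero_right hP

theorem smul_cancel [NoZeroDivisors (MonoidAlgebra ℤ H)] {R : MonoidAlgebra ℤ H} (hR : R ≠ 0)
    {t t' : N} (h : R • t = R • t') : t = t' := by
  have h0 : R • (t - t') = 0 := by rw [smul_sub, h, sub_self]
  have h1 : R • (t - t').1 = 0 := congrArg Subtype.val h0
  rw [← sub_eq_zero, Subtype.ext_iff]
  funext i
  have h2 := congrFun h1 i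
  have h3 : R * (t - t').1 i = 0 := h2
  rcases mul_eq_zero.1 h3 with h4 | h4
  · exact absurd h4 hR
  · exact h4

end

section

variable {G H : Type} [Group G] [Group H] {n k L : ℕ} {x : Fin n → G} {π : G →* H}

/-- pairs of lists of words, coding an element of the group ring -/
abbrev LW (n : ℕ) := List (W n)

/-- value of a list of words in the group ring -/
noncomputable def zw (x : Fin n → G) (π : G →* H) (l : LW n) : MonoidAlgebra ℤ H :=
  zv (l.map (fun w => π (ev x w)))

theorem zw_nil : zw x π [] = 0 := rfl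

theorem zw_cons (w : W n) (l : LW n) : zw x π (w :: l) = U (π (ev x w)) + zw x π l := rfl

theorem zw_append (l l' : LW n) : zw x π (l ++ l') = zw x π l + zw x π l' := by
  unfold zw zv
  rw [List.map_append, List.map_append, List.sum_append]

theorem zw_surj (hx : Subgroup.closure (Set.range x) = ⊤) (hπ : Function.Surjective π)
    (r : MonoidAlgebra ℤ H) : ∃ l l' : LW n, r = zw x π l - zw x π l' := by
  induction r using MonoidAlgebra.induction_on with
  | of h =>
    obtain ⟨g, rfl⟩ := hπ h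
    obtain ⟨w, rfl⟩ := ev_surj x hx g
    refine ⟨[w], [], ?_⟩
    rw [zw_cons, zw_nil, add_zero, sub_zero]
  | add r s hr hs =>
    obtain ⟨l, l', rfl⟩ := hr
    obtain ⟨m, m', rfl⟩ := hs
    refine ⟨l ++ m, l' ++ m', ?_⟩
    rw [zw_append, zw_append]
    abel
  | smul m r hr =>
    obtain ⟨l, l', rfl⟩ := hr
    have key : ∀ j : ℕ, ∃ l₁ l₂ : LW n, (j : ℤ) • (zw x π l - zw x π l') = zw x π l₁ - zw x π l₂ := by
      intro j
      induction j with
      | zero => exact ⟨[], [], by simp⟩
      | succ j ih =>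
        obtain ⟨l₁, l₂, h⟩ := ih
        refine ⟨l₁ ++ l, l₂ ++ l', ?_⟩
        push_cast
        rw [add_smul, one_smul, h, zw_append, zw_append]
        abel
    obtain ⟨j, rfl | rfl⟩ := m.eq_nat_or_neg
    · exact key j
    · obtain ⟨l₁, l₂, h⟩ := key j
      refine ⟨l₂, l₁, ?_⟩
      rw [neg_smul, h]
      abel

/-- the word for the action of a list of words -/
def sw (l : LW n) (w : W n) : W n := l.flatMap (fun h => conjW h w)

theorem sw_ker (l : LW n) {w : W n} (hw : π (ev x w) = 1) : π (ev x (sw l w)) = 1 := by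
  induction l with
  | nil => show π (ev x []) = 1; rw [ev_nil, map_one]
  | cons h l ih =>
    show π (ev x (conjW h w ++ sw l w)) = 1
    rw [ev_app, map_mul, ih, ev_conjW, map_mul, map_mul, hw, mul_one, mul_one, map_inv,
      mul_inv_cancel]

theorem sw_val (M : MD π k) (l : LW n) {w : W n} (hw : π (ev x w) = 1) :
    M.μ (ev x (sw l w)) = zw x π l • M.μ (ev x w) := by
  induction l with
  | nil =>
    show M.μ (ev x []) = _
    rw [ev_nil, M.one, zw_nil, zero_smul]
  | cons h l ih =>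
    show M.μ (ev x (conjW h w ++ sw l w)) = _
    rw [ev_app, M.mul _ _ _ (sw_ker l hw), ih, ev_conjW, M.conj _ _ hw, zw_cons, add_smul]
    rw [ev_conjW, map_mul, map_mul, hw, mul_one, map_inv, mul_inv_cancel]

theorem primrec_sw {α : Type} [Primcodable α] {f : α → LW n} {g : α → W n} (hf : Primrec f)
    (hg : Primrec g) : Primrec (fun a => sw (f a) (g a)) :=
  Primrec.list_flatMap hf (primrec_conjW.comp Primrec.snd (hg.comp Primrec.fst))

/-- linear combinations of words -/
def cw (γ : ℕ → W n) : ℕ → (ℕ → LW n) → W n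
  | 0, _ => []
  | r + 1, P => cw γ r P ++ sw (P r) (γ r)

theorem cw_ker {γ : ℕ → W n} (hγ : ∀ j, π (ev x (γ j)) = 1) (P : ℕ → LW n) :
    ∀ r, π (ev x (cw γ r P)) = 1
  | 0 => by show π (ev x []) = 1; rw [ev_nil, map_one]
  | r + 1 => by
    show π (ev x (cw γ r P ++ sw (P r) (γ r))) = 1
    rw [ev_app, map_mul, cw_ker hγ P r, sw_ker _ (hγ r), mul_one]

theorem cw_val (M : MD π k) {γ : ℕ → W n} (hγ : ∀ j, π (ev x (γ j)) = 1) (P : ℕ → LW n) :
    ∀ r, M.μ (ev x (cw γ r P)) = ∑ j ∈ Finset.range r, zw x π (P j) • M.μ (ev x (γ j))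
  | 0 => by show M.μ (ev x []) = _; rw [ev_nil, M.one, Finset.sum_range_zero]
  | r + 1 => by
    show M.μ (ev x (cw γ r P ++ sw (P r) (γ r))) = _
    rw [ev_app, M.mul _ _ (cw_ker hγ P r) (sw_ker _ (hγ r)), cw_val M hγ P r,
      sw_val M _ (hγ r), Finset.sum_range_succ]

theorem primrec_cw {α : Type} [Primcodable α] (γ : ℕ → W n) {f : α → ℕ → LW n} (hf : Primrec₂ f) :
    ∀ r, Primrec (fun a => cw γ r (f a))
  | 0 => Primrec.const []
  | r + 1 => Primrec.list_append.comp (primrec_cw γ hf r)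
      (primrec_sw (hf.comp Primrec.id (Primrec.const r)) (Primrec.const (γ r)))

/-- codes of linear relations -/
abbrev QC (n : ℕ) := (LW n × LW n) × (List (LW n) × List (LW n))

/-- the word expressing a linear relation -/
def omW (γ : ℕ → W n) (r : ℕ) (w : W n) (q : QC n) : W n :=
  (sw q.1.1 w ++ cw γ r (fun j => q.2.1.getD j [])) ++
    FreeGroup.invRev (sw q.1.2 w ++ cw γ r (fun j => q.2.2.getD j []))

theorem primrec_omW (γ : ℕ → W n) (r : ℕ) : Primrec₂ (omW γ r) := by
  refine Primrec.list_append.comp (Primrec.list_append.comp ?_ ?_)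
    (primrec_invRev.comp (Primrec.list_append.comp ?_ ?_))
  · exact primrec_sw (Primrec.fst.comp (Primrec.fst.comp Primrec.snd)) Primrec.fst
  · exact primrec_cw γ (f := fun (a : W n × QC n) j => a.2.2.1.getD j [])
      ((Primrec.list_getD ([] : LW n)).comp (Primrec.fst.comp (Primrec.snd.comp
      (Primrec.snd.comp Primrec.fst))) Primrec.snd).to₂ r
  · exact primrec_sw (Primrec.snd.comp (Primrec.fst.comp Primrec.snd)) Primrec.fst
  · exact primrec_cw γ (f := fun (a : W n × QC n) j => a.2.2.2.getD j [])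
      ((Primrec.list_getD ([] : LW n)).comp (Primrec.snd.comp (Primrec.snd.comp
      (Primrec.snd.comp Primrec.fst))) Primrec.snd).to₂ r

/-- the relation coded by `q` holds for the element `t` of the module -/
def Rel {N : Submodule (MonoidAlgebra ℤ H) (Fin k → MonoidAlgebra ℤ H)} (x : Fin n → G) (π : G →* H)
    (c : ℕ → N) (r : ℕ) (t : N) (q : QC n) : Prop :=
  zw x π q.1.1 • t + ∑ j ∈ Finset.range r, zw x π (q.2.1.getD j []) • c j =
    zw x π q.1.2 • t + ∑ j ∈ Finset.range r, zw x π (q.2.2.getD j []) • c j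

theorem omW_iff (M : MD π k) (hπ : Function.Surjective π) {γ : ℕ → W n}
    (hγ : ∀ j, π (ev x (γ j)) = 1) (r : ℕ) {w : W n} (hw : π (ev x w) = 1) (q : QC n) :
    ev x (omW γ r w q) = 1 ↔
      Rel (N := M.N hπ) x π (fun j => ⟨M.μ (ev x (γ j)), _, hγ j, rfl⟩) r
        ⟨M.μ (ev x w), _, hw, rfl⟩ q := by
  unfold omW Rel
  rw [ev_app, ev_inv, mul_inv_eq_one, ev_app, ev_app]
  have k1 : ∀ (l : LW n) (P : ℕ → LW n), π (ev x (sw l w) * ev x (cw γ r P)) = 1 := by
    intro l P
    rw [map_mul, sw_ker l hw, cw_ker hγ P r, mul_one]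
  have k2 : ∀ (l : LW n) (P : ℕ → LW n), M.μ (ev x (sw l w) * ev x (cw γ r P)) =
      zw x π l • M.μ (ev x w) + ∑ j ∈ Finset.range r, zw x π (P j) • M.μ (ev x (γ j)) := by
    intro l P
    rw [M.mul _ _ (sw_ker l hw) (cw_ker hγ P r), sw_val M l hw, cw_val M hγ P r]
  rw [Subtype.ext_iff]
  constructor
  · intro h
    have h2 := congrArg M.μ h
    rw [k2, k2] at h2
    push_cast
    exact h2
  · intro h
    apply M.inj' (k1 _ _) (k1 _ _)
    rw [k2, k2]
    push_cast at h
    exact h

/-- the relations determine the element -/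
theorem rel_sep [NoZeroDivisors (MonoidAlgebra ℤ H)] (hx : Subgroup.closure (Set.range x) = ⊤)
    (hπ : Function.Surjective π)
    {N : Submodule (MonoidAlgebra ℤ H) (Fin k → MonoidAlgebra ℤ H)} {r : ℕ} {c : ℕ → N}
    (hc : ∀ t : N, ∃ R : MonoidAlgebra ℤ H, R ≠ 0 ∧ ∃ P : ℕ → MonoidAlgebra ℤ H,
      R • t = ∑ j ∈ Finset.range r, P j • c j) {t t' : N}
    (h : ∀ q : QC n, Rel x π c r t q → Rel x π c r t' q) : t = t' := by
  obtain ⟨R, hR, P, hP⟩ := hc t
  obtain ⟨l, l', rfl⟩ := zw_surj hx hπ R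
  have hs : ∀ j, ∃ p : LW n × LW n, P j = zw x π p.2 - zw x π p.1 := by
    intro j
    obtain ⟨m, m', h⟩ := zw_surj hx hπ (P j)
    exact ⟨(m', m), h⟩
  choose p hp using hs
  have h1 := h ((l, l'), ((List.range r).map (fun j => (p j).1), (List.range r).map (fun j => (p j).2)))
  have e1 : ∀ (f : ℕ → LW n), ∑ j ∈ Finset.range r,
      zw x π (((List.range r).map f).getD j []) • c j =
      ∑ j ∈ Finset.range r, zw x π (f j) • c j := by
    intro f
    refine Finset.sum_congr rfl (fun j hj => ?_)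
    have hj' : j < ((List.range r).map f).length := by
      rw [List.length_map, List.length_range]; exact Finset.mem_range.1 hj
    rw [List.getD_eq_getElem _ _ hj']
    simp
  unfold Rel at h1
  dsimp only at h1
  rw [e1, e1] at h1
  have e2 : ∑ j ∈ Finset.range r, P j • c j =
      ∑ j ∈ Finset.range r, zw x π (p j).2 • c j - ∑ j ∈ Finset.range r, zw x π (p j).1 • c j := by
    rw [← Finset.sum_sub_distrib]
    exact Finset.sum_congr rfl (fun j _ => by rw [hp]; exact sub_smulN (H := H) (M := N) _ _ _)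
  have key : ∀ s : N, (zw x π l • s + ∑ j ∈ Finset.range r, zw x π (p j).1 • c j =
      zw x π l' • s + ∑ j ∈ Finset.range r, zw x π (p j).2 • c j) ↔
      (zw x π l - zw x π l') • s = ∑ j ∈ Finset.range r, P j • c j := by
    intro s
    have e3 : (zw x π l - zw x π l') • s = zw x π l • s - zw x π l' • s := sub_smulN (H := H) (M := N) _ _ _
    rw [e2, e3, sub_eq_sub_iff_add_eq_add, add_comm (∑ j ∈ Finset.range r, zw x π (p j).2 • c j)]
  rw [key, key] at h1
  exact smul_cancel N hR (hP.trans (h1 hP).symm)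

end

end Pool.Agent.H577R3
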