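import Mathlib
import Pool.Agent.H577R3.EA

set_option autoImplicit false

/-! Definability of the evaluation of words in the module and in the group. -/

namespace Pool.Agent.H577R3

open Pool.Agent.Helper967.ArithDef Encodable

section

variable {G H : Type} [Group G] [Group H] {n k L : ℕ} {x : Fin n → G} {π : G →* H}
variable {Γ : Type} {c : (ℕ → G) → Γ → Prop}

theorem wordG (w : W n) : DcF c (sG x) (fun _ => ev x w) := by
  induction w with
  | nil => exact DcF.iff (fun _ => (ev_nil x).symm) oneG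
  | cons a w ih =>
    refine DcF.iff (fun _ => (ev_cons x a w).symm) (DcF.mul ?_ ih)
    cases a.2
    · exact (parG a.1).inv
    · exact parG a.1

variable (M : MD π k) (hπ : Function.Surjective π) (hker : Dg x (fun v => π (v 0) = 1))
variable {sN : Srt x ℕ} {hN : ArithS sN}
variable (hE : R2 (sC hN (W n)) (sG x) (fun w g => π g = π (ev x w)))

theorem wordM {w : W n} {z : M.N hπ} (hw : π (ev x w) = 1) (hz : M.μ (ev x w) = z.1) :
    DcF c (M.sM hπ hker) (fun _ => z) := by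
  refine Dc.iff (fun p => ?_) (Dc.ex (sG x) (Q := fun (p : Γ × M.N hπ) g =>
    g = ev x w ∧ (π g = 1 ∧ M.μ g = p.2.1)) ((Dc.eq DcF.var (wordG w)).and
      ((M.repM hπ hker).app DcF.var DcF.var.wk)))
  constructor
  · rintro ⟨g, rfl, -, h⟩
    rw [Subtype.ext_iff, ← h, hz]
  · intro h
    exact ⟨_, rfl, hw, by rw [hz, h]⟩

section

variable (hact : F2 (sC hN (LW n)) (M.sM hπ hker) (M.sM hπ hker) (fun l z => zw x π l • z))
include hact

theorem lcM (cc : ℕ → M.N hπ) (hcc : ∀ (j : ℕ) {Γ : Type} (c : (ℕ → G) → Γ → Prop),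
      DcF c (M.sM hπ hker) (fun _ => cc j)) :
    ∀ r : ℕ, F1 (sC hN (List (LW n))) (M.sM hπ hker)
      (fun P => ∑ j ∈ Finset.range r, zw x π (P.getD j []) • cc j) := by
  intro r
  induction r with
  | zero =>
    intro Γ c
    exact DcF.iff (fun _ => (Finset.sum_range_zero _).symm) (M.zeroM hπ hker)
  | succ r ih =>
    intro Γ c
    refine DcF.iff (fun _ => (Finset.sum_range_succ _ _).symm)
      ((M.addM hπ hker).app (ih _ _) (hact.app ?_ (hcc r _)))
    have hg : F1 (sC hN (List (LW n))) (sC hN (LW n)) (fun P => P.getD r []) :=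
      F1.comp ((Primrec.list_getD ([] : LW n)).comp Primrec.id (Primrec.const r)).to_comp
    exact hg _ _

theorem relM (cc : ℕ → M.N hπ) (hcc : ∀ (j : ℕ) {Γ : Type} (c : (ℕ → G) → Γ → Prop),
      DcF c (M.sM hπ hker) (fun _ => cc j)) (r : ℕ) :
    R2 (M.sM hπ hker) (sC hN (QC n)) (fun t q => Rel x π cc r t q) := by
  intro Γ c
  have ad := M.addM hπ hker
  have lc := lcM M hπ hker hact cc hcc r
  have p1 : F1 (sC hN (QC n)) (sC hN (LW n)) (fun q => q.1.1) :=
    F1.comp (Primrec.fst.comp Primrec.fst).to_comp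
  have p2 : F1 (sC hN (QC n)) (sC hN (LW n)) (fun q => q.1.2) :=
    F1.comp (Primrec.snd.comp Primrec.fst).to_comp
  have p3 : F1 (sC hN (QC n)) (sC hN (List (LW n))) (fun q => q.2.1) :=
    F1.comp (Primrec.fst.comp Primrec.snd).to_comp
  have p4 : F1 (sC hN (QC n)) (sC hN (List (LW n))) (fun q => q.2.2) :=
    F1.comp (Primrec.snd.comp Primrec.snd).to_comp
  exact Dc.eq (ad.app (hact.app (p1.app DcF.var) DcF.var.wk) (lc.app (p3.app DcF.var)))
    (ad.app (hact.app (p2.app DcF.var) DcF.var.wk) (lc.app (p4.app DcF.var)))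

include hE in
theorem evM [NoZeroDivisors (MonoidAlgebra ℤ H)] (hx : Subgroup.closure (Set.range x) = ⊤)
    (hS : SRCk H k) (hW : ArithWP x) :
    R2 (sC hN (W n)) (M.sM hπ hker) (fun w t => π (ev x w) = 1 ∧ M.μ (ev x w) = t.1) := by
  intro Γ c
  obtain ⟨r, cc, hc⟩ := exists_max (M.N hπ) hS
  -- words for the elements `cc j`
  have hγ : ∀ j, ∃ w : W n, π (ev x w) = 1 ∧ M.μ (ev x w) = (cc j).1 := by
    intro j
    obtain ⟨a, ha, ha'⟩ := (cc j).2
    obtain ⟨w, rfl⟩ := ev_surj x hx a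
    exact ⟨w, ha, ha'⟩
  choose γ hγ1 hγ2 using hγ
  have hcc : (fun j => (⟨M.μ (ev x (γ j)), _, hγ1 j, rfl⟩ : M.N hπ)) = cc :=
    funext fun j => Subtype.ext (hγ2 j)
  have hwp : R1 (sC hN (W n)) (fun w => ev x w = 1) := R1.code (hW _ hN)
  have hrel := relM M hπ hker hact cc (fun j Γ c => wordM M hπ hker (hγ1 j) (hγ2 j)) r
  have hom : F2 (sC hN (W n)) (sC hN (QC n)) (sC hN (W n)) (omW γ r) :=
    F2.comp (primrec_omW γ r).to_comp
  refine Dc.iff (fun p => ?_) (((E1def hE).app DcF.var.wk).and (Dc.all (sC hN (QC n))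
    (Q := fun (p : (Γ × W n) × M.N hπ) (q : QC n) => Rel x π cc r p.2 q → ev x (omW γ r p.1.2 q) = 1)
    ((hrel.app DcF.var.wk DcF.var).imp (hwp.app (hom.app DcF.var.wk.wk DcF.var)))))
  constructor
  · rintro ⟨h1, h2⟩
    refine ⟨h1, ?_⟩
    have h3 : p.2 = ⟨M.μ (ev x p.1.2), _, h1, rfl⟩ := by
      refine rel_sep hx hπ hc (fun q hq => ?_)
      have h4 := (omW_iff M hπ hγ1 r h1 q).1 (h2 q hq)
      rwa [hcc] at h4
    rw [h3]
  · rintro ⟨h1, h2⟩
    refine ⟨h1, fun q hq => ?_⟩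
    rw [omW_iff M hπ hγ1 r h1 q, hcc]
    have h3 : p.2 = ⟨M.μ (ev x p.1.2), _, h1, rfl⟩ := Subtype.ext h2.symm
    rwa [← h3]

include hE in
theorem evA [NoZeroDivisors (MonoidAlgebra ℤ H)] (hx : Subgroup.closure (Set.range x) = ⊤)
    (hS : SRCk H k) (hW : ArithWP x) :
    R2 (sC hN (W n)) (sG x) (fun w g => π g = 1 ∧ ev x w = g) := by
  intro Γ c
  refine Dc.iff (fun p => ?_) (Dc.ex (M.sM hπ hker)
    (Q := fun (p : (Γ × W n) × G) (t : M.N hπ) => (π p.2 = 1 ∧ M.μ p.2 = t.1) ∧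
      (π (ev x p.1.2) = 1 ∧ M.μ (ev x p.1.2) = t.1))
    (((M.repM hπ hker).app DcF.var.wk DcF.var).and
      ((evM M hπ hker hE hact hx hS hW).app DcF.var.wk.wk DcF.var)))
  constructor
  · rintro ⟨t, ⟨h1, h2⟩, h3, h4⟩
    exact ⟨h1, M.inj' h3 h1 (h4.trans h2.symm)⟩
  · rintro ⟨h1, h2⟩
    exact ⟨⟨M.μ p.2, _, h1, rfl⟩, ⟨h1, rfl⟩, h2 ▸ h1, by rw [h2]⟩

end

/-- iterated commutators -/
def itC : List G → G → G
  | [], g => g
  | k :: ks, g => itC ks (g * k * g⁻¹ * k⁻¹)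

/-- words of iterated commutators -/
def itW : List (W n) → W n → W n
  | [], w => w
  | k :: ks, w => itW ks (w ++ k ++ FreeGroup.invRev w ++ FreeGroup.invRev k)

theorem ev_itW (κs : List (W n)) (w : W n) : ev x (itW κs w) = itC (κs.map (ev x)) (ev x w) := by
  induction κs generalizing w with
  | nil => rfl
  | cons κ κs ih =>
    show ev x (itW κs _) = itC (κs.map (ev x)) _
    rw [ih, ev_app, ev_app, ev_app, ev_inv, ev_inv]

theorem primrec_itW (κs : List (W n)) : Primrec (itW κs) := by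
  induction κs with
  | nil => exact Primrec.id
  | cons κ κs ih =>
    exact ih.comp (Primrec.list_append.comp (Primrec.list_append.comp (Primrec.list_append.comp
      Primrec.id (Primrec.const κ)) primrec_invRev) (Primrec.const (FreeGroup.invRev κ)))

theorem itC_def (κs : List (W n)) : F1 (sG x) (sG x) (itC (κs.map (ev x))) := by
  induction κs with
  | nil => intro Γ c; exact DcF.var
  | cons κ κs ih =>
    intro Γ c
    exact ih.app (((DcF.var.mul (wordG κ)).mul DcF.var.inv).mul (wordG κ).inv)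

include M in
theorem itC_inj [NoZeroDivisors (MonoidAlgebra ℤ H)] (ks : List G) (hk : ∀ k ∈ ks, π k ≠ 1)
    {g g' : G} (h : π g = π g') (h' : itC ks g = itC ks g') : g = g' := by
  induction ks generalizing g g' with
  | nil => exact h'
  | cons k ks ih =>
    have h1 := ih (fun k hk' => hk k (List.mem_cons_of_mem _ hk'))
      (show π (g * k * g⁻¹ * k⁻¹) = π (g' * k * g'⁻¹ * k⁻¹) by simp [h]) h'
    have h2 : π (g'⁻¹ * g) = 1 := by rw [map_mul, map_inv, h, inv_mul_cancel]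
    have h3 : k * (g'⁻¹ * g) * k⁻¹ = g'⁻¹ * g := by
      have h4 : g * k * g⁻¹ = g' * k * g'⁻¹ := mul_right_cancel h1
      calc k * (g'⁻¹ * g) * k⁻¹ = g'⁻¹ * (g' * k * g'⁻¹) * g * k⁻¹ := by group
        _ = g'⁻¹ * (g * k * g⁻¹) * g * k⁻¹ := by rw [h4]
        _ = g'⁻¹ * g := by group
    have h5 := M.conj k _ h2
    rw [h3] at h5
    rcases MD.smul_eq_self h5.symm with h6 | h6
    · exact absurd h6 (hk k List.mem_cons_self)
    · exact (inv_mul_eq_one.1 (M.inj _ h2 h6)).symm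

end

/-- The main step: richness modulo the kernel implies richness. -/
theorem RichQ.step {G H : Type} [Group G] [Group H] {n k L : ℕ} {x : Fin n → G} {π : G →* H}
    (M : MD π k) (hπ : Function.Surjective π) [NoZeroDivisors (MonoidAlgebra ℤ H)]
    (hne : ∃ a, π a = 1 ∧ a ≠ 1) (hx : Subgroup.closure (Set.range x) = ⊤)
    (i₀ : Fin n) (hi : ∀ j : ℕ, 0 < j → π (x i₀) ^ j ≠ 1)
    (hL : SepProp H L) (ht : ∀ v : H, v ≠ 1 → ∀ j : ℕ, 0 < j → v ^ j ≠ 1)
    (hS : SRCk H k) (hW : ArithWP x)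
    (κs : List (W n)) (hκ : ∀ κ ∈ κs, π (ev x κ) ≠ 1) (hC : ∀ g, π (itC (κs.map (ev x)) g) = 1)
    (hR : RichQ x π) : RichQ x (MonoidHom.id G) := by
  have hker := M.ker_def x hne
  obtain ⟨sN, hN, hE⟩ := hR
  refine ⟨sN, hN, ?_⟩
  have hact := actS M hπ hker hE i₀ hi hx hL ht
  have hA := evA M hπ hker hE hact hx hS hW
  have hit : F1 (sC hN (W n)) (sC hN (W n)) (itW κs) := F1.comp (primrec_itW κs).to_comp
  intro Γ c
  refine Dc.iff (fun p => ?_) ((hE.app DcF.var.wk DcF.var).and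
    (hA.app (hit.app DcF.var.wk) ((itC_def κs).app DcF.var)))
  constructor
  · rintro ⟨h1, -, h2⟩
    rw [ev_itW] at h2
    refine itC_inj M (κs.map (ev x)) ?_ h1 h2.symm
    intro k hk
    obtain ⟨κ, hκ', rfl⟩ := List.mem_map.1 hk
    exact hκ κ hκ'
  · intro h
    have h' : p.2 = ev x p.1.2 := h
    refine ⟨by rw [h'], hC _, ?_⟩
    rw [ev_itW, h']

end Pool.Agent.H577R3
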