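import Mathlib
import Pool.Agent.H577R3.Defs2

set_option autoImplicit false

/-! Divisibility in modules over the integral group rings of free abelian groups, tested with
characters. -/

namespace Pool.Agent.H577R3

namespace BASE

open Polynomial in
theorem char_zero {R : Type} [CommRing R] [IsDomain R] [IsNoetherianRing R] {k : ℕ}
    (N : Submodule R (Fin k → R)) (hN : N ≠ ⊥) (f g : R)
    (h : ∀ a ∈ N, ∃ b ∈ N, f • a = g • b) {K : Type} [Field K] (χ : R →+* K) (hg : χ g = 0) :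
    χ f = 0 := by
  obtain ⟨p, hp1, -, hp2, hp3⟩ :=
    LinearMap.exists_monic_and_natDegree_eq_and_coeff_mem_pow_and_aeval_eq_zero R
      (algebraMap R (Module.End R N) f) (Ideal.span {g}) (by
        rintro _ ⟨a, rfl⟩
        obtain ⟨b, hb, hab⟩ := h a a.2
        have : (algebraMap R (Module.End R N) f) a = g • (⟨b, hb⟩ : N) := by
          rw [Module.algebraMap_end_apply]
          exact Subtype.ext hab
        rw [this]
        exact Submodule.smul_mem_smul (Ideal.mem_span_singleton_self g) trivial)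
  rw [Polynomial.aeval_algebraMap_apply_eq_algebraMap_eval] at hp3
  have hev : p.eval f = 0 := by
    obtain ⟨a, ha, ha0⟩ := (Submodule.ne_bot_iff N).1 hN
    have h1 : (algebraMap R (Module.End R N) (p.eval f)) ⟨a, ha⟩ = 0 := by rw [hp3]; rfl
    rw [Module.algebraMap_end_apply] at h1
    have h2 : p.eval f • a = 0 := congrArg Subtype.val h1
    obtain ⟨j, hj⟩ := Function.ne_iff.1 ha0
    have h3 := congrFun h2 j
    simp only [Pi.smul_apply, smul_eq_mul, Pi.zero_apply] at h3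
    exact (mul_eq_zero.1 h3).resolve_right hj
  have h4 : χ (p.eval f) = 0 := by rw [hev, map_zero]
  rw [Polynomial.eval_eq_sum_range, Finset.sum_range_succ, hp1.coeff_natDegree, one_mul, map_add,
    map_sum] at h4
  have h5 : ∀ i ∈ Finset.range p.natDegree, χ (p.coeff i * f ^ i) = 0 := by
    intro i hi
    rw [Finset.mem_range] at hi
    have h6 : p.coeff i ∈ Ideal.span {g} :=
      Ideal.pow_le_self (by omega) (hp2 i)
    obtain ⟨c, hc⟩ := Ideal.mem_span_singleton.1 h6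
    rw [hc, map_mul, map_mul, hg, zero_mul, zero_mul]
  rw [Finset.sum_eq_zero h5, zero_add, map_pow] at h4
  exact eq_zero_of_pow_eq_zero h4

/-- characters -/
noncomputable def chi {m : ℕ} {K : Type} [Field K] (v : Fin m → K) (hv : ∀ j, v j ≠ 0) : Zm m →* K where
  toFun := fun h => ∏ j, (v j) ^ (Multiplicative.toAdd h j)
  map_one' := by simp
  map_mul' := by
    intro a b
    rw [← Finset.prod_mul_distrib]
    refine Finset.prod_congr rfl fun j _ => ?_
    rw [toAdd_mul, Pi.add_apply, zpow_add₀ (hv j)]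

noncomputable def Chi {m : ℕ} {K : Type} [Field K] (v : Fin m → K) (hv : ∀ j, v j ≠ 0) :
    MonoidAlgebra ℤ (Zm m) →+* K := (MonoidAlgebra.lift ℤ K (Zm m) (chi v hv)).toRingHom

theorem Chi_of {m : ℕ} {K : Type} [Field K] (v : Fin m → K) (hv : ∀ j, v j ≠ 0) (h : Zm m) :
    Chi v hv (MonoidAlgebra.of ℤ (Zm m) h) = ∏ j, (v j) ^ (Multiplicative.toAdd h j) :=
  MonoidAlgebra.lift_of (chi v hv) h

theorem Chi_zb {m : ℕ} {K : Type} [Field K] (v : Fin m → K) (hv : ∀ j, v j ≠ 0) (i : Fin m) (t : ℤ) :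
    Chi v hv (MonoidAlgebra.of ℤ (Zm m) (zb i ^ t)) = v i ^ t := by
  rw [Chi_of, Finset.prod_eq_single i]
  · simp
  · intro j _ hj
    simp [hj]
  · simp

theorem Chi_zb1 {m : ℕ} {K : Type} [Field K] (v : Fin m → K) (hv : ∀ j, v j ≠ 0) (i : Fin m) :
    Chi v hv (MonoidAlgebra.of ℤ (Zm m) (zb i)) = v i := by
  have := Chi_zb v hv i 1
  rwa [zpow_one, zpow_one] at this

theorem of_sub_dvd {m : ℕ} (x y : Zm m) (c : ℤ) :
    (MonoidAlgebra.of ℤ (Zm m) x - MonoidAlgebra.of ℤ (Zm m) y) ∣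
      (MonoidAlgebra.of ℤ (Zm m) (x ^ c) - MonoidAlgebra.of ℤ (Zm m) (y ^ c)) := by
  have hnat : ∀ n : ℕ, (MonoidAlgebra.of ℤ (Zm m) x - MonoidAlgebra.of ℤ (Zm m) y) ∣
      (MonoidAlgebra.of ℤ (Zm m) (x ^ n) - MonoidAlgebra.of ℤ (Zm m) (y ^ n)) := by
    intro n
    rw [map_pow, map_pow]
    exact sub_dvd_pow_sub_pow _ _ n
  obtain ⟨n, rfl | rfl⟩ := Int.eq_nat_or_neg c
  · rw [zpow_natCast, zpow_natCast]; exact hnat n
  · rw [zpow_neg, zpow_neg, zpow_natCast, zpow_natCast]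
    have h1 : MonoidAlgebra.of ℤ (Zm m) (x ^ n)⁻¹ * MonoidAlgebra.of ℤ (Zm m) (x ^ n) = 1 := by
      rw [← map_mul, inv_mul_cancel, map_one]
    have h2 : MonoidAlgebra.of ℤ (Zm m) (y ^ n)⁻¹ * MonoidAlgebra.of ℤ (Zm m) (y ^ n) = 1 := by
      rw [← map_mul, inv_mul_cancel, map_one]
    have h3 : MonoidAlgebra.of ℤ (Zm m) (x ^ n)⁻¹ - MonoidAlgebra.of ℤ (Zm m) (y ^ n)⁻¹ =
        (MonoidAlgebra.of ℤ (Zm m) (x ^ n) - MonoidAlgebra.of ℤ (Zm m) (y ^ n)) *
          (-(MonoidAlgebra.of ℤ (Zm m) (x ^ n)⁻¹ * MonoidAlgebra.of ℤ (Zm m) (y ^ n)⁻¹)) := by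
      linear_combination (-MonoidAlgebra.of ℤ (Zm m) (x ^ n)⁻¹) * h2 +
        (MonoidAlgebra.of ℤ (Zm m) (y ^ n)⁻¹) * h1
    rw [h3]
    exact (hnat n).mul_right _

end BASE

open BASE

/-- TASK BASE (a) -/
theorem base_mem {m k : ℕ} (N : Submodule (MonoidAlgebra ℤ (Zm m)) (Fin k → MonoidAlgebra ℤ (Zm m)))
    (hN : N ≠ ⊥) (i : Fin m) (h : Zm m)
    (hh : ∀ a ∈ N, ∃ b ∈ N, MonoidAlgebra.of ℤ (Zm m) h • a - a = MonoidAlgebra.of ℤ (Zm m) (zb i) • b - b) :
    ∃ j : ℤ, h = zb i ^ j := by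
  classical
  have : IsNoetherianRing (MonoidAlgebra ℤ (Zm m)) := Algebra.FiniteType.isNoetherianRing ℤ _
  have hh' : ∀ a ∈ N, ∃ b ∈ N, (MonoidAlgebra.of ℤ (Zm m) h - 1) • a =
      (MonoidAlgebra.of ℤ (Zm m) (zb i) - 1) • b := by
    intro a ha
    obtain ⟨b, hb, hab⟩ := hh a ha
    exact ⟨b, hb, by rw [sub_smul, sub_smul, one_smul, one_smul]; exact hab⟩
  have key : ∀ j : Fin m, j ≠ i → Multiplicative.toAdd h j = 0 := by
    intro j hj
    let v : Fin m → ℚ := fun j' => if j' = j then 2 else 1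
    have hv : ∀ j', v j' ≠ 0 := by
      intro j'; simp only [v]; split_ifs <;> norm_num
    have h1 := char_zero N hN _ _ hh' (Chi v hv) (by
      rw [map_sub, map_one, Chi_zb1]
      simp [v, Ne.symm hj])
    rw [map_sub, map_one, Chi_of, sub_eq_zero, Finset.prod_eq_single j] at h1
    · simp only [v, if_true] at h1
      exact (zpow_eq_one_iff_right₀ (by norm_num) (by norm_num)).1 h1
    · intro j' _ hj'
      simp [v, hj']
    · simp
  refine ⟨Multiplicative.toAdd h i, ?_⟩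
  apply Multiplicative.toAdd.injective
  funext j
  rw [toAdd_zpow, toAdd_ofAdd, Pi.smul_apply]
  by_cases hj : j = i
  · subst hj; simp
  · rw [key j hj]; simp [hj]

/-- TASK BASE (b) -/
theorem base_dvd {m k : ℕ} (N : Submodule (MonoidAlgebra ℤ (Zm m)) (Fin k → MonoidAlgebra ℤ (Zm m)))
    (hN : N ≠ ⊥) (i : Fin m) (s t : ℤ) :
    (∀ a ∈ N, ∃ b ∈ N, MonoidAlgebra.of ℤ (Zm m) (zb i ^ t) • a - a =
      MonoidAlgebra.of ℤ (Zm m) (zb i ^ s) • b - b) ↔ s ∣ t := by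
  classical
  have : IsNoetherianRing (MonoidAlgebra ℤ (Zm m)) := Algebra.FiniteType.isNoetherianRing ℤ _
  constructor
  · intro hh
    have hh' : ∀ a ∈ N, ∃ b ∈ N, (MonoidAlgebra.of ℤ (Zm m) (zb i ^ t) - 1) • a =
        (MonoidAlgebra.of ℤ (Zm m) (zb i ^ s) - 1) • b := by
      intro a ha
      obtain ⟨b, hb, hab⟩ := hh a ha
      exact ⟨b, hb, by rw [sub_smul, sub_smul, one_smul, one_smul]; exact hab⟩
    by_cases hs : s = 0
    · subst hs
      let v : Fin m → ℚ := fun _ => 2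
      have hv : ∀ j', v j' ≠ 0 := fun _ => by norm_num [v]
      have h1 := char_zero N hN _ _ hh' (Chi v hv) (by
        rw [map_sub, map_one, Chi_zb]
        simp)
      rw [map_sub, map_one, Chi_zb, sub_eq_zero] at h1
      have h2 : t = 0 := (zpow_eq_one_iff_right₀ (a := (2 : ℚ)) (by norm_num) (by norm_num)).1 h1
      rw [h2]
    · have hs' : s.natAbs ≠ 0 := Int.natAbs_ne_zero.2 hs
      have hζ := Complex.isPrimitiveRoot_exp s.natAbs hs'
      set ζ := Complex.exp (2 * Real.pi * Complex.I / s.natAbs) with hζd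
      let v : Fin m → ℂ := fun _ => ζ
      have hv : ∀ j', v j' ≠ 0 := fun _ => Complex.exp_ne_zero _
      have hdvd : ∀ l : ℤ, ζ ^ l = 1 ↔ s ∣ l := by
        intro l
        rw [hζ.zpow_eq_one_iff_dvd, Int.natAbs_dvd]
      have h1 := char_zero N hN _ _ hh' (Chi v hv) (by
        rw [map_sub, map_one, Chi_zb, sub_eq_zero]
        exact (hdvd s).2 dvd_rfl)
      rw [map_sub, map_one, Chi_zb, sub_eq_zero] at h1
      exact (hdvd t).1 h1
  · rintro ⟨c, rfl⟩ a ha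
    obtain ⟨w, hw⟩ := of_sub_dvd (zb i ^ s) 1 c
    refine ⟨w • a, N.smul_mem w ha, ?_⟩
    rw [one_zpow, map_one, ← zpow_mul] at hw
    have h1 : ((MonoidAlgebra.of ℤ (Zm m)) (zb i ^ (s * c)) - 1) • a =
        (((MonoidAlgebra.of ℤ (Zm m)) (zb i ^ s) - 1) * w) • a := by rw [hw]
    rw [sub_smul, one_smul, mul_smul, sub_smul, one_smul] at h1
    exact h1

/-- TASK BASE (c) -/
theorem base_eq {m k : ℕ} (N : Submodule (MonoidAlgebra ℤ (Zm m)) (Fin k → MonoidAlgebra ℤ (Zm m)))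
    (hN : N ≠ ⊥) (i i' : Fin m) (hi : i ≠ i') (s t : ℤ) :
    (∀ a ∈ N, ∃ b ∈ N, MonoidAlgebra.of ℤ (Zm m) (zb i' ^ t) • a - MonoidAlgebra.of ℤ (Zm m) (zb i ^ s) • a =
      MonoidAlgebra.of ℤ (Zm m) (zb i') • b - MonoidAlgebra.of ℤ (Zm m) (zb i) • b) ↔ s = t := by
  classical
  have : IsNoetherianRing (MonoidAlgebra ℤ (Zm m)) := Algebra.FiniteType.isNoetherianRing ℤ _
  constructor
  · intro hh
    have hh' : ∀ a ∈ N, ∃ b ∈ N, (MonoidAlgebra.of ℤ (Zm m) (zb i' ^ t) -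
        MonoidAlgebra.of ℤ (Zm m) (zb i ^ s)) • a =
        (MonoidAlgebra.of ℤ (Zm m) (zb i') - MonoidAlgebra.of ℤ (Zm m) (zb i)) • b := by
      intro a ha
      obtain ⟨b, hb, hab⟩ := hh a ha
      exact ⟨b, hb, by rw [sub_smul, sub_smul]; exact hab⟩
    let v : Fin m → ℚ := fun _ => 2
    have hv : ∀ j', v j' ≠ 0 := fun _ => by norm_num [v]
    have h1 := char_zero N hN _ _ hh' (Chi v hv) (by
      rw [map_sub, Chi_zb1, Chi_zb1, sub_self])
    rw [map_sub, Chi_zb, Chi_zb, sub_eq_zero] at h1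
    have h2 : t = s := zpow_right_injective₀ (a := (2 : ℚ)) (by norm_num) (by norm_num) h1
    exact h2.symm
  · rintro rfl a ha
    obtain ⟨w, hw⟩ := of_sub_dvd (zb i') (zb i) s
    refine ⟨w • a, N.smul_mem w ha, ?_⟩
    have h1 : ((MonoidAlgebra.of ℤ (Zm m)) (zb i' ^ s) - (MonoidAlgebra.of ℤ (Zm m)) (zb i ^ s)) • a =
        (((MonoidAlgebra.of ℤ (Zm m)) (zb i') - (MonoidAlgebra.of ℤ (Zm m)) (zb i)) * w) • a := by rw [hw]
    rw [sub_smul, mul_smul, sub_smul] at h1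
    exact h1

end Pool.Agent.H577R3
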