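import Mathlib
import Pool.Agent.Helper967.ArithDef

set_option autoImplicit false

/-! Multiplication and order of the integers are first-order definable from addition, divisibility
and `1`. -/

namespace Pool.Agent.H577R3

open Pool.Agent.Helper967.ArithDef

namespace ROB

/-- A class of predicates on sequences of integers closed under first-order definability. -/
structure ZC (D : ((ℕ → ℤ) → Prop) → Prop) : Prop where
  add : D (fun w => w 0 + w 1 = w 2)
  bot : D (fun _ => False)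
  imp : ∀ {R S : (ℕ → ℤ) → Prop}, D R → D S → D (fun w => R w → S w)
  all : ∀ {R : (ℕ → ℤ) → Prop}, D R → D (fun w => ∀ a, R (cns a w))
  ren : ∀ {R : (ℕ → ℤ) → Prop} (ρ : ℕ → ℕ), D R → D (fun w => R (fun i => w (ρ i)))

/-- Functions with definable graph. -/
def ZT (D : ((ℕ → ℤ) → Prop) → Prop) (F : (ℕ → ℤ) → ℤ) : Prop :=
  D (fun w => w 0 = F (fun n => w (n + 1)))

namespace ZC

variable {D : ((ℕ → ℤ) → Prop) → Prop} (h : ZC D)
include h

set_option linter.unusedSectionVars false in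
theorem iff {R S : (ℕ → ℤ) → Prop} (hRS : ∀ w, R w ↔ S w) (hR : D R) : D S := by
  have : R = S := funext fun w => propext (hRS w)
  rwa [← this]

theorem not {R : (ℕ → ℤ) → Prop} (hR : D R) : D (fun w => ¬ R w) :=
  h.imp hR h.bot

theorem and {R S : (ℕ → ℤ) → Prop} (hR : D R) (hS : D S) : D (fun w => R w ∧ S w) :=
  h.iff (fun w => by tauto) (h.not (h.imp hR (h.not hS)))

theorem or {R S : (ℕ → ℤ) → Prop} (hR : D R) (hS : D S) : D (fun w => R w ∨ S w) :=
  h.iff (fun w => by tauto) (h.imp (h.not hR) hS)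

theorem ex {R : (ℕ → ℤ) → Prop} (hR : D R) : D (fun w => ∃ a, R (cns a w)) :=
  h.iff (fun w => by simp) (h.not (h.all (h.not hR)))

/-- existential quantification in curried form -/
theorem ex' {S : ℤ → (ℕ → ℤ) → Prop} (hR : D (fun w => S (w 0) (fun n => w (n + 1)))) :
    D (fun w => ∃ a, S a w) :=
  h.iff (fun w => by simp) (h.ex hR)

theorem all' {S : ℤ → (ℕ → ℤ) → Prop} (hR : D (fun w => S (w 0) (fun n => w (n + 1)))) :
    D (fun w => ∀ a, S a w) :=
  h.iff (fun w => by simp) (h.all hR)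

theorem eqv (i j : ℕ) : D (fun w => w i = w j) := by
  have h1 : D (fun w => w 0 + w 0 = w 0) := h.ren (fun _ => 0) h.add
  have h2 : D (fun w => w (i + 1) + w 0 = w (j + 1)) :=
    h.ren (fun n => match n with | 0 => i + 1 | 1 => 0 | _ => j + 1) h.add
  refine h.iff (fun w => ?_) (h.ex (h.and h1 h2))
  constructor
  · rintro ⟨a, h1, h2⟩
    simp at h1 h2
    omega
  · intro hw
    exact ⟨0, by simp, by simp [hw]⟩

theorem tren {F : (ℕ → ℤ) → ℤ} (ρ : ℕ → ℕ) (hF : ZT D F) : ZT D (fun w => F (fun i => w (ρ i))) := by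
  have := h.ren (fun n => match n with | 0 => 0 | n + 1 => ρ n + 1) hF
  exact this

theorem tvar (i : ℕ) : ZT D (fun w => w i) := h.eqv 0 (i + 1)

/-- substitute a term for variable 0 -/
theorem sub {R : ℤ → (ℕ → ℤ) → Prop} {F : (ℕ → ℤ) → ℤ} (hF : ZT D F)
    (hR : D (fun w => R (w 0) (fun n => w (n + 1)))) : D (fun w => R (F w) w) :=
  h.iff (fun w => by simp) (h.ex' (S := fun a w => a = F w ∧ R a w) (h.and hF hR))

theorem app1 {R : ℤ → Prop} {F : (ℕ → ℤ) → ℤ} (hR : D (fun w => R (w 0))) (hF : ZT D F) :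
    D (fun w => R (F w)) :=
  h.sub (R := fun a _ => R a) hF hR

theorem app2 {R : ℤ → ℤ → Prop} {F G : (ℕ → ℤ) → ℤ} (hR : D (fun w => R (w 0) (w 1)))
    (hF : ZT D F) (hG : ZT D G) : D (fun w => R (F w) (G w)) := by
  refine h.sub (R := fun a w => R a (G w)) hF ?_
  refine h.sub (R := fun b w => R (w 0) b) (F := fun w => G (fun n => w (n + 1)))
    (h.tren (fun n => n + 1) hG) ?_
  exact h.ren (fun n => match n with | 0 => 1 | _ => 0) hR

theorem app3 {R : ℤ → ℤ → ℤ → Prop} {F G H : (ℕ → ℤ) → ℤ} (hR : D (fun w => R (w 0) (w 1) (w 2)))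
    (hF : ZT D F) (hG : ZT D G) (hH : ZT D H) : D (fun w => R (F w) (G w) (H w)) := by
  refine h.sub (R := fun a w => R a (G w) (H w)) hF ?_
  refine h.sub (R := fun b w => R (w 0) b (H (fun n => w (n + 1))))
    (F := fun w => G (fun n => w (n + 1))) (h.tren (fun n => n + 1) hG) ?_
  refine h.sub (R := fun c w => R (w 1) (w 0) c)
    (F := fun w => H (fun n => w (n + 2))) (h.tren (fun n => n + 2) hH) ?_
  exact h.ren (fun n => match n with | 0 => 2 | 1 => 1 | _ => 0) hR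

theorem eq {F G : (ℕ → ℤ) → ℤ} (hF : ZT D F) (hG : ZT D G) : D (fun w => F w = G w) :=
  h.app2 (R := fun a b => a = b) (h.eqv 0 1) hF hG

theorem tadd {F G : (ℕ → ℤ) → ℤ} (hF : ZT D F) (hG : ZT D G) : ZT D (fun w => F w + G w) :=
  h.app3 (R := fun a b c => c = a + b) (h.iff (fun w => by rw [eq_comm]) h.add)
    (h.tren (fun n => n + 1) hF) (h.tren (fun n => n + 1) hG) (h.tvar 0)

theorem tsub {F G : (ℕ → ℤ) → ℤ} (hF : ZT D F) (hG : ZT D G) : ZT D (fun w => F w - G w) :=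
  h.app3 (R := fun a b c => c = a - b)
    (h.iff (fun w => by constructor <;> intro hw <;> omega) (h.eq (h.tvar 0) (h.tadd (h.tvar 1) (h.tvar 2))))
    (h.tren (fun n => n + 1) hF) (h.tren (fun n => n + 1) hG) (h.tvar 0)

end ZC

theorem lcm_spec (x z : ℤ) (h1 : x ∣ z) (h2 : (x + 1) ∣ z)
    (h3 : ∀ t, x ∣ t → (x + 1) ∣ t → z ∣ t) : z = x * (x + 1) ∨ z = -(x * (x + 1)) := by
  have hco : IsCoprime x (x + 1) := ⟨-1, 1, by ring⟩
  have h4 : x * (x + 1) ∣ z := hco.mul_dvd h1 h2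
  have h5 : z ∣ x * (x + 1) := h3 _ (dvd_mul_right _ _) (dvd_mul_left _ _)
  exact Int.natAbs_eq_natAbs_iff.1 (Nat.dvd_antisymm (Int.natAbs_dvd_natAbs.2 h5)
    (Int.natAbs_dvd_natAbs.2 h4))

theorem pronic_iff (x z : ℤ) : z = x * (x + 1) ↔
    (x ∣ z ∧ (x + 1) ∣ z ∧ (∀ t, x ∣ t → (x + 1) ∣ t → z ∣ t)) ∧
    ((x + 2) ∣ (z - 2) ∧ (x - 1) ∣ (z - 2)) ∧ ((x + 3) ∣ (z - 6) ∧ (x - 2) ∣ (z - 6)) := by
  constructor
  · rintro rfl
    refine ⟨⟨dvd_mul_right _ _, dvd_mul_left _ _, fun t h1 h2 => ?_⟩, ⟨⟨x - 1, by ring⟩, ⟨x + 2, by ring⟩⟩,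
      ⟨⟨x - 2, by ring⟩, ⟨x + 3, by ring⟩⟩⟩
    exact IsCoprime.mul_dvd ⟨-1, 1, by ring⟩ h1 h2
  · rintro ⟨⟨h1, h2, h3⟩, ⟨h4, h5⟩, ⟨h6, h7⟩⟩
    rcases lcm_spec x z h1 h2 h3 with h | h
    · exact h
    · subst h
      have h8 : (x + 2) ∣ 4 := by
        have : (4 : ℤ) = -((x + 2) * (x - 1)) - (-(x * (x + 1)) - 2) := by ring
        rw [this]
        exact dvd_sub (Dvd.dvd.neg_right (dvd_mul_right _ _)) h4
      have h10 : -4 ≤ x + 2 := by
        have := Int.le_of_dvd (by norm_num) ((neg_dvd).2 h8)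
        linarith
      have h11 : x + 2 ≤ 4 := Int.le_of_dvd (by norm_num) h8
      have h12 : -6 ≤ x := by linarith
      have h13 : x ≤ 2 := by linarith
      interval_cases x <;> first | rfl | (revert h8; decide) | (revert h5; decide) | (revert h6; decide) | (revert h7; decide)

theorem sumsq (x : ℤ) : 0 ≤ x ↔ ∃ a b c d : ℤ, x = a * a + b * b + c * c + d * d := by
  constructor
  · intro hx
    obtain ⟨a, b, c, d, h⟩ := Nat.sum_four_squares x.toNat
    refine ⟨a, b, c, d, ?_⟩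
    have : ((x.toNat : ℕ) : ℤ) = x := Int.toNat_of_nonneg hx
    rw [← this, ← h]
    push_cast
    ring
  · rintro ⟨a, b, c, d, rfl⟩
    nlinarith [mul_self_nonneg a, mul_self_nonneg b, mul_self_nonneg c, mul_self_nonneg d]

end ROB

open ROB in
/-- TASK ROB -/
theorem robinson (D : ((ℕ → ℤ) → Prop) → Prop)
    (add : D (fun w => w 0 + w 1 = w 2)) (dvd : D (fun w => w 0 ∣ w 1)) (one : D (fun w => w 0 = 1))
    (bot : D (fun _ => False))
    (imp : ∀ {R S : (ℕ → ℤ) → Prop}, D R → D S → D (fun w => R w → S w))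
    (all : ∀ {R : (ℕ → ℤ) → Prop}, D R → D (fun w => ∀ a, R (cns a w)))
    (ren : ∀ {R : (ℕ → ℤ) → Prop} (ρ : ℕ → ℕ), D R → D (fun w => R (fun i => w (ρ i)))) :
    D (fun w => w 0 * w 1 = w 2) ∧ D (fun w => 0 ≤ w 0) := by
  have h : ZC D := ⟨add, bot, imp, all, ren⟩
  have tone : ZT D (fun _ => 1) := one
  have t2 : ZT D (fun _ => 2) := h.tadd tone tone
  have t3 : ZT D (fun _ => 3) := h.tadd t2 tone
  have t6 : ZT D (fun _ => 6) := h.tadd t3 t3
  have hd : ∀ {F G : (ℕ → ℤ) → ℤ}, ZT D F → ZT D G → D (fun w => F w ∣ G w) :=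
    fun hF hG => h.app2 (R := fun a b => a ∣ b) dvd hF hG
  -- pronic numbers: z = w 0, x = w 1
  have pron : ZT D (fun w => w 0 * (w 0 + 1)) := by
    refine h.iff (fun w => (pronic_iff (w 1) (w 0)).symm) ?_
    refine h.and (h.and (hd (h.tvar 1) (h.tvar 0)) (h.and (hd (h.tadd (h.tvar 1) tone) (h.tvar 0)) ?_))
      (h.and (h.and ?_ ?_) (h.and ?_ ?_))
    · exact h.all' (S := fun t w => w 1 ∣ t → (w 1 + 1) ∣ t → w 0 ∣ t)
        (h.imp (hd (h.tvar 2) (h.tvar 0)) (h.imp (hd (h.tadd (h.tvar 2) tone) (h.tvar 0))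
          (hd (h.tvar 1) (h.tvar 0))))
    · exact hd (h.tadd (h.tvar 1) t2) (h.tsub (h.tvar 0) t2)
    · exact hd (h.tsub (h.tvar 1) tone) (h.tsub (h.tvar 0) t2)
    · exact hd (h.tadd (h.tvar 1) t3) (h.tsub (h.tvar 0) t6)
    · exact hd (h.tsub (h.tvar 1) t2) (h.tsub (h.tvar 0) t6)
  have tpron : ∀ {F : (ℕ → ℤ) → ℤ}, ZT D F → ZT D (fun w => F w * (F w + 1)) := by
    intro F hF
    exact h.app2 (R := fun a c => c = a * (a + 1))
      (h.ren (fun n => match n with | 0 => 1 | _ => 0) pron) (h.tren (fun n => n + 1) hF) (h.tvar 0)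
  have tsq : ∀ {F : (ℕ → ℤ) → ℤ}, ZT D F → ZT D (fun w => F w * F w) := by
    intro F hF
    refine h.iff (fun w => ?_) (h.tsub (tpron hF) hF)
    constructor <;> intro hw <;> linarith
  refine ⟨?_, ?_⟩
  · refine h.iff (fun w => ?_) (h.eq (h.tadd (h.tvar 2) (h.tvar 2))
      (h.tsub (h.tsub (tsq (h.tadd (h.tvar 0) (h.tvar 1))) (tsq (h.tvar 0))) (tsq (h.tvar 1))))
    constructor <;> intro hw <;> linarith
  · refine h.iff (fun w => (sumsq (w 0)).symm) ?_
    refine h.ex' (S := fun a w => ∃ b c d : ℤ, w 0 = a * a + b * b + c * c + d * d) ?_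
    refine h.ex' (S := fun b w => ∃ c d : ℤ, w 1 = w 0 * w 0 + b * b + c * c + d * d) ?_
    refine h.ex' (S := fun c w => ∃ d : ℤ, w 2 = w 1 * w 1 + w 0 * w 0 + c * c + d * d) ?_
    refine h.ex' (S := fun d w => w 3 = w 2 * w 2 + w 1 * w 1 + w 0 * w 0 + d * d) ?_
    exact h.eq (h.tvar 4) (h.tadd (h.tadd (h.tadd (tsq (h.tvar 3)) (tsq (h.tvar 2))) (tsq (h.tvar 1)))
      (tsq (h.tvar 0)))

end Pool.Agent.H577R3
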