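import Mathlib
import Pool.Agent.H577R3.EA2
import Pool.Agent.H577R3.TaskROB
import Pool.Agent.H577R3.TaskBASE

set_option autoImplicit false

/-! The base step: extensions of modules by free abelian groups. -/

namespace Pool.Agent.H577R3

open Pool.Agent.Helper967.ArithDef Encodable

section

variable {G : Type} [Group G] {P : Type} {x : P → G} {T Γ : Type} {c : (ℕ → G) → Γ → Prop}

/-- the representation relation of a sort -/
theorem Srt.rel (s : Srt x T) : R2 s (sG x) (fun t g => s.r g t) := by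
  intro Γ c
  refine s.eqv.toDc (fun n => n) (fun v γ hc => ?_)
  obtain ⟨h0, h1, h2⟩ := hc
  have h0' : v 0 = γ.2 := h0
  have h1' : s.r (v 1) γ.1.2 := h1
  constructor
  · rintro ⟨t, h3, h4⟩
    have : γ.1.2 = t := s.fn h1' h4
    rw [this, ← h0']
    exact h3
  · intro h
    exact ⟨γ.1.2, by rw [← h0'] at h; exact h, h1'⟩

/-- predicates on sequences definable on a sort -/
def DTs (s : Srt x T) (R : (ℕ → T) → Prop) : Prop :=
  ∃ S, Dg x S ∧ ∀ (v : ℕ → G) (w : ℕ → T), (∀ i, s.r (v i) (w i)) → (S v ↔ R w)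

theorem DTs.bot {s : Srt x T} : DTs s (fun _ => False) := ⟨_, Dg.bot, fun _ _ _ => Iff.rfl⟩

theorem DTs.imp {s : Srt x T} {R S : (ℕ → T) → Prop} (h : DTs s R) (h' : DTs s S) :
    DTs s (fun w => R w → S w) := by
  obtain ⟨φ, hφ, h1⟩ := h
  obtain ⟨ψ, hψ, h2⟩ := h'
  exact ⟨_, Dg.imp hφ hψ, fun v w h => imp_congr (h1 v w h) (h2 v w h)⟩

theorem DTs.all {s : Srt x T} {R : (ℕ → T) → Prop} (h : DTs s R) :
    DTs s (fun w => ∀ a, R (cns a w)) := by
  obtain ⟨φ, hφ, h1⟩ := h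
  refine ⟨fun v => ∀ a, (∃ t, s.r a t) → φ (cns a v), ?_, fun v w h => ?_⟩
  · refine Dg.all' (S := fun a v => (∃ t, s.r a t) → φ (cns a v)) (Dg.imp ?_ ?_)
    · exact s.dom
    · refine Dg.iff (fun v => ?_) hφ
      rw [cns_eta]
  · have key : ∀ a t, s.r a t → ∀ i, s.r (cns a v i) (cns t w i) := by
      intro a t ha i
      cases i with
      | zero => exact ha
      | succ i => exact h i
    constructor
    · intro h3 t
      obtain ⟨a, ha⟩ := s.sur t
      exact (h1 _ _ (key a t ha)).1 (h3 a ⟨t, ha⟩)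
    · rintro h3 a ⟨t, ha⟩
      exact (h1 _ _ (key a t ha)).2 (h3 t)

theorem DTs.ren {s : Srt x T} {R : (ℕ → T) → Prop} (ρ : ℕ → ℕ) (h : DTs s R) :
    DTs s (fun w => R (fun i => w (ρ i))) := by
  obtain ⟨φ, hφ, h1⟩ := h
  exact ⟨_, Dg.ren ρ hφ, fun v w h => h1 _ _ (fun i => h (ρ i))⟩

theorem DTs.of3 {s : Srt x T} {R : T → T → T → Prop} (h : R3 s s s R) :
    DTs s (fun w => R (w 0) (w 1) (w 2)) := by
  obtain ⟨S, hS, h1⟩ := h _ c0
  refine ⟨_, Dg.ren (fun n => match n with | 0 => 2 | 1 => 1 | _ => 0) hS, fun v w h => ?_⟩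
  exact h1 _ ((((), w 0), w 1), w 2) ⟨h 2, h 1, h 0, trivial⟩

theorem DTs.of2 {s : Srt x T} {R : T → T → Prop} (h : R2 s s R) :
    DTs s (fun w => R (w 0) (w 1)) := by
  obtain ⟨S, hS, h1⟩ := h _ c0
  refine ⟨_, Dg.ren (fun n => match n with | 0 => 1 | _ => 0) hS, fun v w h => ?_⟩
  exact h1 _ (((), w 0), w 1) ⟨h 1, h 0, trivial⟩

theorem DTs.of1 {s : Srt x T} {R : T → Prop} (h : R1 s R) :
    DTs s (fun w => R (w 0)) := by
  obtain ⟨S, hS, h1⟩ := h _ c0
  refine ⟨_, Dg.ren (fun n => n) hS, fun v w h => ?_⟩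
  exact h1 _ ((), w 0) ⟨h 0, trivial⟩

/-- the sort of naturals obtained from a sort of integers -/
def Srt.nat (s : Srt x ℤ) (h : DTs s (fun w => 0 ≤ w 0)) : Srt x ℕ where
  r := fun g j => s.r g (j : ℤ)
  sur := fun j => s.sur _
  fn := fun h h' => Int.ofNat.inj (s.fn h h')
  dom := by
    obtain ⟨S, hS, h1⟩ := h
    refine Dg.iff (fun v => ?_) (Dg.and s.dom (Dg.ren (fun _ => 0) hS))
    constructor
    · rintro ⟨⟨t, ht⟩, h2⟩
      have h3 := (h1 _ (fun _ => t) (fun _ => ht)).1 h2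
      obtain ⟨j, rfl⟩ := Int.eq_ofNat_of_zero_le h3
      exact ⟨j, ht⟩
    · rintro ⟨j, hj⟩
      exact ⟨⟨_, hj⟩, (h1 _ (fun _ => (j : ℤ)) (fun _ => hj)).2 (Int.natCast_nonneg j)⟩
  eqv := by
    obtain ⟨S, hS, h1⟩ := h
    refine Dg.iff (fun v => ?_) (Dg.and (Dg.and s.dom s.eqv) (Dg.ren (fun _ => 0) hS))
    constructor
    · rintro ⟨⟨⟨t, ht⟩, ⟨t', ht', ht''⟩⟩, h2⟩
      have h3 := (h1 _ (fun _ => t) (fun _ => ht)).1 h2
      obtain ⟨j, rfl⟩ := Int.eq_ofNat_of_zero_le h3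
      refine ⟨j, ht, ?_⟩
      have : (j : ℤ) = t' := s.fn ht ht'
      show s.r (v 1) (j : ℤ)
      rw [this]
      exact ht''
    · rintro ⟨j, hj, hj'⟩
      exact ⟨⟨⟨_, hj⟩, ⟨_, hj, hj'⟩⟩, (h1 _ (fun _ => (j : ℤ)) (fun _ => hj)).2
        (Int.natCast_nonneg j)⟩

theorem Srt.nat_arith (s : Srt x ℤ) (h : DTs s (fun w => 0 ≤ w 0))
    (add : DTs s (fun w => w 0 + w 1 = w 2)) (mul : DTs s (fun w => w 0 * w 1 = w 2)) :
    ArithS (s.nat h) := by
  obtain ⟨A, hA, h1⟩ := add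
  obtain ⟨B, hB, h2⟩ := mul
  refine arithS_of _ ⟨A, hA, fun v w h3 => ?_⟩ ⟨B, hB, fun v w h3 => ?_⟩
  · rw [h1 v (fun i => (w i : ℤ)) h3]
    show (w 0 : ℤ) + (w 1 : ℤ) = (w 2 : ℤ) ↔ w 0 + w 1 = w 2
    norm_cast
  · rw [h2 v (fun i => (w i : ℤ)) h3]
    show (w 0 : ℤ) * (w 1 : ℤ) = (w 2 : ℤ) ↔ w 0 * w 1 = w 2
    norm_cast

end

section

variable {G : Type} [Group G] {n m k : ℕ} {x : Fin n → G} {π : G →* Zm m}
variable (M : MD π k) (hπ : Function.Surjective π) (hker : Dg x (fun v => π (v 0) = 1))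
variable (hx : Subgroup.closure (Set.range x) = ⊤) (hne : ∃ a, π a = 1 ∧ a ≠ 1)

theorem zb_zpow_inj {m : ℕ} (i : Fin m) {j l : ℤ} (h : (zb i : Zm m) ^ j = zb i ^ l) : j = l := by
  have h1 := congrArg (fun z : Zm m => Multiplicative.toAdd z i) h
  simpa using h1

theorem constG (hx : Subgroup.closure (Set.range x) = ⊤) (g : G) {Γ : Type}
    {c : (ℕ → G) → Γ → Prop} : DcF c (sG x) (fun _ => g) := by
  obtain ⟨w, rfl⟩ := ev_surj x hx g
  exact wordG w

include hne in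
theorem MD.N_ne : M.N hπ ≠ ⊥ := by
  obtain ⟨a, ha, ha1⟩ := hne
  intro h
  apply ha1
  apply M.inj a ha
  have : M.μ a ∈ M.N hπ := ⟨a, ha, rfl⟩
  rw [h] at this
  exact this

include M hπ hker hx hne

theorem zdom (i : Fin m) : R1 (sG x) (fun g => ∃ j : ℤ, π g = zb i ^ j) := by
  intro Γ c
  obtain ⟨gi, hgi⟩ := hπ (zb i)
  have hN := M.N_ne hπ hne
  have ac := M.actG hπ hker
  have ad := M.addM hπ hker
  refine Dc.iff (fun p => ?_) (Dc.all (M.sM hπ hker) (Q := fun (p : Γ × G) (a : M.N hπ) =>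
    ∃ b : M.N hπ, U (π p.2) • a + b = U (π gi) • b + a) (Dc.ex (M.sM hπ hker)
    (Q := fun (p : (Γ × G) × M.N hπ) (b : M.N hπ) => U (π p.1.2) • p.2 + b = U (π gi) • b + p.2)
    (Dc.eq (ad.app (ac.app DcF.var.wk.wk DcF.var.wk) DcF.var)
      (ad.app (ac.app (constG hx gi) DcF.var) DcF.var.wk))))
  have key : ∀ (h : Zm m), (∀ a : M.N hπ, ∃ b : M.N hπ, U h • a + b = U (π gi) • b + a) ↔
      (∀ a ∈ M.N hπ, ∃ b ∈ M.N hπ, MonoidAlgebra.of ℤ (Zm m) h • a - a =
        MonoidAlgebra.of ℤ (Zm m) (zb i ^ (1 : ℤ)) • b - b) := by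
    intro h
    rw [hgi, zpow_one]
    constructor
    · intro h1 a ha
      obtain ⟨b, hb⟩ := h1 ⟨a, ha⟩
      refine ⟨b.1, b.2, ?_⟩
      rw [sub_eq_sub_iff_add_eq_add]
      have := congrArg Subtype.val hb
      simpa using this
    · intro h1 a
      obtain ⟨b, hb, h2⟩ := h1 a.1 a.2
      refine ⟨⟨b, hb⟩, ?_⟩
      rw [sub_eq_sub_iff_add_eq_add] at h2
      exact Subtype.ext h2
  rw [key]
  constructor
  · intro h
    rw [zpow_one] at h
    exact base_mem (M.N hπ) hN i (π p.2) h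
  · rintro ⟨j, hj⟩
    rw [hj]
    exact (base_dvd (M.N hπ) hN i 1 j).2 (one_dvd j)

/-- the sort of integers given by the powers of the `i`-th basis element -/
def zS (i : Fin m) : Srt x ℤ where
  r := fun g j => π g = zb i ^ j
  sur := fun j => hπ _
  fn := fun h h' => zb_zpow_inj i (h.symm.trans h')
  dom := Dg.of1 (zdom M hπ hker hx hne i)
  eqv := by
    have h1 : R2 (sG x) (sG x) (fun g g' => (∃ j : ℤ, π g = zb i ^ j) ∧ π (g * g'⁻¹) = 1) := by
      intro Γ c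
      exact ((zdom M hπ hker hx hne i).app DcF.var.wk).and
        ((kerR hker).app (DcF.mul DcF.var.wk DcF.var.inv))
    refine Dg.iff (fun v => ?_) (Dg.of2 h1)
    rw [map_mul, map_inv, mul_inv_eq_one]
    constructor
    · rintro ⟨⟨j, hj⟩, h⟩
      exact ⟨j, hj, by rw [← h]; exact hj⟩
    · rintro ⟨j, hj, hj'⟩
      exact ⟨⟨j, hj⟩, hj.trans hj'.symm⟩

theorem zS_add (i : Fin m) : R3 (zS M hπ hker hx hne i) (zS M hπ hker hx hne i)
    (zS M hπ hker hx hne i) (fun a b d => a + b = d) := by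
  intro Γ c
  refine Dc.via (fun n => n) ((kerR hker).app (c := cx (cx (cx c0 (sG x)) (sG x)) (sG x))
    (DcF.mul (DcF.mul DcF.var.wk.wk DcF.var.wk) DcF.var.inv)) (fun v γ hc => ?_)
  obtain ⟨h0, h1, h2, -⟩ := hc
  refine ⟨((((), v 2), v 1), v 0), ⟨rfl, rfl, rfl, trivial⟩, ?_⟩
  have h0' : π (v 0) = zb i ^ γ.2 := h0
  have h1' : π (v 1) = zb i ^ γ.1.2 := h1
  have h2' : π (v 2) = zb i ^ γ.1.1.2 := h2
  show π (v 2 * v 1 * (v 0)⁻¹) = 1 ↔ _
  rw [map_mul, map_mul, map_inv, mul_inv_eq_one, h0', h1', h2', ← zpow_add]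
  exact ⟨fun h => zb_zpow_inj i h, fun h => by rw [h]⟩

theorem zS_one (i : Fin m) : R1 (zS M hπ hker hx hne i) (fun a => a = 1) := by
  intro Γ c
  obtain ⟨gi, hgi⟩ := hπ (zb i)
  refine Dc.via (fun n => n) ((kerR hker).app (c := cx c0 (sG x))
    (DcF.mul DcF.var (constG hx gi).inv)) (fun v γ hc => ?_)
  refine ⟨((), v 0), ⟨rfl, trivial⟩, ?_⟩
  have h0' : π (v 0) = zb i ^ γ.2 := hc.1
  show π (v 0 * gi⁻¹) = 1 ↔ _
  rw [map_mul, map_inv, mul_inv_eq_one, h0', hgi]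
  constructor
  · intro h
    exact zb_zpow_inj i (h.trans (zpow_one _).symm)
  · intro h
    rw [h, zpow_one]

theorem zS_dvd (i : Fin m) : R2 (zS M hπ hker hx hne i) (zS M hπ hker hx hne i)
    (fun a b => a ∣ b) := by
  intro Γ c
  have ac := M.actG hπ hker
  have ad := M.addM hπ hker
  refine Dc.via (fun n => n) (Dc.all (c := cx (cx c0 (sG x)) (sG x)) (M.sM hπ hker)
    (Q := fun (p : (Unit × G) × G) (a : M.N hπ) =>
      ∃ b : M.N hπ, U (π p.2) • a + b = U (π p.1.2) • b + a)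
    (Dc.ex (M.sM hπ hker) (Q := fun (p : ((Unit × G) × G) × M.N hπ) (b : M.N hπ) =>
      U (π p.1.2) • p.2 + b = U (π p.1.1.2) • b + p.2)
    (Dc.eq (ad.app (ac.app DcF.var.wk.wk DcF.var.wk) DcF.var)
      (ad.app (ac.app DcF.var.wk.wk.wk DcF.var) DcF.var.wk)))) (fun v γ hc => ?_)
  obtain ⟨h0, h1, h2⟩ := hc
  refine ⟨(((), v 1), v 0), ⟨rfl, rfl, trivial⟩, ?_⟩
  have h0' : π (v 0) = zb i ^ γ.2 := h0
  have h1' : π (v 1) = zb i ^ γ.1.2 := h1
  show (∀ a : M.N hπ, ∃ b : M.N hπ, U (π (v 0)) • a + b = U (π (v 1)) • b + a) ↔ γ.1.2 ∣ γ.2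
  rw [h0', h1', ← base_dvd (M.N hπ) (M.N_ne hπ hne) i]
  constructor
  · intro h1 a ha
    obtain ⟨b, hb⟩ := h1 ⟨a, ha⟩
    refine ⟨b.1, b.2, ?_⟩
    rw [sub_eq_sub_iff_add_eq_add]
    have := congrArg Subtype.val hb
    simpa using this
  · intro h1 a
    obtain ⟨b, hb, h2⟩ := h1 a.1 a.2
    refine ⟨⟨b, hb⟩, ?_⟩
    rw [sub_eq_sub_iff_add_eq_add] at h2
    exact Subtype.ext h2

theorem zS_rob (i : Fin m) : DTs (zS M hπ hker hx hne i) (fun w => w 0 * w 1 = w 2) ∧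
    DTs (zS M hπ hker hx hne i) (fun w => 0 ≤ w 0) :=
  robinson _ (DTs.of3 (zS_add M hπ hker hx hne i)) (DTs.of2 (zS_dvd M hπ hker hx hne i))
    (DTs.of1 (zS_one M hπ hker hx hne i)) DTs.bot (fun h h' => DTs.imp h h') (fun h => DTs.all h)
    (fun ρ h => DTs.ren ρ h)

/-- the sort of naturals -/
def zN (i : Fin m) : Srt x ℕ := (zS M hπ hker hx hne i).nat (zS_rob M hπ hker hx hne i).2

theorem zN_arith (i : Fin m) : ArithS (zN M hπ hker hx hne i) :=
  Srt.nat_arith _ _ (DTs.of3 (zS_add M hπ hker hx hne i)) (zS_rob M hπ hker hx hne i).1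

/-- powers of the basis elements -/
theorem zN_pow (i i' : Fin m) : R2 (sC (zN_arith M hπ hker hx hne i) ℕ) (sG x)
    (fun j g => π g = zb i' ^ (j : ℤ)) := by
  by_cases hi : i = i'
  · subst hi
    exact (zN M hπ hker hx hne i).rel
  · intro Γ c
    have ac := M.actG hπ hker
    have ad := M.addM hπ hker
    obtain ⟨gi, hgi⟩ := hπ (zb i)
    obtain ⟨gi', hgi'⟩ := hπ (zb i')
    have hrel : R2 (sC (zN_arith M hπ hker hx hne i) ℕ) (sG x) (fun j g => π g = zb i ^ (j : ℤ)) :=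
      (zN M hπ hker hx hne i).rel
    refine Dc.iff (fun p => ?_) (((zdom M hπ hker hx hne i').app DcF.var).and (Dc.ex (sG x)
      (Q := fun (p : (Γ × ℕ) × G) (g' : G) => π g' = zb i ^ (p.1.2 : ℤ) ∧ ∀ a : M.N hπ,
        ∃ b : M.N hπ, U (π p.2) • a + U (π gi) • b = U (π gi') • b + U (π g') • a)
      ((hrel.app DcF.var.wk.wk DcF.var).and (Dc.all (M.sM hπ hker)
      (Q := fun (p : ((Γ × ℕ) × G) × G) (a : M.N hπ) =>
        ∃ b : M.N hπ, U (π p.1.2) • a + U (π gi) • b = U (π gi') • b + U (π p.2) • a)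
      (Dc.ex (M.sM hπ hker)
      (Q := fun (p : (((Γ × ℕ) × G) × G) × M.N hπ) (b : M.N hπ) =>
        U (π p.1.1.2) • p.2 + U (π gi) • b = U (π gi') • b + U (π p.1.2) • p.2)
      (Dc.eq (ad.app (ac.app DcF.var.wk.wk.wk DcF.var.wk) (ac.app (constG hx gi) DcF.var))
        (ad.app (ac.app (constG hx gi') DcF.var) (ac.app DcF.var.wk.wk DcF.var.wk))))))))
    have key : ∀ s t : ℤ, (∀ a : M.N hπ, ∃ b : M.N hπ,
        U (zb i' ^ t) • a + U (π gi) • b = U (π gi') • b + U (zb i ^ s) • a) ↔ s = t := by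
      intro s t
      rw [← base_eq (M.N hπ) (M.N_ne hπ hne) i i' hi s t, hgi, hgi']
      constructor
      · intro h1 a ha
        obtain ⟨b, hb⟩ := h1 ⟨a, ha⟩
        refine ⟨b.1, b.2, ?_⟩
        rw [sub_eq_sub_iff_add_eq_add]
        have := congrArg Subtype.val hb
        simpa using this
      · intro h1 a
        obtain ⟨b, hb, h2⟩ := h1 a.1 a.2
        refine ⟨⟨b, hb⟩, ?_⟩
        rw [sub_eq_sub_iff_add_eq_add] at h2
        exact Subtype.ext h2
    constructor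
    · rintro ⟨⟨t, ht⟩, g', hg', h⟩
      have hg'' : π g' = zb i ^ (p.1.2 : ℤ) := hg'
      rw [ht, hg''] at h
      rw [ht, (key _ _).1 h]
    · intro h
      refine ⟨⟨_, h⟩, ?_⟩
      obtain ⟨g', hg'⟩ := hπ (zb i ^ (p.1.2 : ℤ))
      refine ⟨g', hg', ?_⟩
      have h' : π p.2 = zb i' ^ (p.1.2 : ℤ) := h
      rw [h', hg']
      exact (key _ _).2 rfl

omit M hπ hker hx hne in
/-- contributions of a letter to the exponent of the `i`-th basis element -/
def lp (π : G →* Zm m) (x : Fin n → G) (i : Fin m) (b : Bool) (a : Fin n × Bool) : ℕ :=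
  (cond (a.2 == b) (Multiplicative.toAdd (π (x a.1)) i) (-(Multiplicative.toAdd (π (x a.1)) i))).toNat

omit M hπ hker hx hne in
/-- positive and negative exponents -/
def ex (π : G →* Zm m) (x : Fin n → G) (i : Fin m) (b : Bool) (w : W n) : ℕ :=
  (w.map (lp π x i b)).sum

omit M hπ hker hx hne in
theorem ex_val (i : Fin m) (w : W n) :
    (Multiplicative.toAdd (π (ev x w))) i = (ex π x i true w : ℤ) - (ex π x i false w : ℤ) := by
  induction w with
  | nil =>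
    rw [ev_nil, map_one]
    simp [ex]
  | cons a w ih =>
    rw [ev_cons, map_mul, toAdd_mul, Pi.add_apply, ih]
    have e : ∀ b, ex π x i b (a :: w) = lp π x i b a + ex π x i b w := fun b => rfl
    rw [e, e]
    push_cast
    have h1 : (Multiplicative.toAdd (π (cond a.2 (x a.1) (x a.1)⁻¹))) i =
        (lp π x i true a : ℤ) - (lp π x i false a : ℤ) := by
      unfold lp
      generalize x a.1 = g
      cases a.2
      · simp
        have := Int.toNat_sub_toNat_neg (Multiplicative.toAdd (π g) i)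
        omega
      · simp
    rw [h1]
    ring

omit M hπ hker hx hne in
theorem primrec_ex (i : Fin m) (b : Bool) : Primrec (ex π x i b) :=
  primrec_sum (Primrec.list_map Primrec.id ((Primrec.dom_finite (lp π x i b)).comp Primrec.snd))

omit M hπ hker hx hne in
/-- partial products -/
def pp (π : G →* Zm m) (x : Fin n → G) (w : W n) : List (Fin m) → Zm m
  | [] => 1
  | i :: l => zb i ^ (ex π x i true w : ℤ) * (zb i ^ (ex π x i false w : ℤ))⁻¹ * pp π x w l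

omit M hπ hker hx hne in
theorem pp_val (w : W n) (j : Fin m) : ∀ l : List (Fin m), l.Nodup →
    (Multiplicative.toAdd (pp π x w l)) j = if j ∈ l then (Multiplicative.toAdd (π (ev x w))) j else 0
  | [], _ => by simp [pp]
  | i :: l, h => by
    have h1 := List.nodup_cons.1 h
    unfold pp
    rw [toAdd_mul, Pi.add_apply, pp_val w j l h1.2, ex_val]
    by_cases hj : j = i
    · subst hj
      simp [h1.1]
      ring
    · have : (Multiplicative.toAdd (zb i ^ (ex π x i true w : ℤ) * (zb i ^ (ex π x i false w : ℤ))⁻¹ :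
          Zm m)) j = 0 := by
        simp [Pi.single_eq_of_ne hj]
      rw [this, zero_add]
      simp [hj]

omit M hπ hker hx hne in
theorem pp_all (w : W n) : pp π x w (List.finRange m) = π (ev x w) := by
  apply Multiplicative.toAdd.injective
  funext j
  rw [pp_val w j _ (List.nodup_finRange m), if_pos (List.mem_finRange j)]

theorem pp_def (i₀ : Fin m) : ∀ l : List (Fin m),
    R2 (sC (zN_arith M hπ hker hx hne i₀) (W n)) (sG x) (fun w g => π g = pp π x w l) := by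
  intro l
  induction l with
  | nil =>
    intro Γ c
    exact (kerR hker).app DcF.var
  | cons i l ih =>
    intro Γ c
    have hp := zN_pow M hπ hker hx hne i₀ i
    have e : ∀ b, F1 (sC (zN_arith M hπ hker hx hne i₀) (W n))
        (sC (zN_arith M hπ hker hx hne i₀) ℕ) (ex π x i b) := fun b => F1.comp (primrec_ex i b).to_comp
    refine Dc.iff (fun p => ?_) (Dc.ex (sG x) (Q := fun (p : (Γ × W n) × G) (g₁ : G) =>
      π g₁ = zb i ^ (ex π x i true p.1.2 : ℤ) ∧ ∃ g₂ : G, π g₂ = zb i ^ (ex π x i false p.1.2 : ℤ) ∧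
        π (g₂ * g₁⁻¹ * p.2) = pp π x p.1.2 l)
      ((hp.app ((e true).app DcF.var.wk.wk) DcF.var).and (Dc.ex (sG x)
        (Q := fun (p : ((Γ × W n) × G) × G) (g₂ : G) => π g₂ = zb i ^ (ex π x i false p.1.1.2 : ℤ) ∧
        π (g₂ * p.2⁻¹ * p.1.2) = pp π x p.1.1.2 l)
        ((hp.app ((e false).app DcF.var.wk.wk.wk) DcF.var).and
        (ih.app DcF.var.wk.wk.wk (DcF.mul (DcF.mul DcF.var DcF.var.wk.inv) DcF.var.wk.wk))))))
    constructor
    · rintro ⟨g₁, h1, g₂, h2, h3⟩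
      have h1' : π g₁ = zb i ^ (ex π x i true p.1.2 : ℤ) := h1
      have h2' : π g₂ = zb i ^ (ex π x i false p.1.2 : ℤ) := h2
      show π p.2 = zb i ^ (ex π x i true p.1.2 : ℤ) * (zb i ^ (ex π x i false p.1.2 : ℤ))⁻¹ *
        pp π x p.1.2 l
      rw [← h3, ← h1', ← h2', map_mul, map_mul, map_inv]
      group
    · intro h
      obtain ⟨g₁, h1⟩ := hπ (zb i ^ (ex π x i true p.1.2 : ℤ))
      obtain ⟨g₂, h2⟩ := hπ (zb i ^ (ex π x i false p.1.2 : ℤ))
      refine ⟨g₁, h1, g₂, h2, ?_⟩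
      have h' : π p.2 = zb i ^ (ex π x i true p.1.2 : ℤ) * (zb i ^ (ex π x i false p.1.2 : ℤ))⁻¹ *
        pp π x p.1.2 l := h
      rw [map_mul, map_mul, map_inv, h1, h2, h']
      group

theorem richQ_base (i₀ : Fin m) : RichQ x π := by
  refine ⟨_, zN_arith M hπ hker hx hne i₀, ?_⟩
  intro Γ c
  refine Dc.iff (fun p => ?_) (pp_def M hπ hker hx hne i₀ (List.finRange m) _ c)
  show π p.2 = pp π x p.1.2 (List.finRange m) ↔ π p.2 = π (ev x p.1.2)
  rw [pp_all]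

end

end Pool.Agent.H577R3
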