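import Mathlib
import Pool.Agent.H577R3.EA2
import Pool.Agent.H577R3.Alg1

set_option autoImplicit false

/-! The derived series of a free group. -/

namespace Pool.Agent.H577R3

open Pool.Agent.Helper777.Prof

theorem not_solvable_free (n : ℕ) (hn : 2 ≤ n) : ¬ Group.IsSolvable (FreeGroup (Fin n)) := by
  intro h
  let f : FreeGroup (Fin n) →* Equiv.Perm (Fin 5) :=
    FreeGroup.lift (fun i => if i.1 = 0 then finRotate 5 else Equiv.swap 0 (finRotate 5 0))
  have hf : Function.Surjective f := by
    rw [← MonoidHom.range_eq_top, eq_top_iff,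
      ← Equiv.Perm.closure_cycle_adjacent_swap (isCycle_finRotate (n := 3))
      (support_finRotate (n := 3)) 0, Subgroup.closure_le]
    rintro g (rfl | rfl)
    · exact ⟨FreeGroup.of ⟨0, by omega⟩, by simp [f]⟩
    · exact ⟨FreeGroup.of ⟨1, by omega⟩, by simp [f]⟩
  have := Group.isSolvable_of_surjective hf
  refine Equiv.Perm.not_solvable (Fin 5) ?_ this
  simp

theorem ds_ne_bot (n : ℕ) (hn : 2 ≤ n) (d : ℕ) : derivedSeries (FreeGroup (Fin n)) d ≠ ⊥ := by
  intro h
  exact not_solvable_free n hn ⟨⟨d, h⟩⟩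

theorem ds_ne (n : ℕ) (hn : 2 ≤ n) (d : ℕ) :
    derivedSeries (FreeGroup (Fin n)) (d + 1) ≠ derivedSeries (FreeGroup (Fin n)) d := by
  intro h
  have hK : IsFreeGroup (derivedSeries (FreeGroup (Fin n)) d) := inferInstance
  have h1 : commutator (derivedSeries (FreeGroup (Fin n)) d) = ⊤ := by
    rw [derivedSeries_succ] at h
    rw [← Subgroup.map_subtype_commutator] at h
    have h2 : Subgroup.map (derivedSeries (FreeGroup (Fin n)) d).subtype
        (commutator (derivedSeries (FreeGroup (Fin n)) d)) =
        Subgroup.map (derivedSeries (FreeGroup (Fin n)) d).subtype ⊤ := by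
      rw [h, ← MonoidHom.range_eq_map, Subgroup.range_subtype]
    exact Subgroup.map_injective (Subgroup.subtype_injective _) h2
  apply ds_ne_bot n hn d
  by_cases hg : Nonempty (IsFreeGroup.Generators (derivedSeries (FreeGroup (Fin n)) d))
  · exfalso
    obtain ⟨g⟩ := hg
    let f : derivedSeries (FreeGroup (Fin n)) d →* Multiplicative ℤ :=
      IsFreeGroup.lift (fun _ => Multiplicative.ofAdd (1 : ℤ))
    have h3 : f (IsFreeGroup.of g) = Multiplicative.ofAdd (1 : ℤ) := by simp [f]
    have h4 : IsFreeGroup.of g ∈ commutator (derivedSeries (FreeGroup (Fin n)) d) := by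
      rw [h1]; trivial
    have h5 := Abelianization.commutator_subset_ker f h4
    rw [MonoidHom.mem_ker, h3] at h5
    exact absurd (congrArg Multiplicative.toAdd h5) (by simp)
  · have hE : IsEmpty (IsFreeGroup.Generators (derivedSeries (FreeGroup (Fin n)) d)) :=
      not_nonempty_iff.1 hg
    have e := IsFreeGroup.toFreeGroup (derivedSeries (FreeGroup (Fin n)) d)
    have : Subsingleton (derivedSeries (FreeGroup (Fin n)) d) := e.toEquiv.subsingleton
    exact Subgroup.eq_bot_of_subsingleton _

theorem ds_not_le (n : ℕ) (hn : 2 ≤ n) {i d : ℕ} (h : i < d) :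
    ∃ w, w ∈ derivedSeries (FreeGroup (Fin n)) i ∧ w ∉ derivedSeries (FreeGroup (Fin n)) d := by
  by_contra hcon
  push Not at hcon
  have h1 : derivedSeries (FreeGroup (Fin n)) i ≤ derivedSeries (FreeGroup (Fin n)) (i + 1) :=
    fun w hw => derivedSeries_antitone _ h (hcon w hw)
  exact ds_ne n hn i (le_antisymm (derivedSeries_antitone _ (Nat.le_succ i)) h1)

/-- test commutators -/
theorem exists_test (n : ℕ) (hn : 2 ≤ n) (d : ℕ) : ∀ len i : ℕ, i + len = d →
    ∃ ks : List (FreeGroup (Fin n)), (∀ k ∈ ks, k ∉ derivedSeries (FreeGroup (Fin n)) d) ∧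
      ∀ g ∈ derivedSeries (FreeGroup (Fin n)) i, itC ks g ∈ derivedSeries (FreeGroup (Fin n)) d
  | 0, i, h => ⟨[], by simp, fun g hg => by rw [← h]; exact hg⟩
  | len + 1, i, h => by
    obtain ⟨ks, h1, h2⟩ := exists_test n hn d len (i + 1) (by omega)
    obtain ⟨k, hk, hk'⟩ := ds_not_le n hn (show i < d by omega)
    refine ⟨k :: ks, ?_, ?_⟩
    · intro k' hk''
      rcases List.mem_cons.1 hk'' with rfl | h3
      · exact hk'
      · exact h1 _ h3
    · intro g hg
      apply h2
      rw [derivedSeries_succ]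
      exact Subgroup.commutator_mem_commutator hg hk

theorem itC_map {G H : Type} [Group G] [Group H] (f : G →* H) (ks : List G) (g : G) :
    f (itC ks g) = itC (ks.map f) (f g) := by
  induction ks generalizing g with
  | nil => rfl
  | cons k ks ih =>
    show f (itC ks _) = itC (ks.map f) _
    rw [ih]
    simp

end Pool.Agent.H577R3
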