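import Mathlib

set_option autoImplicit false

/-! The group ring `ℤ[H]` of a solvable group satisfies the left strong rank condition: Følner sets. -/

namespace Pool.Agent.H577R3

open Finset Filter Topology commutatorElement

namespace SRC

/-- Right Følner condition. -/
def Fo (G : Type*) [Group G] : Prop :=
  ∀ (S : Set G) (N : ℕ), S.Finite → ∃ F : Set G, F.Finite ∧ F.Nonempty ∧
    ∀ s ∈ S, N * ((fun x => x * s) '' F \ F).ncard ≤ F.ncard

/-- polynomial against exponential growth -/
theorem poly_exp (k N : ℕ) : ∃ n : ℕ, (n + 1) ^ k * N ^ n < (N + 1) ^ n := by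
  have hr : |(N : ℝ) / (N + 1)| < 1 := by
    rw [abs_of_nonneg (by positivity)]
    rw [div_lt_one (by positivity)]
    linarith
  have h := tendsto_pow_const_mul_const_pow_of_abs_lt_one k hr
  have h2 : Tendsto (fun n : ℕ => ((2 : ℝ) ^ k) * ((n : ℝ) ^ k * ((N : ℝ) / (N + 1)) ^ n)) atTop (𝓝 0) := by
    simpa using h.const_mul ((2 : ℝ) ^ k)
  have h3 := (h2.eventually (gt_mem_nhds (zero_lt_one (α := ℝ)))).and (eventually_ge_atTop 1)
  obtain ⟨n, hn, hn1⟩ := h3.exists
  refine ⟨n, ?_⟩
  have h4 : ((n : ℝ) + 1) ^ k ≤ 2 ^ k * (n : ℝ) ^ k := by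
    rw [← mul_pow]
    apply pow_le_pow_left₀ (by positivity)
    have : (1 : ℝ) ≤ n := by exact_mod_cast hn1
    linarith
  have hN : (0 : ℝ) < ((N : ℝ) + 1) ^ n := by positivity
  have h5 : ((n : ℝ) + 1) ^ k * (N : ℝ) ^ n < ((N : ℝ) + 1) ^ n := by
    have h6 : ((n : ℝ) + 1) ^ k * ((N : ℝ) / (N + 1)) ^ n < 1 := by
      calc ((n : ℝ) + 1) ^ k * ((N : ℝ) / (N + 1)) ^ n
          ≤ (2 ^ k * (n : ℝ) ^ k) * ((N : ℝ) / (N + 1)) ^ n := by
            apply mul_le_mul_of_nonneg_right h4 (by positivity)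
        _ = ((2 : ℝ) ^ k) * ((n : ℝ) ^ k * ((N : ℝ) / (N + 1)) ^ n) := by ring
        _ < 1 := hn
    rw [div_pow, ← mul_div_assoc, div_lt_one hN] at h6
    exact h6
  exact_mod_cast h5

theorem fo_comm (G : Type*) [Group G] (hc : ∀ a b : G, a * b = b * a) : Fo G := by
  classical
  intro S N hS
  letI : CommGroup G := { (inferInstance : Group G) with mul_comm := hc }
  let S' : Finset G := hS.toFinset
  -- boxes
  let F : ℕ → Set G := fun n => (fun c : S' → Fin (n + 1) => ∏ s : S', (s : G) ^ (c s : ℕ)) '' Set.univ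
  have hFfin : ∀ n, (F n).Finite := fun n => Set.toFinite _
  have hFne : ∀ n, (F n).Nonempty := fun n => ⟨_, ⟨fun _ => 0, trivial, rfl⟩⟩
  have hFcard : ∀ n, (F n).ncard ≤ (n + 1) ^ #S' := by
    intro n
    calc (F n).ncard ≤ (Set.univ : Set (S' → Fin (n + 1))).ncard := Set.ncard_image_le (Set.toFinite _)
      _ = (n + 1) ^ #S' := by simp [Set.ncard_univ]
  have hmono : ∀ n, F n ⊆ F (n + 1) := by
    rintro n _ ⟨c, -, rfl⟩
    exact ⟨fun s => (c s).castSucc, trivial, by simp⟩
  have hmul : ∀ n, ∀ s ∈ S, (fun x => x * s) '' F n ⊆ F (n + 1) := by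
    rintro n s hs _ ⟨_, ⟨c, -, rfl⟩, rfl⟩
    have hs' : s ∈ S' := by simpa [S'] using hs
    refine ⟨fun t => if t = ⟨s, hs'⟩ then (c t).succ else (c t).castSucc, trivial, ?_⟩
    have : ∀ t : S', ((t : G) ^ (((if t = ⟨s, hs'⟩ then (c t).succ else (c t).castSucc) : Fin (n+2)) : ℕ))
        = (t : G) ^ (c t : ℕ) * (if t = ⟨s, hs'⟩ then (t : G) else 1) := by
      intro t
      split_ifs with h
      · simp [pow_succ]
      · simp
    simp only [this, Finset.prod_mul_distrib]
    congr 1
    simp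
  by_contra hcon
  push Not at hcon
  have hstep : ∀ n, (N + 1) * (F n).ncard ≤ N * (F (n + 1)).ncard := by
    intro n
    obtain ⟨s, hs, hlt⟩ := hcon (F n) (hFfin n) (hFne n)
    have h1 : (F n).ncard + ((fun x => x * s) '' F n \ F n).ncard ≤ (F (n + 1)).ncard := by
      rw [← Set.ncard_union_eq (Set.disjoint_sdiff_right) (hFfin n) (Set.toFinite _)]
      apply Set.ncard_le_ncard _ (hFfin _)
      apply Set.union_subset (hmono n)
      exact Set.sdiff_subset.trans (hmul n s hs)
    nlinarith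
  have hall : ∀ n, (N + 1) ^ n ≤ N ^ n * (F n).ncard := by
    intro n
    induction n with
    | zero =>
      simp only [pow_zero, one_mul]
      exact (Set.ncard_pos (hFfin 0)).2 (hFne 0)
    | succ n ih =>
      calc (N + 1) ^ (n + 1) = (N + 1) * (N + 1) ^ n := by ring
        _ ≤ (N + 1) * (N ^ n * (F n).ncard) := Nat.mul_le_mul_left _ ih
        _ = N ^ n * ((N + 1) * (F n).ncard) := by ring
        _ ≤ N ^ n * (N * (F (n + 1)).ncard) := Nat.mul_le_mul_left _ (hstep n)
        _ = N ^ (n + 1) * (F (n + 1)).ncard := by ring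
  obtain ⟨n, hn⟩ := poly_exp (#S') N
  have h1 := hall n
  have h2 := hFcard n
  have h3 : N ^ n * (F n).ncard ≤ N ^ n * (n + 1) ^ #S' := Nat.mul_le_mul_left _ h2
  rw [mul_comm (N ^ n)] at h3
  nlinarith

theorem fo_ext (G : Type*) [Group G] (K : Subgroup G) [K.Normal] (hK : Fo K) (hQ : Fo (G ⧸ K)) :
    Fo G := by
  classical
  intro S N hS
  let π : G →* G ⧸ K := QuotientGroup.mk' K
  obtain ⟨Q, hQf, hQn, hQs⟩ := hQ (π '' S) (2 * N) (hS.image _)
  let σ : G ⧸ K → G := fun q => q.out
  have hσ : ∀ q, π (σ q) = q := fun q => Quotient.out_eq' q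
  -- cocycle
  have hcK : ∀ q : G ⧸ K, ∀ s : G, σ q * s * (σ (q * π s))⁻¹ ∈ K := by
    intro q s
    rw [← QuotientGroup.eq_one_iff]
    change π _ = 1
    rw [map_mul, map_mul, map_inv, hσ, hσ]
    group
  let c : (G ⧸ K) × G → K := fun p => ⟨σ p.1 * p.2 * (σ (p.1 * π p.2))⁻¹, hcK p.1 p.2⟩
  obtain ⟨A, hAf, hAn, hAs⟩ := hK (c '' (Q ×ˢ S)) (2 * N) ((hQf.prod hS).image _)
  let φ : K × (G ⧸ K) → G := fun p => (p.1 : G) * σ p.2
  have hφ : Function.Injective φ := by
    rintro ⟨a, q⟩ ⟨b, r⟩ h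
    have h' : (a : G) * σ q = (b : G) * σ r := h
    have h1 : q = r := by
      have := congrArg π h'
      rw [map_mul, map_mul, hσ, hσ] at this
      have ha : π (a : G) = 1 := (QuotientGroup.eq_one_iff _).2 a.2
      have hb : π (b : G) = 1 := (QuotientGroup.eq_one_iff _).2 b.2
      rw [ha, hb] at this
      simpa using this
    subst h1
    have : (a : G) = b := mul_right_cancel h'
    ext1
    · exact Subtype.ext this
    · rfl
  refine ⟨φ '' (A ×ˢ Q), (hAf.prod hQf).image _, (hAn.prod hQn).image _, ?_⟩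
  intro s hs
  have hcard : (φ '' (A ×ˢ Q)).ncard = A.ncard * Q.ncard := by
    rw [Set.ncard_image_of_injective _ hφ, Set.ncard_prod]
  have hmul : ∀ a q, φ (a, q) * s = φ (a * c (q, s), q * π s) := by
    intro a q
    simp only [φ, c, Subgroup.coe_mul]
    group
  -- the difference
  have hsub : (fun x => x * s) '' (φ '' (A ×ˢ Q)) \ (φ '' (A ×ˢ Q)) ⊆
      (fun p : K × (G ⧸ K) => φ (p.1 * c (p.2, s), p.2 * π s)) ''
        (A ×ˢ {q | q ∈ Q ∧ q * π s ∉ Q}) ∪
      (⋃ q ∈ hQf.toFinset, (fun a => φ (a, q * π s)) ''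
        ((fun x => x * c (q, s)) '' A \ A)) := by
    rintro _ ⟨⟨_, ⟨⟨a, q⟩, ⟨ha, hq⟩, rfl⟩, rfl⟩, hnot⟩
    simp only at ha hq
    beta_reduce at hnot ⊢
    rw [hmul] at hnot ⊢
    by_cases hqs : q * π s ∈ Q
    · right
      simp only [Set.mem_iUnion]
      refine ⟨q, hQf.mem_toFinset.2 hq, a * c (q, s), ⟨⟨a, ha, rfl⟩, ?_⟩, rfl⟩
      intro hmem
      exact hnot ⟨(a * c (q, s), q * π s), ⟨hmem, hqs⟩, rfl⟩
    · left
      exact ⟨(a, q), ⟨ha, hq, hqs⟩, rfl⟩
  have hfin1 : (A ×ˢ {q | q ∈ Q ∧ q * π s ∉ Q}).Finite :=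
    hAf.prod (hQf.subset fun q hq => hq.1)
  have hb1 : ((fun p : K × (G ⧸ K) => φ (p.1 * c (p.2, s), p.2 * π s)) ''
        (A ×ˢ {q | q ∈ Q ∧ q * π s ∉ Q})).ncard ≤ A.ncard * ((fun x => x * π s) '' Q \ Q).ncard := by
    refine (Set.ncard_image_le hfin1).trans ?_
    rw [Set.ncard_prod]
    apply Nat.mul_le_mul_left
    rw [← Set.ncard_image_of_injective (f := fun x => x * π s) {q | q ∈ Q ∧ q * π s ∉ Q}
      (mul_left_injective _)]
    apply Set.ncard_le_ncard
    · rintro _ ⟨q, ⟨hq, hq'⟩, rfl⟩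
      exact ⟨⟨q, hq, rfl⟩, hq'⟩
    · exact (hQf.image _).subset Set.sdiff_subset
  have hb2 : N * 2 * (⋃ q ∈ hQf.toFinset, (fun a => φ (a, q * π s)) ''
        ((fun x => x * c (q, s)) '' A \ A)).ncard ≤ Q.ncard * A.ncard := by
    have h1 : (⋃ q ∈ hQf.toFinset, (fun a => φ (a, q * π s)) ''
        ((fun x => x * c (q, s)) '' A \ A)).ncard ≤
        ∑ q ∈ hQf.toFinset, ((fun x => x * c (q, s)) '' A \ A).ncard := by
      refine (Finset.set_ncard_biUnion_le _ _).trans ?_
      apply Finset.sum_le_sum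
      intro q hq
      exact Set.ncard_image_le ((hAf.image _).subset Set.sdiff_subset)
    calc N * 2 * _ ≤ N * 2 * ∑ q ∈ hQf.toFinset, ((fun x => x * c (q, s)) '' A \ A).ncard :=
          Nat.mul_le_mul_left _ h1
      _ = ∑ q ∈ hQf.toFinset, 2 * N * ((fun x => x * c (q, s)) '' A \ A).ncard := by
          rw [Finset.mul_sum]; apply Finset.sum_congr rfl; intros; ring
      _ ≤ ∑ q ∈ hQf.toFinset, A.ncard := by
          apply Finset.sum_le_sum
          intro q hq
          exact hAs _ ⟨(q, s), ⟨hQf.mem_toFinset.1 hq, hs⟩, rfl⟩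
      _ = Q.ncard * A.ncard := by
          rw [Finset.sum_const, smul_eq_mul, Set.ncard_eq_toFinset_card _ hQf]
  have hb3 : 2 * N * ((fun x => x * π s) '' Q \ Q).ncard ≤ Q.ncard := hQs _ ⟨s, hs, rfl⟩
  have hfin2 : (⋃ q ∈ hQf.toFinset, (fun a => φ (a, q * π s)) ''
        ((fun x => x * c (q, s)) '' A \ A)).Finite := by
    apply Set.Finite.biUnion (Finset.finite_toSet _)
    intro q _
    exact ((hAf.image _).subset Set.sdiff_subset).image _
  have hle := (Set.ncard_le_ncard hsub ((hfin1.image _).union hfin2)).trans (Set.ncard_union_le _ _)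
  rw [hcard]
  have h4 := Nat.mul_le_mul_left (A.ncard) hb3
  nlinarith

theorem fo_of_derived : ∀ (n : ℕ) (G : Type) [Group G], derivedSeries G n = ⊥ → Fo G := by
  intro n
  induction n with
  | zero =>
    intro G _ h
    apply fo_comm
    intro a b
    have ha : a ∈ derivedSeries G 0 := by simp
    have hb : b ∈ derivedSeries G 0 := by simp
    rw [h, Subgroup.mem_bot] at ha hb
    rw [ha, hb]
  | succ n ih =>
    intro G _ h
    apply fo_ext G (derivedSeries G n)
    · apply fo_comm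
      intro a b
      have h1 : ⁅(a : G), (b : G)⁆ ∈ derivedSeries G (n + 1) := by
        rw [derivedSeries_succ]
        exact Subgroup.commutator_mem_commutator a.2 b.2
      rw [h, Subgroup.mem_bot, commutatorElement_eq_one_iff_mul_comm] at h1
      exact Subtype.ext h1
    · apply ih
      rw [← map_derivedSeries_eq (QuotientGroup.mk'_surjective (derivedSeries G n)), Subgroup.map_eq_bot_iff]
      simp

theorem src_of_fo (H : Type) [Group H] (hH : Fo H) (m : ℕ)
    (v : Fin (m + 1) → Fin m → MonoidAlgebra ℤ H) :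
    ∃ R : Fin (m + 1) → MonoidAlgebra ℤ H, R ≠ 0 ∧ ∑ j, R j • v j = 0 := by
  classical
  let S : Finset H := Finset.univ.biUnion fun j : Fin (m + 1) => Finset.univ.biUnion fun i : Fin m =>
    (v j i).coeff.support
  obtain ⟨F0, hF0, hFn, hFs⟩ := hH (S : Set H) (m * #S + 1) (Finset.finite_toSet _)
  let F : Finset H := hF0.toFinset
  have hFF : (F : Set H) = F0 := hF0.coe_toFinset
  let E : Finset H := F ∪ S.biUnion (fun s => F.image (· * s) \ F)
  have hE : ∀ x ∈ F, ∀ s ∈ S, x * s ∈ E := by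
    intro x hx s hs
    by_cases h : x * s ∈ F
    · exact Finset.mem_union_left _ h
    · apply Finset.mem_union_right
      rw [Finset.mem_biUnion]
      exact ⟨s, hs, Finset.mem_sdiff.2 ⟨Finset.mem_image_of_mem _ hx, h⟩⟩
  have hFpos : 0 < #F := by
    rw [Finset.card_pos]
    rw [← Finset.coe_nonempty, hFF]
    exact hFn
  have hEcard : m * #E < (m + 1) * #F := by
    have h1 : #E ≤ #F + ∑ s ∈ S, #(F.image (· * s) \ F) :=
      (Finset.card_union_le _ _).trans (Nat.add_le_add_left Finset.card_biUnion_le _)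
    have h2 : (m * #S + 1) * ∑ s ∈ S, #(F.image (· * s) \ F) ≤ #S * #F := by
      rw [Finset.mul_sum, ← smul_eq_mul (#S), ← Finset.sum_const]
      apply Finset.sum_le_sum
      intro s hs
      have h3 := hFs s hs
      rw [← hFF] at h3
      have h4 : ((fun x => x * s) '' (F : Set H) \ (F : Set H)) =
          ((F.image (· * s) \ F : Finset H) : Set H) := by
        rw [Finset.coe_sdiff, Finset.coe_image]
      rw [h4, Set.ncard_coe_finset, Set.ncard_coe_finset] at h3
      exact h3
    set X := ∑ s ∈ S, #(F.image (· * s) \ F) with hX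
    have h5 : m * X < #F := by
      by_contra hcon
      push Not at hcon
      have h6 : (m * #S + 1) * (m * X) ≤ m * (#S * #F) := by
        calc (m * #S + 1) * (m * X) = m * ((m * #S + 1) * X) := by ring
          _ ≤ m * (#S * #F) := Nat.mul_le_mul_left _ h2
      have h7 : (m * #S + 1) * #F ≤ (m * #S + 1) * (m * X) := Nat.mul_le_mul_left _ hcon
      nlinarith
    calc m * #E ≤ m * (#F + X) := Nat.mul_le_mul_left _ h1
      _ = m * #F + m * X := by ring
      _ < m * #F + #F := by omega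
      _ = (m + 1) * #F := by ring
  -- the linear map
  let Rc : (Fin (m + 1) × F → ℤ) →ₗ[ℤ] (Fin (m + 1) → MonoidAlgebra ℤ H) :=
    { toFun := fun c j => ∑ x : F, MonoidAlgebra.single (x : H) (c (j, x))
      map_add' := by
        intro c d
        ext1 j
        simp [Finset.sum_add_distrib]
      map_smul' := by
        intro a c
        ext1 j
        simp [Finset.smul_sum] }
  let Φ : (Fin (m + 1) × F → ℤ) →ₗ[ℤ] (Fin m × E → ℤ) :=
    { toFun := fun c p => (∑ j, Rc c j * v j p.1).coeff (p.2 : H)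
      map_add' := by
        intro c d
        ext p
        simp [add_mul, Finset.sum_add_distrib]
      map_smul' := by
        intro a c
        ext p
        change (∑ j, Rc (a • c) j * v j p.1).coeff (p.2 : H) = a • (∑ j, Rc c j * v j p.1).coeff (p.2 : H)
        rw [map_smul, ← Finsupp.smul_apply, ← MonoidAlgebra.coeff_smul, Finset.smul_sum]
        simp only [Pi.smul_apply, smul_mul_assoc] }
  have hninj : ¬ Function.Injective Φ := by
    intro hinj
    have := card_le_of_injective ℤ Φ hinj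
    simp only [Fintype.card_prod, Fintype.card_fin, Fintype.card_coe] at this
    omega
  rw [← LinearMap.ker_eq_bot, Submodule.eq_bot_iff] at hninj
  push Not at hninj
  obtain ⟨c, hc, hc0⟩ := hninj
  refine ⟨Rc c, ?_, ?_⟩
  · intro h0
    apply hc0
    ext ⟨j, x⟩
    have h1 : (Rc c j).coeff (x : H) = 0 := by rw [h0]; rfl
    have h2 : (Rc c j).coeff (x : H) = c (j, x) := by
      change (∑ y : F, MonoidAlgebra.single (y : H) (c (j, y))).coeff (x : H) = _
      rw [MonoidAlgebra.coeff_sum, Finset.sum_apply']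
      rw [Finset.sum_eq_single x]
      · simp
      · intro b _ hb
        rw [MonoidAlgebra.coeff_single, Finsupp.single_apply, if_neg]
        intro h; exact hb (Subtype.ext h)
      · simp
    rw [← h2, h1]; rfl
  · ext1 i
    rw [Finset.sum_apply]
    simp only [Pi.smul_apply, smul_eq_mul]
    ext h
    by_cases hh : h ∈ E
    · have := congrFun (LinearMap.mem_ker.1 hc) (i, ⟨h, hh⟩)
      exact this
    · change (∑ j, Rc c j * v j i).coeff h = 0
      rw [MonoidAlgebra.coeff_sum, Finset.sum_apply']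
      apply Finset.sum_eq_zero
      intro j _
      change ((∑ x : F, MonoidAlgebra.single (x : H) (c (j, x))) * v j i).coeff h = 0
      rw [Finset.sum_mul, MonoidAlgebra.coeff_sum, Finset.sum_apply']
      apply Finset.sum_eq_zero
      intro x _
      rw [MonoidAlgebra.coeff_single_mul_apply]
      have : (v j i).coeff ((x : H)⁻¹ * h) = 0 := by
        by_contra hne
        apply hh
        have h1 := hE x x.2 ((x : H)⁻¹ * h) (by
          simp only [S, Finset.mem_biUnion, Finset.mem_univ, true_and]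
          exact ⟨j, i, Finsupp.mem_support_iff.2 hne⟩)
        simpa using h1
      rw [this, mul_zero]

end SRC

/-- TASK SRC -/
theorem src_solvable (H : Type) [Group H] (hH : Group.IsSolvable H) (m : ℕ)
    (v : Fin (m + 1) → Fin m → MonoidAlgebra ℤ H) :
    ∃ R : Fin (m + 1) → MonoidAlgebra ℤ H, R ≠ 0 ∧ ∑ j, R j • v j = 0 := by
  obtain ⟨n, hn⟩ := hH.solvable
  exact SRC.src_of_fo H (SRC.fo_of_derived n H hn) m v

end Pool.Agent.H577R3
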