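import Mathlib
import Pool.Agent.H577R3.Base
import Pool.Agent.H577R3.Free
import Pool.Agent.H577R3.TaskWP
import Pool.Agent.H577R3.TaskNZD
import Pool.Agent.H577R3.TaskSRC
import Pool.Agent.H54R3.TaskMDQ
import Pool.Agent.H54R3.TaskSEPZ

set_option autoImplicit false

/-! The free solvable groups of class 3 are rich. -/

namespace Pool.Agent.H577R3

open FirstOrder FirstOrder.Language Pool.Agent.Helper967.ArithDef Pool.Agent.Helper967.ModelDef
open Pool.Agent.Helper777.Prof Encodable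

theorem tf_of_nzd (H : Type) [Group H] [NoZeroDivisors (MonoidAlgebra ℤ H)] (v : H) (hv : v ≠ 1)
    (j : ℕ) (hj : 0 < j) : v ^ j ≠ 1 := by
  intro h
  have h1 : (∑ i ∈ Finset.range j, (U v) ^ i) * (U v - 1) = 0 := by
    rw [geom_sum_mul, ← map_pow, h, map_one, sub_self]
  rcases mul_eq_zero.1 h1 with h2 | h2
  · have h3 := congrArg (MonoidAlgebra.lift ℤ ℤ H (1 : H →* ℤ)) h2
    rw [map_sum, map_zero] at h3
    have h4 : ∀ i ∈ Finset.range j, (MonoidAlgebra.lift ℤ ℤ H (1 : H →* ℤ)) ((U v) ^ i) = 1 := by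
      intro i _
      rw [map_pow]
      simp
    rw [Finset.sum_congr rfl h4] at h3
    simp at h3
    omega
  · apply hv
    rw [sub_eq_zero] at h2
    exact MonoidAlgebra.of_injective (R := ℤ) (show U v = MonoidAlgebra.of ℤ H 1 by rw [h2, map_one])

attribute [local instance] strG

theorem rich_of_richQ {G : Type} [Group G] {n : ℕ} {x : Fin n → G} (i : Fin n)
    (hinj : Function.Injective (fun k : ℕ => x i ^ k)) (h : RichQ x (MonoidHom.id G)) : Rich x := by
  obtain ⟨sN, hN, hE⟩ := h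
  have hE' : R2 (sC hN (W n)) (sG x) (fun w g => g = ev x w) := hE
  have hpw : F1 (sC hN ℕ) (sC hN (W n)) (pwW i) := F1.comp (primrec_pwW i).to_comp
  have hp : R2 (sC hN ℕ) (sG x) (fun k g => g = x i ^ k) := by
    intro Γ c
    refine Dc.iff (fun p => ?_) (hE'.app (hpw.app DcF.var.wk) DcF.var)
    rw [ev_pwW]
  have hop : ∀ f : ℕ → ℕ → ℕ, Computable₂ f → ∃ R : (ℕ → G) → Prop, Df x R ∧
      ∀ w : ℕ → ℕ, R (fun n => x i ^ (w n)) ↔ f (w 0) (w 1) = w 2 := by
    intro f hf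
    have hf' : F2 (sC hN ℕ) (sC hN ℕ) (sC hN ℕ) f := F2.comp hf
    have h3 : R3 (sG x) (sG x) (sG x) (fun g₀ g₁ g₂ => ∃ a b : ℕ, g₀ = x i ^ a ∧ g₁ = x i ^ b ∧
        g₂ = x i ^ (f a b)) := by
      intro Γ c
      refine Dc.ex (sC hN ℕ) (Q := fun (p : ((Γ × G) × G) × G) (a : ℕ) => ∃ b : ℕ,
        p.1.1.2 = x i ^ a ∧ p.1.2 = x i ^ b ∧ p.2 = x i ^ (f a b)) (Dc.ex (sC hN ℕ)
        (Q := fun (p : (((Γ × G) × G) × G) × ℕ) (b : ℕ) =>
        p.1.1.1.2 = x i ^ p.2 ∧ p.1.1.2 = x i ^ b ∧ p.1.2 = x i ^ (f p.2 b)) ?_)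
      exact (hp.app DcF.var.wk DcF.var.wk.wk.wk.wk).and ((hp.app DcF.var DcF.var.wk.wk.wk).and
        (hp.app (hf'.app DcF.var.wk DcF.var) DcF.var.wk.wk))
    refine ⟨_, (Dg.of3 h3).toDf, fun w => ?_⟩
    constructor
    · rintro ⟨a, b, h0, h1, h2⟩
      rw [hinj h0, hinj h1]
      exact (hinj h2).symm
    · intro h
      exact ⟨w 0, w 1, rfl, rfl, by rw [h]⟩
  refine ⟨i, hinj, ⟨?_, ?_, ?_⟩, ?_⟩
  · have h1 : R1 (sG x) (fun g => ∃ k : ℕ, g = x i ^ k) := by
      intro Γ c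
      exact Dc.ex (sC hN ℕ) (Q := fun (p : Γ × G) (k : ℕ) => p.2 = x i ^ k)
        (hp.app DcF.var DcF.var.wk)
    exact (Dg.of1 h1).toDf
  · obtain ⟨R, hR, h1⟩ := hop (fun a b => a + b) Primrec.nat_add.to_comp
    exact ⟨fun _ => R, hR, fun _ w => h1 w⟩
  · obtain ⟨R, hR, h1⟩ := hop (fun a b => a * b) Primrec.nat_mul.to_comp
    exact ⟨fun _ => R, hR, fun _ w => h1 w⟩
  · have henc : F1 (sC hN (W n)) (sC hN ℕ) (encode : W n → ℕ) := F1.comp Primrec.encode.to_comp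
    have h2 : R2 (sG x) (sG x) (fun g g' => ∃ l : W n, g = x i ^ (encode l) ∧ g' = ev x l) := by
      intro Γ c
      exact Dc.ex (sC hN (W n)) (Q := fun (p : (Γ × G) × G) (l : W n) =>
        p.1.2 = x i ^ (encode l) ∧ p.2 = ev x l)
        ((hp.app (henc.app DcF.var) DcF.var.wk.wk).and (hE'.app DcF.var DcF.var.wk))
    exact (Dg.of2 h2).toDf

theorem gens_closure (n d : ℕ) : Subgroup.closure (Set.range (gens n d)) = ⊤ := by
  rw [← FreeGroup.range_lift_eq_closure]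
  have : FreeGroup.lift (gens n d) = pn (Fin n) d := by
    ext i; simp [gens]
  rw [this]
  exact MonoidHom.range_eq_top.2 (QuotientGroup.mk'_surjective _)

theorem ev_gens (n d : ℕ) (w : W n) : ev (gens n d) w = pn (Fin n) d (FreeGroup.mk w) := by
  unfold ev
  have : FreeGroup.lift (gens n d) = pn (Fin n) d := by
    ext i; simp [gens]
  rw [this]

theorem pn_eq_one (n d : ℕ) (w : FreeGroup (Fin n)) :
    pn (Fin n) d w = 1 ↔ w ∈ derivedSeries (FreeGroup (Fin n)) d :=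
  QuotientGroup.eq_one_iff w

theorem gen_inj (n d : ℕ) (i : Fin n) : Function.Injective (fun k : ℕ => (gens n (d + 1) i) ^ k) := by
  intro a b hab
  have h1 : (pn (Fin n) (d + 1) (FreeGroup.of i)) ^ ((a : ℤ) - b) = 1 := by
    rw [zpow_sub, mul_inv_eq_one, zpow_natCast, zpow_natCast]
    exact hab
  have := gen_zpow d i _ h1
  omega

theorem solvable_zm (m : ℕ) : Group.IsSolvable (Zm m) := inferInstance

theorem nzd_zm (m : ℕ) : NoZeroDivisors (MonoidAlgebra ℤ (Zm m)) := inferInstance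

/-- the free metabelian groups are rich -/
theorem rich2 (n : ℕ) (hn : 2 ≤ n) : RichQ (gens n 2) (MonoidHom.id _) := by
  obtain ⟨π, hπ, ⟨M⟩⟩ := Pool.Agent.H54R3.MDQ.md_zm n
  have hn0 : 0 < n := by omega
  obtain ⟨L, hL⟩ := Pool.Agent.H54R3.Sep.sep_zm n hn0
  have hsur : Function.Surjective π := by
    rw [← MonoidHom.range_eq_top, eq_top_iff]
    rintro g -
    have h1 : g = ∏ i, (zb i) ^ (Multiplicative.toAdd g i) := by
      apply Multiplicative.toAdd.injective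
      rw [toAdd_prod]
      funext j
      simp [Finset.sum_apply, Pi.single_apply]
    rw [h1]
    exact Subgroup.prod_mem _ (fun i _ => Subgroup.zpow_mem _
      (MonoidHom.mem_range.2 ⟨gens n 2 i, hπ i⟩) _)
  have hne : ∃ a, π a = 1 ∧ a ≠ 1 := by
    obtain ⟨w, h1, h2⟩ := ds_not_le n hn (show 1 < 2 by omega)
    refine ⟨pn (Fin n) 2 w, ?_, fun h => h2 ((pn_eq_one n 2 w).1 h)⟩
    have h3 : derivedSeries (FreeGroup (Fin n)) 1 ≤ (π.comp (pn (Fin n) 2)).ker := by
      rw [derivedSeries_one]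
      exact Abelianization.commutator_subset_ker _
    exact h3 h1
  have hx := gens_closure n 2
  have hker := M.ker_def (gens n 2) hne
  have hR := richQ_base M hsur hker hx hne ⟨0, hn0⟩
  refine RichQ.step M hsur hne hx ⟨0, hn0⟩ ?_ hL (tf_of_nzd _)
    (fun v => src_solvable _ (solvable_zm n) n v) (arithWP_dq n 2) (List.cons (List.cons (⟨0, hn0⟩, true) List.nil) List.nil) ?_ ?_ hR
  · intro j hj
    rw [hπ]
    refine tf_of_nzd _ _ ?_ j hj
    intro h
    have := congrArg (fun z : Zm n => Multiplicative.toAdd z ⟨0, hn0⟩) h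
    simp at this
  · intro κ hκ
    rw [List.mem_singleton.1 hκ, ev_cons, ev_nil]
    simp only [cond_true, mul_one, hπ]
    intro h
    have := congrArg (fun z : Zm n => Multiplicative.toAdd z ⟨0, hn0⟩) h
    simp at this
  · intro g
    show π (g * _ * g⁻¹ * _⁻¹) = 1
    rw [map_mul, map_mul, map_mul, map_inv, map_inv]
    rw [mul_comm (π g), mul_inv_cancel_right, mul_inv_cancel]

/-- the step for the free solvable groups, given the separation property -/
theorem rich_succ (n : ℕ) (hn : 2 ≤ n) (d L : ℕ) (hL : SepProp (Dq (Fin n) (d + 1)) L)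
    (h : RichQ (gens n (d + 1)) (MonoidHom.id _)) : RichQ (gens n (d + 2)) (MonoidHom.id _) := by
  obtain ⟨π, hπ, ⟨M⟩⟩ := Pool.Agent.H54R3.MDQ.md_dq n (d + 1)
  have hn0 : 0 < n := by omega
  have := nzd_dq (Fin n) (d + 1)
  have hsur : Function.Surjective π := by
    intro g
    obtain ⟨w, rfl⟩ := QuotientGroup.mk'_surjective _ g
    exact ⟨pn (Fin n) (d + 2) w, hπ w⟩
  have hne : ∃ a, π a = 1 ∧ a ≠ 1 := by
    obtain ⟨w, h1, h2⟩ := ds_not_le n hn (show d + 1 < d + 2 by omega)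
    refine ⟨pn (Fin n) (d + 2) w, ?_, fun h => h2 ((pn_eq_one n (d + 2) w).1 h)⟩
    rw [hπ, pn_eq_one]
    exact h1
  have hx := gens_closure n (d + 2)
  have hker := M.ker_def (gens n (d + 2)) hne
  have hgen : (fun i => π (gens n (d + 2) i)) = gens n (d + 1) := funext fun i => hπ _
  have hR : RichQ (gens n (d + 2)) π := RichQ.pull hsur hker (by rw [hgen]; exact h)
  have hsolv : Group.IsSolvable (Dq (Fin n) (d + 1)) := by
    refine ⟨⟨d + 1, ?_⟩⟩
    rw [eq_bot_iff, ← map_derivedSeries_eq (f := pn (Fin n) (d + 1)) (QuotientGroup.mk'_surjective _)]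
    rintro _ ⟨w, hw, rfl⟩
    exact (pn_eq_one n (d + 1) w).2 hw
  obtain ⟨ks, hk1, hk2⟩ := exists_test n hn (d + 1) (d + 1) 0 (by omega)
  have hmk : ∀ ks : List (FreeGroup (Fin n)),
      (ks.map FreeGroup.toWord).map (ev (gens n (d + 2))) = ks.map (pn (Fin n) (d + 2)) := by
    intro ks
    rw [List.map_map]
    refine List.map_congr_left (fun k _ => ?_)
    rw [Function.comp_apply, ev_gens, FreeGroup.mk_toWord]
  refine RichQ.step M hsur hne hx ⟨0, hn0⟩ ?_ hL (tf_of_nzd _)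
    (fun v => src_solvable _ hsolv n v) (arithWP_dq n (d + 2)) (ks.map FreeGroup.toWord) ?_ ?_ hR
  · intro j hj
    rw [show π (gens n (d + 2) ⟨0, hn0⟩) = gens n (d + 1) ⟨0, hn0⟩ from hπ _]
    refine tf_of_nzd _ _ ?_ j hj
    intro h
    have := gen_inj n d ⟨0, hn0⟩ (a₁ := 1) (a₂ := 0) (by simpa using h)
    omega
  · intro κ hκ
    obtain ⟨k, hk, rfl⟩ := List.mem_map.1 hκ
    rw [ev_gens, FreeGroup.mk_toWord, hπ, Ne, pn_eq_one]
    exact hk1 k hk
  · intro g
    obtain ⟨w, rfl⟩ := QuotientGroup.mk'_surjective _ g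
    rw [hmk]
    show π (itC _ (pn (Fin n) (d + 2) w)) = 1
    rw [← itC_map, hπ, pn_eq_one]
    exact hk2 w (by rw [derivedSeries_zero]; trivial)

theorem rich3 (n : ℕ) (hn : 2 ≤ n) : Rich (gens n 3) := by
  obtain ⟨L, hL⟩ := Pool.Agent.H54R3.Sep.sep_dq2' n hn
  exact rich_of_richQ ⟨0, by omega⟩ (gen_inj n 2 _) (rich_succ n hn 1 L hL (rich2 n hn))

end Pool.Agent.H577R3
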