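import Mathlib
import Pool.Agent.H577R3.Defs
import Pool.Agent.H577R3.TaskWP

set_option autoImplicit false

/-! A rich finitely generated group with arithmetical word problem is quasi-finitely axiomatizable
and prime: one formula characterizes the generating tuple up to isomorphism among the finitely
generated groups. -/

namespace Pool.Agent.H577R3

open FirstOrder FirstOrder.Language Pool.Agent.Helper967.ArithDef Pool.Agent.Helper967.ModelDef Encodable

namespace QFA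

attribute [local instance] strG

/-- groups with an `n`-tuple -/
structure Mod (n : ℕ) : Type 1 where
  Γ : Type
  inst : Group Γ
  y : Fin n → Γ

instance instMod {n : ℕ} (m : Mod n) : Group m.Γ := m.inst

section calculus
variable {n : ℕ}

/-- uniformly definable predicates -/
abbrev UD (R : ∀ m : Mod n, (ℕ → m.Γ) → Prop) : Prop :=
  DM (ι := Mod n) (M := fun m => m.Γ) LG (fun m => m.y) R

/-- uniformly definable terms -/
def UT (F : ∀ m : Mod n, (ℕ → m.Γ) → m.Γ) : Prop := UD (fun m v => v 0 = F m (fun k => v (k + 1)))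

theorem tren {F : ∀ m : Mod n, (ℕ → m.Γ) → m.Γ} (ρ : ℕ → ℕ) (hF : UT F) :
    UT (fun m v => F m (fun i => v (ρ i))) := by
  have := DM.ren (fun n => match n with | 0 => 0 | n + 1 => ρ n + 1) hF
  exact this

theorem tvar (i : ℕ) : UT (n := n) (fun _ v => v i) := DM.var_eq 0 (i + 1)

theorem tpar (j : Fin n) : UT (n := n) (fun m _ => m.y j) := DM.var_eq_par 0 j

theorem sub {R : ∀ m : Mod n, m.Γ → (ℕ → m.Γ) → Prop} {F : ∀ m : Mod n, (ℕ → m.Γ) → m.Γ}
    (hF : UT F) (hR : UD (fun m v => R m (v 0) (fun k => v (k + 1)))) :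
    UD (fun m v => R m (F m v) v) :=
  DM.iff (fun m v => by simp) (DM.ex (S := fun m a v => a = F m v ∧ R m a v) (DM.and hF hR))

theorem app1 {R : ∀ m : Mod n, m.Γ → Prop} {F : ∀ m : Mod n, (ℕ → m.Γ) → m.Γ}
    (hR : UD (fun m v => R m (v 0))) (hF : UT F) : UD (fun m v => R m (F m v)) :=
  sub (R := fun m a _ => R m a) hF hR

theorem app2 {R : ∀ m : Mod n, m.Γ → m.Γ → Prop} {F G : ∀ m : Mod n, (ℕ → m.Γ) → m.Γ}
    (hR : UD (fun m v => R m (v 0) (v 1))) (hF : UT F) (hG : UT G) :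
    UD (fun m v => R m (F m v) (G m v)) := by
  refine sub (R := fun m a v => R m a (G m v)) hF ?_
  refine sub (R := fun m b v => R m (v 0) b) (F := fun m v => G m (fun n => v (n + 1)))
    (tren (fun n => n + 1) hG) ?_
  exact DM.ren (fun n => match n with | 0 => 1 | _ => 0) hR

theorem app3 {R : ∀ m : Mod n, m.Γ → m.Γ → m.Γ → Prop} {F G H : ∀ m : Mod n, (ℕ → m.Γ) → m.Γ}
    (hR : UD (fun m v => R m (v 0) (v 1) (v 2))) (hF : UT F) (hG : UT G) (hH : UT H) :
    UD (fun m v => R m (F m v) (G m v) (H m v)) := by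
  refine sub (R := fun m a v => R m a (G m v) (H m v)) hF ?_
  refine sub (R := fun m b v => R m (v 0) b (H m (fun n => v (n + 1))))
    (F := fun m v => G m (fun n => v (n + 1))) (tren (fun n => n + 1) hG) ?_
  refine sub (R := fun m c v => R m (v 1) (v 0) c)
    (F := fun m v => H m (fun n => v (n + 2))) (tren (fun n => n + 2) hH) ?_
  exact DM.ren (fun n => match n with | 0 => 2 | 1 => 1 | _ => 0) hR

theorem eq {F G : ∀ m : Mod n, (ℕ → m.Γ) → m.Γ} (hF : UT F) (hG : UT G) :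
    UD (fun m v => F m v = G m v) :=
  app2 (R := fun m a b => a = b) (DM.var_eq 0 1) hF hG

/-- the multiplication symbol -/
def mulsym : LG.Functions 2 := by
  change (if 2 = 2 then Unit else Empty)
  rw [if_pos rfl]
  exact ()

theorem mul_raw : UD (n := n) (fun _ v => v 0 * v 1 = v 2) :=
  DM.iff (fun m v => by
    simp [Structure.funMap, List.ofFn_succ])
    (DM.term (L := LG) (M := fun m : Mod n => m.Γ) (par := fun m => m.y)
      (Term.func mulsym ![Term.var (Sum.inr 0), Term.var (Sum.inr 1)]) (Term.var (Sum.inr 2)))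

theorem tmul {F G : ∀ m : Mod n, (ℕ → m.Γ) → m.Γ} (hF : UT F) (hG : UT G) :
    UT (fun m v => F m v * G m v) :=
  DM.iff (fun _ _ => eq_comm) (app3 (R := fun m a b c => a * b = c) mul_raw
    (tren (fun n => n + 1) hF) (tren (fun n => n + 1) hG) (tvar 0))

theorem tone : UT (n := n) (fun _ _ => 1) :=
  DM.iff (fun m v => mul_eq_left) (eq (tmul (tvar 0) (tvar 0)) (tvar 0))

theorem tinv {F : ∀ m : Mod n, (ℕ → m.Γ) → m.Γ} (hF : UT F) : UT (fun m v => (F m v)⁻¹) :=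
  DM.iff (fun m v => mul_eq_one_iff_eq_inv)
    (eq (F := fun m v => v 0 * F m (fun k => v (k + 1))) (tmul (tvar 0) (tren (fun n => n + 1) hF)) tone)

theorem fin_all {κ : Type} [Finite κ] {R : κ → ∀ m : Mod n, (ℕ → m.Γ) → Prop}
    (h : ∀ k, UD (R k)) : UD (fun m v => ∀ k, R k m v) := by
  choose φ hφ using h
  refine ⟨Formula.iInf φ, fun m v => ?_⟩
  rw [Formula.realize_iInf]
  exact forall_congr' fun k => hφ k m v

/-- the relation given by a formula -/
def R1 (ψ : LG.Formula (Fin n ⊕ ℕ)) (m : Mod n) (a : m.Γ) : Prop :=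
  ψ.Realize (Sum.elim m.y (fun _ => a))

def R2 (ψ : LG.Formula (Fin n ⊕ ℕ)) (m : Mod n) (a b : m.Γ) : Prop :=
  ψ.Realize (Sum.elim m.y (fun k => match k with | 0 => a | _ => b))

def R3 (ψ : LG.Formula (Fin n ⊕ ℕ)) (m : Mod n) (a b c : m.Γ) : Prop :=
  ψ.Realize (Sum.elim m.y (fun k => match k with | 0 => a | 1 => b | _ => c))

theorem ud1 (ψ : LG.Formula (Fin n ⊕ ℕ)) {F : ∀ m : Mod n, (ℕ → m.Γ) → m.Γ} (hF : UT F) :
    UD (fun m v => R1 ψ m (F m v)) := by
  refine app1 (R := fun m a => R1 ψ m a) ?_ hF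
  exact DM.ren (L := LG) (M := fun m : Mod n => m.Γ) (par := fun m => m.y)
    (R := fun m v => ψ.Realize (Sum.elim m.y v)) (fun _ => 0) ⟨ψ, fun _ _ => Iff.rfl⟩

theorem ud2 (ψ : LG.Formula (Fin n ⊕ ℕ)) {F G : ∀ m : Mod n, (ℕ → m.Γ) → m.Γ} (hF : UT F)
    (hG : UT G) : UD (fun m v => R2 ψ m (F m v) (G m v)) := by
  refine app2 (R := fun m a b => R2 ψ m a b) ?_ hF hG
  refine DM.iff (fun m v => ?_) (DM.ren (L := LG) (M := fun m : Mod n => m.Γ) (par := fun m => m.y)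
    (R := fun m v => ψ.Realize (Sum.elim m.y v))
    (fun k => match k with | 0 => 0 | _ => 1) ⟨ψ, fun _ _ => Iff.rfl⟩)
  unfold R2
  have : (fun k => v (match k with | 0 => 0 | _ => 1)) =
      (fun k => match k with | 0 => v 0 | _ => v 1 : ℕ → m.Γ) := by
    funext k
    match k with
    | 0 => rfl
    | k + 1 => rfl
  rw [this]

theorem ud3 (ψ : LG.Formula (Fin n ⊕ ℕ)) {F G H : ∀ m : Mod n, (ℕ → m.Γ) → m.Γ} (hF : UT F)
    (hG : UT G) (hH : UT H) : UD (fun m v => R3 ψ m (F m v) (G m v) (H m v)) := by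
  refine app3 (R := fun m a b c => R3 ψ m a b c) ?_ hF hG hH
  refine DM.iff (fun m v => ?_) (DM.ren (L := LG) (M := fun m : Mod n => m.Γ) (par := fun m => m.y)
    (R := fun m v => ψ.Realize (Sum.elim m.y v))
    (fun k => match k with | 0 => 0 | 1 => 1 | _ => 2) ⟨ψ, fun _ _ => Iff.rfl⟩)
  unfold R3
  have : (fun k => v (match k with | 0 => 0 | 1 => 1 | _ => 2)) =
      (fun k => match k with | 0 => v 0 | 1 => v 1 | _ => v 2 : ℕ → m.Γ) := by
    funext k
    match k with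
    | 0 => rfl
    | 1 => rfl
    | k + 2 => rfl
  rw [this]

end calculus

section abs
variable {Γ : Type} [Group Γ]

/-- the axioms about arithmetic and word length -/
structure AxN (z : Γ) (N : Γ → Prop) (A Mu Th : Γ → Γ → Γ → Prop) (Le : Γ → Γ → Prop) : Prop where
  n1 : N 1
  n2 : ∀ v, N v → N (z * v)
  n3 : ∀ v, N v → ¬ z * v = 1
  a1 : ∀ v, N v → A v 1 v
  a2 : ∀ u v w, N u → N v → N w → A u v w → A u (z * v) (z * w)
  a3 : ∀ u v w w', N u → N v → N w → N w' → A u v w → A u v w' → w = w'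
  m1 : ∀ v, N v → Mu v 1 1
  m2 : ∀ u v w w', N u → N v → N w → N w' → Mu u v w → A w u w' → Mu u (z * v) w'
  m3 : ∀ u v w w', N u → N v → N w → N w' → Mu u v w → Mu u v w' → w = w'
  t0 : ∀ a b, N a → N b → Th a b 1
  t1 : ∀ g, ∃ a, N a ∧ Th a z g
  t1' : ∀ a a', N a → N a' → ∃ a'', N a'' ∧ ∀ g, (Th a z g ∨ Th a' z g) → Th a'' z g
  t2 : ∀ a b g h, N a → N b → Th a b g → Th a z h → Th a (z * b) (g * h)
  t3 : ∀ a b e g, N a → N b → N e → Le b e → Th a b g → Th a e g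
  t4 : ∀ e, N e → Le 1 e
  t4' : ∀ e b, N e → N b → Le b e → (b = e ∨ Le (z * b) e)
  t5 : ∀ a e, N a → N e → ∃ g, ¬ Th a e g

/-- being a standard model of arithmetic -/
structure Std (z : Γ) (N : Γ → Prop) (A Mu : Γ → Γ → Γ → Prop) : Prop where
  inj : Function.Injective (fun k : ℕ => z ^ k)
  rng : ∀ g, N g ↔ ∃ k : ℕ, g = z ^ k
  add : ∀ a b c : ℕ, A (z ^ a) (z ^ b) (z ^ c) ↔ a + b = c
  mul : ∀ a b c : ℕ, Mu (z ^ a) (z ^ b) (z ^ c) ↔ a * b = c

variable {z : Γ} {N : Γ → Prop} {A Mu Th : Γ → Γ → Γ → Prop} {Le : Γ → Γ → Prop}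

theorem std_of_ax (h : AxN z N A Mu Th Le) (hfg : Group.FG Γ) : Std z N A Mu := by
  have hN : ∀ k : ℕ, N (z ^ k) := by
    intro k
    induction k with
    | zero => simpa using h.n1
    | succ k ih => rw [pow_succ']; exact h.n2 _ ih
  have hpos : ∀ k : ℕ, z ^ (k + 1) ≠ 1 := by
    intro k
    rw [pow_succ']
    exact h.n3 _ (hN k)
  have hinj : Function.Injective (fun k : ℕ => z ^ k) := by
    have key : ∀ a b : ℕ, a < b → z ^ a ≠ z ^ b := by
      intro a b hab he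
      obtain ⟨c, rfl⟩ := Nat.exists_eq_add_of_lt hab
      have : z ^ (c + 1) = 1 := by
        have h2 : z ^ (a + c + 1) = z ^ a * z ^ (c + 1) := by rw [← pow_add]; ring_nf
        rw [h2] at he
        exact (mul_eq_left.1 he.symm)
      exact hpos c this
    intro a b hab
    rcases lt_trichotomy a b with hlt | heq | hgt
    · exact absurd hab (key a b hlt)
    · exact heq
    · exact absurd hab.symm (key b a hgt)
  have hNr : ∀ g, N g ↔ ∃ k : ℕ, g = z ^ k := by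
    intro e
    constructor
    · intro he
      by_contra hcon
      push Not at hcon
      -- `e` is above all numerals
      have hle : ∀ k : ℕ, Le (z ^ k) e := by
        intro k
        induction k with
        | zero => simpa using h.t4 e he
        | succ k ih =>
          rcases h.t4' e (z ^ k) he (hN k) ih with h1 | h1
          · exact absurd h1.symm (hcon k)
          · rw [pow_succ']; exact h1
      obtain ⟨S, hS⟩ := Group.fg_def.1 hfg
      -- a common bound for the generators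
      have hb : ∀ T : Finset Γ, ∃ a, N a ∧ ∀ s ∈ T, Th a z s ∧ Th a z s⁻¹ := by
        classical
        intro T
        induction T using Finset.induction_on with
        | empty => exact ⟨1, h.n1, by simp⟩
        | insert s T _ ih =>
          obtain ⟨a, ha, haT⟩ := ih
          obtain ⟨b, hb, hbs⟩ := h.t1 s
          obtain ⟨c, hc, hcs⟩ := h.t1 s⁻¹
          obtain ⟨d, hd, hd'⟩ := h.t1' a b ha hb
          obtain ⟨f, hf, hf'⟩ := h.t1' d c hd hc
          refine ⟨f, hf, ?_⟩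
          intro t ht
          rw [Finset.mem_insert] at ht
          rcases ht with rfl | ht
          · exact ⟨hf' _ (Or.inl (hd' _ (Or.inr hbs))), hf' _ (Or.inr hcs)⟩
          · exact ⟨hf' _ (Or.inl (hd' _ (Or.inl (haT t ht).1))),
              hf' _ (Or.inl (hd' _ (Or.inl (haT t ht).2)))⟩
      obtain ⟨a, ha, haS⟩ := hb S
      have hall : ∀ g : Γ, ∃ k : ℕ, Th a (z ^ k) g := by
        intro g
        have hg : g ∈ Subgroup.closure (S : Set Γ) := by rw [hS]; trivial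
        induction hg using Subgroup.closure_induction_right with
        | one => exact ⟨0, by simpa using h.t0 a 1 ha h.n1⟩
        | mul_right x _ y hy ih =>
          obtain ⟨k, hk⟩ := ih
          exact ⟨k + 1, by rw [pow_succ']; exact h.t2 a _ x y ha (hN k) hk (haS y hy).1⟩
        | mul_inv_cancel x _ y hy ih =>
          obtain ⟨k, hk⟩ := ih
          exact ⟨k + 1, by rw [pow_succ']; exact h.t2 a _ x y⁻¹ ha (hN k) hk (haS y hy).2⟩
      obtain ⟨g, hg⟩ := h.t5 a e ha he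
      obtain ⟨k, hk⟩ := hall g
      exact hg (h.t3 a _ e g ha (hN k) he (hle k) hk)
    · rintro ⟨k, rfl⟩
      exact hN k
  have hadd : ∀ a b : ℕ, A (z ^ a) (z ^ b) (z ^ (a + b)) := by
    intro a b
    induction b with
    | zero => simpa using h.a1 _ (hN a)
    | succ b ih =>
      have := h.a2 _ _ _ (hN a) (hN b) (hN _) ih
      rw [← pow_succ', ← pow_succ'] at this
      exact this
  have hmul : ∀ a b : ℕ, Mu (z ^ a) (z ^ b) (z ^ (a * b)) := by
    intro a b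
    induction b with
    | zero => simpa using h.m1 _ (hN a)
    | succ b ih =>
      have := h.m2 _ _ _ _ (hN a) (hN b) (hN _) (hN (a * b + a)) ih (hadd _ _)
      rw [← pow_succ'] at this
      rw [Nat.mul_succ]
      exact this
  refine ⟨hinj, hNr, ?_, ?_⟩
  · intro a b c
    constructor
    · intro h1
      exact hinj (h.a3 _ _ _ _ (hN a) (hN b) (hN _) (hN c) (hadd a b) h1)
    · rintro rfl
      exact hadd a b
  · intro a b c
    constructor
    · intro h1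
      exact hinj (h.m3 _ _ _ _ (hN a) (hN b) (hN _) (hN c) (hmul a b) h1)
    · rintro rfl
      exact hmul a b

theorem ev_append {n : ℕ} (x : Fin n → Γ) (l l' : WP.W n) : ev x (l ++ l') = ev x l * ev x l' := by
  unfold ev; rw [← FreeGroup.mul_mk, map_mul]

theorem ev_nil {n : ℕ} (x : Fin n → Γ) : ev x [] = 1 := by
  unfold ev
  exact map_one _

theorem ev_surj {n : ℕ} (x : Fin n → Γ) (hx : Subgroup.closure (Set.range x) = ⊤) (g : Γ) :
    ∃ l, ev x l = g := by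
  have h : (FreeGroup.lift x).range = ⊤ := by
    rw [FreeGroup.range_lift_eq_closure, hx]
  obtain ⟨w, hw⟩ := MonoidHom.range_eq_top.1 h g
  exact ⟨w.toWord, by unfold ev; rw [FreeGroup.mk_toWord, hw]⟩

/-- the axioms hold in the standard situation -/
theorem ax_of_std {n : ℕ} (x : Fin n → Γ) (hx : Subgroup.closure (Set.range x) = ⊤)
    (hinf : Infinite Γ) (h : Std z N A Mu)
    (hTh : ∀ (p q : ℕ) (g : Γ), Th (z ^ p) (z ^ q) g ↔ ∃ l : WP.W n, g = ev x l ∧ l.length ≤ p * q)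
    (hLe : ∀ p q : ℕ, Le (z ^ p) (z ^ q) ↔ p ≤ q) : AxN z N A Mu Th Le := by
  have hN : ∀ k : ℕ, N (z ^ k) := fun k => (h.rng _).2 ⟨k, rfl⟩
  have hz0 : (1 : Γ) = z ^ 0 := (pow_zero z).symm
  have hTh1 : ∀ (p : ℕ) (g : Γ), Th (z ^ p) z g ↔ ∃ l : WP.W n, g = ev x l ∧ l.length ≤ p := by
    intro p g
    have := hTh p 1 g
    rwa [pow_one, mul_one] at this
  refine ⟨?_, ?_, ?_, ?_, ?_, ?_, ?_, ?_, ?_, ?_, ?_, ?_, ?_, ?_, ?_, ?_, ?_⟩
  · rw [hz0]; exact hN 0
  · intro v hv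
    obtain ⟨k, rfl⟩ := (h.rng v).1 hv
    rw [← pow_succ']; exact hN _
  · intro v hv he
    obtain ⟨k, rfl⟩ := (h.rng v).1 hv
    rw [← pow_succ', hz0] at he
    have := h.inj he
    omega
  · intro v hv
    obtain ⟨k, rfl⟩ := (h.rng v).1 hv
    have := (h.add k 0 k).2 (by omega)
    rwa [pow_zero] at this
  · intro u v w hu hv hw hA
    obtain ⟨a, rfl⟩ := (h.rng u).1 hu
    obtain ⟨b, rfl⟩ := (h.rng v).1 hv
    obtain ⟨c, rfl⟩ := (h.rng w).1 hw
    rw [h.add] at hA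
    rw [← pow_succ', ← pow_succ', h.add]
    omega
  · intro u v w w' hu hv hw hw' h1 h2
    obtain ⟨a, rfl⟩ := (h.rng u).1 hu
    obtain ⟨b, rfl⟩ := (h.rng v).1 hv
    obtain ⟨c, rfl⟩ := (h.rng w).1 hw
    obtain ⟨d, rfl⟩ := (h.rng w').1 hw'
    rw [h.add] at h1 h2
    rw [← h1, ← h2]
  · intro v hv
    obtain ⟨k, rfl⟩ := (h.rng v).1 hv
    have := (h.mul k 0 0).2 (by omega)
    rwa [pow_zero] at this
  · intro u v w w' hu hv hw hw' h1 h2
    obtain ⟨a, rfl⟩ := (h.rng u).1 hu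
    obtain ⟨b, rfl⟩ := (h.rng v).1 hv
    obtain ⟨c, rfl⟩ := (h.rng w).1 hw
    obtain ⟨d, rfl⟩ := (h.rng w').1 hw'
    rw [h.add] at h2
    rw [h.mul] at h1
    rw [← pow_succ', h.mul]
    rw [← h2, ← h1]; ring
  · intro u v w w' hu hv hw hw' h1 h2
    obtain ⟨a, rfl⟩ := (h.rng u).1 hu
    obtain ⟨b, rfl⟩ := (h.rng v).1 hv
    obtain ⟨c, rfl⟩ := (h.rng w).1 hw
    obtain ⟨d, rfl⟩ := (h.rng w').1 hw'
    rw [h.mul] at h1 h2
    rw [← h1, ← h2]
  · intro a b ha hb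
    obtain ⟨p, rfl⟩ := (h.rng a).1 ha
    obtain ⟨q, rfl⟩ := (h.rng b).1 hb
    rw [hTh]
    exact ⟨[], (ev_nil x).symm, by simp⟩
  · intro g
    obtain ⟨l, rfl⟩ := ev_surj x hx g
    exact ⟨z ^ l.length, hN _, (hTh1 _ _).2 ⟨l, rfl, le_rfl⟩⟩
  · intro a a' ha ha'
    obtain ⟨p, rfl⟩ := (h.rng a).1 ha
    obtain ⟨q, rfl⟩ := (h.rng a').1 ha'
    refine ⟨z ^ (p + q), hN _, ?_⟩
    intro g hg
    rw [hTh1]
    rw [hTh1, hTh1] at hg
    rcases hg with ⟨l, h1, h2⟩ | ⟨l, h1, h2⟩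
    · exact ⟨l, h1, by omega⟩
    · exact ⟨l, h1, by omega⟩
  · intro a b g g' ha hb h1 h2
    obtain ⟨p, rfl⟩ := (h.rng a).1 ha
    obtain ⟨q, rfl⟩ := (h.rng b).1 hb
    rw [hTh1] at h2
    rw [hTh] at h1
    rw [← pow_succ', hTh]
    obtain ⟨l, rfl, hl⟩ := h1
    obtain ⟨l', rfl, hl'⟩ := h2
    refine ⟨l ++ l', (ev_append x l l').symm, ?_⟩
    rw [List.length_append, Nat.mul_succ]
    omega
  · intro a b e g ha hb he h1 h2
    obtain ⟨p, rfl⟩ := (h.rng a).1 ha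
    obtain ⟨q, rfl⟩ := (h.rng b).1 hb
    obtain ⟨r, rfl⟩ := (h.rng e).1 he
    rw [hLe] at h1
    rw [hTh] at h2 ⊢
    obtain ⟨l, rfl, hl⟩ := h2
    exact ⟨l, rfl, hl.trans (Nat.mul_le_mul_left _ h1)⟩
  · intro e he
    obtain ⟨r, rfl⟩ := (h.rng e).1 he
    have := (hLe 0 r).2 (by omega)
    rwa [pow_zero] at this
  · intro e b he hb h1
    obtain ⟨r, rfl⟩ := (h.rng e).1 he
    obtain ⟨q, rfl⟩ := (h.rng b).1 hb
    rw [hLe] at h1
    rw [← pow_succ', hLe]
    rcases Nat.lt_or_ge q r with h2 | h2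
    · right; omega
    · left; rw [le_antisymm h1 h2]
  · intro a e ha he
    obtain ⟨p, rfl⟩ := (h.rng a).1 ha
    obtain ⟨r, rfl⟩ := (h.rng e).1 he
    by_contra hcon
    push Not at hcon
    have hfin : (Set.univ : Set Γ).Finite := by
      refine ((List.finite_length_le (Fin n × Bool) (p * r)).image (ev x)).subset ?_
      intro g _
      obtain ⟨l, h1, h2⟩ := (hTh p r g).1 (hcon g)
      exact ⟨l, h2, h1.symm⟩
    exact Set.infinite_univ hfin

/-- basic words -/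
def wd {n : ℕ} : Option (Fin n × Bool) → WP.W n
  | none => []
  | some p => [p]

/-- the axioms about the evaluation of words -/
structure AxE {n : ℕ} (y : Fin n → Γ) (N : Γ → Prop) (E : Γ → Γ → Prop) (cat : Γ → Γ → Γ → Prop)
    (code wp : Γ → Prop) (b : Option (Fin n × Bool) → Γ → Prop) : Prop where
  e0 : ∀ κ c, N c → b κ c → E c (ev y (wd κ))
  e1 : ∀ c1 c2 c3 g1 g2, N c1 → N c2 → N c3 → cat c1 c2 c3 → E c1 g1 → E c2 g2 → E c3 (g1 * g2)
  e2 : ∀ c g g', N c → E c g → E c g' → g = g'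
  e3 : ∀ g, ∃ c, N c ∧ code c ∧ E c g
  w : ∀ c, N c → code c → (wp c ↔ E c 1)

theorem iso_of_ax {G : Type} [Group G] {n : ℕ} (x : Fin n → G)
    (hx : Subgroup.closure (Set.range x) = ⊤) (y : Fin n → Γ)
    {E : Γ → Γ → Prop} {cat : Γ → Γ → Γ → Prop}
    {code wp : Γ → Prop} {b : Option (Fin n × Bool) → Γ → Prop} (hS : Std z N A Mu)
    (h : AxE y N E cat code wp b)
    (hcat : ∀ l1 l2 : WP.W n, cat (z ^ (encode l1)) (z ^ (encode l2)) (z ^ (encode (l1 ++ l2))))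
    (hcode : ∀ k : ℕ, code (z ^ k) ↔ ∃ l : WP.W n, k = encode l)
    (hwp : ∀ k : ℕ, wp (z ^ k) ↔ ∃ l : WP.W n, k = encode l ∧ ev x l = 1)
    (hb : ∀ κ, b κ (z ^ (encode (wd κ)))) : ∃ e : G ≃* Γ, ∀ i, e (x i) = y i := by
  have hN : ∀ k : ℕ, N (z ^ k) := fun k => (hS.rng _).2 ⟨k, rfl⟩
  have hE : ∀ l : WP.W n, E (z ^ (encode l)) (ev y l) := by
    intro l
    induction l with
    | nil => exact h.e0 none _ (hN _) (hb none)
    | cons p l ih =>
      have h1 := h.e0 (some p) _ (hN _) (hb (some p))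
      have h2 := h.e1 _ _ _ _ _ (hN _) (hN _) (hN _) (hcat [p] l) h1 ih
      rw [← ev_append] at h2
      exact h2
  have hsurj : ∀ g : Γ, ∃ l : WP.W n, ev y l = g := by
    intro g
    obtain ⟨c, hc, hcc, hcE⟩ := h.e3 g
    obtain ⟨k, rfl⟩ := (hS.rng c).1 hc
    obtain ⟨l, rfl⟩ := (hcode k).1 hcc
    exact ⟨l, h.e2 _ _ _ hc (hE l) hcE⟩
  have hker : ∀ l : WP.W n, ev x l = 1 ↔ ev y l = 1 := by
    intro l
    have hc : code (z ^ (encode l)) := (hcode _).2 ⟨l, rfl⟩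
    have h1 : wp (z ^ (encode l)) ↔ ev x l = 1 := by
      rw [hwp]
      constructor
      · rintro ⟨l', h1, h2⟩
        rwa [encode_injective h1]
      · intro h1; exact ⟨l, rfl, h1⟩
    rw [← h1, h.w _ (hN _) hc]
    constructor
    · intro h2
      exact h.e2 _ _ _ (hN _) (hE l) h2
    · intro h2
      rw [← h2]; exact hE l
  let f : FreeGroup (Fin n) →* G := FreeGroup.lift x
  let f' : FreeGroup (Fin n) →* Γ := FreeGroup.lift y
  have hf : Function.Surjective f := by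
    apply MonoidHom.range_eq_top.1
    rw [FreeGroup.range_lift_eq_closure, hx]
  have hf' : Function.Surjective f' := by
    intro g
    obtain ⟨l, hl⟩ := hsurj g
    exact ⟨FreeGroup.mk l, hl⟩
  have hk : f.ker = f'.ker := by
    ext w
    rw [MonoidHom.mem_ker, MonoidHom.mem_ker]
    have := hker w.toWord
    unfold ev at this
    rw [FreeGroup.mk_toWord] at this
    exact this
  refine ⟨(QuotientGroup.quotientKerEquivOfSurjective f hf).symm.trans
    ((QuotientGroup.quotientMulEquivOfEq hk).trans (QuotientGroup.quotientKerEquivOfSurjective f' hf')), ?_⟩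
  intro i
  have h1 : (QuotientGroup.quotientKerEquivOfSurjective f hf).symm (x i) =
      QuotientGroup.mk (FreeGroup.of i) := by
    rw [MulEquiv.symm_apply_eq]
    change _ = f (FreeGroup.of i)
    simp [f]
  rw [MulEquiv.trans_apply, h1, MulEquiv.trans_apply, QuotientGroup.quotientMulEquivOfEq_mk]
  change f' (FreeGroup.of i) = y i
  simp [f']

end abs


section final
variable {n : ℕ}

/-- formulas used in the axioms -/
structure Fs (n : ℕ) where
  (N A M E len le cat code wp : LG.Formula (Fin n ⊕ ℕ))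
  b : Option (Fin n × Bool) → LG.Formula (Fin n ⊕ ℕ)

def ThR (F : Fs n) (m : Mod n) (a b g : m.Γ) : Prop :=
  ∃ c, R1 F.N m c ∧ R2 F.E m c g ∧ R3 F.len m c a b

def Ax (F : Fs n) (i : Fin n) (m : Mod n) : Prop :=
  AxN (m.y i) (R1 F.N m) (R3 F.A m) (R3 F.M m) (ThR F m) (R2 F.le m) ∧
  AxE m.y (R1 F.N m) (R2 F.E m) (R3 F.cat m) (R1 F.code m) (R1 F.wp m) (fun κ => R1 (F.b κ) m)

theorem axN_iff {Γ : Type} [Group Γ] (z : Γ) (N : Γ → Prop) (A Mu Th : Γ → Γ → Γ → Prop)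
    (Le : Γ → Γ → Prop) : AxN z N A Mu Th Le ↔
  ((N 1) ∧ (∀ v, N v → N (z * v)) ∧ (∀ v, N v → ¬ z * v = 1) ∧ (∀ v, N v → A v 1 v) ∧
  (∀ u v w, N u → N v → N w → A u v w → A u (z * v) (z * w)) ∧
  (∀ u v w w', N u → N v → N w → N w' → A u v w → A u v w' → w = w') ∧
  (∀ v, N v → Mu v 1 1) ∧
  (∀ u v w w', N u → N v → N w → N w' → Mu u v w → A w u w' → Mu u (z * v) w') ∧
  (∀ u v w w', N u → N v → N w → N w' → Mu u v w → Mu u v w' → w = w') ∧
  (∀ a b, N a → N b → Th a b 1) ∧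
  (∀ g, ∃ a, N a ∧ Th a z g) ∧
  (∀ a a', N a → N a' → ∃ a'', N a'' ∧ ∀ g, (Th a z g ∨ Th a' z g) → Th a'' z g) ∧
  (∀ a b g h, N a → N b → Th a b g → Th a z h → Th a (z * b) (g * h)) ∧
  (∀ a b e g, N a → N b → N e → Le b e → Th a b g → Th a e g) ∧
  (∀ e, N e → Le 1 e) ∧
  (∀ e b, N e → N b → Le b e → (b = e ∨ Le (z * b) e)) ∧
  (∀ a e, N a → N e → ∃ g, ¬ Th a e g)) := by
  constructor
  · rintro ⟨h1, h2, h3, h4, h5, h6, h7, h8, h9, h10, h11, h12, h13, h14, h15, h16, h17⟩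
    exact ⟨h1, h2, h3, h4, h5, h6, h7, h8, h9, h10, h11, h12, h13, h14, h15, h16, h17⟩
  · rintro ⟨h1, h2, h3, h4, h5, h6, h7, h8, h9, h10, h11, h12, h13, h14, h15, h16, h17⟩
    exact ⟨h1, h2, h3, h4, h5, h6, h7, h8, h9, h10, h11, h12, h13, h14, h15, h16, h17⟩

theorem axE_iff {Γ : Type} [Group Γ] (y : Fin n → Γ) (N : Γ → Prop) (E : Γ → Γ → Prop)
    (cat : Γ → Γ → Γ → Prop) (code wp : Γ → Prop) (b : Option (Fin n × Bool) → Γ → Prop) :
    AxE y N E cat code wp b ↔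
  ((∀ κ, ∀ c, N c → b κ c → E c (ev y (wd κ))) ∧
  (∀ c1 c2 c3 g1 g2, N c1 → N c2 → N c3 → cat c1 c2 c3 → E c1 g1 → E c2 g2 → E c3 (g1 * g2)) ∧
  (∀ c g g', N c → E c g → E c g' → g = g') ∧
  (∀ g, ∃ c, N c ∧ code c ∧ E c g) ∧
  (∀ c, N c → code c → (wp c ↔ E c 1))) := by
  constructor
  · rintro ⟨h1, h2, h3, h4, h5⟩
    exact ⟨h1, h2, h3, h4, h5⟩
  · rintro ⟨h1, h2, h3, h4, h5⟩
    exact ⟨h1, h2, h3, h4, h5⟩

theorem tev (κ : Option (Fin n × Bool)) : UT (n := n) (fun m _ => ev m.y (wd κ)) := by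
  rcases κ with _ | ⟨j, b⟩
  · have : (fun (m : Mod n) (_ : ℕ → m.Γ) => ev m.y (wd none)) = fun m _ => 1 := by
      funext m v
      exact ev_nil m.y
    rw [this]; exact tone
  · cases b
    · have : (fun (m : Mod n) (_ : ℕ → m.Γ) => ev m.y (wd (some (j, false)))) =
          fun m _ => (m.y j)⁻¹ := by
        funext m v
        unfold ev wd
        have h1 : (FreeGroup.mk [(j, false)] : FreeGroup (Fin n)) = (FreeGroup.of j)⁻¹ := rfl
        rw [h1, map_inv, FreeGroup.lift_apply_of]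
      rw [this]; exact tinv (tpar j)
    · have : (fun (m : Mod n) (_ : ℕ → m.Γ) => ev m.y (wd (some (j, true)))) =
          fun m _ => m.y j := by
        funext m v
        unfold ev wd
        have h1 : (FreeGroup.mk [(j, true)] : FreeGroup (Fin n)) = (FreeGroup.of j) := rfl
        rw [h1, FreeGroup.lift_apply_of]
      rw [this]; exact tpar j

theorem udTh (F : Fs n) {F1 F2 F3 : ∀ m : Mod n, (ℕ → m.Γ) → m.Γ} (h1 : UT F1) (h2 : UT F2)
    (h3 : UT F3) : UD (fun m v => ThR F m (F1 m v) (F2 m v) (F3 m v)) := by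
  refine app3 (R := fun m a b c => ThR F m a b c) ?_ h1 h2 h3
  unfold ThR
  repeat' (first
    | exact tvar _ | exact tone | exact tpar _ | exact tev _ | refine tmul ?_ ?_
    | refine ud1 _ ?_ | refine ud2 _ ?_ ?_ | refine ud3 _ ?_ ?_ ?_ | refine eq ?_ ?_
    | refine DM.and ?_ ?_ | refine DM.or ?_ ?_ | refine DM.iff' ?_ ?_ | refine DM.not ?_
    | refine DM.imp ?_ ?_ | refine DM.all ?_ | refine DM.ex ?_)

theorem ud_ax (F : Fs n) (i : Fin n) : UD (fun m _ => Ax F i m) := by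
  unfold Ax
  refine DM.and ?_ ?_
  · refine DM.iff (fun m v => (axN_iff _ _ _ _ _ _).symm) ?_
    repeat' (first
    | refine udTh _ ?_ ?_ ?_
    | exact tvar _ | exact tone | exact tpar _ | exact tev _ | refine tmul ?_ ?_
    | refine ud1 _ ?_ | refine ud2 _ ?_ ?_ | refine ud3 _ ?_ ?_ ?_ | refine eq ?_ ?_
    | refine DM.and ?_ ?_ | refine DM.or ?_ ?_ | refine DM.iff' ?_ ?_ | refine DM.not ?_
    | refine DM.imp ?_ ?_ | refine DM.all ?_ | refine DM.ex ?_)
  · refine DM.iff (fun m v => (axE_iff _ _ _ _ _ _ _).symm) ?_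
    refine DM.and (fin_all (fun κ => ?_)) ?_
    all_goals repeat' (first
    | refine udTh _ ?_ ?_ ?_
    | exact tvar _ | exact tone | exact tpar _ | exact tev _ | refine tmul ?_ ?_
    | refine ud1 _ ?_ | refine ud2 _ ?_ ?_ | refine ud3 _ ?_ ?_ ?_ | refine eq ?_ ?_
    | refine DM.and ?_ ?_ | refine DM.or ?_ ?_ | refine DM.iff' ?_ ?_ | refine DM.not ?_
    | refine DM.imp ?_ ?_ | refine DM.all ?_ | refine DM.ex ?_)


variable {G : Type} [Group G] (x : Fin n → G) (i : Fin n)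

/-- the model given by `G` -/
def mG : Mod n := ⟨G, inferInstance, x⟩

/-- the standard models -/
def IS (φN φA φM : LG.Formula (Fin n ⊕ ℕ)) : Type 1 :=
  {m : Mod n // Std (m.y i) (R1 φN m) (R3 φA m) (R3 φM m)}

instance (φN φA φM : LG.Formula (Fin n ⊕ ℕ)) (m : IS i φN φA φM) : Group m.1.Γ := m.1.inst

theorem restrict (φN φA φM : LG.Formula (Fin n ⊕ ℕ)) {R : ∀ m : Mod n, (ℕ → m.Γ) → Prop}
    (h : UD R) : DM (ι := IS i φN φA φM) (M := fun m => m.1.Γ) LG (fun m => m.1.y)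
      (fun m v => R m.1 v) := by
  obtain ⟨φ, hφ⟩ := h
  exact ⟨φ, fun m v => hφ m.1 v⟩

theorem interpS (φN φA φM : LG.Formula (Fin n ⊕ ℕ)) :
    Interp (ι := IS i φN φA φM) (M := fun m => m.1.Γ) (L := LG) (fun m => m.1.y)
      (fun m k => m.1.y i ^ k) where
  rng := DM.iff (fun m v => m.2.rng (v 0)) (restrict i φN φA φM (ud1 φN (tvar 0)))
  add := ⟨fun m v => R3 φA m.1 (v 0) (v 1) (v 2), restrict i φN φA φM (ud3 φA (tvar 0) (tvar 1) (tvar 2)),
    fun m w => m.2.add _ _ _⟩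
  mul := ⟨fun m v => R3 φM m.1 (v 0) (v 1) (v 2), restrict i φN φA φM (ud3 φM (tvar 0) (tvar 1) (tvar 2)),
    fun m w => m.2.mul _ _ _⟩

theorem getF (φN φA φM : LG.Formula (Fin n ⊕ ℕ)) {R : (ℕ → ℕ) → Prop}
    (hR : ∀ D : ((ℕ → ℕ) → Prop) → Prop, DC D → D R) :
    ∃ φ : LG.Formula (Fin n ⊕ ℕ), ∀ (m : Mod n), Std (m.y i) (R1 φN m) (R3 φA m) (R3 φM m) →
      ∀ w : ℕ → ℕ, (φ.Realize (Sum.elim m.y (fun k => m.y i ^ w k)) ↔ R w) := by
  obtain ⟨φ, hφ⟩ := hR _ (DN.closed (interpS i φN φA φM))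
  exact ⟨φ, fun m hm w => hφ ⟨m, hm⟩ w⟩

theorem get1 (φN φA φM : LG.Formula (Fin n ⊕ ℕ)) {R : ℕ → Prop}
    (hR : ∀ D : ((ℕ → ℕ) → Prop) → Prop, DC D → D (fun w => R (w 0))) :
    ∃ φ : LG.Formula (Fin n ⊕ ℕ), ∀ (m : Mod n), Std (m.y i) (R1 φN m) (R3 φA m) (R3 φM m) →
      ∀ a : ℕ, (R1 φ m (m.y i ^ a) ↔ R a) := by
  obtain ⟨φ, hφ⟩ := getF i φN φA φM hR
  exact ⟨φ, fun m hm a => hφ m hm (fun _ => a)⟩

theorem get2 (φN φA φM : LG.Formula (Fin n ⊕ ℕ)) {R : ℕ → ℕ → Prop}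
    (hR : ∀ D : ((ℕ → ℕ) → Prop) → Prop, DC D → D (fun w => R (w 0) (w 1))) :
    ∃ φ : LG.Formula (Fin n ⊕ ℕ), ∀ (m : Mod n), Std (m.y i) (R1 φN m) (R3 φA m) (R3 φM m) →
      ∀ a b : ℕ, (R2 φ m (m.y i ^ a) (m.y i ^ b) ↔ R a b) := by
  obtain ⟨φ, hφ⟩ := getF i φN φA φM hR
  refine ⟨φ, fun m hm a b => ?_⟩
  have := hφ m hm (fun k => match k with | 0 => a | _ => b)
  have h2 : (fun k => m.y i ^ (match k with | 0 => a | _ => b : ℕ)) =
      (fun k => match k with | 0 => m.y i ^ a | _ => m.y i ^ b : ℕ → m.Γ) := by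
    funext k
    match k with
    | 0 => rfl
    | k + 1 => rfl
  rw [h2] at this
  exact this

theorem get3 (φN φA φM : LG.Formula (Fin n ⊕ ℕ)) {R : ℕ → ℕ → ℕ → Prop}
    (hR : ∀ D : ((ℕ → ℕ) → Prop) → Prop, DC D → D (fun w => R (w 0) (w 1) (w 2))) :
    ∃ φ : LG.Formula (Fin n ⊕ ℕ), ∀ (m : Mod n), Std (m.y i) (R1 φN m) (R3 φA m) (R3 φM m) →
      ∀ a b c : ℕ, (R3 φ m (m.y i ^ a) (m.y i ^ b) (m.y i ^ c) ↔ R a b c) := by
  obtain ⟨φ, hφ⟩ := getF i φN φA φM hR
  refine ⟨φ, fun m hm a b c => ?_⟩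
  have := hφ m hm (fun k => match k with | 0 => a | 1 => b | _ => c)
  have h2 : (fun k => m.y i ^ (match k with | 0 => a | 1 => b | _ => c : ℕ)) =
      (fun k => match k with | 0 => m.y i ^ a | 1 => m.y i ^ b | _ => m.y i ^ c : ℕ → m.Γ) := by
    funext k
    match k with
    | 0 => rfl
    | 1 => rfl
    | k + 2 => rfl
  rw [h2] at this
  exact this

theorem dc_const (D : ((ℕ → ℕ) → Prop) → Prop) (h : DC D) (c : ℕ) : DT D (fun _ => c) := by
  induction c with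
  | zero => exact h.tzero
  | succ c ih => exact h.tadd ih h.tone

theorem dc_cat (n : ℕ) (D : ((ℕ → ℕ) → Prop) → Prop) (h : DC D) :
    D (fun w => ∃ p : WP.W n × WP.W n, Nat.pair (w 0) (w 1) = encode p ∧
      w 2 = encode (p.1 ++ p.2)) :=
  h.app2 (R := fun a b => ∃ p : WP.W n × WP.W n, a = encode p ∧ b = encode (p.1 ++ p.2))
    (WP.fn_graph h (fun p : WP.W n × WP.W n => p.1 ++ p.2)
      (Primrec.list_append.comp Primrec.fst Primrec.snd).to_comp)
    (h.tpair (h.tvar 0) (h.tvar 1)) (h.tvar 2)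

theorem dc_len (n : ℕ) (D : ((ℕ → ℕ) → Prop) → Prop) (h : DC D) :
    D (fun w => ∃ l : WP.W n, w 0 = encode l ∧ l.length ≤ w 1 * w 2) := by
  refine h.iff (fun w => ?_) (h.ex' (S := fun e w => (∃ l : WP.W n, w 0 = encode l ∧
    e = encode l.length) ∧ e ≤ w 1 * w 2) (h.and ?_ ?_))
  · constructor
    · rintro ⟨e, ⟨l, h1, rfl⟩, h2⟩
      exact ⟨l, h1, h2⟩
    · rintro ⟨l, h1, h2⟩
      exact ⟨_, ⟨l, h1, rfl⟩, h2⟩
  · exact h.ren (fun n => match n with | 0 => 1 | _ => 0)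
      (WP.fn_graph h (fun l : WP.W n => l.length) Primrec.list_length.to_comp)
  · exact h.le (h.tvar 0) (h.tmul (h.tvar 2) (h.tvar 3))

/-- group isomorphisms are isomorphisms of structures -/
def lequiv {G Γ : Type} [Group G] [Group Γ] (e : G ≃* Γ) : G ≃[LG] Γ where
  toEquiv := e.toEquiv
  map_fun' := by
    intro k f xs
    change e ((List.ofFn xs).prod) = (List.ofFn (e ∘ xs)).prod
    rw [map_list_prod, List.map_ofFn]
  map_rel' := by
    intro k r
    exact Empty.elim r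

end final

end QFA

open QFA in
attribute [local instance] strG in
/-- TASK QFA -/
theorem key_of_rich {G : Type} [Group G] {n : ℕ} (x : Fin n → G)
    (hx : Subgroup.closure (Set.range x) = ⊤) (hinf : Infinite G) (hr : Rich x)
    (hw : ArithWP x) :
    ∃ φ : LG.Formula (Fin n), ∀ (Γ : Type) [Group Γ], Group.FG Γ → ∀ y : Fin n → Γ,
      (φ.Realize y ↔ ∃ e : G ≃* Γ, ∀ i, e (x i) = y i) := by
  obtain ⟨i, hinj, hint, ⟨φE, hE⟩⟩ := hr
  obtain ⟨φN, hN⟩ := hint.rng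
  obtain ⟨RA, ⟨φA, hA⟩, hA2⟩ := hint.add
  obtain ⟨RM, ⟨φM, hM⟩, hM2⟩ := hint.mul
  have hm3 : ∀ a b c : ℕ, (fun k => x i ^ (match k with | 0 => a | 1 => b | _ => c : ℕ)) =
      (fun k => match k with | 0 => x i ^ a | 1 => x i ^ b | _ => x i ^ c : ℕ → G) := by
    intro a b c
    funext k
    match k with
    | 0 => rfl
    | 1 => rfl
    | k + 2 => rfl
  have hStdG : Std (x i) (R1 φN (mG x)) (R3 φA (mG x)) (R3 φM (mG x)) := by
    refine ⟨hinj, fun g => hN () (fun _ => g), fun a b c => ?_, fun a b c => ?_⟩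
    · have h1 := (hA () (fun k => match k with | 0 => x i ^ a | 1 => x i ^ b | _ => x i ^ c))
      have h2 := hA2 () (fun k => match k with | 0 => a | 1 => b | _ => c)
      rw [hm3] at h2
      exact h1.trans h2
    · have h1 := (hM () (fun k => match k with | 0 => x i ^ a | 1 => x i ^ b | _ => x i ^ c))
      have h2 := hM2 () (fun k => match k with | 0 => a | 1 => b | _ => c)
      rw [hm3] at h2
      exact h1.trans h2
  obtain ⟨fcat, hcat⟩ := get3 i φN φA φM (R := fun a b c => ∃ p : WP.W n × WP.W n,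
    Nat.pair a b = encode p ∧ c = encode (p.1 ++ p.2)) (dc_cat n)
  obtain ⟨flen, hlen⟩ := get3 i φN φA φM (R := fun a b c => ∃ l : WP.W n, a = encode l ∧
    l.length ≤ b * c) (dc_len n)
  obtain ⟨fle, hle⟩ := get2 i φN φA φM (R := fun a b => a ≤ b) (fun D h => h.le (h.tvar 0) (h.tvar 1))
  obtain ⟨fcode, hcode⟩ := get1 i φN φA φM (R := fun a => ∃ l : WP.W n, a = encode l)
    (fun D h => WP.code h)
  obtain ⟨fwp, hwp⟩ := get1 i φN φA φM (R := fun a => ∃ l : WP.W n, a = encode l ∧ ev x l = 1) hw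
  have hb' : ∀ κ : Option (Fin n × Bool), ∃ φ : LG.Formula (Fin n ⊕ ℕ), ∀ (m : Mod n),
      Std (m.y i) (R1 φN m) (R3 φA m) (R3 φM m) →
      ∀ a : ℕ, (R1 φ m (m.y i ^ a) ↔ a = encode (wd κ)) := fun κ =>
    get1 i φN φA φM (R := fun a => a = encode (wd κ))
      (fun D h => h.eq (h.tvar 0) (dc_const D h (encode (wd κ))))
  choose fb hb using hb'
  let F : Fs n := ⟨φN, φA, φM, φE, flen, fle, fcat, fcode, fwp, fb⟩
  obtain ⟨ψ, hψ⟩ := ud_ax F i
  -- the evaluation relation of `G`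
  have hEG : ∀ c g : G, R2 φE (mG x) c g ↔ ∃ l : WP.W n, c = x i ^ (encode l) ∧ g = ev x l := by
    intro c g
    exact hE () (fun k => match k with | 0 => c | _ => g)
  have hThG : ∀ (p q : ℕ) (g : G), ThR F (mG x) (x i ^ p) (x i ^ q) g ↔
      ∃ l : WP.W n, g = ev x l ∧ l.length ≤ p * q := by
    intro p q g
    constructor
    · rintro ⟨c, hc, hcE, hcl⟩
      obtain ⟨l, rfl, rfl⟩ := (hEG c g).1 hcE
      obtain ⟨l', h1, h2⟩ := (hlen (mG x) hStdG (encode l) p q).1 hcl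
      obtain rfl := encode_injective h1
      exact ⟨l, rfl, h2⟩
    · rintro ⟨l, rfl, hl⟩
      exact ⟨x i ^ (encode l), (hStdG.rng _).2 ⟨_, rfl⟩, (hEG _ _).2 ⟨l, rfl, rfl⟩,
        (hlen (mG x) hStdG (encode l) p q).2 ⟨l, rfl, hl⟩⟩
  have hAxG : Ax F i (mG x) := by
    refine ⟨ax_of_std x hx hinf hStdG hThG (fun p q => hle (mG x) hStdG p q), ?_, ?_, ?_, ?_, ?_⟩
    · intro κ c hc hbc
      obtain ⟨k, rfl⟩ := (hStdG.rng c).1 hc
      have := (hb κ (mG x) hStdG k).1 hbc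
      subst this
      exact (hEG _ _).2 ⟨_, rfl, rfl⟩
    · intro c1 c2 c3 g1 g2 h1 h2 h3 hc hE1 hE2
      obtain ⟨l1, rfl, rfl⟩ := (hEG _ _).1 hE1
      obtain ⟨l2, rfl, rfl⟩ := (hEG _ _).1 hE2
      obtain ⟨k, rfl⟩ := (hStdG.rng c3).1 h3
      obtain ⟨⟨l1', l2'⟩, h4, h5⟩ := (hcat (mG x) hStdG _ _ _).1 hc
      have h4' : Nat.pair (encode l1) (encode l2) = Nat.pair (encode l1') (encode l2') := h4
      rw [Nat.pair_eq_pair] at h4'
      obtain rfl := encode_injective h4'.1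
      obtain rfl := encode_injective h4'.2
      refine (hEG _ _).2 ⟨l1 ++ l2, ?_, ?_⟩
      · rw [h5]
      · rw [ev_append]; rfl
    · intro c g g' hc h1 h2
      obtain ⟨l1, rfl, rfl⟩ := (hEG _ _).1 h1
      obtain ⟨l2, h3, rfl⟩ := (hEG _ _).1 h2
      have h4 := encode_injective (hinj h3)
      rw [h4]
    · intro g
      obtain ⟨l, rfl⟩ := ev_surj x hx g
      exact ⟨x i ^ (encode l), (hStdG.rng _).2 ⟨_, rfl⟩,
        (hcode (mG x) hStdG _).2 ⟨l, rfl⟩, (hEG _ _).2 ⟨l, rfl, rfl⟩⟩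
    · intro c hc hcc
      obtain ⟨k, rfl⟩ := (hStdG.rng c).1 hc
      obtain ⟨l, rfl⟩ := (hcode (mG x) hStdG _).1 hcc
      have h1 := hwp (mG x) hStdG (encode l)
      refine h1.trans ?_
      constructor
      · rintro ⟨l', h2, h3⟩
        obtain rfl := encode_injective h2
        exact (hEG _ _).2 ⟨l, rfl, h3.symm⟩
      · intro h2
        obtain ⟨l', h3, h4⟩ := (hEG _ _).1 h2
        have h5 := encode_injective (hinj h3)
        exact ⟨l', by rw [h5], h4.symm⟩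
  -- the formula
  let φ : LG.Formula (Fin n) := ψ.relabel (Sum.elim id (fun _ => i))
  have hφ : ∀ m : Mod n, φ.Realize m.y ↔ Ax F i m := by
    intro m
    refine Iff.trans ?_ (hψ m (fun _ => m.y i))
    rw [Formula.realize_relabel]
    have : m.y ∘ (Sum.elim id (fun _ => i) : Fin n ⊕ ℕ → Fin n) = Sum.elim m.y (fun _ => m.y i) := by
      funext s; rcases s with s | s <;> rfl
    rw [this]
  refine ⟨φ, ?_⟩
  intro Γ _ hfg y
  constructor
  · intro hy
    have hAx : Ax F i ⟨Γ, inferInstance, y⟩ := (hφ ⟨Γ, inferInstance, y⟩).1 hy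
    have hStd : Std (y i) (R1 φN ⟨Γ, inferInstance, y⟩) (R3 φA ⟨Γ, inferInstance, y⟩)
      (R3 φM ⟨Γ, inferInstance, y⟩) := std_of_ax hAx.1 hfg
    refine iso_of_ax x hx y hStd hAx.2 ?_ ?_ ?_ ?_
    · intro l1 l2
      exact (hcat ⟨Γ, inferInstance, y⟩ hStd _ _ _).2 ⟨(l1, l2), rfl, rfl⟩
    · intro k
      exact hcode ⟨Γ, inferInstance, y⟩ hStd k
    · intro k
      exact hwp ⟨Γ, inferInstance, y⟩ hStd k
    · intro κ
      exact (hb κ ⟨Γ, inferInstance, y⟩ hStd _).2 rfl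
  · rintro ⟨e, he⟩
    have h1 : φ.Realize x := (hφ (mG x)).2 hAxG
    have h2 : y = (lequiv e) ∘ x := by
      funext j; exact (he j).symm
    rw [h2]
    exact (StrongHomClass.realize_formula (lequiv e) φ).2 h1

end Pool.Agent.H577R3
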