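import Mathlib
import Pool.Agent.H577R3.Rich3
import Pool.Agent.H577R3.TaskQFA
import Pool.Agent.H577R3.TaskBI

set_option autoImplicit false

/-! Consequences of richness for the free solvable groups. -/

namespace Pool.Agent.H577R3

open FirstOrder FirstOrder.Language Pool.Agent.Helper777.Prof

attribute [local instance] strG

theorem key_dq (n d : ℕ) (hn : 2 ≤ n) (h : Rich (gens n (d + 1))) :
    ∃ φ : LG.Formula (Fin n), ∀ (Γ : Type) [Group Γ],
      Group.FG Γ → ∀ y : Fin n → Γ,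
      (φ.Realize y ↔ ∃ e : Dq (Fin n) (d + 1) ≃* Γ, ∀ i, e (gens n (d + 1) i) = y i) := by
  have : Nonempty (Fin n) := ⟨⟨0, by omega⟩⟩
  exact key_of_rich (gens n (d + 1)) (gens_closure n (d + 1)) (infinite_dq d) h (arithWP_dq n (d + 1))

theorem key3 : ∀ n : ℕ, 2 ≤ n → ∃ φ : LG.Formula (Fin n), ∀ (Γ : Type) [Group Γ],
      Group.FG Γ → ∀ y : Fin n → Γ,
      (φ.Realize y ↔ ∃ e : Dq (Fin n) 3 ≃* Γ, ∀ i, e (gens n 3 i) = y i) :=
  fun n hn => key_dq n 2 hn (rich3 n hn)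

theorem bi3 (n : ℕ) (hn : 2 ≤ n) : Bi.BiInterpNat (Dq (Fin n) 3) :=
  biInterp_of_rich (gens n 3) (gens_closure n 3) (rich3 n hn) (arithWP_dq n 3)

end Pool.Agent.H577R3
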