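import Mathlib
import Pool.Agent.H577R3.Act4
import Pool.Agent.H577R3.Rich3

set_option autoImplicit false

/-! Richness of the free solvable groups of all classes, given the general separation property. -/

namespace Pool.Agent.H577R3

open FirstOrder FirstOrder.Language Pool.Agent.Helper967.ArithDef Pool.Agent.Helper967.ModelDef
open Pool.Agent.Helper777.Prof Encodable

/-- The main step: richness modulo the kernel implies richness. -/
theorem RichQ.step4 {G H : Type} [Group G] [Group H] {n k L : ℕ} {x : Fin n → G} {π : G →* H}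
    (M : MD π k) (hπ : Function.Surjective π) [NoZeroDivisors (MonoidAlgebra ℤ H)]
    (hne : ∃ a, π a = 1 ∧ a ≠ 1) (hx : Subgroup.closure (Set.range x) = ⊤)
    (i₀ : Fin n) (hi : ∀ j : ℕ, 0 < j → π (x i₀) ^ j ≠ 1)
    (hL : GSep H L) (ht : ∀ v : H, v ≠ 1 → ∀ j : ℕ, 0 < j → v ^ j ≠ 1)
    (hS : SRCk H k) (hW : ArithWP x)
    (κs : List (W n)) (hκ : ∀ κ ∈ κs, π (ev x κ) ≠ 1) (hC : ∀ g, π (itC (κs.map (ev x)) g) = 1)
    (hR : RichQ x π) : RichQ x (MonoidHom.id G) := by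
  have hker := M.ker_def x hne
  obtain ⟨sN, hN, hE⟩ := hR
  refine ⟨sN, hN, ?_⟩
  have hact := actS4 M hπ hker hE i₀ hi hx hL ht
  have hA := evA M hπ hker hE hact hx hS hW
  have hit : F1 (sC hN (W n)) (sC hN (W n)) (itW κs) := F1.comp (primrec_itW κs).to_comp
  intro Γ c
  refine Dc.iff (fun p => ?_) ((hE.app DcF.var.wk DcF.var).and
    (hA.app (hit.app DcF.var.wk) ((itC_def κs).app DcF.var)))
  constructor
  · rintro ⟨h1, -, h2⟩
    rw [ev_itW] at h2
    refine itC_inj M (κs.map (ev x)) ?_ h1 h2.symm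
    intro k hk
    obtain ⟨κ, hκ', rfl⟩ := List.mem_map.1 hk
    exact hκ κ hκ'
  · intro h
    have h' : p.2 = ev x p.1.2 := h
    refine ⟨by rw [h'], hC _, ?_⟩
    rw [ev_itW, h']

/-- the step for the free solvable groups, given the separation property -/
theorem rich_succ4 (n : ℕ) (hn : 2 ≤ n) (d L : ℕ) (hL : GSep (Dq (Fin n) (d + 1)) L)
    (h : RichQ (gens n (d + 1)) (MonoidHom.id _)) : RichQ (gens n (d + 2)) (MonoidHom.id _) := by
  obtain ⟨π, hπ, ⟨M⟩⟩ := Pool.Agent.H54R3.MDQ.md_dq n (d + 1)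
  have hn0 : 0 < n := by omega
  have := nzd_dq (Fin n) (d + 1)
  have hsur : Function.Surjective π := by
    intro g
    obtain ⟨w, rfl⟩ := QuotientGroup.mk'_surjective _ g
    exact ⟨pn (Fin n) (d + 2) w, hπ w⟩
  have hne : ∃ a, π a = 1 ∧ a ≠ 1 := by
    obtain ⟨w, h1, h2⟩ := ds_not_le n hn (show d + 1 < d + 2 by omega)
    refine ⟨pn (Fin n) (d + 2) w, ?_, fun h => h2 ((pn_eq_one n (d + 2) w).1 h)⟩
    rw [hπ, pn_eq_one]
    exact h1
  have hx := gens_closure n (d + 2)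
  have hker := M.ker_def (gens n (d + 2)) hne
  have hgen : (fun i => π (gens n (d + 2) i)) = gens n (d + 1) := funext fun i => hπ _
  have hR : RichQ (gens n (d + 2)) π := RichQ.pull hsur hker (by rw [hgen]; exact h)
  have hsolv : Group.IsSolvable (Dq (Fin n) (d + 1)) := by
    refine ⟨⟨d + 1, ?_⟩⟩
    rw [eq_bot_iff, ← map_derivedSeries_eq (f := pn (Fin n) (d + 1)) (QuotientGroup.mk'_surjective _)]
    rintro _ ⟨w, hw, rfl⟩
    exact (pn_eq_one n (d + 1) w).2 hw
  obtain ⟨ks, hk1, hk2⟩ := exists_test n hn (d + 1) (d + 1) 0 (by omega)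
  have hmk : ∀ ks : List (FreeGroup (Fin n)),
      (ks.map FreeGroup.toWord).map (ev (gens n (d + 2))) = ks.map (pn (Fin n) (d + 2)) := by
    intro ks
    rw [List.map_map]
    refine List.map_congr_left (fun k _ => ?_)
    rw [Function.comp_apply, ev_gens, FreeGroup.mk_toWord]
  refine RichQ.step4 M hsur hne hx ⟨0, hn0⟩ ?_ hL (tf_of_nzd _)
    (fun v => src_solvable _ hsolv n v) (arithWP_dq n (d + 2)) (ks.map FreeGroup.toWord) ?_ ?_ hR
  · intro j hj
    rw [show π (gens n (d + 2) ⟨0, hn0⟩) = gens n (d + 1) ⟨0, hn0⟩ from hπ _]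
    refine tf_of_nzd _ _ ?_ j hj
    intro h
    have := gen_inj n d ⟨0, hn0⟩ (a₁ := 1) (a₂ := 0) (by simpa using h)
    omega
  · intro κ hκ
    obtain ⟨k, hk, rfl⟩ := List.mem_map.1 hκ
    rw [ev_gens, FreeGroup.mk_toWord, hπ, Ne, pn_eq_one]
    exact hk1 k hk
  · intro g
    obtain ⟨w, rfl⟩ := QuotientGroup.mk'_surjective _ g
    rw [hmk]
    show π (itC _ (pn (Fin n) (d + 2) w)) = 1
    rw [← itC_map, hπ, pn_eq_one]
    exact hk2 w (by rw [derivedSeries_zero]; trivial)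

theorem rich_all (n : ℕ) (hn : 2 ≤ n) (hG : ∀ d : ℕ, ∃ L, GSep (Dq (Fin n) (d + 2)) L) :
    ∀ d : ℕ, RichQ (gens n (d + 2)) (MonoidHom.id _)
  | 0 => rich2 n hn
  | d + 1 => by
    obtain ⟨L, hL⟩ := hG d
    exact rich_succ4 n hn (d + 1) L hL (rich_all n hn hG d)

end Pool.Agent.H577R3
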