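import Mathlib
import Pool.Agent.H577R3.Defs4
import Pool.Agent.H54R3.TaskUNIQ
import Pool.Agent.H54R3.TaskMDQ
import Pool.Agent.H577R3.TaskNZD

set_option autoImplicit false

/-! Two elements generating a copy of the wreath product of infinite cyclic groups (helper116). -/

namespace Pool.Agent.H577R3

open Pool.Agent.Helper777.Prof Pool.Agent.H54R3.Uniq

namespace GD

section fun1

variable {K : Type} [Group K] (β : K) (hβ : ∀ j : ℕ, 0 < j → β ^ j ≠ 1) (h0 : K)

/-- the exponent on the coset of `h0` -/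
noncomputable def rr (g : K) : ℤ := by
  classical
  exact if hg : ∃ m : ℤ, g = β ^ m * h0 then hg.choose else 0

/-- the functional -/
noncomputable def ww (A : ℚ) (g : K) : ℚ := by
  classical
  exact if ∃ m : ℤ, g = β ^ m * h0 then A ^ (rr β h0 g) else 0

include hβ in
theorem rr_eq (m : ℤ) : rr β h0 (β ^ m * h0) = m := by
  classical
  have hg2 : ∃ m' : ℤ, β ^ m * h0 = β ^ m' * h0 := ⟨m, rfl⟩
  have h3 : rr β h0 (β ^ m * h0) = hg2.choose := dif_pos hg2
  rw [h3]
  exact (zpow_inj hβ (mul_right_cancel hg2.choose_spec)).symm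

include hβ in
theorem ww_on (A : ℚ) (m : ℤ) : ww β h0 A (β ^ m * h0) = A ^ m := by
  unfold ww
  rw [if_pos ⟨m, rfl⟩, rr_eq β hβ]

theorem ww_off (A : ℚ) {g : K} (hg : ¬ ∃ m : ℤ, g = β ^ m * h0) : ww β h0 A g = 0 := by
  unfold ww
  rw [if_neg hg]

include hβ in
theorem ww_mul {A : ℚ} (hA : A ≠ 0) (i : ℤ) (x : K) : ww β h0 A (β ^ i * x) = A ^ i * ww β h0 A x := by
  by_cases hx : ∃ m : ℤ, x = β ^ m * h0
  · obtain ⟨m, rfl⟩ := hx
    rw [← mul_assoc, ← zpow_add, ww_on β hβ, ww_on β hβ, zpow_add₀ hA]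
  · rw [ww_off β h0 A hx, mul_zero, ww_off]
    rintro ⟨m, hm⟩
    apply hx
    refine ⟨m - i, ?_⟩
    rw [sub_eq_neg_add, zpow_add, mul_assoc, ← hm, ← mul_assoc, ← zpow_add, neg_add_cancel, zpow_zero,
      one_mul]

/-- the functional on the group ring -/
noncomputable def LL (A : ℚ) : MonoidAlgebra ℤ K →+ ℚ := magnus_ker_L (ww β h0 A)

include hβ in
theorem LL_mul {A : ℚ} (hA : A ≠ 0) (i : ℤ) (z : MonoidAlgebra ℤ K) :
    LL β h0 A (MonoidAlgebra.of ℤ K (β ^ i) * z) = A ^ i * LL β h0 A z := by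
  unfold LL
  rw [magnus_ker_L_mul]
  have hw : (fun x => ww β h0 A (β ^ i * x)) = fun x => A ^ i * ww β h0 A x := by
    funext x
    exact ww_mul β hβ h0 hA i x
  rw [hw, L_sum, L_sum, Finset.mul_sum]
  refine Finset.sum_congr rfl (fun g _ => ?_)
  rw [zsmul_eq_mul, zsmul_eq_mul]
  ring

include hβ in
/-- the functional vanishes for finitely many parameters only -/
theorem LL_fin (z : MonoidAlgebra ℤ K) (hz : z.coeff h0 ≠ 0) :
    {a : ℕ | LL β h0 ((a : ℚ) + 2) z = 0}.Finite := by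
  classical
  let Q : K → Prop := fun g => ∃ m : ℤ, g = β ^ m * h0
  let r : K → ℤ := rr β h0
  let N : ℕ := z.coeff.support.sup (fun g => (r g).natAbs)
  have hN : ∀ g ∈ z.coeff.support, (r g).natAbs ≤ N := fun g hg =>
    Finset.le_sup (f := fun g => (r g).natAbs) hg
  have hr : ∀ m : ℤ, r (β ^ m * h0) = m := rr_eq β hβ h0
  let P : Polynomial ℚ := ∑ g ∈ z.coeff.support,
    if Q g then Polynomial.C (z.coeff g : ℚ) * Polynomial.X ^ (r g + N).toNat else 0
  have heval : ∀ a : ℕ, P.eval ((a : ℚ) + 2) = ((a : ℚ) + 2) ^ N * LL β h0 ((a : ℚ) + 2) z := by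
    intro a
    have ha : ((a : ℚ) + 2) ≠ 0 := by positivity
    unfold LL
    rw [L_sum]
    simp only [P]
    rw [Polynomial.eval_finsetSum, Finset.mul_sum]
    refine Finset.sum_congr rfl (fun g hg => ?_)
    by_cases hQ : Q g
    · have hw : ww β h0 ((a : ℚ) + 2) g = ((a : ℚ) + 2) ^ (r g) := by
        unfold ww
        rw [if_pos hQ]
      rw [if_pos hQ, hw, Polynomial.eval_mul, Polynomial.eval_C, Polynomial.eval_pow,
        Polynomial.eval_X, zsmul_eq_mul]
      have h3 : ((r g + N).toNat : ℤ) = r g + N := by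
        apply Int.toNat_of_nonneg
        have := hN g hg
        omega
      rw [← zpow_natCast, ← zpow_natCast, h3, zpow_add₀ ha]
      ring
    · rw [if_neg hQ, ww_off β h0 _ hQ, Polynomial.eval_zero, smul_zero, mul_zero]
  have hc : P.coeff N = z.coeff h0 := by
    simp only [P]
    rw [Polynomial.finsetSum_coeff, Finset.sum_eq_single h0]
    · have hQ0 : Q h0 := ⟨0, by simp⟩
      have hr0 : r h0 = 0 := by
        have := hr 0
        rwa [zpow_zero, one_mul] at this
      rw [if_pos hQ0, hr0, zero_add, Int.toNat_natCast, Polynomial.coeff_C_mul_X_pow, if_pos rfl]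
    · intro g hg hgne
      by_cases hQ : Q g
      · rw [if_pos hQ, Polynomial.coeff_C_mul_X_pow, if_neg]
        intro hcon
        apply hgne
        have h3 : ((r g + N).toNat : ℤ) = r g + N := by
          apply Int.toNat_of_nonneg
          have := hN g hg
          omega
        have h4 : r g = 0 := by omega
        obtain ⟨m, rfl⟩ := hQ
        rw [hr] at h4
        rw [h4, zpow_zero, one_mul]
      · rw [if_neg hQ, Polynomial.coeff_zero]
    · intro hn
      have : z.coeff h0 = 0 := by simpa using hn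
      exact absurd this hz
  have hP0 : P ≠ 0 := by
    intro h
    rw [h, Polynomial.coeff_zero] at hc
    exact hz (by exact_mod_cast hc.symm)
  refine Set.Finite.subset (Set.Finite.preimage (f := fun a : ℕ => ((a : ℚ) + 2)) ?_
    (P.roots.toFinset.finite_toSet)) ?_
  · intro a _ b _ hab
    simpa using hab
  · intro a ha
    have ha' : LL β h0 ((a : ℚ) + 2) z = 0 := ha
    simp only [Set.mem_preimage, Finset.mem_coe, Multiset.mem_toFinset]
    rw [Polynomial.mem_roots hP0, Polynomial.IsRoot, heval, ha', mul_zero]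

end fun1

section main

variable {H K : Type} [Group H] [Group K] {π : H →* K} {k : ℕ} (D : MD π k)
include D

theorem mu_one : D.μ 1 = 0 := by
  have := D.mul 1 1 (map_one π) (map_one π)
  rw [mul_one] at this
  exact left_eq_add.1 this

theorem mu_inv {a : H} (ha : π a = 1) : D.μ a⁻¹ = - D.μ a := by
  have := D.mul a a⁻¹ ha (by rw [map_inv, ha, inv_one])
  rw [mul_inv_cancel, mu_one D] at this
  exact (neg_eq_of_add_eq_zero_right this.symm).symm

theorem mu_pow {a : H} (ha : π a = 1) (e : ℕ) : D.μ (a ^ e) = e • D.μ a := by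
  induction e with
  | zero => rw [pow_zero, mu_one D, zero_smul]
  | succ e ih =>
    rw [pow_succ, D.mul _ _ (by rw [map_pow, ha, one_pow]) ha, ih, succ_nsmul]

theorem ker_comm {a b : H} (ha : π a = 1) (hb : π b = 1) : Commute a b := by
  have h1 : a * b * (b * a)⁻¹ = 1 := by
    apply D.inj
    · rw [map_mul, map_inv, map_mul, map_mul, ha, hb, one_mul, inv_one, one_mul]
    · rw [D.mul _ _ (by rw [map_mul, ha, hb, one_mul]) (by rw [map_inv, map_mul, ha, hb, one_mul,
        inv_one]), mu_inv D (by rw [map_mul, ha, hb, one_mul]), D.mul _ _ ha hb, D.mul _ _ hb ha]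
      abel
  exact mul_inv_eq_one.1 h1

theorem sub_mem {b v : H} (hv : π v = 1) (hβ : ∀ j : ℕ, 0 < j → (π b) ^ j ≠ 1) (a e : ℕ)
    (i0 : Fin k) (h0 : K) {x : H} (hx : x ∈ subAE b v (a + 2) e) :
    ∃ i : ℤ, π x = (π b) ^ i ∧ LL (π b) h0 ((a : ℚ) + 2) (D.μ (x * b ^ (-i)) i0) =
      e * ((((a : ℚ) + 2) ^ i - 1) / (((a : ℚ) + 2) - 1)) * LL (π b) h0 ((a : ℚ) + 2) (D.μ v i0) := by
  have hA : ((a : ℚ) + 2) ≠ 0 := by positivity
  have hA1 : ((a : ℚ) + 2) - 1 ≠ 0 := by
    have : ((a : ℚ) + 2) - 1 = a + 1 := by ring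
    rw [this]; positivity
  have hk : ∀ (y : H) (i : ℤ), π y = (π b) ^ i → π (y * b ^ (-i)) = 1 := by
    intro y i hy
    rw [map_mul, map_zpow, hy, ← zpow_add, add_neg_cancel, zpow_zero]
  unfold subAE at hx
  induction hx using Subgroup.closure_induction with
  | mem y hy =>
    rcases hy with rfl | hy
    · refine ⟨1, ?_, ?_⟩
      · rw [map_mul, map_pow, hv, one_pow, one_mul, zpow_one]
      · have h1 : v ^ e * b * b ^ (-1 : ℤ) = v ^ e := by group
        rw [h1, mu_pow D hv, zpow_one, div_self hA1, mul_one, Pi.smul_apply, map_nsmul,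
          nsmul_eq_mul]
    · rw [Set.mem_singleton_iff] at hy
      subst hy
      refine ⟨0, ?_, ?_⟩
      · rw [zpow_zero, map_mul, map_mul, map_mul, map_inv, map_inv, map_pow, hv, one_pow, inv_one,
          mul_one, mul_one, mul_inv_cancel]
      · have hv' : π ((v ^ (a + 2))⁻¹) = 1 := by rw [map_inv, map_pow, hv, one_pow, inv_one]
        have hv2 : π (v ^ (a + 2)) = 1 := by rw [map_pow, hv, one_pow]
        have hc : π (b * v * b⁻¹) = 1 := by
          rw [map_mul, map_mul, map_inv, hv, mul_one, mul_inv_cancel]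
        rw [neg_zero, zpow_zero, mul_one, zpow_zero, sub_self, zero_div, mul_zero, zero_mul,
          D.mul _ _ hc hv', mu_inv D hv2, D.conj b v hv, mu_pow D hv, Pi.add_apply, Pi.smul_apply,
          Pi.neg_apply, Pi.smul_apply, smul_eq_mul, map_add, map_neg, map_nsmul]
        have h2 := LL_mul (π b) hβ h0 hA 1 (D.μ v i0)
        rw [zpow_one, zpow_one] at h2
        rw [h2, nsmul_eq_mul]
        push_cast
        ring
  | one =>
    refine ⟨0, ?_, ?_⟩
    · rw [map_one, zpow_zero]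
    · rw [neg_zero, zpow_zero, mul_one, zpow_zero, sub_self, zero_div, mul_zero, zero_mul,
        mu_one D, Pi.zero_apply, map_zero]
  | mul x y _ _ hx hy =>
    obtain ⟨i, hi1, hi2⟩ := hx
    obtain ⟨j, hj1, hj2⟩ := hy
    refine ⟨i + j, ?_, ?_⟩
    · rw [map_mul, hi1, hj1, zpow_add]
    · have h1 : x * y * b ^ (-(i + j)) = (x * b ^ (-i)) * (b ^ i * (y * b ^ (-j)) * (b ^ i)⁻¹) := by
        group
      have h2 : π (b ^ i * (y * b ^ (-j)) * (b ^ i)⁻¹) = 1 := by
        rw [map_mul, map_mul, hk y j hj1, mul_one, map_inv, mul_inv_cancel]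
      rw [h1, D.mul _ _ (hk x i hi1) h2, D.conj _ _ (hk y j hj1), Pi.add_apply, Pi.smul_apply,
        smul_eq_mul, map_add, map_zpow, LL_mul (π b) hβ h0 hA, hi2, hj2, zpow_add₀ hA]
      field_simp
      ring
  | inv x _ hx =>
    obtain ⟨i, hi1, hi2⟩ := hx
    refine ⟨-i, ?_, ?_⟩
    · rw [map_inv, hi1, zpow_neg]
    · have h1 : x⁻¹ * b ^ (-(-i)) = b ^ (-i) * (x * b ^ (-i))⁻¹ * (b ^ (-i))⁻¹ := by group
      have h2 : π ((x * b ^ (-i))⁻¹) = 1 := by rw [map_inv, hk x i hi1, inv_one]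
      rw [h1, D.conj _ _ h2, mu_inv D (hk x i hi1), Pi.smul_apply, Pi.neg_apply,
        smul_eq_mul, map_zpow, LL_mul (π b) hβ h0 hA, map_neg, hi2, zpow_neg]
      have hAi : ((a : ℚ) + 2) ^ i ≠ 0 := zpow_ne_zero _ hA
      field_simp
      ring

theorem good_main {b v : H} (hv : π v = 1) (hv1 : v ≠ 1)
    (hβ : ∀ j : ℕ, 0 < j → (π b) ^ j ≠ 1) : Good b v := by
  classical
  refine ⟨hv1, fun i => ker_comm D hv (by rw [map_mul, map_mul, map_inv, hv, mul_one,
    mul_inv_cancel]), fun T hT => ?_⟩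
  have hinj := zpow_inj hβ
  -- nonzero coordinates
  have hcoef : ∀ t : H, π t = 1 → t ≠ 1 → ∃ (i0 : Fin k) (h0 : K), (D.μ t i0).coeff h0 ≠ 0 := by
    intro t ht ht1
    by_contra hcon
    push Not at hcon
    apply ht1
    apply D.inj t ht
    funext i
    ext h
    exact hcon i h
  -- the finite sets of bad parameters
  obtain ⟨iv, hv0, hvc⟩ := hcoef v hv hv1
  have hbadT : ∀ t : H, t ∈ T → {a : ℕ | π t = 1 ∧ ∀ (i0 : Fin k) (h0 : K),
      LL (π b) h0 ((a : ℚ) + 2) (D.μ t i0) = 0}.Finite := by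
    intro t ht
    by_cases hπ : π t = 1
    · obtain ⟨i0, h0, hc⟩ := hcoef t hπ (fun h => hT (h ▸ ht))
      exact (LL_fin (π b) hβ h0 (D.μ t i0) hc).subset fun a ha => ha.2 i0 h0
    · refine Set.Finite.subset Set.finite_empty ?_
      intro a ha
      exact absurd ha.1 hπ
  have hbad : ({a : ℕ | LL (π b) hv0 ((a : ℚ) + 2) (D.μ v iv) = 0} ∪
      ⋃ t ∈ T, {a : ℕ | π t = 1 ∧ ∀ (i0 : Fin k) (h0 : K),
        LL (π b) h0 ((a : ℚ) + 2) (D.μ t i0) = 0}).Finite :=
    (LL_fin (π b) hβ hv0 (D.μ v iv) hvc).union (Set.Finite.biUnion T.finite_toSet hbadT)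
  obtain ⟨a, ha⟩ := hbad.exists_notMem
  rw [Set.mem_union, not_or] at ha
  obtain ⟨ha1, ha2⟩ := ha
  have ha2' : ∀ t ∈ T, π t = 1 → ∃ (i0 : Fin k) (h0 : K),
      LL (π b) h0 ((a : ℚ) + 2) (D.μ t i0) ≠ 0 := by
    intro t ht hπ
    by_contra hcon
    push Not at hcon
    apply ha2
    simp only [Set.mem_iUnion]
    exact ⟨t, ht, hπ, hcon⟩
  have hA : ((a : ℚ) + 2) ≠ 0 := by positivity
  have hA1 : ((a : ℚ) + 2) - 1 ≠ 0 := by
    have : ((a : ℚ) + 2) - 1 = a + 1 := by ring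
    rw [this]; positivity
  have hpow : ∀ i : ℤ, i ≠ 0 → (((a : ℚ) + 2) ^ i - 1) ≠ 0 := by
    intro i hi h
    have h1 : ((a : ℚ) + 2) ^ i = ((a : ℚ) + 2) ^ (0 : ℤ) := by rw [zpow_zero]; linarith
    have h2 : (1 : ℚ) < (a : ℚ) + 2 := by
      have : (0 : ℚ) ≤ a := Nat.cast_nonneg a
      linarith
    exact hi ((zpow_right_strictMono₀ h2).injective h1)
  -- the second parameter
  have hbadE : ∀ t : H, t ∈ T → {e : ℕ | ∃ i : ℤ, i ≠ 0 ∧ π t = (π b) ^ i ∧
      LL (π b) hv0 ((a : ℚ) + 2) (D.μ (t * b ^ (-i)) iv) =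
      e * ((((a : ℚ) + 2) ^ i - 1) / (((a : ℚ) + 2) - 1)) *
        LL (π b) hv0 ((a : ℚ) + 2) (D.μ v iv)}.Finite := by
    intro t _
    apply Set.Subsingleton.finite
    rintro e ⟨i, hi, hi1, hi2⟩ e' ⟨j, hj, hj1, hj2⟩
    have hij : i = j := hinj (by simp only; rw [← hi1, ← hj1])
    subst hij
    rw [hi2] at hj2
    have h3 := mul_right_cancel₀ ha1 hj2
    have h4 := mul_right_cancel₀ (div_ne_zero (hpow i hi) hA1) h3
    exact_mod_cast h4
  obtain ⟨e, he⟩ := (Set.Finite.biUnion T.finite_toSet hbadE).exists_notMem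
  refine ⟨a, e, fun t ht hmem => ?_⟩
  by_cases hπ : π t = 1
  · obtain ⟨i0, h0, hne⟩ := ha2' t ht hπ
    obtain ⟨i, hi1, hi2⟩ := sub_mem D hv hβ a e i0 h0 hmem
    have hi0 : i = 0 := hinj (by simp only; rw [← hi1, hπ, zpow_zero])
    subst hi0
    rw [neg_zero, zpow_zero, mul_one, zpow_zero, sub_self, zero_div, mul_zero, zero_mul] at hi2
    exact hne hi2
  · obtain ⟨i, hi1, hi2⟩ := sub_mem D hv hβ a e iv hv0 hmem
    have hi0 : i ≠ 0 := by
      rintro rfl
      rw [zpow_zero] at hi1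
      exact hπ hi1
    apply he
    simp only [Set.mem_iUnion]
    exact ⟨t, ht, i, hi0, hi1, hi2⟩

end main

/-- groups whose integral group ring is a domain are torsion-free -/
theorem inf_order {K : Type} [Group K] [NoZeroDivisors (MonoidAlgebra ℤ K)] {β : K} (h1 : β ≠ 1)
    (j : ℕ) (hj : 0 < j) : β ^ j ≠ 1 := by
  intro hβ
  have h2 : (MonoidAlgebra.of ℤ K β - 1) * ∑ i ∈ Finset.range j, (MonoidAlgebra.of ℤ K β) ^ i = 0 := by
    rw [mul_geom_sum, ← map_pow, hβ, map_one, sub_self]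
  rcases mul_eq_zero.1 h2 with h3 | h3
  · apply h1
    apply MonoidAlgebra.of_injective (R := ℤ)
    rw [map_one]
    exact sub_eq_zero.1 h3
  · have h4 := congrArg (magnus_ker_L (fun _ : K => (1 : ℤ))) h3
    rw [map_zero, map_sum] at h4
    have h5 : ∀ i ∈ Finset.range j, magnus_ker_L (fun _ : K => (1 : ℤ))
        ((MonoidAlgebra.of ℤ K β) ^ i) = 1 := by
      intro i _
      rw [← map_pow, MonoidAlgebra.of_apply, magnus_ker_L_single, one_smul]
    rw [Finset.sum_congr rfl h5] at h4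
    simp at h4
    omega

end GD

/-- TASK GOOD -/
theorem good_dq (n d : ℕ) (b v : Dq (Fin n) (d + 2))
    (hv : v ∈ derivedSeries (Dq (Fin n) (d + 2)) (d + 1)) (hv1 : v ≠ 1)
    (hb : b ∈ derivedSeries (Dq (Fin n) (d + 2)) d)
    (hb1 : b ∉ derivedSeries (Dq (Fin n) (d + 2)) (d + 1)) : Good b v := by
  obtain ⟨π, hπ, ⟨D⟩⟩ := Pool.Agent.H54R3.MDQ.md_dq n (d + 1)
  have hnzd : NoZeroDivisors (MonoidAlgebra ℤ (Dq (Fin n) (d + 1))) := nzd_dq (Fin n) (d + 1)
  -- the derived series of the quotient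
  have hder : ∀ m k : ℕ, derivedSeries (Dq (Fin n) m) k =
      (derivedSeries (FreeGroup (Fin n)) k).map (pn (Fin n) m) := by
    intro m k
    have hs : Function.Surjective (pn (Fin n) m) := QuotientGroup.mk'_surjective _
    exact (map_derivedSeries_eq hs k).symm
  have hker : ∀ x : Dq (Fin n) (d + 2), x ∈ derivedSeries (Dq (Fin n) (d + 2)) (d + 1) ↔ π x = 1 := by
    intro x
    obtain ⟨w, rfl⟩ : ∃ w, pn (Fin n) (d + 2) w = x := QuotientGroup.mk'_surjective _ x
    rw [hπ]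
    constructor
    · intro hx
      rw [hder] at hx
      obtain ⟨w', hw', hww⟩ := hx
      have h1 : π (pn (Fin n) (d + 2) w') = π (pn (Fin n) (d + 2) w) := by rw [hww]
      rw [hπ, hπ] at h1
      rw [← h1]
      exact (QuotientGroup.eq_one_iff w').2 hw'
    · intro hx
      have hw : w ∈ derivedSeries (FreeGroup (Fin n)) (d + 1) := (QuotientGroup.eq_one_iff w).1 hx
      rw [hder]
      exact ⟨w, hw, rfl⟩
  have hβ1 : π b ≠ 1 := fun h => hb1 ((hker b).2 h)
  exact GD.good_main D ((hker v).1 hv) hv1 (fun j hj => GD.inf_order hβ1 j hj)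

end Pool.Agent.H577R3
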