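import Mathlib
import Pool.Agent.H577R3.Defs4

set_option autoImplicit false

/-! The general separation property from affine actions. -/

namespace Pool.Agent.H577R3

open Pool.Agent.Helper777.Prof

open scoped Pointwise

namespace GS

theorem comm_ds {G : Type} [Group G] {m : ℕ} {x y : G} (hx : x ∈ derivedSeries G m)
    (hy : y ∈ derivedSeries G m) : x * y * x⁻¹ * y⁻¹ ∈ derivedSeries G (m + 1) := by
  rw [derivedSeries_succ]
  exact Subgroup.commutator_mem_commutator hx hy

/-- pointwise addition of lists -/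
def ladd : List ℕ → List ℕ → List ℕ
  | [], g => g
  | a :: f, [] => a :: f
  | a :: f, c :: g => (a + c) :: ladd f g

section

variable {H : Type} [Group H] {B : Subgroup H} {b v : H}

theorem mono_memB (hB : B.Normal) (hv : v ∈ B) (f : List ℕ) : mono b v f ∈ B := by
  induction f with
  | nil => exact one_mem _
  | cons c f ih => exact mul_mem (pow_mem hv c) (hB.conj_mem _ ih b)

theorem mono_ladd (hB : B.Normal) (hc : ∀ x ∈ B, ∀ y ∈ B, x * y = y * x) (hv : v ∈ B)
    (f g : List ℕ) : mono b v f * mono b v g = mono b v (ladd f g) := by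
  induction f generalizing g with
  | nil => exact one_mul _
  | cons a f ih =>
    cases g with
    | nil => exact mul_one _
    | cons c g =>
      show v ^ a * (b * mono b v f * b⁻¹) * (v ^ c * (b * mono b v g * b⁻¹)) =
        v ^ (a + c) * (b * mono b v (ladd f g) * b⁻¹)
      rw [← ih, pow_add]
      have h1 : (b * mono b v f * b⁻¹) * v ^ c = v ^ c * (b * mono b v f * b⁻¹) :=
        hc _ (hB.conj_mem _ (mono_memB hB hv f) b) _ (pow_mem hv c)
      calc v ^ a * (b * mono b v f * b⁻¹) * (v ^ c * (b * mono b v g * b⁻¹))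
          = v ^ a * ((b * mono b v f * b⁻¹) * v ^ c) * (b * mono b v g * b⁻¹) := by group
        _ = v ^ a * (v ^ c * (b * mono b v f * b⁻¹)) * (b * mono b v g * b⁻¹) := by rw [h1]
        _ = _ := by group

theorem mono_one : mono b v [1] = v := by simp [mono]

theorem mono_zero (f : List ℕ) : mono b v (0 :: f) = b * mono b v f * b⁻¹ := by simp [mono]

/-- the elements `b ^ i v b ^ (-i)` -/
def CC (b v : H) : Subgroup H := Subgroup.closure (Set.range (fun i : ℕ => b ^ i * v * (b ^ i)⁻¹))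

theorem CC_le (hB : B.Normal) (hv : v ∈ B) : CC b v ≤ B := by
  unfold CC
  rw [Subgroup.closure_le]
  rintro _ ⟨i, rfl⟩
  exact hB.conj_mem _ hv _

theorem CC_conj {c : H} (hc : c ∈ CC b v) : b * c * b⁻¹ ∈ CC b v := by
  unfold CC at hc ⊢
  induction hc using Subgroup.closure_induction with
  | mem x hx =>
    obtain ⟨i, rfl⟩ := hx
    refine Subgroup.subset_closure ⟨i + 1, ?_⟩
    beta_reduce
    rw [pow_succ']
    group
  | one => simp [one_mem]
  | mul x y _ _ h1 h2 =>
    have : b * (x * y) * b⁻¹ = (b * x * b⁻¹) * (b * y * b⁻¹) := by group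
    rw [this]
    exact mul_mem h1 h2
  | inv x _ h1 =>
    have : b * x⁻¹ * b⁻¹ = (b * x * b⁻¹)⁻¹ := by group
    rw [this]
    exact inv_mem h1

theorem mono_memC (f : List ℕ) : mono b v f ∈ CC b v := by
  induction f with
  | nil => exact one_mem _
  | cons c f ih =>
    refine mul_mem (pow_mem ?_ c) (CC_conj ih)
    exact Subgroup.subset_closure ⟨0, by simp⟩

/-- elements of `CC` are products of elements of `J` and monomials -/
theorem CC_mono (hB : B.Normal) (hc : ∀ x ∈ B, ∀ y ∈ B, x * y = y * x) (hv : v ∈ B)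
    {J : Subgroup H} (hJ : J.Normal) (hJB : J ≤ B) {p : ℕ} (hp : 0 < p) (hvp : v ^ p ∈ J)
    {c : H} (h : c ∈ CC b v) : ∃ j ∈ J, ∃ f, c = j * mono b v f := by
  have hpow : ∀ f, mono b v f ^ p ∈ J := by
    intro f
    induction f with
    | nil => simp [mono, one_mem]
    | cons a f ih =>
      have h1 : Commute (v ^ a) (b * mono b v f * b⁻¹) :=
        hc _ (pow_mem hv a) _ (hB.conj_mem _ (mono_memB hB hv f) b)
      show (v ^ a * (b * mono b v f * b⁻¹)) ^ p ∈ J
      rw [h1.mul_pow, ← pow_mul, mul_comm a p, pow_mul, conj_pow]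
      exact mul_mem (pow_mem hvp a) (hJ.conj_mem _ ih b)
  have hmul : ∀ f (m : ℕ), ∃ f', mono b v f ^ m = mono b v f' := by
    intro f m
    induction m with
    | zero => exact ⟨[], by simp [mono]⟩
    | succ m ih =>
      obtain ⟨f', h1⟩ := ih
      exact ⟨_, by rw [pow_succ, h1, mono_ladd hB hc hv]⟩
  unfold CC at h
  induction h using Subgroup.closure_induction with
  | mem x hx =>
    obtain ⟨i, rfl⟩ := hx
    refine ⟨1, one_mem _, ?_⟩
    beta_reduce
    induction i with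
    | zero => exact ⟨[1], by rw [mono_one]; simp⟩
    | succ i ih =>
      obtain ⟨f, hf⟩ := ih
      refine ⟨0 :: f, ?_⟩
      rw [one_mul] at hf
      rw [mono_zero, ← hf, pow_succ']
      group
  | one => exact ⟨1, one_mem _, [], by simp [mono]⟩
  | mul x y _ _ h1 h2 =>
    obtain ⟨j, hj, f, rfl⟩ := h1
    obtain ⟨j', hj', f', rfl⟩ := h2
    refine ⟨j * j', mul_mem hj hj', ladd f f', ?_⟩
    rw [← mono_ladd hB hc hv]
    have h3 : mono b v f * j' = j' * mono b v f := hc _ (mono_memB hB hv f) _ (hJB hj')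
    calc j * mono b v f * (j' * mono b v f') = j * (mono b v f * j') * mono b v f' := by group
      _ = _ := by rw [h3]; group
  | inv x _ h1 =>
    obtain ⟨j, hj, f, rfl⟩ := h1
    obtain ⟨f', hf'⟩ := hmul f (p - 1)
    refine ⟨j⁻¹ * (mono b v f ^ p)⁻¹, mul_mem (inv_mem hj) (inv_mem (hpow f)), f', ?_⟩
    rw [← hf']
    have h3 : (mono b v f)⁻¹ * j⁻¹ = j⁻¹ * (mono b v f)⁻¹ :=
      hc _ (inv_mem (mono_memB hB hv f)) _ (inv_mem (hJB hj))
    rw [mul_inv_rev, h3, mul_assoc]
    congr 1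
    obtain ⟨q, rfl⟩ : ∃ q, p = q + 1 := ⟨p - 1, by omega⟩
    rw [Nat.add_sub_cancel, pow_succ]
    group

/-- the main algebraic argument -/
theorem main_alg {n : ℕ} (x : Fin n → H) (hx : Subgroup.closure (Set.range x) = ⊤)
    (hfree : ∀ y : Fin n → H, ∃ φ : H →* H, ∀ i, φ (x i) = y i)
    (hB : B.Normal) (hc : ∀ x ∈ B, ∀ y ∈ B, x * y = y * x)
    (hv : v ∈ B) (hbB : ∀ β : H, (∃ g, β = g * b * g⁻¹) → ∀ j : ℕ, β * b ^ j * β⁻¹ * (b ^ j)⁻¹ ∈ B)
    {p : ℕ} (hp : 0 < p) (Y : Subgroup H)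
    (w : Fin n → List ℕ) (hy : ∀ i, (mono b v (w i))⁻¹ * x i ∈ Y)
    (hvp : v ^ p ∈ Y)
    (hg : ∀ i, ∀ g : H, g = x i ∨ g = (x i)⁻¹ →
      (∃ f, (g * v * g⁻¹) * (mono b v f)⁻¹ ∈ Y) ∧
      (∃ f, ((g * b * g⁻¹) * v * (g * b * g⁻¹)⁻¹) * (mono b v f)⁻¹ ∈ Y)) :
    ∀ h : H, ∃ f : List ℕ, ∃ y ∈ Y, h = y * mono b v f := by
  have hmB : ∀ f, mono b v f ∈ B := mono_memB hB hv
  -- the normal subgroup `J`
  have hJn : (Y ⊓ B).Normal := by
    rw [← Subgroup.normalizer_eq_top_iff, eq_top_iff, ← hx, Subgroup.closure_le]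
    rintro _ ⟨i, rfl⟩
    have hconj : ∀ j ∈ B, x i * j * (x i)⁻¹ =
        ((mono b v (w i))⁻¹ * x i) * j * ((mono b v (w i))⁻¹ * x i)⁻¹ := by
      intro j hj
      have h1 := hc _ (inv_mem (hmB (w i))) _ (hB.conj_mem j hj (x i))
      calc x i * j * (x i)⁻¹ = ((mono b v (w i))⁻¹ * (x i * j * (x i)⁻¹)) * mono b v (w i) := by
            rw [h1]; group
        _ = _ := by group
    have hconj' : ∀ j ∈ B, (x i)⁻¹ * j * x i =
        ((mono b v (w i))⁻¹ * x i)⁻¹ * j * ((mono b v (w i))⁻¹ * x i) := by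
      intro j hj
      have h1 := hc _ (inv_mem (hmB (w i))) _ hj
      calc (x i)⁻¹ * j * x i = (x i)⁻¹ * mono b v (w i) * ((mono b v (w i))⁻¹ * j) * x i := by group
        _ = (x i)⁻¹ * mono b v (w i) * (j * (mono b v (w i))⁻¹) * x i := by rw [h1]
        _ = _ := by group
    rw [SetLike.mem_coe, Subgroup.mem_normalizer_iff]
    intro j
    rw [Subgroup.mem_inf, Subgroup.mem_inf]
    constructor
    · rintro ⟨h1, h2⟩
      refine ⟨?_, hB.conj_mem _ h2 _⟩
      rw [hconj j h2]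
      exact mul_mem (mul_mem (hy i) h1) (inv_mem (hy i))
    · rintro ⟨h1, h2⟩
      have h3 : j = (x i)⁻¹ * (x i * j * (x i)⁻¹) * x i := by group
      refine ⟨?_, ?_⟩
      · rw [h3, hconj' _ h2]
        exact mul_mem (mul_mem (inv_mem (hy i)) h1) (hy i)
      · rw [h3]
        have := hB.conj_mem _ h2 (x i)⁻¹
        rwa [inv_inv] at this
  set J : Subgroup H := Y ⊓ B with hJ
  have hJB : J ≤ B := inf_le_right
  have hJY : J ≤ Y := inf_le_left
  have hCB : CC b v ≤ B := CC_le hB hv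
  -- the normal subgroup `S`
  set S : Subgroup H := J ⊔ CC b v with hS
  have hSB : S ≤ B := sup_le hJB hCB
  have hvS : v ∈ S := Subgroup.mem_sup_right (by
    have := mono_memC (b := b) (v := v) [1]
    rwa [mono_one] at this)
  have hmS : ∀ f, mono b v f ∈ S := fun f => Subgroup.mem_sup_right (mono_memC f)
  have hred : ∀ β ∈ B, (∃ f, β * (mono b v f)⁻¹ ∈ Y) → β ∈ S := by
    rintro β hβ ⟨f, hf⟩
    have h1 : β * (mono b v f)⁻¹ ∈ J := Subgroup.mem_inf.2 ⟨hf, mul_mem hβ (inv_mem (hmB f))⟩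
    have h2 : β = β * (mono b v f)⁻¹ * mono b v f := by group
    rw [h2]
    exact mul_mem (Subgroup.mem_sup_left h1) (hmS f)
  -- stability criterion
  have hstab : ∀ g : H, (∀ i : ℕ, g * (b ^ i * v * (b ^ i)⁻¹) * g⁻¹ ∈ S) → ∀ s ∈ S, g * s * g⁻¹ ∈ S := by
    intro g hgen s hs
    have h1 : S ≤ S.comap (MulAut.conj g).toMonoidHom := by
      rw [hS]
      refine sup_le ?_ ?_
      · intro j hj
        exact Subgroup.mem_sup_left (hJn.conj_mem j hj g)
      · unfold CC
        rw [Subgroup.closure_le]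
        rintro _ ⟨i, rfl⟩
        exact hgen i
    exact h1 hs
  have hSb : ∀ s ∈ S, b * s * b⁻¹ ∈ S := by
    refine hstab b (fun i => ?_)
    refine Subgroup.mem_sup_right (Subgroup.subset_closure ⟨i + 1, ?_⟩)
    beta_reduce
    rw [pow_succ']
    group
  have hSbn : ∀ (i : ℕ), ∀ s ∈ S, b ^ i * s * (b ^ i)⁻¹ ∈ S := by
    intro i
    induction i with
    | zero => intro s hs; simpa using hs
    | succ i ih =>
      intro s hs
      have := hSb _ (ih s hs)
      rw [pow_succ']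
      convert this using 1
      group
  have hSβ : ∀ β : H, (∃ g, β = g * b * g⁻¹) → β * v * β⁻¹ ∈ S → ∀ s ∈ S, β * s * β⁻¹ ∈ S := by
    intro β hβ h1
    refine hstab β (fun i => ?_)
    -- `β b ^ i = b' b ^ i β`
    have h2 := hbB β hβ i
    have h3 : β * (b ^ i * v * (b ^ i)⁻¹) * β⁻¹ =
        (β * b ^ i * β⁻¹ * (b ^ i)⁻¹) * (b ^ i * (β * v * β⁻¹) * (b ^ i)⁻¹) *
          (β * b ^ i * β⁻¹ * (b ^ i)⁻¹)⁻¹ := by group
    have h4 : b ^ i * (β * v * β⁻¹) * (b ^ i)⁻¹ ∈ S := hSbn i _ h1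
    rw [h3, hc _ h2 _ (hSB h4), mul_inv_cancel_right]
    exact h4
  have hSβn : ∀ β : H, (∃ g, β = g * b * g⁻¹) → β * v * β⁻¹ ∈ S → ∀ (i : ℕ), ∀ s ∈ S,
      β ^ i * s * (β ^ i)⁻¹ ∈ S := by
    intro β hβ h1 i
    induction i with
    | zero => intro s hs; simpa using hs
    | succ i ih =>
      intro s hs
      have := hSβ β hβ h1 _ (ih s hs)
      rw [pow_succ']
      convert this using 1
      group
  have hSg : ∀ i, ∀ g : H, g = x i ∨ g = (x i)⁻¹ → ∀ s ∈ S, g * s * g⁻¹ ∈ S := by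
    intro i g hgi
    obtain ⟨h1, h2⟩ := hg i g hgi
    have h3 : g * v * g⁻¹ ∈ S := hred _ (hB.conj_mem v hv g) h1
    have h4 : (g * b * g⁻¹) * v * (g * b * g⁻¹)⁻¹ ∈ S := hred _ (hB.conj_mem v hv _) h2
    refine hstab g (fun j => ?_)
    have h5 : g * (b ^ j * v * (b ^ j)⁻¹) * g⁻¹ =
        (g * b * g⁻¹) ^ j * (g * v * g⁻¹) * ((g * b * g⁻¹) ^ j)⁻¹ := by
      rw [conj_pow]; group
    rw [h5]
    exact hSβn _ ⟨g, rfl⟩ h4 j _ h3
  have hSn : S.Normal := by
    rw [← Subgroup.normalizer_eq_top_iff, eq_top_iff, ← hx, Subgroup.closure_le]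
    rintro _ ⟨i, rfl⟩
    rw [SetLike.mem_coe, Subgroup.mem_normalizer_iff]
    intro s
    constructor
    · exact hSg i _ (Or.inl rfl) s
    · intro h1
      have := hSg i _ (Or.inr rfl) _ h1
      have h3 : (x i)⁻¹ * (x i * s * (x i)⁻¹) * (x i)⁻¹⁻¹ = s := by group
      rwa [h3] at this
  -- the endomorphism
  obtain ⟨φ, hφ⟩ := hfree (fun i => (mono b v (w i))⁻¹ * x i)
  have hφY : ∀ h, φ h ∈ Y := by
    intro h
    have h1 : (⊤ : Subgroup H) ≤ Y.comap φ := by
      rw [← hx, Subgroup.closure_le]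
      rintro _ ⟨i, rfl⟩
      show φ (x i) ∈ Y
      rw [hφ]
      exact hy i
    exact h1 (Subgroup.mem_top h)
  have hφS : ∀ h, h * (φ h)⁻¹ ∈ S := by
    intro h
    have h1 : (QuotientGroup.mk' S).comp φ = QuotientGroup.mk' S := by
      refine MonoidHom.eq_of_eqOn_dense hx ?_
      rintro _ ⟨i, rfl⟩
      show QuotientGroup.mk' S (φ (x i)) = QuotientGroup.mk' S (x i)
      rw [hφ, map_mul, map_inv]
      have : QuotientGroup.mk' S (mono b v (w i)) = 1 := (QuotientGroup.eq_one_iff _).2 (hmS _)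
      rw [this, inv_one, one_mul]
    have h2 := DFunLike.congr_fun h1 h
    have h3 : QuotientGroup.mk' S (h * (φ h)⁻¹) = 1 := by
      rw [map_mul, map_inv, mul_inv_eq_one]
      exact h2.symm
    exact (QuotientGroup.eq_one_iff _).1 h3
  intro h
  have h1 : (φ h)⁻¹ * (h * (φ h)⁻¹) * (φ h)⁻¹⁻¹ ∈ S := hSn.conj_mem _ (hφS h) _
  rw [inv_inv] at h1
  have h2 : (φ h)⁻¹ * (h * (φ h)⁻¹) * φ h = (φ h)⁻¹ * h := by group
  rw [h2] at h1
  have h3 : (φ h)⁻¹ * h ∈ (J : Set H) * (CC b v : Set H) := by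
    rw [← Subgroup.normal_mul]
    exact h1
  obtain ⟨j, hj, c, hcC, hjc⟩ := Set.mem_mul.1 h3
  obtain ⟨j', hj', f, rfl⟩ := CC_mono hB hc hv hJn hJB hp (Subgroup.mem_inf.2 ⟨hvp, pow_mem hv p⟩) hcC
  refine ⟨f, φ h * (j * j'), mul_mem (hφY h) (hJY (mul_mem hj hj')), ?_⟩
  calc h = φ h * ((φ h)⁻¹ * h) := by group
    _ = φ h * (j * (j' * mono b v f)) := by rw [hjc]
    _ = _ := by group

end

/-! ### the action -/

section

variable {H : Type} [Group H] {p : ℕ} {Λ : Type}
variable (act : H →* Equiv.Perm (Λ → ZMod p)) {B : Subgroup H} {b v : H} {lam vv : Λ → ZMod p}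

/-- value of a list of coefficients -/
def evL (lam vv : Λ → ZMod p) : List ℕ → (Λ → ZMod p)
  | [] => 0
  | c :: f => c • vv + lam * evL lam vv f

theorem act_mono (hv : ∀ z, act v z = z + vv) (hb : ∃ c, ∀ z, act b z = lam * z + c) (f : List ℕ) :
    ∀ z, act (mono b v f) z = z + evL lam vv f := by
  obtain ⟨c, hb⟩ := hb
  have hb' : ∀ z, lam * (act b⁻¹ z) + c = z := by
    intro z
    rw [← hb, ← Equiv.Perm.mul_apply, ← map_mul, mul_inv_cancel, map_one]
    rfl
  have hvn : ∀ (k : ℕ) z, act (v ^ k) z = z + k • vv := by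
    intro k
    induction k with
    | zero => intro z; simp
    | succ k ih =>
      intro z
      rw [pow_succ, map_mul, Equiv.Perm.mul_apply, hv, ih, succ_nsmul]
      abel
  induction f with
  | nil => intro z; simp [mono, evL]
  | cons a f ih =>
    intro z
    show act (v ^ a * (b * mono b v f * b⁻¹)) z = z + (a • vv + lam * evL lam vv f)
    rw [map_mul, map_mul, map_mul, Equiv.Perm.mul_apply, Equiv.Perm.mul_apply,
      Equiv.Perm.mul_apply, ih, hb, hvn, mul_add]
    have := hb' z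
    calc lam * act b⁻¹ z + lam * evL lam vv f + c + a • vv
        = (lam * act b⁻¹ z + c) + (a • vv + lam * evL lam vv f) := by abel
      _ = _ := by rw [this]

theorem evL_poly (P : Polynomial (ZMod p)) [NeZero p] :
    ∃ f : List ℕ, evL lam vv f = fun l => P.eval (lam l) * vv l := by
  induction P using Polynomial.recOnHorner with
  | M0 => exact ⟨[], by funext l; simp [evL]⟩
  | MC P a _ _ ih =>
    obtain ⟨f, hf⟩ := ih
    cases f with
    | nil =>
      refine ⟨[a.val], ?_⟩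
      funext l
      have := congrFun hf l
      simp only [evL, Pi.zero_apply] at this
      have e : a.val • vv l = a * vv l := by rw [nsmul_eq_mul, ZMod.natCast_zmod_val]
      simp only [evL, Pi.add_apply, Pi.mul_apply, Pi.smul_apply, Polynomial.eval_add,
        Polynomial.eval_C, add_mul, ← this, e]
      simp
    | cons c f =>
      refine ⟨(c + a.val) :: f, ?_⟩
      funext l
      have := congrFun hf l
      simp only [evL, Pi.add_apply, Pi.mul_apply, Pi.smul_apply] at this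
      simp only [evL, Pi.add_apply, Pi.mul_apply, Pi.smul_apply, Polynomial.eval_add,
        Polynomial.eval_C, add_mul, ← this]
      simp
      ring
  | MX P _ ih =>
    obtain ⟨f, hf⟩ := ih
    refine ⟨0 :: f, ?_⟩
    funext l
    have := congrFun hf l
    simp only [evL, Pi.add_apply, Pi.mul_apply, Pi.smul_apply, this, Polynomial.eval_mul,
      Polynomial.eval_X]
    simp
    ring

theorem evL_surj [Fact p.Prime] [Finite Λ] (hvv : ∀ l, vv l ≠ 0) (hlam : Function.Injective lam)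
    (z : Λ → ZMod p) : ∃ f : List ℕ, evL lam vv f = z := by
  classical
  have := Fintype.ofFinite Λ
  obtain ⟨f, hf⟩ := evL_poly (lam := lam) (vv := vv)
    (Lagrange.interpolate Finset.univ lam (fun l => z l / vv l))
  refine ⟨f, ?_⟩
  rw [hf]
  funext l
  rw [Lagrange.eval_interpolate_at_node _ hlam.injOn (Finset.mem_univ l), div_mul_cancel₀ _ (hvv l)]

end

end GS

open GS

theorem gsep_of_aff (n d : ℕ)
    (hgood : ∀ b v : Dq (Fin n) (d + 2), v ∈ derivedSeries (Dq (Fin n) (d + 2)) (d + 1) → v ≠ 1 →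
      b ∈ derivedSeries (Dq (Fin n) (d + 2)) d → b ∉ derivedSeries (Dq (Fin n) (d + 2)) (d + 1) →
      Good b v)
    (h : ∀ T : Finset (Dq (Fin n) (d + 2)), 1 ∉ T → AffEx n d T) :
    ∃ L, GSep (Dq (Fin n) (d + 2)) L := by
  classical
  refine ⟨Fintype.card (Fin n ⊕ (((Fin n × Bool) × Bool) ⊕ Unit)), fun T hT => ?_⟩
  obtain ⟨p, hpp, Λ, hΛ, act, b, v, lam, vv, hvB, hv1, hbD, hbB', -, htr, -, hv, hvv, hb, hlam, hact⟩ :=
    h T hT
  have hp0 : 0 < p := hpp.out.pos
  have hNZ : NeZero p := ⟨hp0.ne'⟩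
  set B := derivedSeries (Dq (Fin n) (d + 2)) (d + 1) with hB
  have hBn : B.Normal := by rw [hB]; infer_instance
  have hbot : derivedSeries (Dq (Fin n) (d + 2)) (d + 2) = ⊥ := by
    rw [eq_bot_iff, ← map_derivedSeries_eq (f := pn (Fin n) (d + 2)) (QuotientGroup.mk'_surjective _)]
    rintro _ ⟨w, hw, rfl⟩
    exact (QuotientGroup.eq_one_iff w).2 hw
  have hc : ∀ x ∈ B, ∀ y ∈ B, x * y = y * x := by
    intro x hx y hy
    have h1 := comm_ds hx hy
    rw [hbot, Subgroup.mem_bot] at h1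
    rw [← commutatorElement_eq_one_iff_mul_comm]
    exact h1
  have hm := act_mono act hv hb
  have hsur := evL_surj hvv hlam
  choose F hF using hsur
  have hm0 : ∀ z, act (mono b v (F z)) 0 = z := fun z => by rw [hm, hF, zero_add]
  have hminv : ∀ (f : List ℕ) z, act (mono b v f)⁻¹ z = z - evL lam vv f := by
    intro f z
    rw [map_inv, Equiv.Perm.inv_eq_iff_eq, hm]
    abel
  have hx : Subgroup.closure (Set.range (gens n (d + 2))) = ⊤ := by
    rw [← FreeGroup.range_lift_eq_closure]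
    have : FreeGroup.lift (gens n (d + 2)) = pn (Fin n) (d + 2) := by
      ext i; simp [gens]
    rw [this]
    exact MonoidHom.range_eq_top.2 (QuotientGroup.mk'_surjective _)
  -- the generators
  let r : Dq (Fin n) (d + 2) → Dq (Fin n) (d + 2) := fun β => β * (mono b v (F (act β 0)))⁻¹
  let sg : Fin n × Bool → Dq (Fin n) (d + 2) := fun q => cond q.2 (gens n (d + 2) q.1)
    (gens n (d + 2) q.1)⁻¹
  let Y : Fin n ⊕ (((Fin n × Bool) × Bool) ⊕ Unit) → Dq (Fin n) (d + 2) := fun s => match s with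
    | Sum.inl i => (mono b v (F (act (gens n (d + 2) i) 0)))⁻¹ * gens n (d + 2) i
    | Sum.inr (Sum.inl (q, true)) => r (sg q * v * (sg q)⁻¹)
    | Sum.inr (Sum.inl (q, false)) =>
      r ((sg q * b * (sg q)⁻¹) * v * (sg q * b * (sg q)⁻¹)⁻¹)
    | Sum.inr (Sum.inr _) => v ^ p
  let Y' : Fin (Fintype.card (Fin n ⊕ (((Fin n × Bool) × Bool) ⊕ Unit))) → Dq (Fin n) (d + 2) :=
    fun i => Y ((Fintype.equivFin _).symm i)
  have hrange : Set.range Y' = Set.range Y := (Equiv.surjective _).range_comp Y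
  have hYmem : ∀ s, Y s ∈ Subgroup.closure (Set.range Y') := fun s => by
    rw [hrange]
    exact Subgroup.subset_closure ⟨s, rfl⟩
  have hr0 : ∀ β ∈ B, act (r β) 0 = 0 := by
    intro β hβ
    show act (β * (mono b v (F (act β 0)))⁻¹) 0 = 0
    rw [map_mul, Equiv.Perm.mul_apply, hminv, hF]
    obtain ⟨c, hc'⟩ := htr β hβ
    rw [hc', hc' 0]
    abel
  have hvp : act (v ^ p) 0 = 0 := by
    have : ∀ k : ℕ, act (v ^ k) 0 = k • vv := by
      intro k
      induction k with
      | zero => simp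
      | succ k ih => rw [pow_succ', map_mul, Equiv.Perm.mul_apply, ih, hv, succ_nsmul]
    rw [this]
    funext l
    simp
  have hfix : ∀ s, act (Y s) 0 = 0 := by
    rintro (i | ⟨q, ε⟩ | u)
    · show act ((mono b v (F (act (gens n (d + 2) i) 0)))⁻¹ * gens n (d + 2) i) 0 = 0
      rw [map_mul, Equiv.Perm.mul_apply, hminv, hF, sub_self]
    · cases ε
      · exact hr0 _ (hBn.conj_mem _ hvB _)
      · exact hr0 _ (hBn.conj_mem _ hvB _)
    · exact hvp
  refine ⟨Y', b, v, hgood b v hvB hv1 hbD hbB', ?_, ?_⟩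
  · refine main_alg (B := B) (gens n (d + 2)) hx ?_ hBn hc hvB ?_ hp0 _
      (fun i => F (act (gens n (d + 2) i) 0)) (fun i => hYmem (Sum.inl i))
      (hYmem (Sum.inr (Sum.inr ()))) ?_
    · intro y
      refine ⟨QuotientGroup.lift _ (FreeGroup.lift y) ?_, ?_⟩
      · intro w hw
        have h1 : FreeGroup.lift y w ∈ derivedSeries (Dq (Fin n) (d + 2)) (d + 2) :=
          map_derivedSeries_le_derivedSeries (FreeGroup.lift y) (d + 2) ⟨w, hw, rfl⟩
        rw [hbot] at h1
        exact h1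
      · intro i
        show FreeGroup.lift y (FreeGroup.of i) = y i
        simp
    · rintro β ⟨g, rfl⟩ j
      have h1 : g * b * g⁻¹ ∈ derivedSeries (Dq (Fin n) (d + 2)) d :=
        (inferInstance : (derivedSeries (Dq (Fin n) (d + 2)) d).Normal).conj_mem _ hbD g
      exact comm_ds h1 (pow_mem hbD j)
    · intro i g hgi
      have h2 : ∃ q, g = sg q := by
        rcases hgi with rfl | rfl
        · exact ⟨(i, true), rfl⟩
        · exact ⟨(i, false), rfl⟩
      obtain ⟨q, rfl⟩ := h2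
      exact ⟨⟨_, hYmem (Sum.inr (Sum.inl (q, true)))⟩, ⟨_, hYmem (Sum.inr (Sum.inl (q, false)))⟩⟩
  · intro t ht hmem
    apply hact t ht
    have h1 : Subgroup.closure (Set.range Y') ≤ (MulAction.stabilizer (Equiv.Perm (Λ → ZMod p))
        (0 : Λ → ZMod p)).comap act := by
      rw [hrange, Subgroup.closure_le]
      rintro _ ⟨s, rfl⟩
      exact hfix s
    exact h1 hmem

end Pool.Agent.H577R3
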