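import Mathlib
import Pool.Agent.H577R3.Defs
import Pool.Agent.H577R3.TaskQFA

set_option autoImplicit false

/-! Homogeneity of the free solvable groups from the key formula (helper116). -/

namespace Pool.Agent.H577R3

open FirstOrder FirstOrder.Language Pool.Agent.Helper777.Prof

namespace HOM

section lin

variable {V : Type} [AddCommGroup V] [Module.Finite ℤ V] [Module.Free ℤ V]

theorem tf_of {Q : Type} [AddCommGroup Q] (h : ∀ (k : ℤ) (q : Q), k ≠ 0 → k • q = 0 → q = 0) :
    Module.IsTorsionFree ℤ Q := by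
  constructor
  intro r hr a b hab
  have h1 : r • (a - b) = 0 := by
    rw [smul_sub]
    exact sub_eq_zero.2 hab
  exact sub_eq_zero.1 (h r _ hr.ne_zero h1)

/-- splitting of a saturated submodule -/
theorem split {Γ : Type} [AddCommGroup Γ] (f : Γ →ₗ[ℤ] V)
    (hf : Function.Injective f)
    (hs : ∀ (k : ℤ) (v : V), k ≠ 0 → k • v ∈ LinearMap.range f → v ∈ LinearMap.range f) :
    ∃ e : (Γ × (V ⧸ LinearMap.range f)) ≃ₗ[ℤ] V, ∀ γ, e (γ, 0) = f γ := by
  have htf : Module.IsTorsionFree ℤ (V ⧸ LinearMap.range f) := by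
    apply tf_of
    intro k q hk hq
    obtain ⟨v, rfl⟩ := Submodule.mkQ_surjective _ q
    rw [← map_smul, Submodule.mkQ_apply, Submodule.Quotient.mk_eq_zero] at hq
    rw [Submodule.mkQ_apply, Submodule.Quotient.mk_eq_zero]
    exact hs k v hk hq
  obtain ⟨s, hsec⟩ := Module.projective_lifting_property (LinearMap.range f).mkQ LinearMap.id
    (Submodule.mkQ_surjective _)
  have hsec' : ∀ q, (LinearMap.range f).mkQ (s q) = q := fun q => LinearMap.congr_fun hsec q
  have hfz : ∀ γ, (LinearMap.range f).mkQ (f γ) = 0 := by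
    intro γ
    rw [Submodule.mkQ_apply, Submodule.Quotient.mk_eq_zero]
    exact ⟨γ, rfl⟩
  refine ⟨LinearEquiv.ofBijective (f.coprod s) ⟨?_, ?_⟩, ?_⟩
  · rw [injective_iff_map_eq_zero]
    rintro ⟨γ, q⟩ h
    rw [LinearMap.coprod_apply] at h
    have h1 := congrArg (LinearMap.range f).mkQ h
    simp only [map_add, hfz, hsec', zero_add, map_zero] at h1
    subst h1
    simp only [map_zero, add_zero] at h
    have : γ = 0 := hf (by rw [h, map_zero])
    rw [this]; rfl
  · intro v
    have h1 : v - s ((LinearMap.range f).mkQ v) ∈ LinearMap.range f := by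
      rw [← Submodule.Quotient.mk_eq_zero, ← Submodule.mkQ_apply, map_sub, hsec', sub_self]
    obtain ⟨γ, hγ⟩ := h1
    refine ⟨(γ, (LinearMap.range f).mkQ v), ?_⟩
    rw [LinearMap.coprod_apply, hγ]
    exact sub_add_cancel _ _
  · intro γ
    simp

theorem lin_ext {m : ℕ} (u₁ u₂ : Fin m → V)
    (h : ∀ (c : Fin m → ℤ) (k : ℤ), (∃ y : V, ∑ i, c i • u₁ i = k • y) ↔
      (∃ y : V, ∑ i, c i • u₂ i = k • y)) :
    ∃ σ : V ≃ₗ[ℤ] V, ∀ i, σ (u₁ i) = u₂ i := by
  classical
  have hT : ∀ (u : Fin m → V) (c c' : Fin m → ℤ) (a b : ℤ),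
      ∑ i, (a * c i + b * c' i) • u i = a • (∑ i, c i • u i) + b • (∑ i, c' i • u i) := by
    intro u c c' a b
    rw [Finset.smul_sum, Finset.smul_sum, ← Finset.sum_add_distrib]
    refine Finset.sum_congr rfl fun i _ => ?_
    rw [add_smul, mul_smul, mul_smul]
  let Γ : Submodule ℤ (V × V) :=
    { carrier := {p | ∃ k : ℤ, k ≠ 0 ∧ ∃ c : Fin m → ℤ, k • p.1 = ∑ i, c i • u₁ i ∧
        k • p.2 = ∑ i, c i • u₂ i}
      add_mem' := by
        rintro p q ⟨k, hk, c, h1, h2⟩ ⟨l, hl, d, h3, h4⟩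
        refine ⟨k * l, mul_ne_zero hk hl, fun i => l * c i + k * d i, ?_, ?_⟩
        · rw [hT, ← h1, ← h3]
          simp only [Prod.fst_add, smul_add, smul_smul]
          rw [mul_comm k l]
        · rw [hT, ← h2, ← h4]
          simp only [Prod.snd_add, smul_add, smul_smul]
          rw [mul_comm k l]
      zero_mem' := ⟨1, one_ne_zero, fun _ => 0, by simp, by simp⟩
      smul_mem' := by
        rintro a p ⟨k, hk, c, h1, h2⟩
        refine ⟨k, hk, fun i => a * c i + 0 * c i, ?_, ?_⟩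
        · rw [hT, ← h1]
          simp only [Prod.smul_fst, zero_smul, add_zero]
          rw [smul_comm]
        · rw [hT, ← h2]
          simp only [Prod.smul_snd, zero_smul, add_zero]
          rw [smul_comm] }
  have hmem : ∀ p : V × V, p ∈ Γ ↔ ∃ k : ℤ, k ≠ 0 ∧ ∃ c : Fin m → ℤ,
      k • p.1 = ∑ i, c i • u₁ i ∧ k • p.2 = ∑ i, c i • u₂ i := fun p => Iff.rfl
  have hz : ∀ c : Fin m → ℤ, (∑ i, c i • u₁ i = 0 ↔ ∑ i, c i • u₂ i = 0) := by
    intro c
    have := h c 0
    simpa using this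
  have hinj : ∀ (k : ℤ) (v : V), k ≠ 0 → k • v = 0 → v = 0 := by
    intro k v hk hv
    exact (smul_eq_zero.1 hv).resolve_left hk
  let f₁ : Γ →ₗ[ℤ] V := (LinearMap.fst ℤ V V).comp Γ.subtype
  let f₂ : Γ →ₗ[ℤ] V := (LinearMap.snd ℤ V V).comp Γ.subtype
  have hf₁ : Function.Injective f₁ := by
    rw [injective_iff_map_eq_zero]
    rintro ⟨⟨v, w⟩, hp⟩ hv
    change v = 0 at hv
    subst hv
    obtain ⟨k, hk, c, h1, h2⟩ := (hmem _).1 hp
    simp only [smul_zero] at h1
    have h3 := (hz c).1 h1.symm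
    rw [h3] at h2
    have := hinj k w hk h2
    subst this
    rfl
  have hf₂ : Function.Injective f₂ := by
    rw [injective_iff_map_eq_zero]
    rintro ⟨⟨v, w⟩, hp⟩ hv
    change w = 0 at hv
    subst hv
    obtain ⟨k, hk, c, h1, h2⟩ := (hmem _).1 hp
    simp only [smul_zero] at h2
    have h3 := (hz c).2 h2.symm
    rw [h3] at h1
    have := hinj k v hk h1
    subst this
    rfl
  have hs₁ : ∀ (k : ℤ) (v : V), k ≠ 0 → k • v ∈ LinearMap.range f₁ → v ∈ LinearMap.range f₁ := by
    rintro k v hk ⟨⟨⟨a, b⟩, hp⟩, hv⟩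
    change a = k • v at hv
    obtain ⟨l, hl, c, h1, h2⟩ := (hmem _).1 hp
    simp only at h1 h2
    rw [hv, smul_smul] at h1
    obtain ⟨w, hw⟩ := (h c (l * k)).1 ⟨v, h1.symm⟩
    exact ⟨⟨(v, w), (hmem _).2 ⟨l * k, mul_ne_zero hl hk, c, h1, hw.symm⟩⟩, rfl⟩
  have hs₂ : ∀ (k : ℤ) (v : V), k ≠ 0 → k • v ∈ LinearMap.range f₂ → v ∈ LinearMap.range f₂ := by
    rintro k w hk ⟨⟨⟨a, b⟩, hp⟩, hv⟩
    change b = k • w at hv
    obtain ⟨l, hl, c, h1, h2⟩ := (hmem _).1 hp
    simp only at h1 h2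
    rw [hv, smul_smul] at h2
    obtain ⟨v, hw⟩ := (h c (l * k)).2 ⟨w, h2.symm⟩
    exact ⟨⟨(v, w), (hmem _).2 ⟨l * k, mul_ne_zero hl hk, c, hw.symm, h2⟩⟩, rfl⟩
  obtain ⟨e₁, he₁⟩ := split f₁ hf₁ hs₁
  obtain ⟨e₂, he₂⟩ := split f₂ hf₂ hs₂
  have ht₁ : Module.IsTorsionFree ℤ (V ⧸ LinearMap.range f₁) := by
    apply tf_of
    intro k q hk hq
    obtain ⟨v, rfl⟩ := Submodule.mkQ_surjective _ q
    rw [← map_smul, Submodule.mkQ_apply, Submodule.Quotient.mk_eq_zero] at hq
    rw [Submodule.mkQ_apply, Submodule.Quotient.mk_eq_zero]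
    exact hs₁ k v hk hq
  have ht₂ : Module.IsTorsionFree ℤ (V ⧸ LinearMap.range f₂) := by
    apply tf_of
    intro k q hk hq
    obtain ⟨v, rfl⟩ := Submodule.mkQ_surjective _ q
    rw [← map_smul, Submodule.mkQ_apply, Submodule.Quotient.mk_eq_zero] at hq
    rw [Submodule.mkQ_apply, Submodule.Quotient.mk_eq_zero]
    exact hs₂ k v hk hq
  have hr : Module.finrank ℤ (V ⧸ LinearMap.range f₁) = Module.finrank ℤ (V ⧸ LinearMap.range f₂) := by
    have h1 := e₁.finrank_eq
    have h2 := e₂.finrank_eq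
    rw [Module.finrank_prod] at h1 h2
    omega
  obtain ⟨q⟩ := FiniteDimensional.nonempty_linearEquiv_of_finrank_eq hr
  refine ⟨(e₁.symm.trans ((LinearEquiv.refl ℤ Γ).prodCongr q)).trans e₂, fun i => ?_⟩
  have hi : (u₁ i, u₂ i) ∈ Γ := by
    rw [hmem]
    refine ⟨1, one_ne_zero, Pi.single i 1, ?_, ?_⟩
    · simp [Pi.single_apply, ite_smul]
    · simp [Pi.single_apply, ite_smul]
  have h1 : e₁ (⟨_, hi⟩, 0) = u₁ i := he₁ _
  have h2 : e₂ (⟨_, hi⟩, 0) = u₂ i := he₂ _
  have h3 : e₁.symm (u₁ i) = (⟨_, hi⟩, 0) := by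
    rw [LinearEquiv.symm_apply_eq]; exact h1.symm
  rw [LinearEquiv.trans_apply, LinearEquiv.trans_apply, h3]
  simpa using h2

end lin

/-! ### the language -/

/-- the language of the frozen statement -/
abbrev LB : FirstOrder.Language.{0, 0} :=
  FirstOrder.Language.mk (fun _ => Bool) (fun _ => Empty)

/-- a group as a structure: products and their inverses -/
@[reducible] def strB (G : Type) [Group G] : LB.Structure G :=
  { funMap := fun b xs => cond b (List.ofFn xs).prod ((List.ofFn xs).prod)⁻¹,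
    RelMap := fun r _ => Empty.elim r }

attribute [local instance] strG strB

def hom : LG →ᴸ LB where
  onFunction := fun _ _ => true
  onRelation := fun _ r => r

instance (G : Type) [Group G] : hom.IsExpansionOn G where
  map_onFunction := by
    intro k f xs
    rfl
  map_onRelation := by
    intro k r
    exact Empty.elim r

/-- the term of a word -/
def wt {α : Type} : List (α × Bool) → LB.Term α
  | [] => Term.func (l := 0) true ![]
  | (i, b) :: l => Term.func (l := 2) true ![Term.func (l := 1) b ![Term.var i], wt l]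

theorem realize_wt {α G : Type} [Group G] (v : α → G) (l : List (α × Bool)) :
    (wt l).realize v = FreeGroup.lift v (FreeGroup.mk l) := by
  induction l with
  | nil => simp [wt, Structure.funMap, ← FreeGroup.one_eq_mk]
  | cons p l ih =>
    obtain ⟨i, b⟩ := p
    rw [FreeGroup.lift_mk] at ih ⊢
    simp only [wt, Term.realize_func, List.map_cons, List.prod_cons]
    rw [← ih]
    cases b <;> simp [Structure.funMap, List.ofFn_succ]

section grp

variable {G : Type} [Group G] {m : ℕ}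

/-- the two tuples have the same type -/
def SameType (μ₁ μ₂ : Fin m → G) : Prop :=
  ∀ φ : LB.Formula (Fin m), φ.Realize μ₁ ↔ φ.Realize μ₂

theorem same_eqn {μ₁ μ₂ : Fin m → G} (h : SameType μ₁ μ₂) (g : FreeGroup (Fin m ⊕ Unit)) :
    (∃ y : G, FreeGroup.lift (Sum.elim μ₁ (fun _ => y)) g = 1) ↔
      (∃ y : G, FreeGroup.lift (Sum.elim μ₂ (fun _ => y)) g = 1) := by
  obtain ⟨l, rfl⟩ : ∃ l, FreeGroup.mk l = g := ⟨g.toWord, FreeGroup.mk_toWord⟩
  let φ : LB.Formula (Fin m) := (Term.equal (wt l) (wt [])).iExs Unit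
  have key : ∀ μ : Fin m → G, φ.Realize μ ↔
      ∃ y : G, FreeGroup.lift (Sum.elim μ (fun _ => y)) (FreeGroup.mk l) = 1 := by
    intro μ
    rw [Formula.realize_iExs]
    constructor
    · rintro ⟨y, hy⟩
      refine ⟨y (), ?_⟩
      rw [Formula.realize_equal, realize_wt, realize_wt] at hy
      have h1 : (FreeGroup.mk [] : FreeGroup (Fin m ⊕ Unit)) = 1 := FreeGroup.one_eq_mk.symm
      rw [h1, map_one] at hy
      exact hy
    · rintro ⟨y, hy⟩
      refine ⟨fun _ => y, ?_⟩
      rw [Formula.realize_equal, realize_wt, realize_wt]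
      have h1 : (FreeGroup.mk [] : FreeGroup (Fin m ⊕ Unit)) = 1 := FreeGroup.one_eq_mk.symm
      rw [h1, map_one]
      exact hy
  rw [← key, ← key]
  exact h φ

theorem abelian_case {V : Type} [AddCommGroup V] [Module.Finite ℤ V] [Module.Free ℤ V]
    (e : G ≃* Multiplicative V) {μ₁ μ₂ : Fin m → G} (h : SameType μ₁ μ₂) :
    ∃ σ : G ≃* G, ∀ i, σ (μ₁ i) = μ₂ i := by
  have key : ∀ (μ : Fin m → G) (c : Fin m → ℤ) (k : ℤ),
      (∃ y : G, FreeGroup.lift (Sum.elim μ (fun _ => y))
        ((List.ofFn fun i => (FreeGroup.of (Sum.inl i : Fin m ⊕ Unit)) ^ c i).prod *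
          (FreeGroup.of (Sum.inr ())) ^ (-k)) = 1) ↔
      (∃ y : V, ∑ i, c i • Multiplicative.toAdd (e (μ i)) = k • y) := by
    intro μ c k
    have h1 : ∀ y : G, FreeGroup.lift (Sum.elim μ (fun _ => y))
        ((List.ofFn fun i => (FreeGroup.of (Sum.inl i : Fin m ⊕ Unit)) ^ c i).prod *
          (FreeGroup.of (Sum.inr ())) ^ (-k)) =
        (List.ofFn fun i => μ i ^ c i).prod * y ^ (-k) := by
      intro y
      rw [map_mul, map_list_prod, List.map_ofFn, map_zpow, FreeGroup.lift_apply_of]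
      congr 2
      congr 1
      funext i
      simp
    have h2 : ∀ y : G, Multiplicative.toAdd (e ((List.ofFn fun i => μ i ^ c i).prod * y ^ (-k))) =
        ∑ i, c i • Multiplicative.toAdd (e (μ i)) - k • Multiplicative.toAdd (e y) := by
      intro y
      rw [map_mul, map_list_prod, List.map_ofFn, map_zpow, toAdd_mul, toAdd_zpow, neg_smul,
        ← sub_eq_add_neg]
      congr 1
      rw [List.prod_ofFn, toAdd_prod]
      refine Finset.sum_congr rfl fun i _ => ?_
      simp
    constructor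
    · rintro ⟨y, hy⟩
      refine ⟨Multiplicative.toAdd (e y), ?_⟩
      rw [h1] at hy
      have h3 := h2 y
      rw [hy, map_one, toAdd_one] at h3
      exact sub_eq_zero.1 h3.symm
    · rintro ⟨y, hy⟩
      refine ⟨e.symm (Multiplicative.ofAdd y), ?_⟩
      rw [h1]
      have h3 := h2 (e.symm (Multiplicative.ofAdd y))
      rw [MulEquiv.apply_symm_apply, toAdd_ofAdd, hy, sub_self] at h3
      exact (map_eq_one_iff e e.injective).1 (toAdd_eq_zero.1 h3)
  obtain ⟨σ, hσ⟩ := lin_ext (fun i => Multiplicative.toAdd (e (μ₁ i)))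
    (fun i => Multiplicative.toAdd (e (μ₂ i))) (fun c k => by
      rw [← key μ₁ c k, ← key μ₂ c k]
      exact same_eqn h _)
  refine ⟨(e.trans (AddEquiv.toMultiplicative σ.toAddEquiv)).trans e.symm, fun i => ?_⟩
  rw [MulEquiv.trans_apply, MulEquiv.symm_apply_eq]
  exact hσ i

theorem key_case {n : ℕ} (x : Fin n → G) (hx : Subgroup.closure (Set.range x) = ⊤)
    (φ : LG.Formula (Fin n))
    (hφ : ∀ y : Fin n → G, (φ.Realize y ↔ ∃ e : G ≃* G, ∀ i, e (x i) = y i))
    {μ₁ μ₂ : Fin m → G} (h : SameType μ₁ μ₂) :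
    ∃ σ : G ≃* G, ∀ i, σ (μ₁ i) = μ₂ i := by
  have hw : ∀ i, ∃ l : List (Fin n × Bool), ev x l = μ₁ i := fun i => QFA.ev_surj x hx (μ₁ i)
  choose l hl using hw
  let χ : LB.Formula (Fin m ⊕ Fin n) :=
    (hom.onFormula φ).relabel Sum.inr ⊓
      Formula.iInf (fun i : Fin m => Term.equal (Term.var (Sum.inl i))
        ((wt (l i)).relabel Sum.inr))
  have hχ : ∀ μ : Fin m → G, (χ.iExs (Fin n)).Realize μ ↔
      ∃ y : Fin n → G, φ.Realize y ∧ ∀ i, μ i = ev y (l i) := by
    intro μ
    rw [Formula.realize_iExs]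
    refine exists_congr fun y => ?_
    rw [Formula.realize_inf, Formula.realize_iInf, Formula.realize_relabel]
    have h1 : (Sum.elim μ y ∘ Sum.inr : Fin n → G) = y := rfl
    rw [h1, LHom.realize_onFormula]
    refine and_congr Iff.rfl (forall_congr' fun i => ?_)
    rw [Formula.realize_equal, Term.realize_relabel, h1, realize_wt]
    rfl
  have h1 : (χ.iExs (Fin n)).Realize μ₁ :=
    (hχ μ₁).2 ⟨x, (hφ x).2 ⟨MulEquiv.refl _, fun _ => rfl⟩, fun i => (hl i).symm⟩
  obtain ⟨y, hy, hμ⟩ := (hχ μ₂).1 ((h _).1 h1)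
  obtain ⟨e, he⟩ := (hφ y).1 hy
  refine ⟨e, fun i => ?_⟩
  rw [← hl i, hμ i]
  have h2 : (e.toMonoidHom).comp (FreeGroup.lift x) = FreeGroup.lift y := by
    ext j
    simp [he]
  exact DFunLike.congr_fun h2 (FreeGroup.mk (l i))

end grp

theorem derivedSeries_eq_one_of_comm {F : Type} [Group F] (hF : ∀ a b : F, a * b = b * a) {d : ℕ}
    (hd : 1 ≤ d) : derivedSeries F d = derivedSeries F 1 := by
  have h1 : derivedSeries F 1 = ⊥ := by
    rw [derivedSeries_one, commutator_def, Subgroup.commutator_eq_bot_iff_le_centralizer]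
    intro a _
    rw [Subgroup.mem_centralizer_iff]
    intro b _
    exact (hF b a)
  have h2 : derivedSeries F d ≤ derivedSeries F 1 := derivedSeries_antitone F hd
  rw [h1] at h2 ⊢
  exact le_bot_iff.1 h2

theorem ab_equiv (n : ℕ) : Nonempty ((FreeGroup (Fin n) ⧸ derivedSeries (FreeGroup (Fin n)) 1) ≃*
    Multiplicative (Fin n →₀ ℤ)) := by
  have e1 : (FreeGroup (Fin n) ⧸ derivedSeries (FreeGroup (Fin n)) 1) ≃*
      Abelianization (FreeGroup (Fin n)) :=
    QuotientGroup.quotientMulEquivOfEq (derivedSeries_one _)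
  have e2 : FreeAbelianGroup (Fin n) ≃+ (Fin n →₀ ℤ) := FreeAbelianGroup.equivFinsupp (Fin n)
  exact ⟨e1.trans (AddEquiv.toMultiplicative e2)⟩

end HOM

attribute [local instance] strG in
/-- TASK HOM -/
theorem S15089_of_key (hkey : ∀ n d : ℕ, 2 ≤ n → 2 ≤ d → ∃ φ : LG.Formula (Fin n),
      ∀ (Γ : Type) [Group Γ], Group.FG Γ → ∀ y : Fin n → Γ,
      (φ.Realize y ↔ ∃ e : Dq (Fin n) d ≃* Γ, ∀ i, e (gens n d i) = y i)) :
    ∀ (n d m : ℕ)
      (μ₁ μ₂ : Fin m → (FreeGroup (Fin n) ⧸ derivedSeries (FreeGroup (Fin n)) d)),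
      (∀ φ : (FirstOrder.Language.mk (fun _ => Bool) (fun _ => Empty)).Formula (Fin m),
        (@FirstOrder.Language.Formula.Realize
            (FirstOrder.Language.mk (fun _ => Bool) (fun _ => Empty))
            (FreeGroup (Fin n) ⧸ derivedSeries (FreeGroup (Fin n)) d)
            ({ funMap := fun b xs => cond b (List.ofFn xs).prod ((List.ofFn xs).prod)⁻¹,
               RelMap := fun r _ => Empty.elim r } :
              (FirstOrder.Language.mk (fun _ => Bool) (fun _ => Empty)).Structure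
                (FreeGroup (Fin n) ⧸ derivedSeries (FreeGroup (Fin n)) d))
            (Fin m) φ μ₁ ↔
         @FirstOrder.Language.Formula.Realize
            (FirstOrder.Language.mk (fun _ => Bool) (fun _ => Empty))
            (FreeGroup (Fin n) ⧸ derivedSeries (FreeGroup (Fin n)) d)
            ({ funMap := fun b xs => cond b (List.ofFn xs).prod ((List.ofFn xs).prod)⁻¹,
               RelMap := fun r _ => Empty.elim r } :
              (FirstOrder.Language.mk (fun _ => Bool) (fun _ => Empty)).Structure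
                (FreeGroup (Fin n) ⧸ derivedSeries (FreeGroup (Fin n)) d))
            (Fin m) φ μ₂)) →
      ∃ σ : (FreeGroup (Fin n) ⧸ derivedSeries (FreeGroup (Fin n)) d) ≃*
            (FreeGroup (Fin n) ⧸ derivedSeries (FreeGroup (Fin n)) d),
        ∀ i, σ (μ₁ i) = μ₂ i := by
  intro n d m μ₁ μ₂ h
  have hsame : HOM.SameType μ₁ μ₂ := h
  -- trivial group
  by_cases hd0 : d = 0
  · subst hd0
    have : Subsingleton (FreeGroup (Fin n) ⧸ derivedSeries (FreeGroup (Fin n)) 0) := by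
      rw [derivedSeries_zero]
      exact QuotientGroup.subsingleton_quotient_top
    exact ⟨MulEquiv.refl _, fun i => Subsingleton.elim _ _⟩
  have hd1 : 1 ≤ d := Nat.one_le_iff_ne_zero.2 hd0
  -- abelian group
  by_cases hab : d = 1 ∨ n ≤ 1
  · have hds : derivedSeries (FreeGroup (Fin n)) d = derivedSeries (FreeGroup (Fin n)) 1 := by
      rcases hab with hab | hab
      · rw [hab]
      · apply HOM.derivedSeries_eq_one_of_comm _ hd1
        rcases Nat.le_one_iff_eq_zero_or_eq_one.1 hab with h0 | h0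
        · subst h0
          intro a b
          exact Subsingleton.elim _ _
        · subst h0
          intro a b
          apply (FreeGroup.mulEquivIntOfUnique (α := Fin 1)).injective
          rw [map_mul, map_mul, mul_comm]
    obtain ⟨e⟩ := HOM.ab_equiv n
    exact HOM.abelian_case ((QuotientGroup.quotientMulEquivOfEq hds).trans e) hsame
  · have hn2 : 2 ≤ n := by omega
    have hd2 : 2 ≤ d := by omega
    obtain ⟨φ, hφ⟩ := hkey n d hn2 hd2
    have hfg : Group.FG (Dq (Fin n) d) :=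
      Group.fg_of_surjective (QuotientGroup.mk'_surjective (derivedSeries (FreeGroup (Fin n)) d))
    have hx : Subgroup.closure (Set.range (gens n d)) = ⊤ := by
      have h1 : (FreeGroup.lift (gens n d)) = pn (Fin n) d := by
        ext i
        simp [gens]
      rw [← FreeGroup.range_lift_eq_closure, h1]
      exact MonoidHom.range_eq_top.2 (QuotientGroup.mk'_surjective _)
    exact HOM.key_case (gens n d) hx φ (fun y => hφ _ hfg y) hsame

end Pool.Agent.H577R3
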