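import Mathlib
import Pool.Agent.H577R3.Key3
import Pool.Agent.H577R3.Rich4
import Pool.Agent.H577R3.TaskGSEP
import Pool.Agent.H577R3.TaskGOOD
import Pool.Agent.H577R3.TaskHOM
import Pool.Agent.H54R3.TaskAFF

set_option autoImplicit false

/-! Consequences of richness for the free solvable groups of all classes. -/

namespace Pool.Agent.H577R3

open FirstOrder FirstOrder.Language Pool.Agent.Helper777.Prof

attribute [local instance] strG

theorem gsep_all (n : ℕ) (hn : 2 ≤ n) (d : ℕ) : ∃ L, GSep (Dq (Fin n) (d + 2)) L :=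
  gsep_of_aff n d (good_dq n d) (fun T hT => Pool.Agent.H54R3.Aff.aff_ex n d hn T hT)

theorem richAll (n : ℕ) (hn : 2 ≤ n) (d : ℕ) : Rich (gens n (d + 2)) :=
  rich_of_richQ ⟨0, by omega⟩ (gen_inj n (d + 1) _) (rich_all n hn (gsep_all n hn) d)

theorem key4 : ∀ n d : ℕ, 2 ≤ n → 2 ≤ d → ∃ φ : LG.Formula (Fin n), ∀ (Γ : Type) [Group Γ],
      Group.FG Γ → ∀ y : Fin n → Γ,
      (φ.Realize y ↔ ∃ e : Dq (Fin n) d ≃* Γ, ∀ i, e (gens n d i) = y i) := by
  intro n d hn hd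
  obtain ⟨d', rfl⟩ : ∃ d', d = d' + 2 := ⟨d - 2, by omega⟩
  exact key_dq n (d' + 1) hn (richAll n hn d')

theorem biAll (n d : ℕ) (hn : 2 ≤ n) : Bi.BiInterpNat (Dq (Fin n) (d + 2)) :=
  biInterp_of_rich (gens n (d + 2)) (gens_closure n (d + 2)) (richAll n hn d)
    (arithWP_dq n (d + 2))

end Pool.Agent.H577R3
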