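import Mathlib
import Pool.Agent.H577R3.Bi

set_option autoImplicit false

/-! Definable sets in direct products of two groups are finite unions of rectangles. -/

namespace Pool.Agent.H577R3.Prd

open FirstOrder FirstOrder.Language Pool.Agent.H577R3.Bi

variable {G A B : Type} [Group G] [Group A] [Group B] (p : G →* A) (q : G →* B)

/-- Finite unions of rectangles, in terms of finite colourings. -/
def RectP {β : Type} (P : (β → G) → Prop) : Prop :=
  ∃ (I J : Type) (_ : Finite I) (_ : Finite J) (a : (β → A) → I) (b : (β → B) → J)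
    (ρ : I → J → Prop), ∀ g, P g ↔ ρ (a (p ∘ g)) (b (q ∘ g))

variable {p q}

theorem RectP.iff {β : Type} {P Q : (β → G) → Prop} (h : ∀ g, P g ↔ Q g) (hP : RectP p q P) :
    RectP p q Q := by
  obtain ⟨I, J, hI, hJ, a, b, ρ, hρ⟩ := hP
  exact ⟨I, J, hI, hJ, a, b, ρ, fun g => (h g).symm.trans (hρ g)⟩

theorem RectP.bot {β : Type} : RectP p q (fun _ : β → G => False) :=
  ⟨Unit, Unit, inferInstance, inferInstance, fun _ => (), fun _ => (), fun _ _ => False,
    fun _ => Iff.rfl⟩

theorem RectP.imp {β : Type} {P Q : (β → G) → Prop} (hP : RectP p q P) (hQ : RectP p q Q) :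
    RectP p q (fun g => P g → Q g) := by
  obtain ⟨I, J, hI, hJ, a, b, ρ, hρ⟩ := hP
  obtain ⟨I', J', hI', hJ', a', b', ρ', hρ'⟩ := hQ
  refine ⟨I × I', J × J', inferInstance, inferInstance, fun u => (a u, a' u),
    fun u => (b u, b' u), fun i j => ρ i.1 j.1 → ρ' i.2 j.2, fun g => imp_congr (hρ g) (hρ' g)⟩

theorem RectP.not {β : Type} {P : (β → G) → Prop} (hP : RectP p q P) :
    RectP p q (fun g => ¬ P g) := hP.imp RectP.bot

theorem RectP.and {β : Type} {P Q : (β → G) → Prop} (hP : RectP p q P) (hQ : RectP p q Q) :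
    RectP p q (fun g => P g ∧ Q g) :=
  (hP.imp hQ.not).not.iff (fun g => by tauto)

theorem RectP.comp {β β' : Type} (σ : β' → β) {P : (β' → G) → Prop} (hP : RectP p q P) :
    RectP p q (fun g : β → G => P (g ∘ σ)) := by
  obtain ⟨I, J, hI, hJ, a, b, ρ, hρ⟩ := hP
  exact ⟨I, J, hI, hJ, fun u => a (u ∘ σ), fun u => b (u ∘ σ), ρ, fun g => hρ _⟩

theorem RectP.all (hs : ∀ a b, ∃ g, p g = a ∧ q g = b) {β κ : Type} {P : (β ⊕ κ → G) → Prop}
    (hP : RectP p q P) : RectP p q (fun g : β → G => ∀ x : κ → G, P (Sum.elim g x)) := by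
  obtain ⟨I, J, hI, hJ, a, b, ρ, hρ⟩ := hP
  refine ⟨Set I, Set J, inferInstance, inferInstance,
    fun u => {i | ∃ x, a (Sum.elim u x) = i}, fun u => {i | ∃ x, b (Sum.elim u x) = i},
    fun s t => ∀ i ∈ s, ∀ j ∈ t, ρ i j, fun g => ?_⟩
  constructor
  · rintro h _ ⟨x1, rfl⟩ _ ⟨x2, rfl⟩
    choose x hx using fun k => hs (x1 k) (x2 k)
    have h1 := (hρ _).1 (h x)
    have e1 : p ∘ Sum.elim g x = Sum.elim (p ∘ g) x1 := by
      funext s; rcases s with s | s
      · rfl
      · exact (hx s).1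
    have e2 : q ∘ Sum.elim g x = Sum.elim (q ∘ g) x2 := by
      funext s; rcases s with s | s
      · rfl
      · exact (hx s).2
    rwa [e1, e2] at h1
  · intro h x
    rw [hρ]
    refine h _ ⟨p ∘ x, ?_⟩ _ ⟨q ∘ x, ?_⟩
    · congr 1
      funext s; rcases s with s | s <;> rfl
    · congr 1
      funext s; rcases s with s | s <;> rfl

theorem RectP.ex (hs : ∀ a b, ∃ g, p g = a ∧ q g = b) {β κ : Type} {P : (β ⊕ κ → G) → Prop}
    (hP : RectP p q P) : RectP p q (fun g : β → G => ∃ x : κ → G, P (Sum.elim g x)) :=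
  (RectP.all hs hP.not).not.iff (fun g => by simp)

/-- substitution of constants for some of the variables -/
theorem RectP.subst {β κ : Type} {P : (β ⊕ κ → G) → Prop} (hP : RectP p q P) (c : κ → G) :
    RectP p q (fun g : β → G => P (Sum.elim g c)) := by
  obtain ⟨I, J, hI, hJ, a, b, ρ, hρ⟩ := hP
  refine ⟨I, J, hI, hJ, fun u => a (Sum.elim u (p ∘ c)), fun u => b (Sum.elim u (q ∘ c)), ρ,
    fun g => (hρ _).trans ?_⟩
  have e1 : p ∘ Sum.elim g c = Sum.elim (p ∘ g) (p ∘ c) := by
    funext s; rcases s with s | s <;> rfl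
  have e2 : q ∘ Sum.elim g c = Sum.elim (q ∘ g) (q ∘ c) := by
    funext s; rcases s with s | s <;> rfl
  rw [e1, e2]

attribute [local instance] grpStr

theorem term_proj {β : Type} (t : (Lgrp[[(Set.univ : Set G)]]).Term β) :
    ∃ (F1 : (β → A) → A) (F2 : (β → B) → B), ∀ g : β → G,
      p (t.realize g) = F1 (p ∘ g) ∧ q (t.realize g) = F2 (q ∘ g) := by
  induction t with
  | var b => exact ⟨fun u => u b, fun u => u b, fun g => ⟨rfl, rfl⟩⟩
  | @func l f ts ih =>
    choose F1 F2 hF using ih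
    rcases f with f | f
    · cases f with
      | one => exact ⟨fun _ => 1, fun _ => 1, fun g => ⟨p.map_one, q.map_one⟩⟩
      | inv =>
        refine ⟨fun u => (F1 0 u)⁻¹, fun u => (F2 0 u)⁻¹, fun g => ?_⟩
        have e : (Term.func (Sum.inl GFun.inv : (Lgrp[[(Set.univ : Set G)]]).Functions 1) ts).realize g
          = ((ts 0).realize g)⁻¹ := rfl
        constructor
        · erw [e, map_inv, (hF 0 g).1]
        · erw [e, map_inv, (hF 0 g).2]
      | mul =>
        refine ⟨fun u => F1 0 u * F1 1 u, fun u => F2 0 u * F2 1 u, fun g => ?_⟩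
        have e : (Term.func (Sum.inl GFun.mul : (Lgrp[[(Set.univ : Set G)]]).Functions 2) ts).realize g
          = (ts 0).realize g * (ts 1).realize g := rfl
        constructor
        · erw [e, map_mul, (hF 0 g).1, (hF 1 g).1]
        · erw [e, map_mul, (hF 0 g).2, (hF 1 g).2]
    · cases l with
      | zero =>
        refine ⟨fun _ => p (f : (Set.univ : Set G)), fun _ => q (f : (Set.univ : Set G)),
          fun g => ⟨?_, ?_⟩⟩ <;> rfl
      | succ l => exact isEmptyElim f

theorem rect_formula (hs : ∀ a b, ∃ g, p g = a ∧ q g = b)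
    (hi : ∀ g g', p g = p g' → q g = q g' → g = g') {α : Type} {n : ℕ}
    (φ : (Lgrp[[(Set.univ : Set G)]]).BoundedFormula α n) :
    RectP p q (fun g : α ⊕ Fin n → G => φ.Realize (g ∘ Sum.inl) (g ∘ Sum.inr)) := by
  induction φ with
  | falsum => exact RectP.bot
  | equal t₁ t₂ =>
    obtain ⟨F1, F2, hF⟩ := term_proj (p := p) (q := q) t₁
    obtain ⟨F1', F2', hF'⟩ := term_proj (p := p) (q := q) t₂
    refine ⟨Prop, Prop, inferInstance, inferInstance, fun u => F1 u = F1' u, fun u => F2 u = F2' u,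
      fun i j => i ∧ j, fun g => ?_⟩
    show (t₁.realize (Sum.elim (g ∘ Sum.inl) (g ∘ Sum.inr)) =
      t₂.realize (Sum.elim (g ∘ Sum.inl) (g ∘ Sum.inr))) ↔ _
    rw [Sum.elim_comp_inl_inr]
    constructor
    · intro h
      refine ⟨?_, ?_⟩
      · show F1 (p ∘ g) = F1' (p ∘ g)
        rw [← (hF g).1, ← (hF' g).1, h]
      · show F2 (q ∘ g) = F2' (q ∘ g)
        rw [← (hF g).2, ← (hF' g).2, h]
    · rintro ⟨h1, h2⟩
      refine hi _ _ ?_ ?_
      · rw [(hF g).1, (hF' g).1]
        exact h1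
      · rw [(hF g).2, (hF' g).2]
        exact h2
  | rel R ts =>
    rcases R with R | R
    · exact R.elim
    · exact isEmptyElim R
  | imp φ ψ ihφ ihψ => exact ihφ.imp ihψ
  | @all n φ ih =>
    let σ : α ⊕ Fin (n + 1) → (α ⊕ Fin n) ⊕ Unit := fun s => match s with
      | .inl a => .inl (.inl a)
      | .inr i => if h : i.1 < n then .inl (.inr ⟨i.1, h⟩) else .inr ()
    have h1 := RectP.all hs (RectP.comp σ ih)
    refine h1.iff (fun g => ?_)
    show _ ↔ ∀ a : G, φ.Realize (g ∘ Sum.inl) (Fin.snoc (g ∘ Sum.inr) a)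
    have e1 : ∀ x : Unit → G, (Sum.elim g x ∘ σ) ∘ Sum.inl = g ∘ Sum.inl := fun x => rfl
    have e2 : ∀ x : Unit → G, (Sum.elim g x ∘ σ) ∘ Sum.inr = Fin.snoc (g ∘ Sum.inr) (x ()) := by
      intro x
      funext i
      refine Fin.lastCases ?_ (fun j => ?_) i
      · simp [σ]
      · simp [σ]
    constructor
    · intro h a
      have h2 := h (fun _ => a)
      rw [e1, e2] at h2
      exact h2
    · intro h x
      rw [e1, e2]
      exact h (x ())

theorem rect_definable (hs : ∀ a b, ∃ g, p g = a ∧ q g = b)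
    (hi : ∀ g g', p g = p g' → q g = q g' → g = g') {α : Type} {S : Set (α → G)}
    (hS : (Set.univ : Set G).Definable Lgrp S) : RectP p q (fun g : α → G => g ∈ S) := by
  obtain ⟨φ, rfl⟩ := hS
  have h1 := rect_formula (p := p) (q := q) hs hi φ
  have h2 := RectP.subst (κ := Fin 0) h1 (fun i => i.elim0)
  refine h2.iff (fun g => ?_)
  have e : (Sum.elim g (fun i : Fin 0 => (i.elim0 : G))) ∘ Sum.inr = default :=
    Subsingleton.elim _ _
  show BoundedFormula.Realize φ ((Sum.elim g _) ∘ Sum.inl) ((Sum.elim g _) ∘ Sum.inr) ↔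
    BoundedFormula.Realize φ g default
  rw [e]
  exact Iff.rfl

end Pool.Agent.H577R3.Prd
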