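import Mathlib
import Pool.Agent.H577R3.Prod1
import Pool.Agent.Helper967.ArithDef

set_option autoImplicit false

/-! Direct products of two infinite groups are not bi-interpretable with arithmetic. -/

namespace Pool.Agent.H577R3.Prd

open FirstOrder FirstOrder.Language Pool.Agent.H577R3.Bi Pool.Agent.Helper967.ArithDef

section DCl

attribute [local instance] natStr

variable {D : ((ℕ → ℕ) → Prop) → Prop} (h : DC D)
include h

theorem dc_const (c : ℕ) : DT D (fun _ => c) := by
  induction c with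
  | zero => exact h.tzero
  | succ c ih => exact h.tadd ih h.tone

theorem dc_term {β : Type} (t : (Lnat[[(Set.univ : Set ℕ)]]).Term β) (ρ : β → ℕ) :
    DT D (fun w => t.realize (fun b => w (ρ b))) := by
  induction t with
  | var b => exact h.tvar _
  | @func l f ts ih =>
    rcases f with f | f
    · cases f with
      | zero => exact h.tzero
      | one => exact h.tone
      | add => exact h.tadd (ih 0) (ih 1)
      | mul => exact h.tmul (ih 0) (ih 1)
    · cases l with
      | zero => exact dc_const h (f : (Set.univ : Set ℕ))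
      | succ l => exact isEmptyElim f

theorem dc_formula {α : Type} {n : ℕ} (φ : (Lnat[[(Set.univ : Set ℕ)]]).BoundedFormula α n)
    (ρ : α ⊕ Fin n → ℕ) :
    D (fun w => φ.Realize (fun a => w (ρ (Sum.inl a))) (fun i => w (ρ (Sum.inr i)))) := by
  induction φ with
  | falsum => exact h.bot
  | equal t₁ t₂ =>
    refine h.iff (fun w => ?_) (h.eq (dc_term h t₁ ρ) (dc_term h t₂ ρ))
    have e : (fun b => w (ρ b)) =
        Sum.elim (fun a => w (ρ (Sum.inl a))) (fun i => w (ρ (Sum.inr i))) := by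
      funext s; rcases s with s | s <;> rfl
    rw [e]
    exact Iff.rfl
  | rel R ts =>
    rcases R with R | R
    · exact R.elim
    · exact isEmptyElim R
  | imp φ ψ ihφ ihψ => exact h.imp (ihφ ρ) (ihψ ρ)
  | @all n φ ih =>
    refine h.iff (fun w => ?_) (h.all (ih (fun s => match s with
      | .inl a => ρ (.inl a) + 1
      | .inr i => if h : i.1 < n then ρ (.inr ⟨i.1, h⟩) + 1 else 0)))
    show _ ↔ ∀ a : ℕ, φ.Realize _ (Fin.snoc _ a)
    refine forall_congr' fun a => ?_
    rw [iff_iff_eq]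
    congr 1
    funext i
    refine Fin.lastCases ?_ (fun j => ?_) i
    · simp
    · simp

theorem dc_definable {α : Type} {S : Set (α → ℕ)} (hS : (Set.univ : Set ℕ).Definable Lnat S)
    (ρ : α → ℕ) : D (fun w => (fun a => w (ρ a)) ∈ S) := by
  obtain ⟨φ, rfl⟩ := hS
  refine h.iff (fun w => ?_) (dc_formula h φ (Sum.elim ρ (fun i => i.elim0)))
  have e2 : ∀ d : Fin 0 → ℕ, BoundedFormula.Realize φ (fun a => w (ρ a)) d ↔
      Formula.Realize φ (fun a => w (ρ a)) := fun d => by
    unfold Formula.Realize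
    exact iff_of_eq (congrArg _ (Subsingleton.elim _ _))
  exact e2 _

end DCl

variable {G A B : Type} [Group G] [Group A] [Group B] {p : G →* A} {q : G →* B}

/-- Predicates on sequences of naturals whose pullback along `f` is a finite union of
rectangles. -/
def Pull (p : G →* A) (q : G →* B) {k : ℕ} (D₀ : Set (Fin k → G)) (f : (Fin k → G) → ℕ)
    (R : (ℕ → ℕ) → Prop) : Prop :=
  ∃ P : (ℕ × Fin k → G) → Prop, RectP p q P ∧
    ∀ w, (∀ j, row w j ∈ D₀) → (P w ↔ R (fun j => f (row w j)))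

attribute [local instance] grpStr natStr

theorem pull_dc (hs : ∀ a b, ∃ g, p g = a ∧ q g = b)
    (hi : ∀ g g', p g = p g' → q g = q g' → g = g') {k : ℕ} {D₀ : Set (Fin k → G)}
    {f : (Fin k → G) → ℕ} (hf : IsInterp Lgrp Lnat G ℕ D₀ f) : DC (Pull p q D₀ f) where
  add := by
    have h1 := rect_definable hs hi (hf.fn 2 NFun.add)
    refine ⟨_, RectP.comp (fun s : Fin 3 × Fin k => ((s.1 : ℕ), s.2)) h1, fun w hw => ?_⟩
    constructor
    · intro h
      exact h.2
    · intro h
      exact ⟨fun j => hw j, h⟩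
  mul := by
    have h1 := rect_definable hs hi (hf.fn 2 NFun.mul)
    refine ⟨_, RectP.comp (fun s : Fin 3 × Fin k => ((s.1 : ℕ), s.2)) h1, fun w hw => ?_⟩
    constructor
    · intro h
      exact h.2
    · intro h
      exact ⟨fun j => hw j, h⟩
  bot := ⟨_, RectP.bot, fun _ _ => Iff.rfl⟩
  imp := by
    rintro R S ⟨P, hP, h1⟩ ⟨Q, hQ, h2⟩
    exact ⟨_, hP.imp hQ, fun w hw => imp_congr (h1 w hw) (h2 w hw)⟩
  all := by
    rintro R ⟨P, hP, h1⟩
    have hD := rect_definable hs hi hf.dom
    let σ : ℕ × Fin k → (ℕ × Fin k) ⊕ Fin k := fun s => match s with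
      | (0, i) => .inr i
      | (n + 1, i) => .inl (n, i)
    refine ⟨_, RectP.all hs ((RectP.comp (fun i : Fin k => (Sum.inr i : (ℕ × Fin k) ⊕ Fin k))
      hD).imp (RectP.comp σ hP)), fun w hw => ?_⟩
    have e : ∀ x : Fin k → G, (fun j => f (row (Sum.elim w x ∘ σ) j)) =
        cns (f x) (fun j => f (row w j)) := by
      intro x
      funext j
      cases j with
      | zero => rfl
      | succ j => rfl
    constructor
    · intro h a
      obtain ⟨x, hx, rfl⟩ := hf.surj a
      rw [← e x]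
      refine (h1 _ ?_).1 (h x hx)
      intro j
      cases j with
      | zero => exact hx
      | succ j => exact hw j
    · intro h x hx
      have h2 := h (f x)
      rw [← e x] at h2
      refine (h1 _ ?_).2 h2
      intro j
      cases j with
      | zero => exact hx
      | succ j => exact hw j
  ren := by
    rintro R ρ ⟨P, hP, h1⟩
    refine ⟨_, RectP.comp (fun s : ℕ × Fin k => (ρ s.1, s.2)) hP, fun w hw => ?_⟩
    exact h1 _ (fun j => hw (ρ j))

theorem not_rect_le [Infinite A] [Infinite B] (hs : ∀ a b, ∃ g, p g = a ∧ q g = b)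
    (c : G → ℕ) (hc : ∀ M, {y | c y ≤ M}.Finite) :
    ¬ RectP p q (fun y : Fin 2 → G => c (y 0) ≤ c (y 1)) := by
  rintro ⟨I, J, hI, hJ, a', b', ρ, hρ⟩
  choose s1 hs1 using fun a => hs a 1
  choose s2 hs2 using fun b => hs 1 b
  have hinj1 : Function.Injective s1 := fun a a' h => by
    rw [← (hs1 a).1, ← (hs1 a').1, h]
  have hinj2 : Function.Injective s2 := fun a a' h => by
    rw [← (hs2 a).2, ← (hs2 a').2, h]
  have key : ∀ a b, c (s1 a) ≤ c (s2 b) ↔ ρ (a' ![a, 1]) (b' ![1, b]) := by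
    intro a b
    have h := hρ ![s1 a, s2 b]
    have e1 : p ∘ ![s1 a, s2 b] = ![a, 1] := by
      funext i; fin_cases i
      · exact (hs1 a).1
      · exact (hs2 b).1
    have e2 : q ∘ ![s1 a, s2 b] = ![1, b] := by
      funext i; fin_cases i
      · exact (hs1 a).2
      · exact (hs2 b).2
    rw [e1, e2] at h
    exact h
  obtain ⟨i, hinf⟩ := Finite.exists_infinite_fiber (fun a => a' ![a, 1])
  have hinf' : ((fun a => a' ![a, 1]) ⁻¹' {i}).Infinite := Set.infinite_coe_iff.1 hinf
  obtain ⟨a0, ha0⟩ := hinf'.nonempty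
  have hex : ∃ b, c (s1 a0) < c (s2 b) := by
    by_contra hcon
    push Not at hcon
    have : (Set.range s2).Finite := (hc (c (s1 a0))).subset (by
      rintro _ ⟨b, rfl⟩; exact hcon b)
    exact Set.infinite_range_of_injective hinj2 this
  obtain ⟨b, hb⟩ := hex
  have hex2 : ∃ a ∈ ((fun a => a' ![a, 1]) ⁻¹' {i}), c (s2 b) < c (s1 a) := by
    by_contra hcon
    push Not at hcon
    have : (s1 '' ((fun a => a' ![a, 1]) ⁻¹' {i})).Finite := (hc (c (s2 b))).subset (by
      rintro _ ⟨a, ha, rfl⟩; exact hcon a ha)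
    exact (hinf'.image hinj1.injOn) this
  obtain ⟨a1, ha1, hlt⟩ := hex2
  have h1 := (key a0 b).1 hb.le
  have h2 : ¬ c (s1 a1) ≤ c (s2 b) := not_le.2 hlt
  rw [key] at h2
  have e0 : a' ![a0, 1] = i := ha0
  have e1 : a' ![a1, 1] = i := ha1
  rw [e0] at h1
  rw [e1] at h2
  exact h2 h1

/-- A group which is the direct product of two infinite groups is not bi-interpretable with
arithmetic. -/
theorem not_biInterpNat [Infinite A] [Infinite B] (hs : ∀ a b, ∃ g, p g = a ∧ q g = b)
    (hi : ∀ g g', p g = p g' → q g = q g' → g = g') : ¬ BiInterpNat G := by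
  rintro ⟨k, D₀, f, m, E, g, hf, hg, hG, -⟩
  classical
  have hDC := pull_dc hs hi hf
  have hΓ := rect_definable hs hi hG
  -- the comparison of sums
  have hsum : ∀ (o : ℕ) (l : ℕ), DT (Pull p q D₀ f)
      (fun w => ∑ j ∈ Finset.range l, w (o + j)) := by
    intro o l
    induction l with
    | zero => simpa using hDC.tzero
    | succ l ih =>
      have := hDC.tadd ih (hDC.tvar (o + l))
      simpa [Finset.sum_range_succ] using this
  obtain ⟨P, hP, hP'⟩ := hDC.le (hsum 0 m) (hsum m m)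
  obtain ⟨d₀, hd₀, -⟩ := hf.surj 0
  let σ : ℕ × Fin k → ((Fin m × Fin k) ⊕ (Fin m × Fin k)) ⊕ Fin k := fun s =>
    if h : s.1 < m then .inl (.inl (⟨s.1, h⟩, s.2))
    else if h : s.1 - m < m then .inl (.inr (⟨s.1 - m, h⟩, s.2)) else .inr s.2
  have hP2 : RectP p q (fun w : (Fin m × Fin k) ⊕ (Fin m × Fin k) → G =>
      P (Sum.elim w d₀ ∘ σ)) := RectP.subst (RectP.comp σ hP) d₀
  have hP3 : ∀ w w' : Fin m × Fin k → G, (∀ j, row w j ∈ D₀) → (∀ j, row w' j ∈ D₀) →
      (P (Sum.elim (Sum.elim w w') d₀ ∘ σ) ↔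
        ∑ j, f (row w j) ≤ ∑ j, f (row w' j)) := by
    intro w w' hw hw'
    rw [hP']
    · have e1 : ∀ j : ℕ, ∀ h : j < m,
          row (Sum.elim (Sum.elim w w') d₀ ∘ σ) j = row w ⟨j, h⟩ := by
        intro j h
        funext i
        simp [row, σ, h]
      have e2 : ∀ j : ℕ, ∀ h : j < m,
          row (Sum.elim (Sum.elim w w') d₀ ∘ σ) (m + j) = row w' ⟨j, h⟩ := by
        intro j h
        funext i
        simp [row, σ, h]
      beta_reduce
      rw [Finset.sum_range, Finset.sum_range]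
      have s1 : ∑ j : Fin m, f (row (Sum.elim (Sum.elim w w') d₀ ∘ σ) (0 + (j : ℕ))) =
          ∑ j, f (row w j) := Finset.sum_congr rfl fun j _ => by
        rw [zero_add, e1 j j.2]
      have s2 : ∑ j : Fin m, f (row (Sum.elim (Sum.elim w w') d₀ ∘ σ) (m + (j : ℕ))) =
          ∑ j, f (row w' j) := Finset.sum_congr rfl fun j _ => by
        rw [e2 j j.2]
      rw [s1, s2]
    · intro j
      by_cases h : j < m
      · have : row (Sum.elim (Sum.elim w w') d₀ ∘ σ) j = row w ⟨j, h⟩ := by
          funext i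
          simp [row, σ, h]
        rw [this]; exact hw _
      · by_cases h' : j - m < m
        · have : row (Sum.elim (Sum.elim w w') d₀ ∘ σ) j = row w' ⟨j - m, h'⟩ := by
            funext i
            simp [row, σ, h, h']
          rw [this]; exact hw' _
        · have : row (Sum.elim (Sum.elim w w') d₀ ∘ σ) j = d₀ := by
            funext i
            simp [row, σ, h, h']
          rw [this]; exact hd₀
  -- the graph
  let gr : (Fin m × Fin k → G) → G → Prop := fun w y =>
    Sum.elim w (fun _ : Unit => y) ∈ compGraph D₀ f E g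
  have hgr : ∀ w y, gr w y ↔ (∀ j, row w j ∈ D₀) ∧ (fun j => f (row w j)) ∈ E ∧
      g (fun j => f (row w j)) = y := fun w y => Iff.rfl
  have hex : ∀ x ∈ E, ∃ w, gr w (g x) ∧ ∀ j, f (row w j) = x j := by
    intro x hx
    choose r hr using fun j => hf.surj (x j)
    refine ⟨fun s => r s.1 s.2, ?_, fun j => (hr j).2⟩
    rw [hgr]
    have e : (fun j => f (row (fun s : Fin m × Fin k => r s.1 s.2) j)) = x := funext fun j => (hr j).2
    rw [e]
    exact ⟨fun j => (hr j).1, hx, rfl⟩
  let H : (Fin 2 → G) → Prop := fun y => ∃ w, gr w (y 0) ∧ ∀ w', gr w' (y 1) →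
    P (Sum.elim (Sum.elim w w') d₀ ∘ σ)
  have hH : RectP p q H := by
    let β1 := Fin 2 ⊕ (Fin m × Fin k)
    let β2 := β1 ⊕ (Fin m × Fin k)
    have r1 : RectP p q (fun w : β1 → G => Sum.elim (fun s => w (.inr s)) (fun _ : Unit => w (.inl 0)) ∈
        compGraph D₀ f E g) := by
      refine (RectP.comp (β := β1) (fun s : (Fin m × Fin k) ⊕ Unit => match s with
        | .inl s => (.inr s : β1)
        | .inr _ => .inl 0) hΓ).iff (fun w => ?_)
      rw [iff_iff_eq]
      congr 1
      funext s; rcases s with s | s <;> rfl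
    have r2 : RectP p q (fun w : β2 → G => Sum.elim (fun s => w (.inr s))
        (fun _ : Unit => w (.inl (.inl 1))) ∈ compGraph D₀ f E g) := by
      refine (RectP.comp (β := β2) (fun s : (Fin m × Fin k) ⊕ Unit => match s with
        | .inl s => (.inr s : β2)
        | .inr _ => .inl (.inl 1)) hΓ).iff (fun w => ?_)
      rw [iff_iff_eq]
      congr 1
      funext s; rcases s with s | s <;> rfl
    have r3 : RectP p q (fun w : β2 → G => P (Sum.elim (Sum.elim (fun s => w (.inl (.inr s)))
        (fun s => w (.inr s))) d₀ ∘ σ)) := by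
      refine (RectP.comp (β := β2) (fun s : (Fin m × Fin k) ⊕ (Fin m × Fin k) => match s with
        | .inl s => (.inl (.inr s) : β2)
        | .inr s => .inr s) hP2).iff (fun w => ?_)
      rw [iff_iff_eq]
      congr 2
      funext s; rcases s with (s | s) | s <;> rfl
    have r4 := RectP.all hs (r2.imp r3)
    exact (RectP.ex hs (r1.and r4)).iff (fun y => Iff.rfl)
  -- the complexity
  let c : G → ℕ := fun y => sInf {s | ∃ x ∈ E, g x = y ∧ ∑ j, x j = s}
  have hcne : ∀ y, {s | ∃ x ∈ E, g x = y ∧ ∑ j, x j = s}.Nonempty := by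
    intro y
    obtain ⟨x, hx, hy⟩ := hg.surj y
    exact ⟨_, x, hx, hy, rfl⟩
  have hcmem : ∀ y, ∃ x ∈ E, g x = y ∧ ∑ j, x j = c y := fun y => Nat.sInf_mem (hcne y)
  have hcle : ∀ x ∈ E, c (g x) ≤ ∑ j, x j := fun x hx => Nat.sInf_le ⟨x, hx, rfl, rfl⟩
  have hHc : ∀ y, H y ↔ c (y 0) ≤ c (y 1) := by
    intro y
    constructor
    · rintro ⟨w, hw, hall⟩
      obtain ⟨x, hx, hgx, hsx⟩ := hcmem (y 1)
      obtain ⟨w', hw', hx'⟩ := hex x hx
      rw [hgx] at hw'
      have h1 := hall w' hw'
      rw [hP3 w w' ((hgr _ _).1 hw).1 ((hgr _ _).1 hw').1] at h1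
      have h2 := hcle _ ((hgr _ _).1 hw).2.1
      rw [((hgr _ _).1 hw).2.2] at h2
      refine h2.trans (h1.trans ?_)
      rw [← hsx]
      exact le_of_eq (Finset.sum_congr rfl fun j _ => hx' j)
    · intro hle
      obtain ⟨x, hx, hgx, hsx⟩ := hcmem (y 0)
      obtain ⟨w, hw, hxw⟩ := hex x hx
      rw [hgx] at hw
      refine ⟨w, hw, fun w' hw' => ?_⟩
      rw [hP3 w w' ((hgr _ _).1 hw).1 ((hgr _ _).1 hw').1]
      have h2 := hcle _ ((hgr _ _).1 hw').2.1
      rw [((hgr _ _).1 hw').2.2] at h2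
      refine le_trans ?_ (hle.trans h2)
      rw [← hsx]
      exact le_of_eq (Finset.sum_congr rfl fun j _ => hxw j)
  refine not_rect_le hs c (fun M => ?_) (hH.iff hHc)
  have hfin : {x : Fin m → ℕ | ∀ j, x j ≤ M}.Finite :=
    (Set.finite_Iic (fun _ : Fin m => M)).subset (fun x hx j => hx j)
  refine (hfin.image g).subset ?_
  intro y hy
  obtain ⟨x, hx, hgx, hsx⟩ := hcmem y
  refine ⟨x, fun j => ?_, hgx⟩
  have h1 : x j ≤ ∑ j, x j := Finset.single_le_sum (fun _ _ => Nat.zero_le _) (Finset.mem_univ j)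
  have h2 : c y ≤ M := hy
  omega

end Pool.Agent.H577R3.Prd
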