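import Mathlib
import Pool.Agent.H577R3.Defs2
import Pool.Agent.H577R3.TaskWP
import Pool.Agent.H54R3.TaskMDQ

set_option autoImplicit false

/-! Finitely generated metabelian groups satisfy max-n, hence have arithmetical word problem
(helper116). -/

namespace Pool.Agent.H577R3

open Pool.Agent.Helper967.ArithDef Pool.Agent.Helper777.Prof Encodable

namespace RWP

section maxn

variable {M : Type} [Group M] {n k : ℕ} {π : M →* Zm n}

theorem zm_surj (g : Fin n → M) (h : ∀ i, π (g i) = zb i) : Function.Surjective π := by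
  intro v
  refine ⟨(List.ofFn fun i => g i ^ (Multiplicative.toAdd v i)).prod, ?_⟩
  rw [map_list_prod, List.map_ofFn, List.prod_ofFn]
  apply Multiplicative.toAdd.injective
  rw [toAdd_prod]
  have h1 : ∀ i, Multiplicative.toAdd ((π ∘ fun i => g i ^ (Multiplicative.toAdd v i)) i) =
      Pi.single i (Multiplicative.toAdd v i) := by
    intro i
    simp only [Function.comp_apply, map_zpow, h, toAdd_zpow, toAdd_ofAdd, zb]
    rw [← Pi.single_smul]
    simp
  rw [Finset.sum_congr rfl fun i _ => h1 i]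
  exact Finset.univ_sum_single (Multiplicative.toAdd v)

variable (D : MD π k)
include D

theorem mu_one : D.μ 1 = 0 := by
  have := D.mul 1 1 (map_one π) (map_one π)
  rw [mul_one] at this
  exact left_eq_add.1 this

theorem mu_inv {a : M} (ha : π a = 1) : D.μ a⁻¹ = - D.μ a := by
  have := D.mul a a⁻¹ ha (by rw [map_inv, ha, inv_one])
  rw [mul_inv_cancel, mu_one D] at this
  exact (neg_eq_of_add_eq_zero_right this.symm).symm

/-- the additive subgroup of a subgroup -/
def PA (N : Subgroup M) : AddSubgroup (Fin k → MonoidAlgebra ℤ (Zm n)) where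
  carrier := {y | ∃ a ∈ N, π a = 1 ∧ D.μ a = y}
  zero_mem' := ⟨1, one_mem N, map_one π, mu_one D⟩
  add_mem' := by
    rintro _ _ ⟨a, ha, ha1, rfl⟩ ⟨b, hb, hb1, rfl⟩
    exact ⟨a * b, mul_mem ha hb, by rw [map_mul, ha1, hb1, one_mul], D.mul a b ha1 hb1⟩
  neg_mem' := by
    rintro _ ⟨a, ha, ha1, rfl⟩
    exact ⟨a⁻¹, inv_mem ha, by rw [map_inv, ha1, inv_one], mu_inv D ha1⟩

/-- the submodule of a normal subgroup -/
def PS (hπ : Function.Surjective π) (N : Subgroup M) (hN : N.Normal) :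
    Submodule (MonoidAlgebra ℤ (Zm n)) (Fin k → MonoidAlgebra ℤ (Zm n)) :=
  { PA D N with
    smul_mem' := by
      intro c y hy
      change y ∈ PA D N at hy
      change c • y ∈ PA D N
      induction c using MonoidAlgebra.induction_on with
      | of m =>
        obtain ⟨a, ha, ha1, rfl⟩ := hy
        obtain ⟨g, rfl⟩ := hπ m
        refine ⟨g * a * g⁻¹, hN.conj_mem a ha g, ?_, D.conj g a ha1⟩
        rw [map_mul, map_mul, ha1, mul_one, map_inv, mul_inv_cancel]
      | add x z hx hz => rw [add_smul]; exact add_mem hx hz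
      | smul r x hx => rw [smul_assoc]; exact AddSubgroup.zsmul_mem _ hx r }

theorem mem_PS (hπ : Function.Surjective π) (N : Subgroup M) (hN : N.Normal)
    (y : Fin k → MonoidAlgebra ℤ (Zm n)) :
    y ∈ PS D hπ N hN ↔ ∃ a ∈ N, π a = 1 ∧ D.μ a = y := Iff.rfl

/-- normal subgroups are finitely generated as normal subgroups -/
theorem maxn (hπ : Function.Surjective π) (N : Subgroup M) (hN : N.Normal) :
    ∃ R : Finset M, (∀ r ∈ R, r ∈ N) ∧
      ∀ C : Subgroup M, C.Normal → (∀ r ∈ R, r ∈ C) → N ≤ C := by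
  classical
  have hfg : Monoid.FG (Zm n) := inferInstance
  have hnoeth : IsNoetherianRing (MonoidAlgebra ℤ (Zm n)) :=
    Algebra.FiniteType.isNoetherianRing ℤ _
  -- the kernel part
  obtain ⟨S, hS⟩ := (isNoetherian_def.1 (inferInstance :
    IsNoetherian (MonoidAlgebra ℤ (Zm n)) (Fin k → MonoidAlgebra ℤ (Zm n)))) (PS D hπ N hN)
  have hS1 : ∀ s : Fin k → MonoidAlgebra ℤ (Zm n), ∃ a : M, s ∈ S → (a ∈ N ∧ π a = 1 ∧ D.μ a = s) := by
    intro s
    by_cases hs : s ∈ S
    · have : s ∈ PS D hπ N hN := by rw [← hS]; exact Submodule.subset_span hs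
      obtain ⟨a, h1, h2, h3⟩ := (mem_PS D hπ N hN s).1 this
      exact ⟨a, fun _ => ⟨h1, h2, h3⟩⟩
    · exact ⟨1, fun h => absurd h hs⟩
  choose a ha using hS1
  -- the image part
  let Q : Subgroup M → Submodule ℤ (Fin n → ℤ) := fun N =>
    AddSubgroup.toIntSubmodule (Subgroup.toAddSubgroup' (N.map π))
  have hQ : ∀ (N : Subgroup M) (v : Fin n → ℤ), v ∈ Q N ↔ ∃ b ∈ N, π b = Multiplicative.ofAdd v := by
    intro N v
    rfl
  obtain ⟨T, hT⟩ := (isNoetherian_def.1 (inferInstance : IsNoetherian ℤ (Fin n → ℤ))) (Q N)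
  have hT1 : ∀ v : Fin n → ℤ, ∃ b : M, v ∈ T → (b ∈ N ∧ π b = Multiplicative.ofAdd v) := by
    intro v
    by_cases hv : v ∈ T
    · have : v ∈ Q N := by rw [← hT]; exact Submodule.subset_span hv
      obtain ⟨b, h1, h2⟩ := (hQ N v).1 this
      exact ⟨b, fun _ => ⟨h1, h2⟩⟩
    · exact ⟨1, fun h => absurd h hv⟩
  choose b hb using hT1
  refine ⟨S.image a ∪ T.image b, ?_, ?_⟩
  · intro r hr
    rcases Finset.mem_union.1 hr with hr | hr
    · obtain ⟨s, hs, rfl⟩ := Finset.mem_image.1 hr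
      exact (ha s hs).1
    · obtain ⟨s, hs, rfl⟩ := Finset.mem_image.1 hr
      exact (hb s hs).1
  · intro C hC hR
    have h1 : PS D hπ N hN ≤ PS D hπ C hC := by
      rw [← hS, Submodule.span_le]
      intro s hs
      refine (mem_PS D hπ C hC s).2 ⟨a s, ?_, (ha s hs).2⟩
      exact hR _ (Finset.mem_union_left _ (Finset.mem_image_of_mem a hs))
    have h2 : Q N ≤ Q (C ⊓ N) := by
      rw [← hT, Submodule.span_le]
      intro v hv
      refine (hQ (C ⊓ N) v).2 ⟨b v, ⟨?_, (hb v hv).1⟩, (hb v hv).2⟩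
      exact hR _ (Finset.mem_union_right _ (Finset.mem_image_of_mem b hv))
    -- the intersection `C ∩ N`
    have h3 : ∀ g ∈ N, π g = 1 → g ∈ C := by
      intro g hg hg1
      obtain ⟨c, hc, hc1, hc2⟩ := (mem_PS D hπ C hC _).1
        (h1 ((mem_PS D hπ N hN _).2 ⟨g, hg, hg1, rfl⟩))
      have h4 : g * c⁻¹ = 1 := by
        apply D.inj
        · rw [map_mul, map_inv, hg1, hc1, inv_one, one_mul]
        · rw [D.mul _ _ hg1 (by rw [map_inv, hc1, inv_one]), mu_inv D hc1, hc2, add_neg_cancel]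
      rw [mul_inv_eq_one.1 h4]
      exact hc
    intro g hg
    obtain ⟨c, ⟨hc, hcN⟩, hc2⟩ := (hQ (C ⊓ N) _).1
      (h2 ((hQ N (Multiplicative.toAdd (π g))).2 ⟨g, hg, rfl⟩))
    have h4 : g * c⁻¹ ∈ C := by
      apply h3 _ (mul_mem hg (inv_mem hcN))
      rw [map_mul, map_inv, hc2, ofAdd_toAdd, mul_inv_cancel]
    have h5 := mul_mem h4 hc
    rwa [inv_mul_cancel_right] at h5

end maxn

/-! ### the words -/

/-- the piece of a certificate: a conjugate of a relator or of its inverse -/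
def pc {n : ℕ} (rs : List (WP.W n)) (p : (WP.W n × ℕ) × Bool) : WP.W n :=
  p.1.1 ++ ((cond p.2 (rs.getD p.1.2 []) (FreeGroup.invRev (rs.getD p.1.2 []))) ++
    FreeGroup.invRev p.1.1)

/-- the word of a certificate -/
def cw {n : ℕ} (rs : List (WP.W n)) (L : List ((WP.W n × ℕ) × Bool)) : WP.W n :=
  L.flatMap (pc rs)

theorem primrec_pc {n : ℕ} (rs : List (WP.W n)) : Primrec (pc rs) := by
  have h1 : Primrec (fun p : (WP.W n × ℕ) × Bool => p.1.1) := Primrec.fst.comp Primrec.fst
  have h2 : Primrec (fun p : (WP.W n × ℕ) × Bool => rs.getD p.1.2 []) :=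
    (Primrec.list_getD []).comp (Primrec.const rs) (Primrec.snd.comp Primrec.fst)
  exact Primrec.list_append.comp h1 (Primrec.list_append.comp
    (Primrec.cond Primrec.snd h2 ((WP.primrec_invRev n).comp h2)) ((WP.primrec_invRev n).comp h1))

theorem primrec_cw {n : ℕ} (rs : List (WP.W n)) : Primrec (cw rs) :=
  Primrec.list_flatMap Primrec.id ((primrec_pc rs).comp Primrec.snd)

theorem mk_pc {n : ℕ} (rs : List (WP.W n)) (p : (WP.W n × ℕ) × Bool) :
    FreeGroup.mk (pc rs p) = FreeGroup.mk p.1.1 *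
      (cond p.2 (FreeGroup.mk (rs.getD p.1.2 [])) (FreeGroup.mk (rs.getD p.1.2 []))⁻¹) *
      (FreeGroup.mk p.1.1)⁻¹ := by
  unfold pc
  rw [← FreeGroup.mul_mk, ← FreeGroup.mul_mk, ← FreeGroup.inv_mk, mul_assoc]
  cases p.2
  · simp only [cond_false, FreeGroup.inv_mk]
  · simp only [cond_true]

theorem mk_cw_nil {n : ℕ} (rs : List (WP.W n)) : FreeGroup.mk (cw rs []) = 1 := rfl

theorem mk_cw_cons {n : ℕ} (rs : List (WP.W n)) (p : (WP.W n × ℕ) × Bool)
    (L : List ((WP.W n × ℕ) × Bool)) :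
    FreeGroup.mk (cw rs (p :: L)) = FreeGroup.mk (pc rs p) * FreeGroup.mk (cw rs L) := by
  unfold cw
  rw [List.flatMap_cons, ← FreeGroup.mul_mk]

end RWP

/-- TASK RIGWP -/
theorem rig_wp {n : ℕ} (G : Type) [Group G] (x : Fin n → G)
    (hx : Subgroup.closure (Set.range x) = ⊤) (hG : derivedSeries G 2 = ⊥) : ArithWP x := by
  classical
  -- the induced map
  have hker : derivedSeries (FreeGroup (Fin n)) 2 ≤ (FreeGroup.lift x).ker := by
    intro g hg
    rw [MonoidHom.mem_ker]
    have h1 : FreeGroup.lift x g ∈ derivedSeries G 2 :=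
      map_derivedSeries_le_derivedSeries (FreeGroup.lift x) 2 ⟨g, hg, rfl⟩
    rw [hG] at h1
    exact Subgroup.mem_bot.1 h1
  let φ : Dq (Fin n) 2 →* G := QuotientGroup.lift _ (FreeGroup.lift x) hker
  have hφ : ∀ g, φ (pn (Fin n) 2 g) = FreeGroup.lift x g := fun g => rfl
  obtain ⟨π, hπ, ⟨D⟩⟩ := Pool.Agent.H54R3.MDQ.md_zm n
  have hsurj : Function.Surjective π := RWP.zm_surj (gens n 2) hπ
  obtain ⟨R, hR1, hR2⟩ := RWP.maxn D hsurj φ.ker inferInstance
  -- words of the relators
  have hlist : ∃ rs : List (WP.W n), ∀ g : Dq (Fin n) 2, g ∈ R ↔ ∃ i, i < rs.length ∧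
      g = pn (Fin n) 2 (FreeGroup.mk (rs.getD i [])) := by
    have hw : ∀ g : Dq (Fin n) 2, ∃ l : WP.W n, pn (Fin n) 2 (FreeGroup.mk l) = g := by
      intro g
      obtain ⟨f, rfl⟩ := QuotientGroup.mk'_surjective _ g
      exact ⟨f.toWord, by rw [FreeGroup.mk_toWord]; rfl⟩
    choose w hw using hw
    refine ⟨R.toList.map w, fun g => ?_⟩
    constructor
    · intro hg
      obtain ⟨i, hi, hgi⟩ := List.getElem_of_mem (Finset.mem_toList.2 hg)
      refine ⟨i, by rw [List.length_map]; exact hi, ?_⟩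
      rw [List.getD_eq_getElem _ _ (by rw [List.length_map]; exact hi), List.getElem_map, hgi, hw]
    · rintro ⟨i, hi, rfl⟩
      rw [List.length_map] at hi
      rw [List.getD_eq_getElem _ _ (by rw [List.length_map]; exact hi), List.getElem_map, hw]
      exact Finset.mem_toList.1 (List.getElem_mem hi)
  obtain ⟨rs, hrs⟩ := hlist
  -- relators are in the kernel
  have hrel : ∀ i, φ (pn (Fin n) 2 (FreeGroup.mk (rs.getD i []))) = 1 := by
    intro i
    by_cases hi : i < rs.length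
    · exact MonoidHom.mem_ker.1 (hR1 _ ((hrs _).2 ⟨i, hi, rfl⟩))
    · rw [List.getD_eq_default _ _ (not_lt.1 hi)]
      have : (FreeGroup.mk [] : FreeGroup (Fin n)) = 1 := FreeGroup.one_eq_mk.symm
      rw [this, map_one, map_one]
  have hcw : ∀ L, φ (pn (Fin n) 2 (FreeGroup.mk (RWP.cw rs L))) = 1 := by
    intro L
    induction L with
    | nil => rw [RWP.mk_cw_nil, map_one, map_one]
    | cons p L ih =>
      rw [RWP.mk_cw_cons, map_mul, map_mul, ih, mul_one, RWP.mk_pc, map_mul, map_mul, map_mul,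
        map_mul, map_inv, map_inv]
      cases p.2
      · rw [cond_false, map_inv, map_inv, hrel, inv_one, mul_one, mul_inv_cancel]
      · rw [cond_true, hrel, mul_one, mul_inv_cancel]
  have hcert : ∀ g : Dq (Fin n) 2, φ g = 1 → ∃ L, g = pn (Fin n) 2 (FreeGroup.mk (RWP.cw rs L)) := by
    intro g hg
    have h1 : g ∈ Subgroup.normalClosure (R : Set (Dq (Fin n) 2)) :=
      hR2 _ inferInstance (fun r hr => Subgroup.subset_normalClosure hr) (MonoidHom.mem_ker.2 hg)
    unfold Subgroup.normalClosure at h1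
    rw [← Subgroup.mem_toSubmonoid, Subgroup.closure_toSubmonoid] at h1
    obtain ⟨l, hl, rfl⟩ := Submonoid.exists_list_of_mem_closure h1
    clear h1 hg
    induction l with
    | nil => exact ⟨[], by rw [RWP.mk_cw_nil, map_one]; rfl⟩
    | cons y l ih =>
      obtain ⟨L, hL⟩ := ih (fun z hz => hl z (List.mem_cons_of_mem _ hz))
      have hconj : ∀ z ∈ Group.conjugatesOfSet (R : Set (Dq (Fin n) 2)), ∃ (c : WP.W n) (i : ℕ),
          z = pn (Fin n) 2 (FreeGroup.mk c) * pn (Fin n) 2 (FreeGroup.mk (rs.getD i [])) *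
            (pn (Fin n) 2 (FreeGroup.mk c))⁻¹ := by
        intro z hz
        rw [Group.mem_conjugatesOfSet_iff] at hz
        obtain ⟨r, hr, hc⟩ := hz
        obtain ⟨c, hc⟩ := isConj_iff.1 hc
        obtain ⟨i, _, hi⟩ := (hrs r).1 hr
        obtain ⟨f, hf⟩ := QuotientGroup.mk'_surjective _ c
        refine ⟨f.toWord, i, ?_⟩
        rw [FreeGroup.mk_toWord, ← hi]
        change z = (QuotientGroup.mk' _) f * r * ((QuotientGroup.mk' _) f)⁻¹
        rw [hf]
        exact hc.symm
      have hy : ∃ p, y = pn (Fin n) 2 (FreeGroup.mk (RWP.pc rs p)) := by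
        rcases hl y List.mem_cons_self with h2 | h2
        · obtain ⟨c, i, hc⟩ := hconj y h2
          refine ⟨((c, i), true), ?_⟩
          rw [RWP.mk_pc, cond_true, map_mul, map_mul, map_inv]
          exact hc
        · obtain ⟨c, i, hc⟩ := hconj _ h2
          refine ⟨((c, i), false), ?_⟩
          rw [RWP.mk_pc, cond_false, map_mul, map_mul, map_inv, map_inv]
          rw [← inv_inj, hc]
          group
      obtain ⟨p, hp⟩ := hy
      refine ⟨p :: L, ?_⟩
      rw [RWP.mk_cw_cons, map_mul, ← hp, ← hL, List.prod_cons]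
  intro D' h
  have hev : ∀ l : WP.W n, ev (gens n 2) l = pn (Fin n) 2 (FreeGroup.mk l) := by
    intro l
    have : FreeGroup.lift (gens n 2) = pn (Fin n) 2 := by
      ext i
      simp [gens]
    unfold ev
    rw [this]
  let f : WP.W n × List ((WP.W n × ℕ) × Bool) → WP.W n :=
    fun p => p.1 ++ FreeGroup.invRev (RWP.cw rs p.2)
  have hf : Primrec f := Primrec.list_append.comp Primrec.fst
    ((WP.primrec_invRev n).comp ((RWP.primrec_cw rs).comp Primrec.snd))
  have hg := WP.fn_graph h f hf.to_comp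
  have hd := arithWP_dq n 2 D' h
  refine h.iff (fun w => ?_) (h.ex' (S := fun c w => ∃ e,
    (∃ p : WP.W n × List ((WP.W n × ℕ) × Bool), Nat.pair (w 0) c = encode p ∧ e = encode (f p)) ∧
    (∃ l : WP.W n, e = encode l ∧ ev (gens n 2) l = 1)) ?_)
  · constructor
    · rintro ⟨c, e, ⟨⟨l, L⟩, hp, he⟩, ⟨l', hl', h1⟩⟩
      have hp' : Nat.pair (w 0) c = Nat.pair (encode l) (encode L) := hp
      rw [Nat.pair_eq_pair] at hp'
      refine ⟨l, hp'.1, ?_⟩
      rw [he] at hl'
      obtain rfl := encode_injective hl'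
      rw [hev] at h1
      have h2 : FreeGroup.mk (f (l, L)) = FreeGroup.mk l * (FreeGroup.mk (RWP.cw rs L))⁻¹ := by
        simp only [f]
        rw [← FreeGroup.mul_mk, FreeGroup.inv_mk]
      rw [h2, map_mul, map_inv, mul_inv_eq_one] at h1
      have h3 := hcw L
      rw [← h1, hφ] at h3
      exact h3
    · rintro ⟨l, hl, h1⟩
      obtain ⟨L, hL⟩ := hcert (pn (Fin n) 2 (FreeGroup.mk l)) (by rw [hφ]; exact h1)
      refine ⟨encode L, encode (f (l, L)), ⟨(l, L), by rw [hl]; rfl, rfl⟩, ⟨_, rfl, ?_⟩⟩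
      have h2 : FreeGroup.mk (f (l, L)) = FreeGroup.mk l * (FreeGroup.mk (RWP.cw rs L))⁻¹ := by
        simp only [f]
        rw [← FreeGroup.mul_mk, FreeGroup.inv_mk]
      rw [hev, h2, map_mul, map_inv, hL, mul_inv_cancel]
  · refine h.ex' (S := fun e w =>
      (∃ p : WP.W n × List ((WP.W n × ℕ) × Bool), Nat.pair (w 1) (w 0) = encode p ∧
        e = encode (f p)) ∧ (∃ l : WP.W n, e = encode l ∧ ev (gens n 2) l = 1)) (h.and ?_ ?_)
    · exact h.app2 (R := fun a y => ∃ p : WP.W n × List ((WP.W n × ℕ) × Bool), a = encode p ∧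
        y = encode (f p)) hg (h.tpair (h.tvar 2) (h.tvar 1)) (h.tvar 0)
    · exact hd

end Pool.Agent.H577R3
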