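import Mathlib
import Pool.Agent.H577R3.Rich3
import Pool.Agent.H577R3.TaskBI
import Pool.Agent.H577R3.TaskRIGWP
import Pool.Agent.H54R3.TaskRIG

set_option autoImplicit false

/-! Finitely generated rigid metabelian groups are bi-interpretable with arithmetic. -/

namespace Pool.Agent.H577R3

theorem rig_rich {G : Type} [Group G] {n m k : ℕ} {x : Fin n → G} {π : G →* Zm m} (M : MD π k)
    (hm : 0 < m) (hπ : Function.Surjective π) (hx : Subgroup.closure (Set.range x) = ⊤)
    (hne : ∃ a, π a = 1 ∧ a ≠ 1) (hW : ArithWP x) : Rich x := by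
  obtain ⟨L, hL⟩ := Pool.Agent.H54R3.Sep.sep_zm m hm
  have hker := M.ker_def x hne
  have hR := richQ_base M hπ hker hx hne ⟨0, hm⟩
  -- a generator of infinite order modulo the kernel
  have hi : ∃ i, π (x i) ≠ 1 := by
    by_contra hcon
    push Not at hcon
    have h1 : Subgroup.closure (Set.range x) ≤ π.ker := by
      rw [Subgroup.closure_le]
      rintro _ ⟨i, rfl⟩
      exact hcon i
    rw [hx] at h1
    obtain ⟨g, hg⟩ := hπ (zb ⟨0, hm⟩)
    have h2 : π g = 1 := h1 (Subgroup.mem_top g)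
    rw [hg] at h2
    have := congrArg (fun z : Zm m => Multiplicative.toAdd z ⟨0, hm⟩) h2
    simp at this
  obtain ⟨i, hi⟩ := hi
  have hord : ∀ j : ℕ, 0 < j → π (x i) ^ j ≠ 1 := fun j hj => tf_of_nzd _ _ hi j hj
  refine rich_of_richQ i ?_ (RichQ.step M hπ hne hx i hord hL (tf_of_nzd _)
    (fun v => src_solvable _ (solvable_zm m) k v) hW
    (List.cons (List.cons (i, true) List.nil) List.nil) ?_ ?_ hR)
  · intro a b hab
    have h1 : ∀ a b : ℕ, a < b → (fun k : ℕ => x i ^ k) a ≠ (fun k : ℕ => x i ^ k) b := by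
      intro a b hlt h
      have h2 : x i ^ a = x i ^ b := h
      obtain ⟨c, rfl⟩ := Nat.exists_eq_add_of_lt hlt
      rw [add_assoc, pow_add, left_eq_mul] at h2
      apply hord (c + 1) (Nat.succ_pos c)
      rw [← map_pow, h2, map_one]
    rcases lt_trichotomy a b with h | h | h
    · exact absurd hab (h1 a b h)
    · exact h
    · exact absurd hab.symm (h1 b a h)
  · intro κ hκ
    rw [List.mem_singleton.1 hκ, ev_cons, ev_nil]
    simpa using hi
  · intro g
    show π (g * _ * g⁻¹ * _⁻¹) = 1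
    rw [map_mul, map_mul, map_mul, map_inv, map_inv]
    rw [mul_comm (π g), mul_inv_cancel_right, mul_inv_cancel]

theorem rig_metab {G : Type} [Group G] {m k : ℕ} {π : G →* Zm m} (M : MD π k) :
    derivedSeries G 2 = ⊥ := by
  have h1 : derivedSeries G 1 ≤ π.ker := by
    rw [derivedSeries_one]
    exact Abelianization.commutator_subset_ker _
  rw [eq_bot_iff, derivedSeries_succ, Subgroup.commutator_le]
  intro a ha b hb
  rw [Subgroup.mem_bot, commutatorElement_eq_one_iff_mul_comm]
  exact M.comm (h1 ha) (h1 hb)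

theorem rig_bi {G : Type} [Group G] {m k : ℕ} {π : G →* Zm m} (M : MD π k)
    (hm : 0 < m) (hπ : Function.Surjective π) (hfg : Group.FG G)
    (hne : ∃ a, π a = 1 ∧ a ≠ 1) : Bi.BiInterpNat G := by
  obtain ⟨n, x, hx⟩ : ∃ (n : ℕ) (x : Fin n → G), Subgroup.closure (Set.range x) = ⊤ := by
    obtain ⟨_, S, _, hS⟩ := Group.fg_iff'.1 hfg
    refine ⟨S.card, fun i => (S.equivFin.symm i).1, ?_⟩
    rw [← hS]
    congr 1
    ext g
    constructor
    · rintro ⟨i, rfl⟩
      exact (S.equivFin.symm i).2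
    · intro hg
      exact ⟨S.equivFin ⟨g, hg⟩, by simp⟩
  have hW := rig_wp G x hx (rig_metab M)
  exact biInterp_of_rich x hx (rig_rich M hm hπ hx hne hW) hW

end Pool.Agent.H577R3
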