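import Mathlib
import Pool.Agent.H577R3.Defs
import Pool.Agent.H577R3.TaskQFA

set_option autoImplicit false

namespace Pool.Agent.H577R3

open FirstOrder FirstOrder.Language Pool.Agent.Helper777.Prof

namespace FP

attribute [local instance] strG

/-- one function symbol of each arity -/
abbrev LP : FirstOrder.Language.{0, 0} := ⟨fun _ => Unit, fun _ => Empty⟩

/-- a group as a structure with all products -/
@[reducible] def strP (G : Type) [Group G] : LP.Structure G :=
  ⟨fun _ x => (List.ofFn x).prod, fun _ _ => False⟩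

def hom : LG →ᴸ LP where
  onFunction := fun _ _ => ()
  onRelation := fun _ r => r

attribute [local instance] strP

instance (G : Type) [Group G] : hom.IsExpansionOn G where
  map_onFunction := by
    intro k f xs
    rfl
  map_onRelation := by
    intro k r
    exact Empty.elim r

/-- group isomorphisms are isomorphisms of structures -/
def lequivP {G Γ : Type} [Group G] [Group Γ] (e : G ≃* Γ) : G ≃[LP] Γ where
  toEquiv := e.toEquiv
  map_fun' := by
    intro k f xs
    change e ((List.ofFn xs).prod) = (List.ofFn (e ∘ xs)).prod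
    rw [map_list_prod, List.map_ofFn]
  map_rel' := by
    intro k r
    exact Empty.elim r

theorem tevl {n : ℕ} (l : WP.W n) : QFA.UT (n := n) (fun m _ => ev m.y l) := by
  induction l with
  | nil => exact QFA.tev none
  | cons p l ih =>
    have : (fun (m : QFA.Mod n) (_ : ℕ → m.Γ) => ev m.y (p :: l)) =
        fun m _ => ev m.y (QFA.wd (some p)) * ev m.y l := by
      funext m v
      exact QFA.ev_append m.y [p] l
    rw [this]
    exact QFA.tmul (QFA.tev (some p)) ih

theorem prime_of_key {G : Type} [Group G] {n : ℕ} (x : Fin n → G)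
    (hx : Subgroup.closure (Set.range x) = ⊤) (φ : LG.Formula (Fin n))
    (hφ : ∀ y : Fin n → G, (φ.Realize y ↔ ∃ e : G ≃* G, ∀ i, e (x i) = y i))
    (N : Type) [LP.Structure N] (hN : N ⊨ LP.completeTheory G) : Nonempty (G ↪ₑ[LP] N) := by
  classical
  let φ' : LP.Formula (Fin n) := hom.onFormula φ
  have hφ' : ∀ y : Fin n → G, φ'.Realize y ↔ φ.Realize y := fun y => LHom.realize_onFormula hom φ
  have hT : ∀ σ : LP.Sentence, G ⊨ σ → N ⊨ σ := fun σ h => hN.realize_of_mem σ h
  -- the tuple in `N`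
  have h1 : ∃ y : Fin n → N, φ'.Realize y := by
    let χ : LP.Formula (Empty ⊕ Fin n) := φ'.relabel Sum.inr
    have h2 : G ⊨ (χ.iExs (Fin n) : LP.Sentence) := by
      refine Formula.realize_iExs.2 ⟨x, ?_⟩
      rw [Formula.realize_relabel]
      exact (hφ' x).2 ((hφ x).2 ⟨MulEquiv.refl _, fun _ => rfl⟩)
    obtain ⟨y, hy⟩ := Formula.realize_iExs.1 (hT _ h2)
    rw [Formula.realize_relabel] at hy
    exact ⟨y, hy⟩
  obtain ⟨y, hy⟩ := h1
  have h3 : ∀ ψ : LP.Formula (Fin n), ψ.Realize x → ψ.Realize y := by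
    intro ψ hψ
    let χ : LP.Formula (Empty ⊕ Fin n) := (φ'.imp ψ).relabel Sum.inr
    have h2 : G ⊨ (χ.iAlls (Fin n) : LP.Sentence) := by
      refine Formula.realize_iAlls.2 fun z => ?_
      rw [Formula.realize_relabel]
      change (φ'.imp ψ).Realize z
      rw [Formula.realize_imp]
      intro hz
      obtain ⟨e, he⟩ := (hφ z).1 ((hφ' z).1 hz)
      have h4 : z = (lequivP e) ∘ x := by
        funext j; exact (he j).symm
      rw [h4]
      exact (StrongHomClass.realize_formula (lequivP e) ψ).2 hψ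
    have h4 := Formula.realize_iAlls.1 (hT _ h2) y
    rw [Formula.realize_relabel] at h4
    have h5 : (φ'.imp ψ).Realize y := h4
    rw [Formula.realize_imp] at h5
    exact h5 hy
  have h4 : ∀ ψ : LP.Formula (Fin n), ψ.Realize y ↔ ψ.Realize x := by
    intro ψ
    constructor
    · intro h5
      by_contra h6
      have h7 := h3 ψ.not (by rw [Formula.realize_not]; exact h6)
      rw [Formula.realize_not] at h7
      exact h7 h5
    · exact h3 ψ
  -- formulas defining the elements of `G`
  have h5 : ∀ g : G, ∃ θ : LP.Formula (Fin n ⊕ Unit), ∀ z : Unit → G,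
      θ.Realize (Sum.elim x z) ↔ z () = g := by
    intro g
    obtain ⟨l, rfl⟩ := QFA.ev_surj x hx g
    obtain ⟨θ, hθ⟩ := tevl l
    refine ⟨hom.onFormula (θ.relabel (Sum.map id (fun _ => ()))), fun z => ?_⟩
    rw [LHom.realize_onFormula, Formula.realize_relabel]
    have h6 : (Sum.elim x z ∘ Sum.map id (fun _ => ()) : Fin n ⊕ ℕ → G) =
        Sum.elim x (fun _ => z ()) := by
      funext s; rcases s with s | s <;> rfl
    rw [h6]
    exact hθ (QFA.mG x) (fun _ => z ())
  choose θ hθ using h5
  have h6 : ∀ g : G, ∃! z : Unit → N, (θ g).Realize (Sum.elim y z) := by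
    intro g
    have h7 := (h4 ((θ g).iExsUnique Unit)).2 (Formula.realize_iExsUnique.2
      ⟨fun _ => g, (hθ g _).2 rfl, fun z hz => by
        funext u
        exact (hθ g z).1 hz⟩)
    exact Formula.realize_iExsUnique.1 h7
  choose f hf hf2 using h6
  refine ⟨⟨fun g => f g (), ?_⟩⟩
  intro k ψ g
  -- the formula
  let χ : LP.Formula (Fin n ⊕ Fin k) :=
    (Formula.iInf fun j => (θ (g j)).relabel (Sum.map id (fun _ => j))) ⊓ ψ.relabel Sum.inr
  have hχ : ∀ {M : Type} [LP.Structure M] (a : Fin n → M), (χ.iExs (Fin k)).Realize a ↔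
      ∃ z : Fin k → M, (∀ j, (θ (g j)).Realize (Sum.elim a (fun _ => z j))) ∧ ψ.Realize z := by
    intro M _ a
    rw [Formula.realize_iExs]
    refine exists_congr fun z => ?_
    rw [Formula.realize_inf, Formula.realize_iInf, Formula.realize_relabel]
    refine and_congr (forall_congr' fun j => ?_) Iff.rfl
    rw [Formula.realize_relabel]
    have h8 : (Sum.elim a z ∘ Sum.map id (fun _ => j) : Fin n ⊕ Unit → M) =
        Sum.elim a (fun _ => z j) := by
      funext s; rcases s with s | s <;> rfl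
    rw [h8]
  have h9 := h4 (χ.iExs (Fin k))
  rw [hχ, hχ] at h9
  constructor
  · intro h10
    obtain ⟨z, hz1, hz2⟩ := h9.1 ⟨fun j => f (g j) (), fun j => hf (g j), h10⟩
    have : z = g := by
      funext j
      exact (hθ (g j) (fun _ => z j)).1 (hz1 j)
    rwa [this] at hz2
  · intro h10
    obtain ⟨z, hz1, hz2⟩ := h9.2 ⟨g, fun j => (hθ (g j) _).2 rfl, h10⟩
    have : z = (fun g => f g ()) ∘ g := by
      funext j
      have := hf2 (g j) (fun _ => z j) (hz1 j)
      exact congrFun this ()
    rwa [this] at hz2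

end FP

attribute [local instance] strG in
/-- TASK FINPRIME -/
theorem S15321_of_key (hkey : ∀ n : ℕ, 2 ≤ n → ∃ φ : LG.Formula (Fin n), ∀ (Γ : Type) [Group Γ],
      Group.FG Γ → ∀ y : Fin n → Γ,
      (φ.Realize y ↔ ∃ e : Dq (Fin n) 3 ≃* Γ, ∀ i, e (gens n 3 i) = y i)) :
    ∀ (L : FirstOrder.Language.{0,0}), L = ⟨fun _ => Unit, fun _ => Empty⟩ →
    ∀ n : ℕ, 2 ≤ n →
    ∀ [S : L.Structure (FreeGroup (Fin n) ⧸ derivedSeries (FreeGroup (Fin n)) 3)],
      S = ⟨fun _ x => (List.ofFn x).prod, fun _ _ => False⟩ →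
    ∀ (N : Type) [L.Structure N],
      N ⊨ L.completeTheory (FreeGroup (Fin n) ⧸ derivedSeries (FreeGroup (Fin n)) 3) →
      Nonempty ((FreeGroup (Fin n) ⧸ derivedSeries (FreeGroup (Fin n)) 3) ↪ₑ[L] N) := by
  intro L hL n hn S hS N _ hN
  subst hL
  subst hS
  obtain ⟨φ, hφ⟩ := hkey n hn
  have hfg : Group.FG (Dq (Fin n) 3) :=
    Group.fg_of_surjective (QuotientGroup.mk'_surjective (derivedSeries (FreeGroup (Fin n)) 3))
  have hx : Subgroup.closure (Set.range (gens n 3)) = ⊤ := by
    have h1 : (FreeGroup.lift (gens n 3)) = pn (Fin n) 3 := by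
      ext i
      simp [gens]
    rw [← FreeGroup.range_lift_eq_closure, h1]
    exact MonoidHom.range_eq_top.2 (QuotientGroup.mk'_surjective _)
  exact FP.prime_of_key (gens n 3) hx φ (fun y => hφ _ hfg y) N hN

end Pool.Agent.H577R3
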