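import Mathlib
import Pool.Agent.H577R3.Defs

set_option autoImplicit false

namespace Pool.Agent.H577R3

open FirstOrder FirstOrder.Language Pool.Agent.Helper777.Prof

attribute [local instance] strG

/-- TASK FINQFA -/
theorem S14473_of_key (hkey : ∀ n : ℕ, 2 ≤ n → ∃ φ : LG.Formula (Fin n), ∀ (Γ : Type) [Group Γ],
      Group.FG Γ → ∀ y : Fin n → Γ,
      (φ.Realize y ↔ ∃ e : Dq (Fin n) 3 ≃* Γ, ∀ i, e (gens n 3 i) = y i)) :
    ∀ n : ℕ, 2 ≤ n →
      ∃ φ : FirstOrder.Language.Sentence
          (⟨fun k => if k = 2 then Unit else Empty, fun _ => Empty⟩ : FirstOrder.Language.{0, 0}),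
        @FirstOrder.Language.Sentence.Realize
            (⟨fun k => if k = 2 then Unit else Empty, fun _ => Empty⟩ : FirstOrder.Language.{0, 0})
            (FreeGroup (Fin n) ⧸ derivedSeries (FreeGroup (Fin n)) 3)
            { funMap := fun _ xs => (List.ofFn xs).prod, RelMap := fun _ _ => False }
            φ ∧
        ∀ (H : Type) [Group H], Group.FG H →
          @FirstOrder.Language.Sentence.Realize
              (⟨fun k => if k = 2 then Unit else Empty, fun _ => Empty⟩ : FirstOrder.Language.{0, 0})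
              H
              { funMap := fun _ xs => (List.ofFn xs).prod, RelMap := fun _ _ => False }
              φ →
            Nonempty (H ≃* (FreeGroup (Fin n) ⧸ derivedSeries (FreeGroup (Fin n)) 3)) := by
  intro n hn
  obtain ⟨φ, hφ⟩ := hkey n hn
  let χ : LG.Formula (Empty ⊕ Fin n) := φ.relabel Sum.inr
  let σ : LG.Sentence := χ.iExs (Fin n)
  have hσ : ∀ (Γ : Type) [Group Γ], (σ.Realize Γ ↔ ∃ y : Fin n → Γ, φ.Realize y) := by
    intro Γ _
    have h1 : σ.Realize Γ ↔ ∃ y : Fin n → Γ, χ.Realize (Sum.elim default y) :=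
      Formula.realize_iExs
    rw [h1]
    refine exists_congr fun y => ?_
    rw [Formula.realize_relabel]
    have : (Sum.elim (default : Empty → Γ) y) ∘ Sum.inr = y := rfl
    rw [this]
  refine ⟨σ, ?_, ?_⟩
  · refine (hσ (Dq (Fin n) 3)).2 ⟨gens n 3, ?_⟩
    refine (hφ (Dq (Fin n) 3) ?_ (gens n 3)).2 ⟨MulEquiv.refl _, fun _ => rfl⟩
    exact Group.fg_of_surjective (QuotientGroup.mk'_surjective (derivedSeries (FreeGroup (Fin n)) 3))
  · intro H _ hfg hH
    obtain ⟨y, hy⟩ := (hσ H).1 hH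
    obtain ⟨e, -⟩ := (hφ H hfg y).1 hy
    exact ⟨e.symm⟩

end Pool.Agent.H577R3
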